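import Pool.Agent.Lib.MP_651af7_nt.Cu.Plc

/-! Extension of homomorphisms to places. -/

namespace Pool.Agent.Lib.MP_651af7_nt.Cu

open MvPolynomial Av

set_option linter.unusedSectionVars false

variable {k Ω Ω' F K : Type} [Field k] [Field Ω] [Field Ω'] [Field F] [Field K] [Algebra k Ω]
  [Algebra k Ω'] [Algebra k F] [Algebra k K]

/-- First coordinate on a graph. -/
def chv1_l (Γ : Subalgebra k (Ω × Ω')) : Γ →+* Ω := (RingHom.fst Ω Ω').comp (algebraMap Γ _)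

/-- Second coordinate on a graph. -/
def chv1_r (Γ : Subalgebra k (Ω × Ω')) : Γ →+* Ω' := (RingHom.snd Ω Ω').comp (algebraMap Γ _)

theorem chv1_max (Γ₀ : Subalgebra k (Ω × Ω')) (h : ∀ b, (0, b) ∈ Γ₀ → b = 0) :
    ∃ Γ : Subalgebra k (Ω × Ω'), Γ₀ ≤ Γ ∧ (∀ a : Γ, chv1_l Γ a = 0 → chv1_r Γ a = 0) ∧
      ∀ x y, (∀ P : Polynomial Γ, P.eval₂ (chv1_l Γ) x = 0 → P.eval₂ (chv1_r Γ) y = 0) →
        (x, y) ∈ Γ := by
  obtain ⟨Γ, h0, hΓ⟩ := zorn_le_nonempty₀
    {Γ : Subalgebra k (Ω × Ω') | ∀ b, (0, b) ∈ Γ → b = 0} (fun c hc hch y hy => by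
      have : Nonempty c := ⟨⟨y, hy⟩⟩
      refine ⟨⨆ i : c, i.1, fun b hb => ?_, fun z hz => le_iSup (fun i : c => i.1) ⟨z, hz⟩⟩
      rw [← SetLike.mem_coe, Subalgebra.coe_iSup_of_directed hch.directed, Set.mem_iUnion] at hb
      obtain ⟨i, hi⟩ := hb
      exact hc i.2 b hi) Γ₀ h
  refine ⟨Γ, h0, fun a ha => hΓ.1 _ ?_, fun x y hxy => ?_⟩
  · rw [← ha]
    exact a.2
  · let e : Polynomial Γ →ₐ[k] Ω × Ω' := (Polynomial.aeval (x, y)).restrictScalars k
    have h1 : ∀ P, e P = (P.eval₂ (chv1_l Γ) x, P.eval₂ (chv1_r Γ) y) := fun P => Prod.ext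
      (Polynomial.hom_eval₂ P (algebraMap Γ _) (RingHom.fst Ω Ω') (x, y))
      (Polynomial.hom_eval₂ P (algebraMap Γ _) (RingHom.snd Ω Ω') (x, y))
    refine hΓ.2 (y := e.range) ?_ (fun a ha => ⟨Polynomial.C ⟨a, ha⟩, ?_⟩) ⟨Polynomial.X, ?_⟩
    · rintro b ⟨P, hP⟩
      obtain ⟨h2, h3⟩ := Prod.ext_iff.1 ((h1 P).symm.trans hP)
      exact h3.symm.trans (hxy P h2)
    · exact Polynomial.aeval_C _ _
    · exact Polynomial.aeval_X _

theorem chv1_inv {Γ : Subalgebra k (Ω × Ω')} (h0 : ∀ a : Γ, chv1_l Γ a = 0 → chv1_r Γ a = 0)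
    (h : ∀ x y, (∀ P : Polynomial Γ, P.eval₂ (chv1_l Γ) x = 0 → P.eval₂ (chv1_r Γ) y = 0) →
      (x, y) ∈ Γ) {a : Ω} {b : Ω'} (hab : (a, b) ∈ Γ) (hb : b ≠ 0) : (a⁻¹, b⁻¹) ∈ Γ := by
  have ha : a ≠ 0 := fun e => hb (h0 ⟨_, hab⟩ e)
  refine h _ _ fun P hP => ?_
  let := invertibleOfNonzero (inv_ne_zero ha)
  let := invertibleOfNonzero (inv_ne_zero hb)
  rw [← Polynomial.eval₂_reverse_eq_zero_iff, invOf_eq_inv, inv_inv] at hP ⊢
  exact (Polynomial.eval₂_at_apply (chv1_r Γ) ⟨_, hab⟩).trans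
    (h0 _ ((Polynomial.eval₂_at_apply (chv1_l Γ) ⟨_, hab⟩).symm.trans hP))

theorem chv1_root [IsAlgClosed Ω'] {S : Type} [CommRing S] (f : S →+* Ω')
    (hf : ∀ a, f a ≠ 0 → ∃ b, f b = (f a)⁻¹) (N : Ideal (Polynomial S))
    (hN : ∀ P ∈ N, P.map f ≠ 1) : ∃ y, ∀ P ∈ N, P.eval₂ f y = 0 := by
  let L : Subfield Ω' := { f.range with
    inv_mem' := by
      rintro _ ⟨a, rfl⟩
      by_cases h : f a = 0
      · exact ⟨0, by rw [h, inv_zero, map_zero]⟩
      · exact hf a h }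
  let f' : S →+* L := f.codRestrict L fun a => ⟨a, rfl⟩
  have hs : Function.Surjective (Polynomial.mapRingHom f') :=
    Polynomial.map_surjective f' fun ⟨_, a, ha⟩ => ⟨a, Subtype.ext ha⟩
  have he : L.subtype.comp f' = f := rfl
  obtain ⟨q, hq⟩ := (IsPrincipalIdealRing.principal (N.map (Polynomial.mapRingHom f'))).principal
  obtain ⟨y, hy⟩ := IsAlgClosed.exists_eval₂_eq_zero L.subtype q fun hd => by
    have h1 : (1 : Polynomial L) ∈ N.map (Polynomial.mapRingHom f') := by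
      rw [hq, Ideal.submodule_span_eq, Ideal.span_singleton_eq_top.2
        (Polynomial.isUnit_iff_degree_eq_zero.2 hd)]
      trivial
    obtain ⟨P, hP, e⟩ := (Ideal.mem_map_iff_of_surjective _ hs).1 h1
    refine hN P hP ?_
    rw [← he, ← Polynomial.map_map]
    exact (congrArg (Polynomial.map L.subtype) e).trans (Polynomial.map_one _)
  refine ⟨y, fun P hP => ?_⟩
  have h1 := Ideal.mem_map_of_mem (Polynomial.mapRingHom f') hP
  rw [hq, Ideal.submodule_span_eq, Ideal.mem_span_singleton] at h1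
  obtain ⟨r, hr⟩ := h1
  rw [← he, ← Polynomial.eval₂_map, show P.map f' = q * r from hr, Polynomial.eval₂_mul, hy,
    zero_mul]

/-- Zorn's lemma for subalgebras `Γ` of `Ω × Ω'` with `(0, b) ∈ Γ → b = 0` that contain the image
of `(g, φ)`. Let `S` be the first projection of a maximal `Γ`, `ψ : S → Ω'` the map with graph `Γ`.
If `ψ a ≠ 0` then `a⁻¹ ∈ S`. Take a valuation ring `V` with `S ≤ V` and `ker ψ` in the non-units
(`Ideal.image_subset_nonunits_valuationSubring`). For `x ∈ V` the kernel of `S[X] → S[x]` is mapped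
by `ψ` into a proper ideal of `Ω'[X]` (or: of `L[X]`, `L` the field `ψ S`), so it has a zero in
`Ω'` and `ψ` extends to `S[x]`; hence `S = V`. -/
theorem chevalley [IsAlgClosed Ω'] {R : Type} [CommRing R] [Algebra k R] (g : R →ₐ[k] Ω)
    (φ : R →ₐ[k] Ω') (h : ∀ r, g r = 0 → φ r = 0) :
    ∃ σ : Plc k Ω Ω', ∀ r, g r ∈ σ.V ∧ σ.π (g r) = φ r := by
  classical
  obtain ⟨Γ, h1, h0, hx⟩ := chv1_max (g.prod φ).range (by
    rintro b ⟨r, hr⟩
    obtain ⟨h2, h3⟩ := Prod.ext_iff.1 hr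
    exact h3.symm.trans (h r h2))
  have hs := (chv1_l Γ).rangeRestrict_surjective
  obtain ⟨V, hV, hn⟩ := Ideal.image_subset_nonunits_valuationSubring
    ((RingHom.ker (chv1_r Γ)).map (chv1_l Γ).rangeRestrict) fun e => by
      obtain ⟨m, hm, e'⟩ := (Ideal.mem_map_iff_of_surjective _ hs).1 ((Ideal.eq_top_iff_one _).1 e)
      have := h0 (1 - m) (by
        rw [map_sub, map_one, sub_eq_zero]
        exact (congrArg Subtype.val e').symm)
      rw [map_sub, map_one, (RingHom.mem_ker).1 hm, sub_zero] at this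
      exact one_ne_zero this
  have hlt : ∀ a : Γ, chv1_r Γ a = 0 → V.valuation (chv1_l Γ a) < 1 := fun a ha =>
    (V.mem_nonunits_iff).1 (hn ⟨_, Ideal.mem_map_of_mem _ ha, rfl⟩)
  have hall : ∀ x ∈ V, ∃ y, (x, y) ∈ Γ := fun x hxV => by
    obtain ⟨y, hy⟩ := chv1_root (chv1_r Γ) (fun a ha => ⟨⟨_, chv1_inv h0 hx a.2 ha⟩, rfl⟩)
      (RingHom.ker (Polynomial.eval₂RingHom (chv1_l Γ) x)) fun P hP e => by
        have h2 : (1 - P).eval₂ (chv1_l Γ) x = 1 := by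
          rw [Polynomial.eval₂_sub, Polynomial.eval₂_one, sub_eq_self]
          exact hP
        suffices h3 : V.valuation ((1 - P).eval₂ (chv1_l Γ) x) < 1 by
          rw [h2, map_one] at h3
          exact lt_irrefl _ h3
        rw [Polynomial.eval₂_eq_sum_range]
        refine V.valuation.map_sum_lt one_ne_zero fun i _ => ?_
        rw [map_mul, map_pow]
        refine mul_lt_one_of_lt_of_le (hlt _ ?_) (pow_le_one' ((V.valuation_le_one_iff x).2 hxV) _)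
        rw [← Polynomial.coeff_map, Polynomial.map_sub, e, Polynomial.map_one, sub_self,
          Polynomial.coeff_zero]
    exact ⟨y, hx x y hy⟩
  let π : Ω → Ω' := fun a => if h : ∃ y, (a, y) ∈ Γ then h.choose else 0
  have hπ : ∀ a b, (a, b) ∈ Γ → π a = b := fun a b hab => by
    have h2 : ∃ y, (a, y) ∈ Γ := ⟨b, hab⟩
    simp only [π, dif_pos h2]
    exact sub_eq_zero.1 (h0 ⟨_, sub_mem h2.choose_spec hab⟩ (sub_self a))
  have hm : ∀ a ∈ V, (a, π a) ∈ Γ := fun a ha => by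
    obtain ⟨y, hy⟩ := hall a ha
    rwa [hπ a y hy]
  have hin : ∀ a b, (a, b) ∈ Γ → a ∈ V := fun a b hab => hV ⟨⟨_, hab⟩, rfl⟩
  exact ⟨⟨V, π, hπ _ _ (one_mem Γ), fun a ha b hb => hπ _ _ (add_mem (hm a ha) (hm b hb)),
    fun a ha b hb => hπ _ _ (mul_mem (hm a ha) (hm b hb)),
    fun a ha h' => hin _ _ (chv1_inv h0 hx (hm a ha) h'),
    fun c => ⟨hin _ _ (Γ.algebraMap_mem c), hπ _ _ (Γ.algebraMap_mem c)⟩⟩,
    fun r => ⟨hin _ _ (h1 ⟨r, rfl⟩), hπ _ _ (h1 ⟨r, rfl⟩)⟩⟩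

theorem exists_ext [IsAlgClosed Ω'] [Algebra F Ω] [IsScalarTower k F Ω] (τ : Plc k F Ω') :
    ∃ σ : Plc k Ω Ω', σ.Ext τ := by
  obtain ⟨σ, hσ⟩ := chevalley ((IsScalarTower.toAlgHom k F Ω).comp τ.sub.val) τ.hom fun r h => by
    rw [show r = 0 from Subtype.ext ((map_eq_zero (algebraMap F Ω)).1 h), map_zero]
  exact ⟨σ, fun c hc => hσ ⟨c, hc⟩⟩

theorem chv2_plc {κ : Type} [Field κ] [Algebra k κ] (V : ValuationSubring Ω) (ρ : V →+* κ)
    (h : ∀ a, ρ a ≠ 0 → IsUnit a) (h1 : Cont k V)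
    (h2 : ∀ c, ρ ⟨_, h1 c⟩ = algebraMap k κ c) :
    ∃ σ : Plc k Ω κ, σ.V = V ∧ ∀ a : V, σ.π a = ρ a := by
  classical
  have e : ∀ a (ha : a ∈ V), (if h : a ∈ V then ρ ⟨a, h⟩ else 0) = ρ ⟨a, ha⟩ :=
    fun a ha => dif_pos ha
  refine ⟨⟨V, fun a => if h : a ∈ V then ρ ⟨a, h⟩ else 0, (e 1 (one_mem _)).trans ρ.map_one,
    fun a ha b hb => ?_, fun a ha b hb => ?_, fun a ha h0 => ?_,
    fun c => ⟨h1 c, (e _ (h1 c)).trans (h2 c)⟩⟩, rfl, fun a => e a a.2⟩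
  · rw [e a ha, e b hb, e _ (add_mem ha hb)]
    exact ρ.map_add ⟨a, ha⟩ ⟨b, hb⟩
  · rw [e a ha, e b hb, e _ (mul_mem ha hb)]
    exact ρ.map_mul ⟨a, ha⟩ ⟨b, hb⟩
  · rw [e a ha] at h0
    obtain ⟨b, hb⟩ := (h _ h0).exists_right_inv
    rw [← eq_inv_of_mul_eq_one_right (congrArg Subtype.val hb : a * b = 1)]
    exact b.2

/-- The algebraic closure of the residue field. -/
theorem exists_plc [Algebra K Ω] [IsScalarTower k K Ω] (V : ValuationSubring Ω) (h : Cont K V) :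
    ∃ (κ : Type) (_ : Field κ) (_ : IsAlgClosed κ) (_ : Algebra k κ) (_ : Algebra K κ)
      (_ : IsScalarTower k K κ) (σ : Plc k Ω κ), σ.V = V ∧ σ.Ov K := by
  let κ := AlgebraicClosure (IsLocalRing.ResidueField V)
  let ρ : V →+* κ := (algebraMap _ κ).comp (IsLocalRing.residue V)
  let j : K →+* κ := ρ.comp ((algebraMap K Ω).codRestrict V h)
  let a1 : Algebra K κ := j.toAlgebra
  let a2 : Algebra k κ := (j.comp (algebraMap k K)).toAlgebra
  have h1 : Cont k V := fun c => IsScalarTower.algebraMap_apply k K Ω c ▸ h _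
  obtain ⟨σ, h2, h3⟩ := chv2_plc (k := k) V ρ
    (fun a ha => (IsLocalRing.residue_ne_zero_iff_isUnit a).1 fun e =>
      ha ((congrArg (algebraMap _ κ) e).trans (map_zero _))) h1
    fun c => congrArg ρ (Subtype.ext (IsScalarTower.algebraMap_apply k K Ω c))
  exact ⟨κ, inferInstance, inferInstance, a2, a1, .of_algebraMap_eq fun _ => rfl, σ, h2,
    fun c => ⟨h2.ge (h c), h3 ⟨_, h c⟩⟩⟩

theorem chv2_pt [IsAlgClosed K] {R : Type} [CommRing R] [Algebra K R]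
    [Algebra.FiniteType K R] {I : Ideal R} (hI : I ≠ ⊤) : ∃ φ : R →ₐ[K] K, ∀ b ∈ I, φ b = 0 := by
  obtain ⟨m, hm, h⟩ := I.exists_le_maximal hI
  let := Ideal.Quotient.field m
  have := finite_of_finite_type_of_isJacobsonRing K (R ⧸ m)
  refine ⟨(AlgEquiv.ofBijective (Algebra.ofId K (R ⧸ m))
    IsAlgClosed.algebraMap_bijective_of_isIntegral).symm.toAlgHom.comp (Ideal.Quotient.mkₐ K m),
    fun b hb => ?_⟩
  rw [AlgHom.comp_apply, Ideal.Quotient.mkₐ_eq_mk, Ideal.Quotient.eq_zero_iff_mem.2 (h hb), map_zero]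

/-- A point where `b` does not vanish (a maximal ideal of the localisation away from `b`,
`finite_of_finite_type_of_isJacobsonRing`). -/
theorem exists_point [IsAlgClosed K] {R : Type} [CommRing R] [IsDomain R] [Algebra K R]
    [Algebra.FiniteType K R] {b : R} (hb : b ≠ 0) : ∃ φ : R →ₐ[K] K, φ b ≠ 0 := by
  have h1 : IsDomain (Localization.Away b) :=
    IsLocalization.isDomain_localization (powers_le_nonZeroDivisors_of_noZeroDivisors hb)
  have h2 : Algebra.FiniteType K (Localization.Away b) := .trans ‹_› inferInstance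
  obtain ⟨φ, -⟩ := chv2_pt (K := K) (bot_ne_top (α := Ideal (Localization.Away b)))
  exact ⟨φ.comp (IsScalarTower.toAlgHom K R _),
    ((IsLocalization.Away.algebraMap_isUnit (S := Localization.Away b) b).map φ).ne_zero⟩

/-- A point on a proper ideal. -/
theorem exists_point' [IsAlgClosed K] {R : Type} [CommRing R] [Algebra K R]
    [Algebra.FiniteType K R] {I : Ideal R} (hI : I ≠ ⊤) : ∃ φ : R →ₐ[K] K, ∀ b ∈ I, φ b = 0 := by
  exact chv2_pt hI

end Pool.Agent.Lib.MP_651af7_nt.Cu
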