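import Pool.Agent.Lib.MP_651af7_nt.Cu.Grp
import Pool.Agent.Lib.MP_651af7_nt.Cu.Chv

/-! Generic points. -/

namespace Pool.Agent.Lib.MP_651af7_nt.Cu

open MvPolynomial Av

set_option linter.unusedSectionVars false

namespace GA

variable {k ι : Type} [Field k] [Fintype ι] {A : GA k ι} {M N N' Ω' : Type} [Field M] [Algebra k M]
  [Field N] [Algebra k N] [Algebra M N] [IsScalarTower k M N] [Field N'] [Algebra k N']
  [Algebra M N'] [IsScalarTower k M N'] [Field Ω'] [Algebra k Ω'] {η : ι → N}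

variable (A M) in
/-- The fraction field of the quotient by the prime `A.prime M`. -/
theorem exists_gen : ∃ (N : Type) (_ : Field N) (_ : Algebra k N) (_ : Algebra M N)
    (_ : IsScalarTower k M N) (η : ι → N), A.Gen M η ∧
      IntermediateField.adjoin M (Set.range η) = ⊤ := by
  have hP := A.prime M
  set P := A.I.map (MvPolynomial.map (algebraMap k M)) with hPdef
  have key : ∀ Q : MvPolynomial ι M,
      aeval (fun a => algebraMap (MvPolynomial ι M ⧸ P) (FractionRing (MvPolynomial ι M ⧸ P))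
        (Ideal.Quotient.mk P (X a))) Q = algebraMap (MvPolynomial ι M ⧸ P)
          (FractionRing (MvPolynomial ι M ⧸ P)) (Ideal.Quotient.mk P Q) := fun Q => by
    rw [aeval_alg]
    congr 1
    exact (aeval_hom (Ideal.Quotient.mkₐ M P) X Q).trans (by simp)
  refine ⟨FractionRing (MvPolynomial ι M ⧸ P), inferInstance, inferInstance, inferInstance,
    inferInstance, fun a => algebraMap (MvPolynomial ι M ⧸ P) _ (Ideal.Quotient.mk P (X a)),
    fun Q => ?_, eq_top_iff.2 fun x _ => ?_⟩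
  · rw [key, FaithfulSMul.algebraMap_eq_zero_iff, Ideal.Quotient.eq_zero_iff_mem]
  · obtain ⟨a, b, -, rfl⟩ := IsFractionRing.div_surjective (MvPolynomial ι M ⧸ P) x
    obtain ⟨a, rfl⟩ := Ideal.Quotient.mk_surjective a
    obtain ⟨b, rfl⟩ := Ideal.Quotient.mk_surjective b
    refine div_mem ?_ ?_ <;>
    · refine IntermediateField.algebra_adjoin_le_adjoin _ _ ?_
      rw [← key, Algebra.adjoin_range_eq_range_aeval]
      exact ⟨_, rfl⟩

theorem Gen.map [Algebra N N'] [IsScalarTower M N N'] (h : A.Gen M η) :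
    A.Gen M fun a => algebraMap N N' (η a) := by
  intro P
  rw [aeval_alg, map_eq_zero]
  exact h P

variable (A M) in
/-- The algebraic closure of the field of `exists_gen`. -/
theorem exists_gen' : ∃ (N : Type) (_ : Field N) (_ : IsAlgClosed N) (_ : Algebra k N)
    (_ : Algebra M N) (_ : IsScalarTower k M N) (η : ι → N), A.Gen M η ∧
      Algebra.IsAlgebraic (IntermediateField.adjoin M (Set.range η)) N := by
  obtain ⟨N, _, _, _, _, η, h, ht⟩ := exists_gen A M
  refine ⟨AlgebraicClosure N, inferInstance, inferInstance, inferInstance, inferInstance,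
    inferInstance, _, h.map, ⟨fun x => IsIntegral.isAlgebraic ?_⟩⟩
  have h1 : ∀ c : N, algebraMap N (AlgebraicClosure N) c ∈
      IntermediateField.adjoin M (Set.range fun a => algebraMap N (AlgebraicClosure N) (η a)) := by
    intro c
    have h2 := IntermediateField.adjoin_map M (Set.range η)
      (IsScalarTower.toAlgHom M N (AlgebraicClosure N))
    rw [ht, ← Set.range_comp] at h2
    exact h2.le ⟨c, trivial, rfl⟩
  obtain ⟨p, hp, hx⟩ := Algebra.IsIntegral.isIntegral (R := N) x
  refine ⟨p.map ((algebraMap N (AlgebraicClosure N)).codRestrict _ h1), hp.map _, ?_⟩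
  rw [Polynomial.eval₂_map]
  exact hx

theorem Gen.zero (h : A.Gen M η) : ∀ P ∈ A.I, aeval η P = 0 := by
  intro P hP
  rw [← aeval_map_algebraMap M]
  exact (h _).2 (Ideal.mem_map_of_mem _ hP)

/-- Otherwise all variables lie in the ideal, which has a non-trivial zero (the origin). -/
theorem Gen.ne (h : A.Gen M η) : ∃ a, η a ≠ 0 := by
  by_contra hn
  push Not at hn
  obtain ⟨a, ha⟩ := (rep_nc (0 : A.Pt M)).ne
  have h1 := aeval_of_mem_map (R := M) (rep_nc (0 : A.Pt M)).zero (X a)
    ((h _).1 (by rw [aeval_X, hn a]))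
  rw [aeval_X] at h1
  exact ha h1

theorem Gen.exists_rep (h : A.Gen M η) : ∃ p : A.Pt N, Rep p η :=
  GA.exists_rep h.ne h.zero

/-- `chevalley` for `R = MvPolynomial ι τ.sub`. If `Q` has coefficients in `τ.sub` and its image
lies in the extended ideal then `Q` lies in the extension of `A.I` to `τ.sub` (`mem_map_of_cf`,
`cf_mem`, extend a `k`-linear form from `τ.sub` to `M`), then `aeval_of_mem_map`. -/
theorem Gen.spec [IsAlgClosed Ω'] (h : A.Gen M η) (τ : Plc k M Ω') {y : ι → Ω'}
    (hy : ∀ P ∈ A.I, aeval y P = 0) :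
    ∃ σ : Plc k N Ω', σ.Ext τ ∧ ∀ a, η a ∈ σ.V ∧ σ.π (η a) = y a := by
  let _ : Algebra τ.sub Ω' := τ.hom.toRingHom.toAlgebra
  have : IsScalarTower k τ.sub Ω' := .of_algebraMap_eq fun c => (τ.hom.commutes c).symm
  obtain ⟨σ, hσ⟩ := chevalley (k := k) (R := MvPolynomial ι τ.sub)
    ((aeval η).restrictScalars k) ((aeval y).restrictScalars k) fun Q hQ => by
      have h1 := (h (MvPolynomial.map (algebraMap τ.sub M) Q)).1
        (by rw [aeval_map_algebraMap]; exact hQ)
      refine aeval_of_mem_map hy Q (mem_map_of_cf fun l => ?_)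
      obtain ⟨l', hl⟩ := LinearMap.exists_extend (p := Subalgebra.toSubmodule τ.sub) l
      have h2 : cf l Q = cf l' (MvPolynomial.map (algebraMap τ.sub M) Q) := by
        ext m
        rw [coeff_cf, coeff_cf, coeff_map, ← hl]
        rfl
      exact h2 ▸ cf_mem h1 l'
  refine ⟨σ, fun c hc => ?_, fun a => by simpa using hσ (X a)⟩
  have h3 := hσ (C ⟨c, hc⟩)
  simp only [AlgHom.coe_restrictScalars', aeval_C] at h3
  exact h3

theorem Gen.spec_pt [IsAlgClosed Ω'] (h : A.Gen M η) {p : A.Pt N} (hp : Rep p η) (τ : Plc k M Ω')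
    (q : A.Pt Ω') : ∃ σ : Plc k N Ω', σ.Ext τ ∧ red σ p = q := by
  obtain ⟨σ, h1, h2⟩ := h.spec τ (rep_nc q).zero
  have h3 : (fun a => σ.π (η a)) = nc q := funext fun a => (h2 a).2
  have h4 := hp.red σ (fun a => (h2 a).1) ⟨idx q, by rw [(h2 _).2, nc_idx]; exact one_ne_zero⟩
  exact ⟨σ, h1, (h3 ▸ h4).inj (rep_nc q)⟩

/-- Two generic points in a tower. -/
theorem exists_gen₂ (A : GA k ι) : ∃ (E : Type) (_ : Field E) (_ : Algebra k E) (y z : A.Pt E),
    (⊤ : IntermediateField k E).FG ∧ ∀ (Ω' : Type) [Field Ω'] [IsAlgClosed Ω'] [Algebra k Ω']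
      (a b : A.Pt Ω'), ∃ σ : Plc k E Ω', red σ y = a ∧ red σ z = b := by
  obtain ⟨N, _, i1, i2, i3, η, h, ht⟩ := exists_gen A k
  obtain rfl : i1 = i2 := Algebra.algebra_ext _ _ fun c =>
    @IsScalarTower.algebraMap_apply k k N _ _ _ _ i2 i1 i3 c
  obtain ⟨E, _, _, _, _, ζ, h', ht'⟩ := exists_gen A N
  obtain ⟨p, hp⟩ := h.exists_rep
  obtain ⟨q, hq⟩ := h'.exists_rep
  refine ⟨E, inferInstance, inferInstance, up E p, q, ?_, fun Ω' _ _ _ a b => ?_⟩
  · have f1 : Algebra.EssFiniteType k N := IntermediateField.fg_top_iff.1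
      (ht ▸ IntermediateField.fg_adjoin_of_finite (Set.finite_range η))
    have f2 : Algebra.EssFiniteType N E := IntermediateField.fg_top_iff.1
      (ht' ▸ IntermediateField.fg_adjoin_of_finite (Set.finite_range ζ))
    exact IntermediateField.fg_top_iff.2 (Algebra.EssFiniteType.comp k N E)
  · obtain ⟨τ, -, hτ⟩ := h.spec_pt hp (Plc.ofHom (Algebra.ofId k Ω')) a
    obtain ⟨σ, h1, h2⟩ := h'.spec_pt hq τ b
    exact ⟨σ, (red_ext h1 p).trans hτ, h2⟩

end GA

end Pool.Agent.Lib.MP_651af7_nt.Cu
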