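import Pool.Agent.Lib.MP_651af7_nt.Cu.Cv3
import Pool.Agent.Lib.MP_651af7_nt.Cu.Gen

/-! The theorem of the cube. -/

namespace Pool.Agent.Lib.MP_651af7_nt.Cu

open Pool.Agent.HZ GA

set_option linter.unusedSectionVars false

noncomputable section

variable {k ι : Type} [Field k] [Fintype ι] {A : GA k ι} {K E : Type} [Field K] [Field E]
  [Algebra k K] [Algebra k E] [Algebra K E] [IsScalarTower k K E] [IsAlgClosed K]

theorem cube1_dich (c : Cvd K E) {F₁ F : Type} [Field F₁] [Field F] [IsAlgClosed F₁]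
    [Algebra K F₁] [Algebra F₁ F] (g : Ob K c.O F₁ →ₐ[F₁] F) :
    (∀ z, g z = 0 → z = 0) ∨ ∀ z, ∃ w : F₁, g z = algebraMap F₁ F w := by
  by_cases h : RingHom.ker g = ⊥
  · exact .inl fun z hz => (Submodule.mem_bot _).1 (h ▸ (RingHom.mem_ker.2 hz))
  · have := c.C.ded F₁
    have hm : (RingHom.ker g).IsMaximal := (RingHom.ker_isPrime g).isMaximal h
    have := c.C.fin_quot h
    obtain ⟨-, ρ, hρ⟩ := Crv.cd_gen_max (L := F₁) hm
    refine .inr fun z => ⟨ρ z, ?_⟩
    have h1 : g (z - algebraMap F₁ _ (ρ z)) = 0 := (hρ _).1 (by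
      rw [map_sub, ρ.commutes, Algebra.algebraMap_self, RingHom.id_apply, sub_self])
    rwa [map_sub, g.commutes, sub_eq_zero] at h1

/-- If the image of `Q` lies in `F₁` use `Gen.spec_pt` over the identity of `F₁` with `y ↦ 0`.
Otherwise the map `Ob K O F₁ → F` is injective (a non-zero prime is maximal with quotient `F₁`:
`Crv.ded`, `cd_gen_max`, `Crv.fin_quot`). Take a point `φ` with `φ a ≠ 0` (`exists_point`), a place
of `F` over `F₁` into `F₁` with `Q b ↦ φ b` (`chevalley`), and compose it with a place of `F₁` into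
`K` with `z ↦ 0`. -/
theorem Cvd.rig (c : Cvd K E) {F₁ F : Type} [Field F₁] [Field F] [IsAlgClosed F₁] [IsAlgClosed F]
    [Algebra k F₁] [Algebra k F] [Algebra K F₁] [Algebra K F] [Algebra F₁ F]
    [IsScalarTower k K F₁] [IsScalarTower k K F] [IsScalarTower k F₁ F] [IsScalarTower K F₁ F]
    {ζ : ι → F₁} {η : ι → F} (hζ : A.Gen K ζ) (hη : A.Gen F₁ η) {z : A.Pt F₁} {y : A.Pt F}
    (hz : Rep z ζ) (hy : Rep y η) : c.Rig y (up F z) := by
  intro Q a ha
  let g : Ob K c.O F₁ →ₐ[F₁] F :=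
    Algebra.TensorProduct.lift (Algebra.ofId F₁ F) Q fun _ _ => Commute.all _ _
  have hg : ∀ b, g (io K F₁ b) = Q b := fun b => by simp [g, io]
  rcases cube1_dich c g with h | h
  · have := c.C.finiteType
    have := c.C.isDomain0
    obtain ⟨φ, hφ⟩ := exists_point (K := K) (b := a) fun e => ha (by rw [e, map_zero])
    let g' : Ob K c.O F₁ →ₐ[F₁] F₁ := Algebra.TensorProduct.lift (Algebra.ofId F₁ F₁)
      ((Algebra.ofId K F₁).comp φ) fun _ _ => Commute.all _ _
    have hg' : ∀ b, g' (io K F₁ b) = algebraMap K F₁ (φ b) := fun b => by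
      simp [g', io, Algebra.ofId_apply]
    obtain ⟨σ, hσ⟩ := chevalley (g.restrictScalars k) (g'.restrictScalars k) fun r hr => by
      rw [h r hr, map_zero]
    have h1 : σ.Ov F₁ := fun w => by
      have h2 := hσ (algebraMap F₁ _ w)
      simp only [AlgHom.restrictScalars_apply, AlgHom.commutes] at h2
      exact h2
    have h2 : ∀ b, Q b ∈ σ.V ∧ σ.π (Q b) = algebraMap K F₁ (φ b) := fun b => by
      have h2 := hσ (io K F₁ b)
      simp only [AlgHom.restrictScalars_apply, hg, hg'] at h2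
      exact h2
    obtain ⟨ρ, h3, h4⟩ := hζ.spec_pt hz (Plc.ofHom (AlgHom.id k K)) 0
    have h5 : ∀ w : K, algebraMap K F₁ w ∈ ρ.V ∧ ρ.π (algebraMap K F₁ w) = w := fun w =>
      h3 w trivial
    refine ⟨K, _, inferInstance, _, _, inferInstance, Plc.comp ρ σ, fun w => ?_, fun b => ?_, ?_,
      .inr ?_⟩
    · rw [IsScalarTower.algebraMap_apply K F₁ F]
      have h6 : σ.π (algebraMap F₁ F (algebraMap K F₁ w)) = algebraMap K F₁ w := (h1 _).2
      exact ⟨⟨(h1 _).1, by rw [h6]; exact (h5 w).1⟩, (congrArg ρ.π h6).trans (h5 w).2⟩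
    · exact ⟨(h2 b).1, (h2 b).2 ▸ (h5 _).1⟩
    · change ρ.π (σ.π (Q a)) ≠ 0
      rwa [(h2 a).2, (h5 _).2]
    · rw [red_comp, red_ov h1, up_self, h4]
  · obtain ⟨σ, h1, h2⟩ := hη.spec_pt hy (Plc.ofHom (AlgHom.id k F₁)) 0
    have h3 : ∀ w : F₁, algebraMap F₁ F w ∈ σ.V ∧ σ.π (algebraMap F₁ F w) = w := fun w =>
      h1 w trivial
    refine ⟨F₁, _, inferInstance, _, _, inferInstance, σ, fun w => ?_, fun b => ?_, ?_, .inl h2⟩
    · rw [IsScalarTower.algebraMap_apply K F₁ F]
      exact h3 _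
    · obtain ⟨w, hw⟩ := h (io K F₁ b)
      rw [← hg, hw]
      exact (h3 w).1
    · obtain ⟨w, hw⟩ := h (io K F₁ a)
      rw [← hg, hw] at ha ⊢
      rw [(h3 w).2]
      exact fun e => ha (by rw [e, map_zero])

/-- The cube with first point `x` is principal over `K`. -/
def Good (x : A.Pt K) : Prop :=
  ∀ (Ω : Type) [Field Ω] [IsAlgClosed Ω] [Algebra k Ω] [Algebra K Ω] [IsScalarTower k K Ω]
    (y z : A.Pt Ω), Pr K (cub (up Ω x) y z)

/-- Build `F₁`, `F` by `exists_gen'` and `Ω₀` by `exists_ld`. `prin_cub` and `seesaw` with a place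
`ρ` from `LD.exists_ext` for the identity of `F` and the place at infinity followed by the inclusion
of `K` in `F` (the hypothesis is used in the field `F`). Then specialise: `Gen.spec_pt` twice gives
a place of `F` into `Ω`, `LD.exists_ext` with the inclusion of `E`, `Pr.red`, `cub_map`. -/
theorem Cvd.step (c : Cvd K E) (hE : FF K E) (x : A.Pt E) (h : Good (red (c.plc k) x))
    {Ω : Type} [Field Ω] [IsAlgClosed Ω] [Algebra k Ω] [Algebra K Ω] [Algebra E Ω]
    [IsScalarTower k K Ω] [IsScalarTower k E Ω] [IsScalarTower K E Ω] (y z : A.Pt Ω) :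
    Pr K (cub (up Ω x) y z) := by
  obtain ⟨F₁, _, _, _, _, _, ζ, hζ, -⟩ := exists_gen' A K
  obtain ⟨F, _, _, _, _, _, η, hη, -⟩ := exists_gen' A F₁
  let : Algebra K F := ((algebraMap F₁ F).comp (algebraMap K F₁)).toAlgebra
  have : IsScalarTower K F₁ F := .of_algebraMap_eq fun _ => rfl
  have : IsScalarTower k K F := .of_algebraMap_eq fun a => by
    rw [IsScalarTower.algebraMap_apply K F₁ F, ← IsScalarTower.algebraMap_apply k K F₁,
      ← IsScalarTower.algebraMap_apply k F₁ F]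
  obtain ⟨z₁, hz⟩ := hζ.exists_rep
  obtain ⟨y₁, hy⟩ := hη.exists_rep
  obtain ⟨Ω₀, _, _, _, _, _, _, _, _, _, _, _, hL⟩ := exists_ld k K E F
  obtain ⟨g, g1, g0, hg⟩ := c.prin_cub hE hL x (c.rig hζ hη hz hy)
  obtain ⟨ρ, r1, r2⟩ := hL.exists_ext (Plc.ofHom (AlgHom.id k F))
    ((Plc.ofHom (IsScalarTower.toAlgHom k K F)).comp (c.plc k)) (fun _ => ⟨trivial, rfl⟩)
    fun a => ⟨⟨(c.plc_ov k a).1, trivial⟩, congrArg (algebraMap K F) (c.plc_ov k a).2⟩
  have r3 : ρ.Ov F := fun a => r1 a trivial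
  have h1 := seesaw (fg_of_ff hE) hL (spl_cub₁ x y₁ (up F z₁)) g1 g0 hg ρ r3 (by
    rw [cub_map, red_ext r2, red_comp, red_ov r3, red_ov r3, up_self, up_self]
    exact h F _ _)
  obtain ⟨σ₁, a1, rfl⟩ := hζ.spec_pt hz (Plc.ofHom (IsScalarTower.toAlgHom k K Ω)) z
  obtain ⟨σ₂, a2, rfl⟩ := hη.spec_pt hy σ₁ y
  obtain ⟨σ, s1, s2⟩ := hL.exists_ext σ₂ (Plc.ofHom (IsScalarTower.toAlgHom k E Ω))
    (fun a => ⟨(a2 _ (a1 a trivial).1).1, (a2 _ (a1 a trivial).1).2.trans (a1 a trivial).2⟩)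
    fun a => ⟨trivial, (IsScalarTower.algebraMap_apply K E Ω a).symm⟩
  have h2 := h1.red (σ := σ) fun a => by
    rw [IsScalarTower.algebraMap_apply K E Ω₀, IsScalarTower.algebraMap_apply K E Ω]
    exact s2 _ trivial
  rwa [cub_map, red_ext s2, red_ext s1, red_ext s1, red_ext a2] at h2

theorem cube3_lift {K' E : Type} [Field K'] [Field E] [Algebra k K'] [Algebra k E] [Algebra K' E]
    [Algebra K' K] [Algebra E K] [IsScalarTower k K' E] [IsScalarTower k K' K]
    [IsScalarTower k E K] [IsScalarTower K' E K] (x : A.Pt E)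
    (h : ∀ (Ω : Type) [Field Ω] [IsAlgClosed Ω] [Algebra k Ω] [Algebra K' Ω] [Algebra E Ω]
      [IsScalarTower k K' Ω] [IsScalarTower k E Ω] [IsScalarTower K' E Ω] (y z : A.Pt Ω),
      Pr K' (cub (up Ω x) y z)) : Good (up K x) := by
  intro Ω _ _ _ _ _ y z
  let : Algebra K' Ω := ((algebraMap K Ω).comp (algebraMap K' K)).toAlgebra
  let : Algebra E Ω := ((algebraMap K Ω).comp (algebraMap E K)).toAlgebra
  have : IsScalarTower K' K Ω := IsScalarTower.of_algebraMap_eq fun _ => rfl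
  have : IsScalarTower E K Ω := IsScalarTower.of_algebraMap_eq fun _ => rfl
  have : IsScalarTower k K' Ω := IsScalarTower.of_algebraMap_eq fun c => by
    rw [IsScalarTower.algebraMap_apply K' K Ω, ← IsScalarTower.algebraMap_apply k K' K,
      ← IsScalarTower.algebraMap_apply]
  have : IsScalarTower k E Ω := IsScalarTower.of_algebraMap_eq fun c => by
    rw [IsScalarTower.algebraMap_apply E K Ω, ← IsScalarTower.algebraMap_apply k E K,
      ← IsScalarTower.algebraMap_apply]
  have : IsScalarTower K' E Ω := IsScalarTower.of_algebraMap_eq fun c => by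
    rw [IsScalarTower.algebraMap_apply E K Ω, ← IsScalarTower.algebraMap_apply K' E K,
      ← IsScalarTower.algebraMap_apply]
  rw [up_up]
  exact (h Ω y z).mono fun V hV c => hV (algebraMap K' K c)

open IntermediateField in
theorem cube3_step {K' : Type} [Field K'] [IsAlgClosed K'] [Algebra k K'] [Algebra K' K]
    [IsScalarTower k K' K] (s : K) (hs : ∀ x : K, IsAlgebraic K'⟮s⟯ x)
    (h : ∀ x : A.Pt K', ∃ a : A.Pt k, Good (x - up K' a)) (x : A.Pt K) :
    ∃ a : A.Pt k, Good (x - up K a) := by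
  by_cases ht : Transcendental K' s
  · have h0 : FF K' K'⟮s⟯ := by
      refine ⟨AdjoinSimple.gen K' s, fun e => ht (e.algebraMap (A := K)), ?_⟩
      have e : K'⟮AdjoinSimple.gen K' s⟯ = ⊤ := by
        apply lift_injective
        rw [lift_adjoin_simple, lift_top]
        rfl
      rw [e]
      exact Module.Finite.of_surjective (Algebra.linearMap _ _) fun a => ⟨⟨a, trivial⟩, rfl⟩
    have : FiniteDimensional K'⟮s⟯ (adjoin K'⟮s⟯ (Set.range (nc x))) :=
      finiteDimensional_adjoin fun a _ => (hs a).isIntegral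
    let E := (adjoin K'⟮s⟯ (Set.range (nc x))).restrictScalars K'
    have hE : FF K' E := h0.finite (adjoin K'⟮s⟯ (Set.range (nc x)))
    have : IsScalarTower k E K := IsScalarTower.of_algebraMap_eq fun _ => rfl
    have : IsScalarTower k K' E := IsScalarTower.of_algebraMap_eq fun c =>
      Subtype.ext (IsScalarTower.algebraMap_apply k K' K c)
    obtain ⟨c⟩ := nonempty_cvd hE
    obtain ⟨x₀, e⟩ := exists_up (F := E) x fun a =>
      ⟨⟨nc x a, subset_adjoin K'⟮s⟯ _ ⟨a, rfl⟩⟩, rfl⟩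
    obtain ⟨a, ha⟩ := h (red (c.plc k) x₀)
    rw [← red_ov (σ := c.plc k) (F := k) (c.plc k).alg, ← map_sub] at ha
    have h1 := cube3_lift (K := K) (K' := K') _ fun Ω _ _ _ _ _ _ _ _ y z => c.step hE _ ha y z
    rw [map_sub, e, up_up] at h1
    exact ⟨a, h1⟩
  · have : Algebra.IsAlgebraic K' K'⟮s⟯ :=
      isAlgebraic_adjoin_simple (not_not.1 ht : IsAlgebraic K' s).isIntegral
    have : Algebra.IsAlgebraic K'⟮s⟯ K := ⟨hs⟩
    have : Algebra.IsAlgebraic K' K := Algebra.IsAlgebraic.trans K' K'⟮s⟯ K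
    obtain ⟨x₀, rfl⟩ := exists_up (F := K') x fun a =>
      IsAlgClosed.algebraMap_bijective_of_isIntegral.2 _
    obtain ⟨a, ha⟩ := h x₀
    have h1 : Good (up K (x₀ - up K' a)) := by
      intro Ω _ _ _ _ _ y z
      let : Algebra K' Ω := ((algebraMap K Ω).comp (algebraMap K' K)).toAlgebra
      have : IsScalarTower K' K Ω := IsScalarTower.of_algebraMap_eq fun _ => rfl
      have : IsScalarTower k K' Ω := IsScalarTower.of_algebraMap_eq fun c => by
        rw [IsScalarTower.algebraMap_apply K' K Ω, ← IsScalarTower.algebraMap_apply k K' K,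
          ← IsScalarTower.algebraMap_apply]
      rw [up_up]
      exact (ha Ω y z).mono fun V hV c => hV (algebraMap K' K c)
    rw [map_sub, up_up] at h1
    exact ⟨a, h1⟩

/-- Induction on `n`. Let `K'` be the algebraic closure in `K` of the field generated by the first
`n` elements (`algebraicClosure`). If the last one lies in `K'` use the induction hypothesis for
`K`. Otherwise `E = K'(t, nc x)` is a function field over `K'`, `x` comes from `E` (`exists_up`);
the induction hypothesis for `K'` and the value of `x` at infinity gives `a`; `Cvd.step` for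
`x - a`, `Pr.mono`. For `n = 0` take `a` with `up a = x`. -/
theorem exists_good [IsAlgClosed k] (n : ℕ) : ∀ (K : Type) [Field K] [IsAlgClosed K] [Algebra k K]
    (t : Fin n → K), Algebra.IsAlgebraic (IntermediateField.adjoin k (Set.range t)) K →
    ∀ x : A.Pt K, ∃ a : A.Pt k, Good (x - up K a) := by
  open IntermediateField in
  induction n with
  | zero =>
    intro K _ _ _ t ht x
    have : Algebra.IsAlgebraic k (adjoin k (Set.range t)) :=
      isAlgebraic_adjoin fun _ ⟨i, _⟩ => i.elim0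
    have : Algebra.IsAlgebraic k K := Algebra.IsAlgebraic.trans k (adjoin k (Set.range t)) K
    obtain ⟨a, rfl⟩ := exists_up (F := k) x fun a =>
      IsAlgClosed.algebraMap_bijective_of_isIntegral.2 _
    refine ⟨a, fun Ω _ _ _ _ _ y z => ?_⟩
    rw [sub_self, map_zero, cub_zero₁]
    exact Pr.zero
  | succ n ih =>
    intro K _ _ _ t ht x
    let L := adjoin k (Set.range fun i : Fin n => t i.castSucc)
    let K' := algebraicClosure L K
    have : IsAlgClosed K' := IsAlgClosure.isAlgClosed L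
    have : IsScalarTower k K' K := IsScalarTower.of_algebraMap_eq fun _ => rfl
    have hL : ∀ a ∈ L, a ∈ K' := fun a ha => K'.algebraMap_mem ⟨a, ha⟩
    let t' : Fin n → K' := fun i => ⟨t i.castSucc, hL _ (subset_adjoin _ _ ⟨i, rfl⟩)⟩
    refine cube3_step (K' := K') (t (Fin.last n)) (fun b => ?_) (ih K' t' ⟨fun b => ?_⟩) x
    · have hle : adjoin k (Set.range t) ≤
          (K'⟮t (Fin.last n)⟯.restrictScalars L).restrictScalars k := by
        rw [adjoin_le_iff]
        rintro _ ⟨i, rfl⟩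
        refine Fin.lastCases ?_ (fun j => ?_) i
        · exact mem_adjoin_simple_self K' _
        · exact K'⟮t (Fin.last n)⟯.algebraMap_mem (t' j)
      let g : adjoin k (Set.range t) →+* K'⟮t (Fin.last n)⟯ := (inclusion hle).toRingHom
      exact (ht.isAlgebraic b).ringHom_of_comp_eq g (RingHom.id K) g.injective rfl
    · have e : (adjoin k (Set.range t')).map (IsScalarTower.toAlgHom k K' K) = L := by
        rw [adjoin_map, ← Set.range_comp]
        rfl
      let f := ((adjoin k (Set.range t')).equivMap (IsScalarTower.toAlgHom k K' K)).trans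
        (equivOfEq e)
      exact IsAlgebraic.of_ringHom_of_comp_eq (f : _ →+* L) (algebraMap K' K)
        (mem_algebraicClosure_iff.1 b.2) f.surjective (RingHom.injective _) rfl

theorem cube4_gen (A : GA k ι) : ∃ (N : Type) (_ : Field N) (_ : IsAlgClosed N) (_ : Algebra k N)
    (η : ι → N), A.Gen k η ∧ Algebra.IsAlgebraic (IntermediateField.adjoin k (Set.range η)) N := by
  obtain ⟨N, _, _, -, i, -, η, h⟩ := exists_gen' A k
  exact ⟨N, _, ‹_›, i, η, h⟩

theorem cube4_ld (k E F : Type) [Field k] [IsAlgClosed k] [Field E] [Field F] [Algebra k E]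
    [Algebra k F] : ∃ (Ω : Type) (_ : Field Ω) (_ : IsAlgClosed Ω) (_ : Algebra k Ω)
    (_ : Algebra E Ω) (_ : Algebra F Ω) (_ : IsScalarTower k E Ω) (_ : IsScalarTower k F Ω),
    LD k E F Ω := by
  obtain ⟨Ω, _, _, i, -, _, _, -, -, -, h1, h2, h⟩ := exists_ld k k E F
  exact ⟨Ω, _, ‹_›, i, _, _, h1, h2, h⟩

/-- Let `F` be from `exists_gen'` over `k` with generic point `x₀`, `a` from `exists_good`, `E` from
`exists_gen₂`, `Ω₀` from `exists_ld`. `Pr.descend` to the compositum, `seesaw` for the multiple with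
a place over `F` that kills `y` (`LD.exists_ext`), `Pr.root`. Specialise `x₀` to `x + a`. -/
theorem cube [IsAlgClosed k] {Ω : Type} [Field Ω] [IsAlgClosed Ω] [Algebra k Ω] (x y z : A.Pt Ω) :
    Pr k (cub x y z) := by
  obtain ⟨F, _, _, _, η, hη, halg⟩ := cube4_gen A
  obtain ⟨x₀, hx₀⟩ := hη.exists_rep
  obtain ⟨a, ha⟩ := exists_good _ F (η ∘ (Fintype.equivFin ι).symm)
    (by rwa [(Fintype.equivFin ι).symm.surjective.range_comp]) x₀
  obtain ⟨E, _, _, y₀, z₀, hE, hs⟩ := exists_gen₂ A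
  obtain ⟨Ω₀, _, _, _, _, _, _, _, hL⟩ := cube4_ld k E F
  have hD : Spl E F _ := spl_cub₂ (Ω := Ω₀) (x₀ - up F a) y₀ z₀
  obtain ⟨n, hn, φ, h1, h2, h3⟩ := (ha Ω₀ _ _).descend right_mem_cmp hD.rat
  obtain ⟨ρ, hy, -⟩ := hs F 0 0
  obtain ⟨σ, hσ, hσ'⟩ := hL.exists_ext (Plc.ofHom (AlgHom.id k F)) ρ (Plc.alg _) ρ.alg
  have h4 := (seesaw hE hL (hD.nsmul n) h1 h2 h3 σ (fun c => hσ c trivial) (by
    rw [Finsupp.mapDomain_smul, cub_map, red_ext hσ' y₀, hy, cub_zero₂, smul_zero]
    exact Pr.zero)).root hn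
  obtain ⟨τ₀, -, hx⟩ := hη.spec_pt hx₀ (Plc.ofHom (Algebra.ofId k Ω)) (x + up Ω a)
  obtain ⟨ρ₀, hy₀, hz₀⟩ := hs Ω y z
  obtain ⟨σ₀, h5, h6⟩ := hL.exists_ext τ₀ ρ₀ τ₀.alg ρ₀.alg
  have h7 := h4.red (σ := σ₀) σ₀.alg
  rwa [cub_map, red_ext h5, red_ext h6, red_ext h6, hy₀, hz₀, map_sub, hx, red_ov τ₀.alg,
    add_sub_cancel_right] at h7

end

end Pool.Agent.Lib.MP_651af7_nt.Cu
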