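import Pool.Agent.Lib.MP_651af7_nt.Cu.Ten
import Pool.Agent.Lib.MP_751085_ag.P7

/-! A curve with a point at infinity and its constant extensions. -/

namespace Pool.Agent.Lib.MP_651af7_nt.Cu

open Pool.Agent.HZ

set_option linter.unusedSectionVars false

noncomputable section

/-- A function field with a place at infinity. -/
structure Cvd (K E : Type) [Field K] [Field E] [Algebra K E] where
  I : Inf K E
  C : Crv K (Oo K I.V)
  hC : ∀ a, C.ι a = I.ι a
  fr : IsFractionRing (Oo K I.V) E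
  ϖ : E
  hϖ : I.ι ϖ = HahnSeries.single 1 1

variable {K E F Ω : Type} [Field K] [Field E] [Field F] [Field Ω] [Algebra K E] [Algebra K F]
  [Algebra K Ω] [Algebra E Ω] [Algebra F Ω] [IsScalarTower K E Ω] [IsScalarTower K F Ω]

theorem cv11_inf (A : Subalgebra K E) [IsDedekindDomain A] [IsFractionRing A E] (c : Pt K A) :
    ∃ I : Inf K E, ∀ (s : E) (a b : A), b ∉ c.m → (b : E) * s = a → s ∈ I.V := by
  have hj : Function.Injective c.j := by
    rw [injective_iff_map_eq_zero]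
    intro a ha
    rw [← Ideal.mem_bot, ← Ideal.iInf_pow_eq_bot_of_isDomain c.m c.isMaximal.ne_top,
      Ideal.mem_iInf]
    intro t
    rw [← c.mem, ha]
    exact dvd_zero _
  have hinj : Function.Injective ((HahnSeries.ofPowerSeries ℤ K).comp c.j.toRingHom) :=
    HahnSeries.ofPowerSeries_injective.comp hj
  let ι : E →+* HahnSeries ℤ K := IsFractionRing.lift hinj
  have hι : ∀ a : A, ι a = HahnSeries.ofPowerSeries ℤ K (c.j a) := fun a =>
    IsFractionRing.lift_algebraMap hinj a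
  let W : ValuationSubring (LaurentSeries K) :=
    (Valued.v : Valuation (LaurentSeries K) (WithZero (Multiplicative ℤ))).valuationSubring
  have hW : ∀ f : LaurentSeries K, f ∈ W ↔ ∀ i < 0, f.coeff i = 0 := fun f => by
    rw [← LaurentSeries.valuation_le_iff_coeff_lt_eq_zero K, neg_zero, WithZero.exp_zero]
    exact Valuation.mem_valuationSubring_iff _ _
  refine ⟨⟨W.comap ι, ι, fun x => ?_, fun a => hW _, c.π, ?_⟩, fun s a b hb hs => ?_⟩
  · have := hι (algebraMap K A x)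
    rw [AlgHom.commutes] at this
    exact this.trans (HahnSeries.ofPowerSeries_C x)
  · rw [hι, c.jπ, HahnSeries.ofPowerSeries_X]
  · rw [c.mem_m] at hb
    obtain ⟨u, hu⟩ : IsUnit (c.j b) := PowerSeries.isUnit_iff_constantCoeff.2 (IsUnit.mk0 _ hb)
    have h1 := congrArg ι hs
    rw [map_mul, hι, hι, ← hu] at h1
    have h2 : ι s = HahnSeries.ofPowerSeries ℤ K (↑u⁻¹ * c.j a) := by
      rw [map_mul, ← h1, ← mul_assoc, ← map_mul, Units.inv_mul, map_one, one_mul]
    refine (hW (ι s)).2 fun i hi => ?_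
    rw [h2]
    exact (PowerSeries.coeff_coe _ i).trans (if_pos hi)

theorem cv11_ne (I : Inf K E) : I.V ≠ ⊤ := fun e => by
  obtain ⟨π, hπ⟩ := I.uni
  have h1 := (I.mem π⁻¹).1 (e ▸ ValuationSubring.mem_top _) (-1) (by omega)
  rw [map_inv₀, hπ, HahnSeries.inv_single, HahnSeries.coeff_single_same, inv_one] at h1
  exact one_ne_zero h1

theorem cv11_res [IsAlgClosed K] {U : ValuationSubring E} (hK : Cont K U) {a : E} (ha : a ∈ U)
    (f : Polynomial K) : f ≠ 0 → U.valuation (Polynomial.aeval a f) < 1 →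
      ∃ c : K, U.valuation (a - algebraMap K E c) < 1 := by
  have u : ∀ c : K, c ≠ 0 → U.valuation (algebraMap K E c) = 1 := fun c hc => by
    have h1 := (U.valuation_le_one_iff _).2 (hK c)
    have h2 := (U.valuation_le_one_iff _).2 (hK c⁻¹)
    rw [map_inv₀, map_inv₀, inv_le_one₀ (zero_lt_iff.2 (by simpa using hc))] at h2
    exact le_antisymm h1 h2
  intro h0 h1
  by_contra h
  rw [(IsAlgClosed.splits f).eq_prod_roots, map_mul, Polynomial.aeval_C, map_mul,
    u _ (Polynomial.leadingCoeff_ne_zero.2 h0), one_mul, map_multiset_prod, map_multiset_prod,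
    Multiset.prod_eq_one] at h1
  · exact lt_irrefl _ h1
  · simp only [Multiset.map_map, Multiset.mem_map]
    rintro _ ⟨c, -, rfl⟩
    simp only [Function.comp, map_sub, Polynomial.aeval_X, Polynomial.aeval_C]
    exact le_antisymm ((U.valuation_le_one_iff _).2 (sub_mem ha (hK c)))
      (not_lt.1 fun e => h ⟨c, e⟩)

theorem exists_cvd [IsAlgClosed K] (hE : FF K E) (U : ValuationSubring E) (hK : Cont K U)
    (hU : U ≠ ⊤) : ∃ c : Cvd K E, c.I.V = U := by
  obtain ⟨t, ht, hf, hs, htU⟩ : ∃ t : E, Transcendental K t ∧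
      FiniteDimensional (IntermediateField.adjoin K {t}) E ∧
      Algebra.IsSeparable (IntermediateField.adjoin K {t}) E ∧ t ∈ U := by
    obtain ⟨t, ht, hf, hs⟩ := hE.exists_sep
    rcases U.mem_or_inv_mem t with h | h
    · exact ⟨t, ht, hf, hs, h⟩
    · exact ⟨t⁻¹, fun e => ht (inv_inv t ▸ e.inv), p1_inv (k := K) t ▸ hf,
        p1_inv (k := K) t ▸ hs, h⟩
  obtain ⟨A, hA, hF, -, hi, -⟩ := exists_chart ht hf hs
  have hAU : ∀ a : A, algebraMap A E a ∈ U := fun a =>
    p7_int (fun c : Algebra.adjoin K {t} => Algebra.adjoin_induction (p := fun x _ => x ∈ U)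
      (fun _ e => Set.mem_singleton_iff.1 e ▸ htU) hK (fun _ _ _ _ => add_mem)
      (fun _ _ _ _ => mul_mem) c.2) ((hi a).1 a.2)
  obtain ⟨q, h1, h2, h3⟩ := val_eq_loc hAU hU
  obtain ⟨c, hc⟩ := exists_pt_of_max (k := K) q.isMaximal q.ne_bot fun a => by
    obtain ⟨f, f0, f1⟩ := hE.res_alg hK hU (hAU a)
    exact (cv11_res hK (hAU a) f f0 f1).imp fun c hc => (h1 _).2 hc
  obtain ⟨I, hI⟩ := cv11_inf A c
  have hle : U ≤ I.V := fun z hz => by
    obtain ⟨s, hs, a, e⟩ := h3 z hz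
    exact hI z a s (hc ▸ hs) e
  obtain ⟨q', g1, g2, -⟩ := val_eq_loc (fun a => hle (hAU a)) (cv11_ne I)
  have e : q' = q := IsDedekindDomain.HeightOneSpectrum.ext (q'.isMaximal.eq_of_le q.isPrime.ne_top
    fun a ha => (h1 a).2 (U.mem_nonunits_iff.1 (ValuationSubring.nonunits_le_nonunits.2 hle
      (I.V.mem_nonunits_iff.2 ((g1 a).1 ha)))))
  obtain ⟨fr, C, hC⟩ := I.exists_crv hE
  obtain ⟨π, hπ⟩ := I.uni
  exact ⟨⟨I, C, hC, fr, π, hπ⟩, g2.symm.trans (e ▸ h2)⟩

/-- A valuation ring that contains `K[t]` and has `t` as a non-unit. -/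
theorem nonempty_cvd [IsAlgClosed K] (hE : FF K E) : Nonempty (Cvd K E) := by
  obtain ⟨t, ht, hf⟩ := hE
  obtain ⟨σ, hσ⟩ := chevalley (Polynomial.aeval t : Polynomial K →ₐ[K] E)
    (Polynomial.aeval (0 : K)) fun r h => by
      rw [(transcendental_iff.1 ht) r h, map_zero]
  have h1 := hσ Polynomial.X
  rw [Polynomial.aeval_X, Polynomial.aeval_X] at h1
  obtain ⟨c, -⟩ := exists_cvd ⟨t, ht, hf⟩ σ.V (fun c => (σ.alg c).1) fun e =>
    σ.ne_zero h1.1 (fun h => ht (h ▸ isAlgebraic_zero)) (e ▸ ValuationSubring.mem_top _) h1.2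
  exact ⟨c⟩

theorem fg_of_ff (hE : FF K E) : (⊤ : IntermediateField K E).FG := by
  obtain ⟨t, -, hf⟩ := hE
  have : Algebra.EssFiniteType K (IntermediateField.adjoin K {t}) :=
    IntermediateField.essFiniteType_iff.2 ⟨{t}, by simp⟩
  exact IntermediateField.fg_top_iff.2 (Algebra.EssFiniteType.comp K
    (IntermediateField.adjoin K {t}) E)

namespace Cvd

variable (c : Cvd K E)

/-- The functions that are regular away from infinity. -/
abbrev O : Subalgebra K E := Oo K c.I.V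

variable (F Ω) in
/-- The constant extension inside `Ω`. -/
def jj : Ob K c.O F →ₐ[F] Ω :=
  Algebra.TensorProduct.lift (Algebra.ofId F Ω) ((IsScalarTower.toAlgHom K E Ω).comp c.O.val)
    fun _ _ => Commute.all _ _

/-- `V` lies over the affine curve. -/
def Aff (V : ValuationSubring Ω) : Prop := ∀ a ∈ c.O, algebraMap E Ω a ∈ V

/-- `V` lies over infinity. -/
def AtI (V : ValuationSubring Ω) : Prop := V.comap (algebraMap E Ω) = c.I.V

/-- The value at infinity. -/
def plc (k : Type) [Field k] [Algebra k K] [Algebra k E] [IsScalarTower k K E] : Plc k E K where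
  V := c.I.V
  π a := (c.I.ι a).coeff 0
  one := by simp
  add a _ b _ := by simp
  mul a ha b hb := (p7_res c.I).map_mul ⟨a, ha⟩ ⟨b, hb⟩
  inv := by
    intro a _ h
    have h0 : a ≠ 0 := fun e => h (by simp [e])
    rw [p6_mem, p6_inv c.I h0, neg_nonneg]
    exact HahnSeries.order_le_of_coeff_ne_zero h
  alg := by
    intro a
    rw [IsScalarTower.algebraMap_apply k K E, c.I.ιC]
    exact ⟨p7_const c.I _, by simp⟩

theorem plc_ov (k : Type) [Field k] [Algebra k K] [Algebra k E] [IsScalarTower k K E] :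
    (c.plc k).Ov K := by
  intro a
  refine ⟨p7_const c.I _, ?_⟩
  show (c.I.ι _).coeff 0 = _
  rw [c.I.ιC]
  simp

theorem ϖ_ne : c.ϖ ≠ 0 := by
  intro h
  have h1 := c.hϖ
  rw [h, map_zero] at h1
  exact HahnSeries.single_ne_zero one_ne_zero h1.symm

theorem ϖ_mem : c.ϖ ∈ c.I.V := by
  refine (c.I.mem _).2 fun i hi => ?_
  rw [c.hϖ, HahnSeries.coeff_single_of_ne (by omega)]

theorem jj_io (a : c.O) : c.jj F Ω (io K F a) = algebraMap E Ω a := by
  simp [jj, io]

theorem cv12_tmul (b : F) (a : c.O) :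
    c.jj F Ω (TensorProduct.tmul K b a) = algebraMap F Ω b * algebraMap E Ω a := rfl

theorem jj_inj (h : LD K E F Ω) : Function.Injective (c.jj F Ω) := by
  have h1 := h.inj c.O.val (AlgHom.id K F) Subtype.val_injective Function.injective_id
  have e : ∀ z, c.jj F Ω z = Algebra.TensorProduct.productMap
      ((IsScalarTower.toAlgHom K F Ω).comp (AlgHom.id K F))
      ((IsScalarTower.toAlgHom K E Ω).comp c.O.val) z := fun z => by
    induction z using TensorProduct.induction_on with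
    | zero => rw [map_zero, map_zero]
    | tmul b a => rw [c.cv12_tmul]; rfl
    | add x y h1 h2 => rw [map_add, map_add, h1, h2]
  intro x y hxy
  exact h1 (by rw [← e, ← e, hxy])

theorem jj_mem_cmp (z : Ob K c.O F) : c.jj F Ω z ∈ cmp E F Ω := by
  induction z using TensorProduct.induction_on with
  | zero => rw [map_zero]; exact zero_mem _
  | tmul b a => exact mul_mem (right_mem_cmp b) (left_mem_cmp _)
  | add x y h1 h2 => rw [map_add]; exact add_mem h1 h2

theorem exists_frac (h : LD K E F Ω) {s : Ω} (hs : s ∈ cmp E F Ω) :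
    ∃ a b : Ob K c.O F, b ≠ 0 ∧ s * c.jj F Ω b = c.jj F Ω a := by
  have := c.fr
  have := c.C.isDomain (Ω := F)
  have h1 : cmp E F Ω ≤ Subfield.closure ((c.jj F Ω).toRingHom.range : Set Ω) := by
    refine sup_le ?_ ?_
    · rintro _ ⟨x, rfl⟩
      obtain ⟨a, b, -, rfl⟩ := IsFractionRing.div_surjective c.O x
      rw [map_div₀]
      exact div_mem (Subfield.subset_closure ⟨_, c.jj_io a⟩)
        (Subfield.subset_closure ⟨_, c.jj_io b⟩)
    · rintro _ ⟨x, rfl⟩
      exact Subfield.subset_closure ⟨_, (c.jj F Ω).commutes x⟩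
  obtain ⟨y, hy, z, hz, rfl⟩ := Subfield.mem_closure_iff.1 (h1 hs)
  rw [Subring.closure_eq] at hy hz
  obtain ⟨a, rfl⟩ := hy
  obtain ⟨b, rfl⟩ := hz
  by_cases hb : b = 0
  · exact ⟨0, 1, one_ne_zero, by simp [hb]⟩
  · exact ⟨a, b, hb, div_mul_cancel₀ _ ((map_ne_zero_iff _ (c.jj_inj h)).2 hb)⟩

theorem aff_or {V : ValuationSubring Ω} (h : Cont K V) : c.Aff V ∨ c.AtI V := by
  refine or_iff_not_imp_right.2 fun h1 a ha => ha (V.comap (algebraMap E Ω)) (fun x => ?_) h1
  rw [ValuationSubring.mem_comap, ← IsScalarTower.algebraMap_apply]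
  exact h x

variable {c} {V : ValuationSubring Ω}

theorem Aff.jj_mem (h : c.Aff V) (hF : Cont F V) (z : Ob K c.O F) : c.jj F Ω z ∈ V := by
  induction z using TensorProduct.induction_on with
  | zero => rw [map_zero]; exact zero_mem _
  | tmul b a => exact mul_mem (hF b) (h a a.2)
  | add x y h1 h2 => rw [map_add]; exact add_mem h1 h2

theorem AtI.cv12_lt (h : c.AtI V) {a : E} (ha : ∀ i ≤ 0, (c.I.ι a).coeff i = 0) :
    V.valuation (algebraMap E Ω a) < 1 := by
  by_cases h0 : a = 0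
  · simp [h0]
  rw [← ValuationSubring.mem_nonunits_iff, ← inv_inv (algebraMap E Ω a), V.inv_mem_nonunits_iff,
    ← map_inv₀, ← ValuationSubring.mem_comap, h]
  refine Or.inr fun h2 => ?_
  have h3 := (p7_mul (i := 1) (j := 0) (fun i hi => ha i (by omega)) ((c.I.mem _).1 h2)).1 0
    (by omega)
  rw [← map_mul, mul_inv_cancel₀ h0, map_one] at h3
  simp at h3

theorem AtI.lt (h : c.AtI V) : V.valuation (algebraMap E Ω c.ϖ) < 1 := by
  refine h.cv12_lt fun i hi => ?_
  rw [c.hϖ, HahnSeries.coeff_single_of_ne (by omega)]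

/-- For `a ∈ Le0 e` the element `a * ϖ ^ e` lies in `I.V` and is its value `c0 (-e) a` modulo
`ϖ * I.V`; use `Le_eq_span`. -/
theorem AtI.val_lt (h : c.AtI V) (hF : Cont F V) {e : ℕ} {z : Ob K c.O F} (hz : z ∈ c.C.Le F e) :
    V.valuation (c.jj F Ω z * algebraMap E Ω c.ϖ ^ e -
      algebraMap F Ω (c.C.cf F (-(e : ℤ)) z)) < 1 := by
  rw [c.C.Le_eq_span] at hz
  induction hz using Submodule.span_induction with
  | mem z hz =>
    obtain ⟨a, ha, rfl⟩ := hz
    rw [c.jj_io, c.C.cf_io, ← IsScalarTower.algebraMap_apply,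
      IsScalarTower.algebraMap_apply K E Ω, ← map_pow, ← map_mul, ← map_sub]
    refine h.cv12_lt fun i hi => ?_
    have h1 := p7_mul (x := c.C.ι a) (y := HahnSeries.single (e : ℤ) 1) (j := e)
      (c.C.mem_Le0.1 ha) fun j hj => HahnSeries.coeff_single_of_ne hj.ne
    rw [neg_add_cancel, HahnSeries.coeff_single_same, mul_one] at h1
    rw [map_sub, map_mul, map_pow, c.hϖ, c.I.ιC, ← c.hC, HahnSeries.single_pow, one_pow,
      nsmul_one, HahnSeries.coeff_sub]
    rcases hi.lt_or_eq with h2 | rfl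
    · rw [h1.1 i h2, HahnSeries.C_apply, HahnSeries.coeff_single_of_ne h2.ne, sub_zero]
    · rw [h1.2, HahnSeries.C_apply, HahnSeries.coeff_single_same]
      exact sub_self _
  | zero => simp
  | add x y _ _ h1 h2 =>
    rw [map_add, map_add, map_add, add_mul, add_sub_add_comm]
    exact V.valuation.map_add_lt h1 h2
  | smul b x _ h1 =>
    rw [map_smul, map_smul, Algebra.smul_def, smul_eq_mul, map_mul, mul_assoc, ← mul_sub, map_mul]
    exact (mul_le_of_le_one_left' ((V.valuation_le_one_iff _).2 (hF b))).trans_lt h1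

theorem AtI.val_le (h : c.AtI V) (hF : Cont F V) {e : ℕ} {z : Ob K c.O F} (hz : z ∈ c.C.Le F e) :
    V.valuation (c.jj F Ω z) * V.valuation (algebraMap E Ω c.ϖ) ^ e ≤ 1 := by
  rw [← map_pow, ← map_mul, ← sub_add_cancel (c.jj F Ω z * _)
    (algebraMap F Ω (c.C.cf F (-(e : ℤ)) z))]
  exact V.valuation.map_add_le (h.val_lt hF hz).le ((V.valuation_le_one_iff _).2 (hF _))

theorem AtI.val_eq (h : c.AtI V) (hF : Cont F V) {e : ℕ} {z : Ob K c.O F} (hz : c.C.Eg e z) :
    V.valuation (c.jj F Ω z) * V.valuation (algebraMap E Ω c.ϖ) ^ e = 1 := by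
  have h1 : V.valuation (algebraMap F Ω (c.C.cf F (-(e : ℤ)) z)) = 1 := by
    refine le_antisymm ((V.valuation_le_one_iff _).2 (hF _)) ?_
    have h2 := (V.valuation_le_one_iff _).2 (hF (c.C.cf F (-(e : ℤ)) z)⁻¹)
    rwa [map_inv₀, map_inv₀, inv_le_one₀
      (zero_lt_iff.2 (V.valuation.ne_zero_iff.2 ((map_ne_zero _).2 hz.2)))] at h2
  rw [← map_pow, ← map_mul, ← h1]
  exact V.valuation.map_eq_of_sub_lt (h1.symm ▸ h.val_lt hF hz.1)

theorem AtI.mem_Le (h : c.AtI V) (hF : Cont F V) {e : ℕ} {z : Ob K c.O F}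
    (hz : V.valuation (c.jj F Ω z) * V.valuation (algebraMap E Ω c.ϖ) ^ e ≤ 1) :
    z ∈ c.C.Le F e := by
  by_cases h0 : z = 0
  · rw [h0]
    exact zero_mem _
  obtain ⟨d, hd⟩ := c.C.exists_Eg h0
  refine c.C.Le_mono (not_lt.1 fun h1 => ?_) hd.1
  have h2 := h.val_eq hF hd
  obtain ⟨m, rfl⟩ := Nat.exists_eq_add_of_lt h1
  rw [add_assoc, pow_add, ← mul_assoc] at h2
  exact ((mul_le_of_le_one_left' hz).trans_lt (pow_lt_one₀ zero_le h.lt m.succ_ne_zero)).ne h2

variable (c)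

theorem unif (h : LD K E F Ω) {s : Ω} (hs : s ∈ cmp E F Ω) (h0 : s ≠ 0) : ∃ n : ℤ,
    ∀ V : ValuationSubring Ω, Cont F V → c.AtI V →
      V.valuation s = V.valuation (algebraMap E Ω c.ϖ) ^ n := by
  obtain ⟨a, b, hb, e⟩ := c.exists_frac h hs
  have ha : a ≠ 0 := fun h1 => by
    rw [h1, map_zero] at e
    exact mul_ne_zero h0 ((map_ne_zero_iff _ (c.jj_inj h)).2 hb) e
  obtain ⟨m, hm⟩ := c.C.exists_Eg ha
  obtain ⟨n, hn⟩ := c.C.exists_Eg hb
  refine ⟨n - m, fun V hF hV => ?_⟩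
  have h1 := hV.val_eq hF hm
  have h2 := hV.val_eq hF hn
  have h3 : V.valuation (algebraMap E Ω c.ϖ) ≠ 0 :=
    V.valuation.ne_zero_iff.2 ((map_ne_zero _).2 c.ϖ_ne)
  rw [← e, map_mul] at h1
  rw [zpow_sub₀ h3, zpow_natCast, zpow_natCast, eq_div_iff (pow_ne_zero _ h3)]
  apply mul_left_cancel₀ (left_ne_zero_of_mul_eq_one h2)
  rw [h2, ← h1]
  ac_rfl

/-- `LD.exists_ext` (with `k = K`) for the inclusion of `F` and the place at infinity. -/
theorem exists_atI [IsAlgClosed Ω] (h : LD K E F Ω) :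
    ∃ V : ValuationSubring Ω, Cont F V ∧ c.AtI V := by
  obtain ⟨σ, h1, h2⟩ := h.exists_ext (k := K) (Plc.ofHom (IsScalarTower.toAlgHom K F Ω))
    ((Plc.ofHom (Algebra.ofId K Ω)).comp (c.plc K))
    (fun a => ⟨trivial, (IsScalarTower.algebraMap_apply K F Ω a).symm⟩)
    fun a => ((Plc.ofHom (Algebra.ofId K Ω)).comp (c.plc K)).alg a
  exact ⟨σ.V, fun a => (h1 a trivial).1, ValuationSubring.ext _ _ fun a =>
    (h2.mem_iff a).trans ⟨fun h => h.1, fun h => ⟨h, trivial⟩⟩⟩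

/-- `chevalley` over `F`. -/
theorem exists_at [IsAlgClosed F] (h : LD K E F Ω) (q : Ob K c.O F →ₐ[F] F) :
    ∃ V : ValuationSubring Ω, Cont F V ∧ c.Aff V ∧
      ∀ z, V.valuation (c.jj F Ω z) < 1 ↔ q z = 0 := by
  obtain ⟨σ, h1⟩ := chevalley (c.jj F Ω) q fun r hr => by
    rw [c.jj_inj h (hr.trans (map_zero _).symm), map_zero]
  exact ⟨σ.V, fun a => (σ.alg a).1, fun a ha => c.jj_io (F := F) (Ω := Ω) ⟨a, ha⟩ ▸ (h1 _).1,
    fun z => by rw [← σ.ker (h1 z).1, (h1 z).2]⟩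

/-- The ring is a Dedekind domain (`Crv.ded`), `isIntegral_of_val'`, `exists_frac`. -/
theorem mem_range [IsAlgClosed K] [IsAlgClosed F] (h : LD K E F Ω) {s : Ω} (hs : s ∈ cmp E F Ω)
    (h1 : ∀ V : ValuationSubring Ω, Cont F V → c.Aff V → s ∈ V) : ∃ z, c.jj F Ω z = s := by
  let : Algebra (Ob K c.O F) Ω := (c.jj F Ω).toRingHom.toAlgebra
  have := c.C.ded F
  have h2 : IsIntegral (Ob K c.O F) s := isIntegral_of_val' fun V hV => h1 V
    (fun a => (c.jj F Ω).commutes a ▸ hV _) fun a ha => c.jj_io (F := F) (Ω := Ω) ⟨a, ha⟩ ▸ hV _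
  obtain ⟨a, b, hb, e⟩ := c.exists_frac h hs
  let φ : FractionRing (Ob K c.O F) →ₐ[Ob K c.O F] Ω :=
    IsFractionRing.liftAlgHom (g := Algebra.ofId _ Ω) (c.jj_inj h)
  have e2 : φ (algebraMap _ _ a / algebraMap _ _ b) = s := by
    rw [map_div₀, φ.commutes, φ.commutes]
    exact div_eq_of_eq_mul (fun h0 => hb (c.jj_inj h (h0.trans (map_zero _).symm))) e.symm
  rw [← e2, isIntegral_algHom_iff φ φ.toRingHom.injective] at h2
  obtain ⟨z, hz⟩ := IsIntegrallyClosed.isIntegral_iff.1 h2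
  exact ⟨z, by rw [← e2, ← hz, φ.commutes]; rfl⟩

/-- The centre of `V` is a non-zero prime, so maximal with quotient `F` (`cd_gen_max`,
`Crv.fin_quot`). -/
theorem exists_centre [IsAlgClosed K] [IsAlgClosed F] (h : LD K E F Ω) (hF : Cont F V)
    (hV : c.Aff V) {s : Ω} (hs : s ∈ cmp E F Ω) (h0 : s ≠ 0) (h1 : V.valuation s ≠ 1) :
    ∃ q : Ob K c.O F →ₐ[F] F, ∀ z, V.valuation (c.jj F Ω z) < 1 ↔ q z = 0 := by
  have := c.C.ded F
  let g : Ob K c.O F →+* V := (c.jj F Ω).toRingHom.codRestrict V (hV.jj_mem hF)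
  have hm : ∀ z, z ∈ (IsLocalRing.maximalIdeal V).comap g ↔ V.valuation (c.jj F Ω z) < 1 :=
    fun z => V.valuation_lt_one_iff (g z)
  have hb : (IsLocalRing.maximalIdeal V).comap g ≠ ⊥ := fun e => by
    have k : ∀ z, z ≠ 0 → V.valuation (c.jj F Ω z) = 1 := fun z hz =>
      ((V.valuation_le_one_iff _).2 (hV.jj_mem hF z)).eq_or_lt.resolve_right fun h2 =>
        hz (Ideal.mem_bot.1 (e ▸ (hm z).2 h2))
    obtain ⟨a, b, hb, e2⟩ := c.exists_frac h hs
    have h3 := congrArg V.valuation e2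
    rw [map_mul, k b hb, mul_one, k a] at h3
    · exact h1 h3
    · rintro rfl
      exact mul_ne_zero h0 (fun h4 => hb (c.jj_inj h (h4.trans (map_zero _).symm)))
        (e2.trans (map_zero _))
  have := c.C.fin_quot hb
  obtain ⟨-, q, hq⟩ := Crv.cd_gen_max (L := F) (Ideal.IsPrime.isMaximal inferInstance hb)
  exact ⟨q, fun z => (hm z).symm.trans (hq z).symm⟩

/-- `exists_indep`. -/
theorem gs_rep {W : ValuationSubring Ω} (hW : Gs K E F W) {z : Ob K c.O F} (hz : c.jj F Ω z ∈ W) :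
    ∃ (m : ℕ) (β : Fin m → F) (a : Fin m → c.O), (∀ i, algebraMap F Ω (β i) ∈ W) ∧
      z = ∑ i, β i • io K F (a i) := by
  obtain ⟨m, β, a, ha, rfl⟩ := exists_indep z
  refine ⟨m, β, a, fun i => ?_, by simp only [smul_io]⟩
  have h1 := hW.2 m _ (ha.map' c.O.val.toLinearMap
    (LinearMap.ker_eq_bot.2 Subtype.val_injective)) β
  refine (W.valuation_le_one_iff _).1 ((le_nv (u := fun i => algebraMap F Ω (β i)) i).trans ?_)
  rw [← h1, W.valuation_le_one_iff]
  rw [map_sum] at hz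
  exact hz

/-- Write each `s` as a quotient of elements of `O` and let `t` be the inverse of the product of
all numerators and denominators (`p7_pole`). -/
theorem exists_excl (S : Finset E) (hS : ∀ s ∈ S, s ≠ 0) : ∃ t ∈ c.I.V,
    ∀ U : ValuationSubring E, Cont K U → t ∈ U → U = c.I.V ∨ ∀ s ∈ S, U.valuation s = 1 := by
  classical
  have := c.fr
  obtain ⟨p, hp⟩ := IsLocalization.exist_integer_multiples_of_finset (nonZeroDivisors c.O)
    (S ∪ S.image (·⁻¹))
  have h0 : ((p : c.O) : E) ≠ 0 := fun e => nonZeroDivisors.ne_zero p.2 (Subtype.ext e)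
  refine ⟨((p : c.O) : E)⁻¹, (c.I.V.mem_or_inv_mem _).elim (fun h => (c.plc K).inv _ h fun e =>
    h0 (p7_neg c.I p.1.2 fun i hi => hi.eq_or_lt.elim (fun e' => e' ▸ e) ((c.I.mem _).1 h i))) id,
    fun U hU ht => or_iff_not_imp_left.2 fun hn s hs => ?_⟩
  have k : ∀ x ∈ S ∪ S.image (·⁻¹), U.valuation x ≤ 1 := fun x hx => by
    obtain ⟨y, hy⟩ := hp x hx
    rw [U.valuation_le_one_iff, ← inv_mul_cancel_left₀ h0 x]
    exact mul_mem ht ((show (y : E) = _ * x from hy) ▸ y.2 U hU hn)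
  refine (k s (Finset.mem_union_left _ hs)).antisymm ?_
  have := k _ (Finset.mem_union_right _ (Finset.mem_image_of_mem _ hs))
  rwa [map_inv₀, inv_le_one₀ (zero_lt_iff.2 ((Valuation.ne_zero_iff _).2 (hS s hs)))] at this

/-- `Crv.big`. -/
theorem exists_pole : ∃ t ∈ c.O, t ≠ 0 ∧ c.I.V.valuation t ≠ 1 := by
  obtain ⟨a, h1, -⟩ := c.C.big (c.C.g0 + 1) (by omega)
  have h2 : (a : E) ∉ c.I.V := fun h => by
    rw [c.hC, (c.I.mem _).1 h _ (by omega)] at h1
    exact zero_ne_one h1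
  exact ⟨a, a.2, fun e => h2 (e ▸ zero_mem _), fun e => h2 ((c.I.V.valuation_le_one_iff _).1 e.le)⟩

/-- `Crv.finiteType`. -/
theorem exists_gens : ∃ T : Finset E, (∀ t ∈ T, t ∈ c.O) ∧ ∀ V : ValuationSubring Ω, Cont K V →
    (∀ t ∈ T, algebraMap E Ω t ∈ V) → c.Aff V := by
  classical
  obtain ⟨T, hT⟩ := c.C.finiteType.out
  refine ⟨T.image Subtype.val, fun t ht => ?_, fun V hV h a ha => ?_⟩
  · obtain ⟨t, -, rfl⟩ := Finset.mem_image.1 ht
    exact t.2
  have h1 : (⟨a, ha⟩ : c.O) ∈ Algebra.adjoin K (T : Set c.O) := hT ▸ Algebra.mem_top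
  refine Algebra.adjoin_induction (p := fun (x : c.O) _ => algebraMap E Ω x ∈ V)
    (fun x hx => h _ (Finset.mem_image_of_mem _ hx)) (fun r => ?_) (fun x y _ _ hx hy => ?_)
    (fun x y _ _ hx hy => ?_) h1
  · exact (IsScalarTower.algebraMap_apply K E Ω r) ▸ hV r
  · exact (map_add (algebraMap E Ω) x.1 y.1).symm ▸ add_mem hx hy
  · exact (map_mul (algebraMap E Ω) x.1 y.1).symm ▸ mul_mem hx hy

end Cvd

end

end Pool.Agent.Lib.MP_651af7_nt.Cu
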