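import Pool.Agent.Lib.MP_651af7_nt.Cu.Grp

/-! Values of formal sums of points; specialisation, descent, local equations. -/

namespace Pool.Agent.Lib.MP_651af7_nt.Cu

open MvPolynomial Av

set_option linter.unusedSectionVars false

noncomputable section

namespace GA

section cub

variable {G H : Type} [AddCommGroup G] [AddCommGroup H]

theorem cub_map (f : G →+ H) (x y z : G) : (cub x y z).mapDomain f = cub (f x) (f y) (f z) := by
  simp only [cub, ← Finsupp.mapDomain.addMonoidHom_apply, map_sub, map_add]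
  simp only [Finsupp.mapDomain.addMonoidHom_apply, Finsupp.mapDomain_single, map_add, map_zero]

theorem cub_zero₁ (y z : G) : cub 0 y z = 0 := by
  simp only [cub, zero_add]
  abel

theorem cub_zero₂ (x z : G) : cub x 0 z = 0 := by
  simp only [cub, zero_add, add_zero]
  abel

theorem cub_zero₃ (x y : G) : cub x y 0 = 0 := by
  simp only [cub, add_zero]
  abel

theorem mem_cub {x y z p : G} (h : p ∈ (cub x y z).support) : p = x + y + z ∨ p = x ∨ p = y ∨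
    p = z ∨ p = x + y ∨ p = x + z ∨ p = y + z ∨ p = 0 := by
  by_contra hc
  simp only [not_or] at hc
  simp [cub, Finsupp.single_eq_of_ne, hc] at h

end cub

variable {k ι : Type} [Field k] [Fintype ι] {A : GA k ι} {Ω Ω' K : Type} [Field Ω]
  [Algebra k Ω] [Field Ω'] [Algebra k Ω'] [Field K] [Algebra K Ω] {V : ValuationSubring Ω}
  {D D' : A.Pt Ω →₀ ℤ}

theorem nv_nc_ne (V : ValuationSubring Ω) (p : A.Pt Ω) : nv V (nc p) ≠ 0 :=
  nv_ne_zero (rep_nc p).ne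

theorem hv_ne (V : ValuationSubring Ω) (D : A.Pt Ω →₀ ℤ) : hv V D ≠ 0 :=
  Finset.prod_ne_zero_iff.2 fun p _ => zpow_ne_zero _ (nv_nc_ne V p)

theorem hv_zero : hv V (0 : A.Pt Ω →₀ ℤ) = 1 :=
  Finsupp.prod_zero_index

theorem hv_single (p : A.Pt Ω) (n : ℤ) : hv V (Finsupp.single p n) = nv V (nc p) ^ n :=
  Finsupp.prod_single_index (zpow_zero _)

theorem hv_add : hv V (D + D') = hv V D * hv V D' :=
  Finsupp.prod_add_index' (fun _ => zpow_zero _) fun p _ _ => zpow_add₀ (nv_nc_ne V p) _ _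

theorem hv_neg : hv V (-D) = (hv V D)⁻¹ :=
  eq_inv_of_mul_eq_one_right (by rw [← hv_add, add_neg_cancel, hv_zero])

theorem hv_sub : hv V (D - D') = hv V D / hv V D' := by
  rw [sub_eq_add_neg, hv_add, hv_neg, div_eq_mul_inv]

theorem hv_nsmul (n : ℕ) : hv V (n • D) = hv V D ^ n := by
  induction n with
  | zero => rw [zero_nsmul, hv_zero, pow_zero]
  | succ n ih => rw [succ_nsmul, hv_add, ih, pow_succ]

theorem hv_mapDomain {G : Type} (f : G → A.Pt Ω) (D : G →₀ ℤ) :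
    hv V (D.mapDomain f) = D.prod fun p n => nv V (nc (f p)) ^ n :=
  Finsupp.prod_mapDomain_index (fun _ => zpow_zero _) fun p _ _ => zpow_add₀ (nv_nc_ne V p) _ _

theorem Rat.neg {Λ : Subfield Ω} (h : Rat Λ D) : Rat Λ (-D) :=
  fun p hp => h p (Finsupp.support_neg D ▸ hp)

theorem Rat.nsmul {Λ : Subfield Ω} (h : Rat Λ D) (n : ℕ) : Rat Λ (n • D) :=
  fun p hp => h p (Finsupp.support_smul hp)

theorem Rat.add {Λ : Subfield Ω} (h : Rat Λ D) (h' : Rat Λ D') : Rat Λ (D + D') := by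
  classical
  exact fun p hp => (Finset.mem_union.1 (Finsupp.support_add hp)).elim (h p) (h' p)

theorem rat_cub {Λ : Subfield Ω} (hk : ∀ c : k, algebraMap k Ω c ∈ Λ) {x y z : A.Pt Ω}
    (hx : ∀ a, nc x a ∈ Λ) (hy : ∀ a, nc y a ∈ Λ) (hz : ∀ a, nc z a ∈ Λ) :
    Rat Λ (cub x y z) := by
  intro p hp
  rcases mem_cub hp with rfl | rfl | rfl | rfl | rfl | rfl | rfl | rfl
  exacts [nc_add_mem hk (nc_add_mem hk hx hy) hz, hx, hy, hz, nc_add_mem hk hx hy,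
    nc_add_mem hk hx hz, nc_add_mem hk hy hz, nc_zero_mem hk]

/-- `g` is a product of powers of maximal entries. It also works for every `W` that contains
`V ∩ Λ`: the quotients of the entries by the maximal one lie in `V ∩ Λ`. -/
theorem exists_hv (V : ValuationSubring Ω) {Λ : Subfield Ω} (h : Rat Λ D) :
    ∃ g ∈ Λ, g ≠ 0 ∧ ∀ W : ValuationSubring Ω, (∀ s ∈ Λ, s ∈ V → s ∈ W) →
      W.valuation g = hv W D := by
  choose a ha using fun p : A.Pt Ω => @exists_nv _ _ _ _ ⟨idx p⟩ V (nc p)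
  have h0 : ∀ p, nc p (a p) ≠ 0 := fun p e => nv_nc_ne V p (by rw [ha, e, map_zero])
  have hd : ∀ (U : ValuationSubring Ω) p b, nc p b / nc p (a p) ∈ U ↔
      U.valuation (nc p b) ≤ U.valuation (nc p (a p)) := fun U p b => by
    rw [← U.valuation_le_one_iff, map_div₀, div_le_one₀ (zero_lt_iff.2 ((map_ne_zero _).2 (h0 p)))]
  refine ⟨D.prod fun p n => nc p (a p) ^ n, prod_mem fun p hp => zpow_mem (h p hp _) _,
    Finset.prod_ne_zero_iff.2 fun p _ => zpow_ne_zero _ (h0 p), fun W hW => ?_⟩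
  rw [map_finsuppProd]
  refine Finsupp.prod_congr fun p hp => ?_
  rw [map_zpow₀, le_antisymm (le_nv _) (nv_le_iff.2 fun b => (hd W p b).1
    (hW _ (div_mem (h p hp _) (h p hp _)) ((hd V p b).2 (ha p ▸ le_nv b))))]

theorem hv_eq_one {Λ : Subfield Ω} (h : Rat Λ D) (hV : ∀ s ∈ Λ, s ∈ V) : hv V D = 1 :=
  Finset.prod_eq_one fun p hp => by
    simp only [nv_eq_one (fun a => hV _ (h p hp a)) ⟨idx p, by rw [nc_idx, map_one]⟩, one_zpow]

theorem Pr.zero : Pr K (0 : A.Pt Ω →₀ ℤ) :=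
  ⟨1, one_ne_zero, fun V _ => by rw [hv_zero, map_one]⟩

theorem Pr.add (h : Pr K D) (h' : Pr K D') : Pr K (D + D') := by
  obtain ⟨f, h0, hf⟩ := h
  obtain ⟨g, h1, hg⟩ := h'
  exact ⟨f * g, mul_ne_zero h0 h1, fun V hV => by rw [hv_add, map_mul, hf V hV, hg V hV]⟩

theorem Pr.neg (h : Pr K D) : Pr K (-D) := by
  obtain ⟨f, h0, hf⟩ := h
  exact ⟨f⁻¹, inv_ne_zero h0, fun V hV => by rw [hv_neg, map_inv₀, hf V hV]⟩

theorem Pr.nsmul (h : Pr K D) (n : ℕ) : Pr K (n • D) := by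
  obtain ⟨f, h0, hf⟩ := h
  exact ⟨f ^ n, pow_ne_zero n h0, fun V hV => by rw [hv_nsmul, map_pow, hf V hV]⟩

theorem Pr.root [IsAlgClosed Ω] {n : ℕ} (hn : 0 < n) (h : Pr K (n • D)) : Pr K D := by
  obtain ⟨f, h0, hf⟩ := h
  obtain ⟨g, rfl⟩ := IsAlgClosed.exists_pow_nat_eq f hn
  exact ⟨g, fun e => h0 (by rw [e, zero_pow hn.ne']), fun V hV =>
    (pow_left_inj₀ zero_le zero_le hn.ne').1 (by rw [← map_pow, hf V hV, hv_nsmul])⟩

theorem Pr.mono {K' : Type} [Field K'] [Algebra K' Ω]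
    (hK : ∀ V : ValuationSubring Ω, Cont K' V → Cont K V) (h : Pr K D) : Pr K' D :=
  h.imp fun _ hf => ⟨hf.1, fun V hV => hf.2 V (hK V hV)⟩

/-- `m` normalises `D` at the place `σ`. -/
structure Nrm (σ : Plc k Ω Ω') (D : A.Pt Ω →₀ ℤ) (m : Ω) : Prop where
  ne : m ≠ 0
  rat : ∀ Λ : Subfield Ω, Rat Λ D → m ∈ Λ
  one : σ.V.valuation m * hv σ.V D = 1
  le : ∀ f, f * m ∈ σ.V → ∀ U, (σ.pull U).valuation f ≤ hv (σ.pull U) D ↔
    U.valuation (σ.π (f * m)) ≤ hv U (D.mapDomain (red σ))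
  lt : ∀ f, f * m ∈ σ.V → ∀ U, (σ.pull U).valuation f < hv (σ.pull U) D ↔
    U.valuation (σ.π (f * m)) < hv U (D.mapDomain (red σ))
  eq : ∀ f, f * m ∈ σ.V → ∀ U, (σ.pull U).valuation f = hv (σ.pull U) D ↔
    U.valuation (σ.π (f * m)) = hv U (D.mapDomain (red σ))

/-- Coordinates of `p` that reduce to the normalised coordinates of the reduction. -/
def un (σ : Plc k Ω Ω') (p : A.Pt Ω) (a : ι) : Ω := nc p a / nc p (idx (red σ p))

/-- Compare with the vector of `exists_uni`. -/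
theorem un_spec (σ : Plc k Ω Ω') (p : A.Pt Ω) : nc p (idx (red σ p)) ≠ 0 ∧ Rep p (un σ p) ∧
    (∀ a, un σ p a ∈ σ.V) ∧ ∀ a, σ.π (un σ p a) = nc (red σ p) a := by
  obtain ⟨v, hv, h1, a₀, h2⟩ := exists_uni p σ.V
  have hr := hv.red σ h1 ⟨a₀, by rw [h2, σ.one]; exact one_ne_zero⟩
  have hi : σ.π (v (idx (red σ p))) ≠ 0 := hr.idx_ne
  have h0 : v (idx (red σ p)) ≠ 0 := fun e => hi (e ▸ σ.zero)
  have hu : ∀ a, un σ p a = v a / v (idx (red σ p)) := fun a => by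
    rw [un, hv.nc_eq, hv.nc_eq, div_div_div_cancel_right₀ hv.idx_ne]
  refine ⟨hv.nc_eq _ ▸ div_ne_zero h0 hv.idx_ne, hv.of_prop (fun a => (hu a).trans
    (div_eq_inv_mul _ _)) ⟨idx (red σ p), by rw [hu, div_self h0]; exact one_ne_zero⟩,
    fun a => hu a ▸ (σ.map_div (h1 a) (h1 _) hi).1, fun a => ?_⟩
  rw [hu, (σ.map_div (h1 a) (h1 _) hi).2, hr.nc_eq]

theorem hv2_prod (σ : Plc k Ω Ω') (D : A.Pt Ω →₀ ℤ) (W : ValuationSubring Ω) :
    W.valuation (D.prod fun p n => (nc p (idx (red σ p)))⁻¹ ^ n) * hv W D =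
      D.prod fun p n => nv W (un σ p) ^ n := by
  rw [hv, Finsupp.prod, Finsupp.prod, Finsupp.prod, map_prod, ← Finset.prod_mul_distrib]
  refine Finset.prod_congr rfl fun p _ => ?_
  rw [map_zpow₀, ← mul_zpow, ← nv_smul]
  simp only [← div_eq_inv_mul]
  rfl

theorem hv2_max (σ : Plc k Ω Ω') (U : ValuationSubring Ω') (p : A.Pt Ω) :
    ∃ z ∈ σ.V, σ.π z ≠ 0 ∧ (σ.pull U).valuation z = nv (σ.pull U) (un σ p) ∧
      U.valuation (σ.π z) = nv U (nc (red σ p)) := by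
  obtain ⟨-, -, h1, h2⟩ := un_spec σ p
  have : Nonempty ι := ⟨idx p⟩
  obtain ⟨a, ha⟩ := exists_nv U (nc (red σ p))
  rw [← h2] at ha
  have h0 : σ.π (un σ p a) ≠ 0 := (Valuation.ne_zero_iff _).1 (ha ▸ nv_nc_ne U _)
  refine ⟨un σ p a, h1 a, h0, le_antisymm (le_nv a) (nv_le_iff.2 fun b => ?_), ha.symm⟩
  rw [σ.pull_val_le U (h1 b) (h1 a) h0, ← ha, h2]
  exact le_nv b

theorem hv2_gen (σ : Plc k Ω Ω') (D : A.Pt Ω →₀ ℤ) (U : ValuationSubring Ω') :
    ∃ g ∈ σ.V, σ.π g ≠ 0 ∧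
      (σ.pull U).valuation g = D.prod (fun p n => nv (σ.pull U) (un σ p) ^ n) ∧
      U.valuation (σ.π g) = hv U (D.mapDomain (red σ)) := by
  choose z h1 h2 h3 h4 using hv2_max (A := A) σ U
  have h5 := fun p => σ.map_zpow (h1 p) (h2 p) (D p)
  have h6 : σ.π (∏ p ∈ D.support, z p ^ D p) = ∏ p ∈ D.support, σ.π (z p) ^ D p :=
    (σ.map_prod _ fun p _ => (h5 p).1).trans (Finset.prod_congr rfl fun p _ => (h5 p).2)
  refine ⟨∏ p ∈ D.support, z p ^ D p, prod_mem fun p _ => (h5 p).1, ?_, ?_, ?_⟩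
  · exact h6 ▸ Finset.prod_ne_zero_iff.2 fun p _ => zpow_ne_zero _ (h2 p)
  · rw [map_prod]
    exact Finset.prod_congr rfl fun p _ => by rw [map_zpow₀, h3]
  · rw [h6, map_prod, hv_mapDomain]
    exact Finset.prod_congr rfl fun p _ => by rw [map_zpow₀, h4]

/-- `m = ∏ (nc p (idx (red σ p))) ^ (-D p)`. For given `U` let `g = ∏ (un σ p (a p)) ^ D p` with
`a p` maximal for `nc (red σ p)` at `U`; it is maximal for `un σ p` at `σ.pull U`
(`Plc.pull_val_le`). Then `v m * hv = v g` at `σ.pull U` and `v (π g) = hv` at `U`. -/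
theorem exists_nrm (σ : Plc k Ω Ω') (D : A.Pt Ω →₀ ℤ) : ∃ m, Nrm σ D m := by
  have h0 : (D.prod fun p n => (nc p (idx (red σ p)))⁻¹ ^ n) ≠ 0 :=
    Finset.prod_ne_zero_iff.2 fun p _ => zpow_ne_zero _ (inv_ne_zero (un_spec σ p).1)
  have hp : ∀ W : ValuationSubring Ω,
      0 < W.valuation (D.prod fun p n => (nc p (idx (red σ p)))⁻¹ ^ n) := fun W =>
    zero_lt_iff.2 ((Valuation.ne_zero_iff _).2 h0)
  refine ⟨_, h0, fun Λ h => prod_mem fun p hp => zpow_mem (inv_mem (h p hp _)) _, ?_,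
    fun f hf U => ?_, fun f hf U => ?_, fun f hf U => ?_⟩
  · rw [hv2_prod]
    refine Finset.prod_eq_one fun p _ => ?_
    have h1 := nv_eq_one (un_spec σ p).2.2.1 ⟨idx (red σ p), by
      rw [un, div_self (un_spec σ p).1, map_one]⟩
    simp only [h1, one_zpow]
  · obtain ⟨g, h1, h2, h3, h4⟩ := hv2_gen σ D U
    rw [← h4, ← σ.pull_val_le U hf h1 h2, h3, ← hv2_prod, map_mul, mul_comm,
      mul_le_mul_iff_right₀ (hp _)]
  · obtain ⟨g, h1, h2, h3, h4⟩ := hv2_gen σ D U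
    rw [← h4, ← σ.pull_val_lt U hf h1 h2, h3, ← hv2_prod, map_mul, mul_comm,
      mul_lt_mul_iff_right₀ (hp _)]
  · obtain ⟨g, h1, h2, h3, h4⟩ := hv2_gen σ D U
    rw [← h4, ← σ.pull_val_eq U hf h1 h2, h3, ← hv2_prod, map_mul, mul_comm,
      mul_right_inj' (hp _).ne']

theorem Pr.red [Algebra K Ω'] {σ : Plc k Ω Ω'} (hσ : σ.Ov K) (h : Pr K D) :
    Pr K (D.mapDomain (red σ)) := by
  obtain ⟨f, -, hf⟩ := h
  obtain ⟨m, hm⟩ := exists_nrm σ D
  have h1 : σ.V.valuation (f * m) = 1 := by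
    rw [map_mul, hf σ.V fun c => (hσ c).1, mul_comm, hm.one]
  have h2 : f * m ∈ σ.V := (σ.V.valuation_le_one_iff _).1 h1.le
  exact ⟨σ.π (f * m), (σ.val_eq_one h2).1 h1,
    fun U hU => (hm.eq f h2 U).1 (hf _ (hσ.cont_pull hU))⟩

theorem hv3_norm {F L : Type} [Field F] [Field L] [Algebra F L] [Algebra L Ω] [Algebra F Ω]
    [IsScalarTower F L Ω] (V : ValuationSubring Ω) {x : L} (h : ∀ W : ValuationSubring Ω,
      (∀ s : F, algebraMap F Ω s ∈ V → algebraMap F Ω s ∈ W) → algebraMap L Ω x ∈ W) :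
    algebraMap F Ω (Algebra.norm F x) ∈ V :=
  mem_of_isIntegral (R := V.comap (algebraMap F Ω)) (fun r => r.2)
    (Algebra.isIntegral_norm F ((isIntegral_algebraMap_iff (algebraMap L Ω).injective).1
      (isIntegral_of_val' fun W hW => h W fun s hs => hW ⟨s, hs⟩))).algebraMap

theorem Pr.descend {Λ : Subfield Ω} (hK : ∀ c : K, algebraMap K Ω c ∈ Λ) (hD : Rat Λ D)
    (h : Pr K D) : ∃ n : ℕ, 0 < n ∧ ∃ φ ∈ Λ, φ ≠ 0 ∧
      ∀ V : ValuationSubring Ω, Cont K V → V.valuation φ = hv V (n • D) := by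
  obtain ⟨f, h0, h⟩ := h
  have h1 : IsIntegral Λ f := isIntegral_of_val' fun V hV => (V.valuation_le_one_iff f).1
    ((h V fun c => hV ⟨_, hK c⟩).trans (hv_eq_one hD fun s hs => hV ⟨s, hs⟩)).le
  have := IntermediateField.adjoin.finiteDimensional h1
  let L := IntermediateField.adjoin Λ {f}
  let x : L := IntermediateField.AdjoinSimple.gen Λ f
  have hx : x ≠ 0 := fun e => h0 (congrArg Subtype.val e)
  refine ⟨Module.finrank Λ L, Module.finrank_pos, _, (Algebra.norm Λ x).2,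
    fun e => Algebra.norm_ne_zero_iff.2 hx (Subtype.ext e), fun V hV => ?_⟩
  obtain ⟨g, hg, hg0, h2⟩ := exists_hv V hD
  have h3 : algebraMap Λ L ⟨g, hg⟩ ≠ 0 := fun e => hg0 (congrArg Subtype.val e)
  have h4 : ∀ W : ValuationSubring Ω, (∀ s : Λ, algebraMap Λ Ω s ∈ V → algebraMap Λ Ω s ∈ W) →
      W.valuation (algebraMap L Ω (x / algebraMap Λ L ⟨g, hg⟩)) = 1 := fun W hW => by
    rw [map_div₀, map_div₀, div_eq_one_iff_eq ((Valuation.ne_zero_iff _).2 (by exact hg0))]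
    exact (h W fun c => hW ⟨_, hK c⟩ (hV c)).trans (h2 W fun s hs => hW ⟨s, hs⟩).symm
  have h5 := (V.valuation_le_one_iff _).2
    (hv3_norm V fun W hW => (W.valuation_le_one_iff _).1 (h4 W hW).le)
  have h6 := (V.valuation_le_one_iff _).2 (hv3_norm V (x := (x / algebraMap Λ L ⟨g, hg⟩)⁻¹)
    fun W hW => (W.valuation_le_one_iff _).1 (by rw [map_inv₀, map_inv₀, h4 W hW, inv_one]))
  rw [Algebra.norm_inv, map_inv₀, map_inv₀, inv_le_one₀ (zero_lt_iff.2 ((Valuation.ne_zero_iff _).2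
    ((map_ne_zero _).2 (Algebra.norm_ne_zero_iff.2 (div_ne_zero hx h3)))))] at h6
  rw [hv_nsmul, ← h2 V fun _ _ e => e, ← div_mul_cancel₀ x h3, map_mul, Algebra.norm_algebraMap]
  exact (map_mul V.valuation _ _).trans ((congrArg₂ (· * ·) (h5.antisymm h6)
    (map_pow V.valuation g _)).trans (one_mul _))

theorem hv3_one {S : Subalgebra k Ω} {P : Ideal S} {p : A.Pt Ω} (hp : Reg S P p) (n : ℤ) :
    ∃ γ : Ω, γ ≠ 0 ∧ (∀ Λ : Subfield Ω, (∀ s ∈ S, s ∈ Λ) → γ ∈ Λ) ∧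
      ∀ V : ValuationSubring Ω, (∀ s ∈ S, s ∈ V) → V.valuation γ * nv V (nc p) ^ n ≤ 1 ∧
        ((∀ s : S, s ∉ P → V.valuation (s : Ω) = 1) → V.valuation γ * nv V (nc p) ^ n = 1) := by
  obtain ⟨ξ, h1, a, h2⟩ := hp
  obtain ⟨c, h3, h4⟩ := (rep_nc p).exists_smul h1
  have h5 : ∀ V : ValuationSubring Ω, V.valuation c * nv V (nc p) = nv V fun b => (ξ b : Ω) :=
    fun V => by rw [← nv_smul, funext h4]
  have h6 : ∀ V : ValuationSubring Ω, (∀ s ∈ S, s ∈ V) → (∀ s : S, s ∉ P →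
      V.valuation (s : Ω) = 1) → V.valuation c * nv V (nc p) = 1 := fun V hV hP =>
    (h5 V).trans (nv_eq_one (fun b => hV _ (ξ b).2) ⟨a, hP _ h2⟩)
  obtain ⟨m, rfl | rfl⟩ := n.eq_nat_or_neg
  · refine ⟨c ^ m, pow_ne_zero m h3, fun Λ h => pow_mem ?_ m, fun V hV => ?_⟩
    · simpa [h4, nc_idx] using h _ (ξ (idx p)).2
    · rw [zpow_natCast, map_pow, ← mul_pow]
      exact ⟨pow_le_one' ((h5 V).trans_le (nv_le_iff.2 fun b =>
        (V.valuation_le_one_iff _).2 (hV _ (ξ b).2))) m, fun hP => by rw [h6 V hV hP, one_pow]⟩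
  · refine ⟨nc p a ^ m, pow_ne_zero m fun e => h2 ?_, fun Λ h =>
      pow_mem (h1.nc_mem (fun b => h _ (ξ b).2) a) m, fun V hV => ?_⟩
    · rw [show ξ a = 0 from Subtype.ext (by rw [h4, e, mul_zero]; rfl)]
      exact zero_mem P
    · rw [zpow_neg, zpow_natCast, map_pow, ← div_eq_mul_inv, ← div_pow]
      refine ⟨pow_le_one' (div_le_one_of_le₀ (le_nv a) zero_le) m, fun hP => ?_⟩
      rw [(div_eq_one_iff_eq (nv_nc_ne V p)).2 (mul_left_cancel₀
        (V.valuation.ne_zero_iff.2 h3) ?_), one_pow]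
      rw [h6 V hV hP, ← map_mul, ← h4, hP _ h2]

theorem exists_loc (S : Subalgebra k Ω) (P : Ideal S) (hD : ∀ p ∈ D.support, Reg S P p) :
    ∃ γ : Ω, γ ≠ 0 ∧ (∀ Λ : Subfield Ω, (∀ s ∈ S, s ∈ Λ) → γ ∈ Λ) ∧
      (∀ V : ValuationSubring Ω, (∀ s ∈ S, s ∈ V) → V.valuation γ * hv V D ≤ 1) ∧
      ∀ V : ValuationSubring Ω, (∀ s ∈ S, s ∈ V) → (∀ s : S, s ∉ P → V.valuation (s : Ω) = 1) →
        V.valuation γ * hv V D = 1 := by
  choose! γ h1 h2 h3 using fun p hp => hv3_one (hD p hp) (D p)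
  have h4 : ∀ V : ValuationSubring Ω, V.valuation (∏ p ∈ D.support, γ p) * hv V D =
      ∏ p ∈ D.support, V.valuation (γ p) * nv V (nc p) ^ D p := fun V => by
    rw [map_prod, Finset.prod_mul_distrib, hv, Finsupp.prod]
  exact ⟨∏ p ∈ D.support, γ p, Finset.prod_ne_zero_iff.2 h1,
    fun Λ h => prod_mem fun p hp => h2 p hp Λ h,
    fun V h => (h4 V).trans_le (Finset.prod_le_one' fun p hp => (h3 p hp V h).1),
    fun V h h' => (h4 V).trans (Finset.prod_eq_one fun p hp => (h3 p hp V h).2 h')⟩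

end GA

end

end Pool.Agent.Lib.MP_651af7_nt.Cu
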