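import Pool.Agent.Lib.MP_651af7_nt.Cu.Cv1
import Pool.Agent.Lib.MP_651af7_nt.Cu.Hv

/-! Degrees and the inequality of Riemann. -/

namespace Pool.Agent.Lib.MP_651af7_nt.Cu

open Pool.Agent.HZ

set_option linter.unusedSectionVars false

noncomputable section

variable {K E F Ω : Type} [Field K] [Field E] [Field F] [Field Ω] [Algebra K E] [Algebra K F]
  [Algebra K Ω] [Algebra E Ω] [Algebra F Ω] [IsScalarTower K E Ω] [IsScalarTower K F Ω]
  [IsAlgClosed K] [IsAlgClosed F]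

namespace Cvd

variable (c : Cvd K E)

/-- The divisor `L` is given by the fractional ideal `J / h` and the order `s` at infinity. -/
structure Pres (L : ∀ V : ValuationSubring Ω, V.ValueGroup) (J : Ideal (Ob K c.O F))
    (h : Ob K c.O F) (s : ℤ) : Prop where
  J0 : J ≠ ⊥
  h0 : h ≠ 0
  le : ∀ V, Cont F V → c.Aff V → ∀ z ∈ J,
    V.valuation (c.jj F Ω z) ≤ L V * V.valuation (c.jj F Ω h)
  eq : ∀ V, Cont F V → c.Aff V → ∃ z ∈ J,
    V.valuation (c.jj F Ω z) = L V * V.valuation (c.jj F Ω h)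
  inf : ∀ V, Cont F V → c.AtI V →
    L V * V.valuation (c.jj F Ω h) * V.valuation (algebraMap E Ω c.ϖ) ^ s = 1

variable (F) in
/-- The divisor `L` has degree `d`. -/
def Deg (L : ∀ V : ValuationSubring Ω, V.ValueGroup) (d : ℤ) : Prop :=
  ∃ (J : Ideal (Ob K c.O F)) (h : Ob K c.O F) (s : ℤ), c.Pres L J h s ∧ d = s - cd J

variable {c} {L L' : ∀ V : ValuationSubring Ω, V.ValueGroup} {d d' : ℤ}

theorem deg_one : c.Deg F (fun V : ValuationSubring Ω => (1 : V.ValueGroup)) 0 := by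
  have := c.C.isDomain (Ω := F)
  refine ⟨⊤, 1, 0, ⟨top_ne_bot, one_ne_zero, fun V hF hV z _ => ?_,
    fun V _ _ => ⟨1, trivial, by simp⟩, fun V _ _ => by simp⟩, by simp [Crv.cd_top]⟩
  simpa using (V.valuation_le_one_iff _).2 (hV.jj_mem hF z)

/-- `Crv.cd_mul`, `Submodule.mul_induction_on`. -/
theorem Deg.mul (h : c.Deg F L d) (h' : c.Deg F L' d') :
    c.Deg F (fun V => L V * L' V) (d + d') := by
  have := c.C.isDomain (Ω := F)
  obtain ⟨J, a, s, h, rfl⟩ := h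
  obtain ⟨J', a', s', h', rfl⟩ := h'
  refine ⟨J * J', a * a', s + s', ⟨mul_ne_zero h.J0 h'.J0, mul_ne_zero h.h0 h'.h0,
    fun V hF hV z hz => ?_, fun V hF hV => ?_, fun V hF hV => ?_⟩, ?_⟩
  · refine Submodule.mul_induction_on hz (fun x hx y hy => ?_) fun x y hx hy => ?_
    · rw [map_mul, map_mul, map_mul, map_mul, mul_mul_mul_comm]
      exact mul_le_mul' (h.le V hF hV x hx) (h'.le V hF hV y hy)
    · rw [map_add]
      exact V.valuation.map_add_le hx hy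
  · obtain ⟨x, hx, e⟩ := h.eq V hF hV
    obtain ⟨y, hy, e'⟩ := h'.eq V hF hV
    exact ⟨x * y, Ideal.mul_mem_mul hx hy, by
      rw [map_mul, map_mul, map_mul, map_mul, mul_mul_mul_comm, e, e']⟩
  · rw [zpow_add₀ (by simpa using c.ϖ_ne), map_mul, map_mul, mul_mul_mul_comm (L V),
      mul_mul_mul_comm, h.inf V hF hV, h'.inf V hF hV, mul_one]
  · rw [c.C.cd_mul h.J0 h'.J0]
    push_cast
    ring

/-- Take `0 ≠ b ∈ J` with `Eg β b`, `J * J' = (b)`, `Eg η h`; the data are `(h) * J'`, `b`,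
`η - s + β` (`Crv.cd_span`, `Crv.cd_mul`). For `eq` write `b` as a sum of products. -/
theorem Deg.inv (hL : LD K E F Ω) (h : c.Deg F L d) : c.Deg F (fun V => (L V)⁻¹) (-d) := by
  have := c.C.ded F
  obtain ⟨J, a, s, h, rfl⟩ := h
  obtain ⟨b, hb, b0⟩ := Submodule.exists_mem_ne_zero_of_ne_bot h.J0
  obtain ⟨J', hJ⟩ := Ideal.dvd_iff_le.2 ((Ideal.span_singleton_le_iff_mem J).2 hb)
  obtain ⟨β, hβ⟩ := c.C.exists_Eg b0
  obtain ⟨η, hη⟩ := c.C.exists_Eg h.h0
  have a0 : Ideal.span {a} ≠ ⊥ := mt Ideal.span_singleton_eq_bot.1 h.h0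
  have J0 : J' ≠ ⊥ := right_ne_zero_of_mul (hJ ▸ mt Ideal.span_singleton_eq_bot.1 b0)
  have v0 : ∀ V : ValuationSubring Ω, V.valuation (c.jj F Ω b) ≠ 0 := fun V => by
    simpa using (map_ne_zero_iff _ (c.jj_inj hL)).2 b0
  have L0 : ∀ V, Cont F V → c.Aff V → 0 < L V := fun V hF hV => zero_lt_iff.2 fun e =>
    v0 V (by simpa [e] using h.le V hF hV b hb)
  have key : ∀ V, Cont F V → c.Aff V → ∀ y ∈ J', L V * V.valuation (c.jj F Ω (a * y)) ≤
      V.valuation (c.jj F Ω b) := fun V hF hV y hy => by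
    obtain ⟨x, hx, e⟩ := h.eq V hF hV
    obtain ⟨w, hw⟩ := Ideal.mem_span_singleton'.1 (hJ ▸ Ideal.mul_mem_mul hx hy)
    rw [map_mul, map_mul, ← mul_assoc, ← e, ← map_mul, ← map_mul, ← hw, map_mul, map_mul]
    exact mul_le_of_le_one_left' ((V.valuation_le_one_iff _).2 (hV.jj_mem hF w))
  refine ⟨Ideal.span {a} * J', b, η - s + β, ⟨mul_ne_zero a0 J0, b0, fun V hF hV z hz => ?_,
    fun V hF hV => ?_, fun V hF hV => ?_⟩, ?_⟩
  · obtain ⟨y, hy, rfl⟩ := Ideal.mem_span_singleton_mul.1 hz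
    exact (le_inv_mul_iff₀ (L0 V hF hV)).2 (key V hF hV y hy)
  · by_contra hn
    refine lt_irrefl _ (Submodule.mul_induction_on
      (C := fun z => V.valuation (c.jj F Ω z) < V.valuation (c.jj F Ω b))
      (hJ ▸ Ideal.mem_span_singleton_self b : b ∈ J * J') (fun x hx y hy => ?_) fun x y hx hy => ?_)
    · refine lt_of_le_of_lt ?_ ((key V hF hV y hy).lt_of_ne fun e => hn ⟨a * y,
        Ideal.mul_mem_mul (Ideal.mem_span_singleton_self a) hy,
        (eq_inv_mul_iff_mul_eq₀ (L0 V hF hV).ne').2 e⟩)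
      rw [map_mul, map_mul, map_mul, map_mul, ← mul_assoc]
      exact mul_le_mul_left (h.le V hF hV x hx) _
    · rw [map_add]
      exact V.valuation.map_add_lt hx hy
  · have p0 : V.valuation (algebraMap E Ω c.ϖ) ≠ 0 := by simpa using c.ϖ_ne
    have h1 := h.inf V hF hV
    rw [eq_inv_of_mul_eq_one_left (hV.val_eq hF hη), mul_assoc] at h1
    rw [eq_inv_of_mul_eq_one_left (hV.val_eq hF hβ), eq_inv_of_mul_eq_one_left h1, inv_inv,
      zpow_add₀ p0, zpow_sub₀ p0, zpow_natCast, zpow_natCast]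
    have := zpow_ne_zero s p0
    field_simp
  · have h1 := c.C.cd_span hβ
    rw [hJ, c.C.cd_mul h.J0 J0] at h1
    rw [c.C.cd_mul a0 J0, c.C.cd_span hη, ← h1]
    push_cast
    ring

theorem cv22_den (hL : LD K E F Ω) {α : Type} [Fintype α] {u : α → Ω}
    (hu : ∀ a, u a ∈ cmp E F Ω) : ∃ (h : Ob K c.O F) (z : α → Ob K c.O F), c.jj F Ω h ≠ 0 ∧
      ∀ a, u a * c.jj F Ω h = c.jj F Ω (z a) := by
  classical
  choose n b hb hn using fun a => c.exists_frac hL (hu a)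
  refine ⟨∏ a, b a, fun a => n a * ∏ a' ∈ Finset.univ.erase a, b a', ?_, fun a => ?_⟩
  · rw [map_prod]
    exact Finset.prod_ne_zero_iff.2 fun a _ => (map_ne_zero_iff _ (c.jj_inj hL)).2 (hb a)
  · rw [← Finset.mul_prod_erase _ _ (Finset.mem_univ a), map_mul, map_mul, ← mul_assoc, hn]

/-- Clear denominators (`exists_frac`); `s` is the largest pole order of the numerators. -/
theorem exists_deg_nv (hL : LD K E F Ω) {α : Type} [Fintype α] {u : α → Ω}
    (hu : ∀ a, u a ∈ cmp E F Ω) (h0 : ∃ a, u a ≠ 0) : ∃ d, c.Deg F (fun V => nv V u) d := by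
  classical
  obtain ⟨h, z, hh, hz⟩ := cv22_den (c := c) hL hu
  obtain ⟨a₀, ha₀⟩ := h0
  have : Nonempty α := ⟨a₀⟩
  have z0 : z a₀ ≠ 0 := fun e => mul_ne_zero ha₀ hh (by rw [hz, e, map_zero])
  have he : ∀ a, ∃ e, z a ≠ 0 → c.C.Eg e (z a) := fun a => by
    by_cases h1 : z a = 0
    · exact ⟨0, fun h2 => absurd h1 h2⟩
    · exact (c.C.exists_Eg h1).imp fun _ h2 _ => h2
  choose e he using he
  obtain ⟨a₁, ha₁, hm⟩ := Finset.exists_max_image (Finset.univ.filter fun a => z a ≠ 0) e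
    ⟨a₀, Finset.mem_filter.2 ⟨Finset.mem_univ _, z0⟩⟩
  have hle : ∀ a, z a ∈ c.C.Le F (e a₁) := fun a => by
    by_cases h1 : z a = 0
    · rw [h1]; exact zero_mem _
    · exact c.C.Le_mono (hm a (Finset.mem_filter.2 ⟨Finset.mem_univ _, h1⟩)) (he a h1).1
  have hv : ∀ (V : ValuationSubring Ω) a,
      V.valuation (c.jj F Ω (z a)) = V.valuation (u a) * V.valuation (c.jj F Ω h) := fun V a => by
    rw [← hz, map_mul]
  refine ⟨_, Ideal.span (Set.range z), h, (e a₁ : ℤ), ⟨fun e0 => z0 ?_, fun e0 => hh ?_,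
    fun V hF hV y hy => ?_, fun V hF hV => ?_, fun V hF hV => ?_⟩, rfl⟩
  · exact Ideal.span_eq_bot.1 e0 _ ⟨a₀, rfl⟩
  · rw [e0, map_zero]
  · induction hy using Submodule.span_induction with
    | mem x hx =>
      obtain ⟨a, rfl⟩ := hx
      rw [hv]
      exact mul_le_mul_left (le_nv a) _
    | zero => rw [map_zero, map_zero]; exact zero_le
    | add x y _ _ hx hy => rw [map_add]; exact V.valuation.map_add_le hx hy
    | smul r x _ hx =>
      rw [smul_eq_mul, map_mul, map_mul]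
      exact mul_le_of_le_one_of_le ((V.valuation_le_one_iff _).2 (hV.jj_mem hF r)) hx
  · obtain ⟨a, ha⟩ := exists_nv V u
    exact ⟨z a, Ideal.subset_span ⟨a, rfl⟩, by rw [hv, ha]⟩
  · rw [zpow_natCast]
    refine le_antisymm ?_ ?_
    · obtain ⟨a, ha⟩ := exists_nv V u
      rw [ha, ← hv]
      exact hV.val_le hF (hle a)
    · rw [← hV.val_eq hF (he a₁ (Finset.mem_filter.1 ha₁).2), hv]
      exact mul_le_mul_left (mul_le_mul_left (le_nv a₁) _) _

theorem cv22_zpow (hL : LD K E F Ω) (h : c.Deg F L d) (n : ℤ) :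
    ∃ e, c.Deg F (fun V => L V ^ n) e := by
  have key : ∀ m : ℕ, ∃ e, c.Deg F (fun V => L V ^ m) e := fun m => by
    induction m with
    | zero => exact ⟨0, by simpa only [pow_zero] using deg_one⟩
    | succ m ih =>
      obtain ⟨e, he⟩ := ih
      exact ⟨e + d, by simpa only [pow_succ] using he.mul h⟩
  obtain ⟨m, rfl | rfl⟩ := n.eq_nat_or_neg
  · simpa only [zpow_natCast] using key m
  · obtain ⟨e, he⟩ := key m
    exact ⟨-e, by simpa only [zpow_neg, zpow_natCast] using he.inv hL⟩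

theorem exists_deg_hv {k ι : Type} [Field k] [Fintype ι] {A : GA k ι} [Algebra k Ω]
    (hL : LD K E F Ω) {D : A.Pt Ω →₀ ℤ} (hD : GA.Rat (cmp E F Ω) D) :
    ∃ d, c.Deg F (fun V => GA.hv V D) d ∧ c.Deg F (fun V => GA.hv V (-D)) (-d) := by
  classical
  have key : ∀ s : Finset (A.Pt Ω), s ⊆ D.support →
      ∃ e, c.Deg F (fun V : ValuationSubring Ω => ∏ p ∈ s, nv V (GA.nc p) ^ D p) e := fun s => by
    induction s using Finset.induction_on with
    | empty => exact fun _ => ⟨0, by simpa only [Finset.prod_empty] using deg_one⟩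
    | insert p s hp ih =>
      intro hs
      obtain ⟨e, he⟩ := ih ((Finset.subset_insert p s).trans hs)
      obtain ⟨e₁, h1⟩ := exists_deg_nv (c := c) hL (hD p (hs (Finset.mem_insert_self p s)))
        (GA.rep_nc p).ne
      obtain ⟨e₂, h2⟩ := cv22_zpow hL h1 (D p)
      exact ⟨e₂ + e, by simpa only [Finset.prod_insert hp] using h2.mul he⟩
  obtain ⟨e, he⟩ := key D.support subset_rfl
  have h1 : c.Deg F (fun V => GA.hv V D) e := he
  exact ⟨e, h1, by simpa only [GA.hv_neg] using h1.inv hL⟩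

/-- `exists_hv` for one such `V`; all have the same intersection with the compositum by `unif`. -/
theorem unif_hv {k ι : Type} [Field k] [Fintype ι] {A : GA k ι} [Algebra k Ω] (c : Cvd K E)
    (hL : LD K E F Ω) {D : A.Pt Ω →₀ ℤ} (hD : GA.Rat (cmp E F Ω) D) : ∃ n : ℤ,
    ∀ V : ValuationSubring Ω, Cont F V → c.AtI V →
      GA.hv V D = V.valuation (algebraMap E Ω c.ϖ) ^ n := by
  obtain ⟨_, ⟨J, h, s, P, -⟩, -⟩ := exists_deg_hv (c := c) hL hD
  obtain ⟨m, hm⟩ := c.unif hL (c.jj_mem_cmp h) ((map_ne_zero_iff _ (c.jj_inj hL)).2 P.h0)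
  refine ⟨-(m + s), fun V hF hV => ?_⟩
  have h0 : V.valuation (algebraMap E Ω c.ϖ) ≠ 0 :=
    (map_ne_zero _).2 ((map_ne_zero _).2 c.ϖ_ne)
  have h1 := P.inf V hF hV
  rw [hm V hF hV, mul_assoc, ← zpow_add₀ h0] at h1
  rw [zpow_neg]
  exact eq_inv_of_mul_eq_one_left h1

variable (c) in
/-- Points `φ i` that leave only the function `s₀` of pole order at most `N`. -/
structure Rigid (N r : ℕ) (φ : Fin r → c.O →ₐ[K] K) (s₀ : c.O) : Prop where
  le : c.C.g0 ≤ N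
  nu : r + 1 = c.C.nu N
  ne : s₀ ≠ 0
  eq : ∀ (κ : Type) [Field κ] [Algebra K κ], ∀ z ∈ c.C.Le κ N,
    (∀ i, lf κ (φ i).toLinearMap z = 0) → ∃ a : κ, z = a • io K κ s₀

theorem cv23_pts {R : Type} [CommRing R] [IsDomain R] [Algebra K R] [Algebra.FiniteType K R]
    (r : ℕ) (W : Submodule K R) [FiniteDimensional K W] (hW : Module.finrank K W = r + 1) :
    ∃ (φ : Fin r → R →ₐ[K] K) (s₀ : R), s₀ ≠ 0 ∧
      ∀ w ∈ W, (∀ i, φ i w = 0) → ∃ a : K, w = a • s₀ := by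
  induction r generalizing W with
  | zero =>
    obtain ⟨v, hv, h1⟩ := finrank_eq_one_iff'.1 hW
    refine ⟨Fin.elim0, v, fun h => hv (Subtype.ext h), fun w hw _ => ?_⟩
    obtain ⟨a, ha⟩ := h1 ⟨w, hw⟩
    exact ⟨a, (congrArg Subtype.val ha).symm⟩
  | succ r ih =>
    obtain ⟨b, hb⟩ := (Module.finrank_pos_iff_exists_ne_zero (R := K) (M := W)).1 (by omega)
    obtain ⟨ψ, hψ⟩ := exists_point (K := K) (b := (b : R)) fun h => hb (Subtype.ext h)
    have h1 := Module.Dual.finrank_ker_add_one_of_ne_zero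
      (f := ψ.toLinearMap ∘ₗ W.subtype) fun h => hψ (LinearMap.congr_fun h b)
    obtain ⟨φ, s₀, h2, h3⟩ := ih ((LinearMap.ker (ψ.toLinearMap ∘ₗ W.subtype)).map W.subtype)
      (by rw [Submodule.finrank_map_subtype_eq]; omega)
    exact ⟨Fin.cons ψ φ, s₀, h2, fun w hw h => h3 w ⟨⟨w, hw⟩, h 0, rfl⟩ fun i => h i.succ⟩

variable (c) in
/-- By induction on `i < nu N` choose points such that the subspace of `Le0 N` killed by them has
dimension `nu N - i` (`exists_point`, `Crv.finiteType`). For `eq` apply `rt π` for linear forms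
`π : κ → K`, or `exists_dual` and `Le_eq_span`. -/
theorem exists_rigid : ∃ N r φ s₀, c.Rigid N r φ s₀ := by
  have := c.C.finiteType
  have := c.C.fin_Le0 c.C.g0
  have h0 : 0 < c.C.nu c.C.g0 := Module.finrank_pos_iff_exists_ne_zero.2
    ⟨⟨1, c.C.Le0_mono (Nat.zero_le _) c.C.crv3_one.1⟩, fun h => one_ne_zero (congrArg Subtype.val h)⟩
  have h1 : c.C.nu c.C.g0 = c.C.nu c.C.g0 - 1 + 1 := by omega
  obtain ⟨φ, s₀, h2, h3⟩ := cv23_pts (c.C.nu c.C.g0 - 1) (c.C.Le0 c.C.g0) h1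
  refine ⟨c.C.g0, _, φ, s₀, le_rfl, h1.symm, h2, fun κ _ _ z hz h => ?_⟩
  obtain ⟨ι, s, β, a, h4, h5⟩ := crv1_rep z
  choose b hb using fun i => h3 (a i)
    (c.C.mem_Le0.2 fun j hj => h5 _ (c.C.mem_Le.1 hz j hj) i) fun j => h5 _ (h j) i
  refine ⟨∑ i ∈ s, b i • β i, ?_⟩
  rw [h4, Finset.sum_smul]
  refine Finset.sum_congr rfl fun i _ => ?_
  rw [hb i, map_smul, smul_comm, smul_assoc]

variable (c F) in
/-- `f` is a section of `L + N ∞ - ∑ P i`. -/
structure Sec (N : ℕ) {r : ℕ} (φ : Fin r → c.O →ₐ[K] K)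
    (L : ∀ V : ValuationSubring Ω, V.ValueGroup) (f : Ω) : Prop where
  mem : f ∈ cmp E F Ω
  ne : f ≠ 0
  aff : ∀ V, Cont F V → c.Aff V → V.valuation f ≤ L V
  pt : ∀ i, ∃ p u : c.O, p ≠ 0 ∧ φ i p = 0 ∧ φ i u ≠ 0 ∧ ∀ V, Cont F V → c.Aff V →
    V.valuation f * V.valuation (algebraMap E Ω u) ≤ L V * V.valuation (algebraMap E Ω p)
  inf : ∀ V, Cont F V → c.AtI V → V.valuation f * V.valuation (algebraMap E Ω c.ϖ) ^ N ≤ L V

/-- In the Dedekind domain `O` (`Crv.ded0`): `p ∈ m \ m ^ 2`, `(p) = m * a`, `u ∈ a \ m`. -/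
theorem exists_unif (c : Cvd K E) (φ : c.O →ₐ[K] K) : ∃ p u : c.O, p ≠ 0 ∧ φ p = 0 ∧ φ u ≠ 0 ∧
    ∀ a, φ a = 0 → p ∣ u * a := by
  have := c.C.ded0
  obtain ⟨t, -, ht⟩ := c.C.exists_mono (Nat.le_succ c.C.g0)
  have h0 : RingHom.ker φ ≠ ⊥ := by
    intro h
    have h1 : t - algebraMap K c.O (φ t) ∈ RingHom.ker φ := by
      rw [RingHom.mem_ker, map_sub, AlgHom.commutes]
      exact sub_self _
    rw [h, Ideal.mem_bot, sub_eq_zero] at h1
    rw [h1] at ht
    change (c.C.ι _).coeff _ = 1 at ht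
    rw [c.C.ιC, HahnSeries.C_apply, HahnSeries.coeff_single_of_ne (by omega)] at ht
    exact zero_ne_one ht
  obtain ⟨p, h1, h2⟩ := Ideal.exists_mem_pow_notMem_pow_succ _ h0 (RingHom.ker_ne_top φ) 1
  rw [pow_one] at h1
  obtain ⟨J, hJ⟩ := Ideal.dvd_iff_le.2 ((Ideal.span_singleton_le_iff_mem _).2 h1)
  have h3 : ¬ J ≤ RingHom.ker φ := fun h => h2 (by
    rw [pow_succ, pow_one]
    exact Ideal.mul_mono_right h (hJ ▸ Ideal.mem_span_singleton_self p))
  obtain ⟨u, h4, h5⟩ := SetLike.not_le_iff_exists.1 h3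
  refine ⟨p, u, fun h => h2 (h ▸ zero_mem _), h1, h5, fun a ha => ?_⟩
  rw [← Ideal.mem_span_singleton, hJ, mul_comm u a]
  exact Ideal.mul_mem_mul ha h4

theorem cv24_pt (c : Cvd K E) (φ : c.O →ₐ[K] K) {p u : c.O} (h : ∀ a, φ a = 0 → p ∣ u * a) :
    ∃ m : Ideal (Ob K c.O F), m.IsMaximal ∧ ∀ w ∈ m, io K F p ∣ io K F u * w := by
  let q : Ob K c.O F →ₐ[F] F := Algebra.TensorProduct.lift (Algebra.ofId F F)
    ((Algebra.ofId K F).comp φ) fun _ _ => Commute.all _ _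
  have key : ∀ z : Ob K c.O F, io K F p ∣ io K F u * (z - algebraMap F _ (q z)) := by
    intro z
    induction z using TensorProduct.induction_on with
    | zero => simp
    | tmul b a =>
      have h1 := map_dvd (io K F) (h (a - algebraMap K _ (φ a)) (by simp))
      have h2 : q (b ⊗ₜ a) = b * algebraMap K F (φ a) := by simp [q, Algebra.ofId_apply]
      have h3 : io K F (algebraMap K c.O (φ a)) = algebraMap F _ (algebraMap K F (φ a)) := by
        rw [AlgHom.commutes, ← IsScalarTower.algebraMap_apply]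
      rw [map_mul, map_sub, h3] at h1
      rw [h2, ← smul_io, Algebra.smul_def, map_mul, ← mul_sub, mul_left_comm]
      exact h1.mul_left _
    | add x y hx hy =>
      have := hx.add hy
      rwa [← mul_add, ← add_sub_add_comm, ← map_add, ← map_add] at this
  refine ⟨RingHom.ker q, RingHom.ker_isMaximal_of_surjective q fun a => ⟨_, q.commutes a⟩,
    fun w hw => ?_⟩
  have := key w
  rwa [RingHom.mem_ker.1 hw, map_zero, sub_zero] at this

theorem cv24_prod (c : Cvd K E) {α : Type} (m : α → Ideal (Ob K c.O F)) (hm : ∀ i, (m i).IsMaximal)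
    (S : Finset α) : ∏ i ∈ S, m i ≠ ⊥ ∧ cd (∏ i ∈ S, m i) = S.card := by
  classical
  have := c.C.isDomain (Ω := F)
  induction S using Finset.induction_on with
  | empty =>
    rw [Finset.prod_empty, Ideal.one_eq_top]
    exact ⟨top_ne_bot, Crv.cd_top⟩
  | insert i S hi ih =>
    have h1 := c.C.cd_max_ne_bot (hm i)
    rw [Finset.prod_insert hi, c.C.cd_mul h1 ih.1, c.C.cd_max (hm i), ih.2,
      Finset.card_insert_of_notMem hi]
    exact ⟨mul_ne_zero h1 ih.1, add_comm _ _⟩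

theorem cv24_div {R : Type} [CommRing R] {J m : Ideal R} {p u z : R} (h : ∀ w ∈ m, p ∣ u * w)
    (hz : z ∈ J * m) : ∃ z' ∈ J, u * z = p * z' := by
  refine Submodule.mul_induction_on hz (fun a ha w hw => ?_) ?_
  · obtain ⟨t, ht⟩ := h w hw
    exact ⟨a * t, J.mul_mem_right t ha, by rw [mul_left_comm, ht, mul_left_comm]⟩
  · rintro x y ⟨x', hx, ex⟩ ⟨y', hy, ey⟩
    exact ⟨x' + y', add_mem hx hy, by rw [mul_add, mul_add, ex, ey]⟩

/-- `f = z / h` with `0 ≠ z ∈ J * ∏ m i` of pole order at most `s + N`, where `m i` is the kernel of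
`lf F (φ i)`, the extension of the kernel of `φ i` (`Crv.nu_le_add`, `Crv.nu_add`, `Crv.cd_mul`,
`Crv.cd_max`; `s = d + cd J ≥ 0`). -/
theorem exists_sec (hL : LD K E F Ω) (h : c.Deg F L d) (hd : 0 ≤ d) {N r : ℕ}
    (φ : Fin r → c.O →ₐ[K] K) (h1 : c.C.g0 ≤ N) (h2 : r + 1 = c.C.nu N) :
    ∃ f, c.Sec F N φ L f := by
  obtain ⟨J, g, s, P, hs⟩ := h
  obtain ⟨s, rfl⟩ := Int.eq_ofNat_of_zero_le (a := s) (by omega)
  have := c.C.isDomain (Ω := F)
  choose p u hp0 hp hu hpu using fun i => c.exists_unif (φ i)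
  choose m hm hmw using fun i => cv24_pt (F := F) c (φ i) (hpu i)
  obtain ⟨h3, h4⟩ := cv24_prod c m hm Finset.univ
  have h5 : J * ∏ i, m i ≠ ⊥ := mul_ne_zero P.J0 h3
  have h6 := c.C.nu_le_add h5 (N + s)
  rw [c.C.nu_add h1, c.C.cd_mul P.J0 h3, h4, Finset.card_univ, Fintype.card_fin] at h6
  have h7 : (J * ∏ i, m i).restrictScalars F ⊓ c.C.Le F (N + s) ≠ ⊥ := fun e => by
    rw [e, finrank_bot] at h6
    omega
  obtain ⟨z, ⟨hz1, hz2⟩, hz0⟩ := Submodule.exists_mem_ne_zero_of_ne_bot h7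
  replace hz1 : z ∈ J * ∏ i, m i := hz1
  have hj := c.jj_inj hL
  have hg : c.jj F Ω g ≠ 0 := (map_ne_zero_iff _ hj).2 P.h0
  have hv : ∀ V : ValuationSubring Ω, 0 < V.valuation (c.jj F Ω g) := fun V =>
    zero_lt_iff.2 ((map_ne_zero _).2 hg)
  refine ⟨c.jj F Ω z / c.jj F Ω g, div_mem (c.jj_mem_cmp z) (c.jj_mem_cmp g),
    div_ne_zero ((map_ne_zero_iff _ hj).2 hz0) hg, fun V hF hV => ?_,
    fun i => ⟨p i, u i, hp0 i, hp i, hu i, fun V hF hV => ?_⟩, fun V hF hV => ?_⟩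
  · rw [map_div₀, div_le_iff₀ (hv V)]
    exact P.le V hF hV z (Ideal.mul_le_inf hz1).1
  · have h8 : z ∈ J * m i :=
      Ideal.mul_mono_right (Ideal.prod_le_inf.trans (Finset.inf_le (Finset.mem_univ i))) hz1
    obtain ⟨z', hz', e⟩ := cv24_div (hmw i) h8
    have e2 := congrArg (fun t => V.valuation (c.jj F Ω t)) e
    simp only [map_mul, jj_io] at e2
    rw [map_div₀, div_mul_eq_mul_div, div_le_iff₀ (hv V), mul_comm, e2, mul_right_comm, mul_comm]
    exact mul_le_mul_left (P.le V hF hV z' hz') _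
  · have h8 := hV.val_le hF hz2
    have h9 : 0 < V.valuation (algebraMap E Ω c.ϖ) ^ s :=
      pow_pos (zero_lt_iff.2 ((map_ne_zero _).2 ((map_ne_zero _).2 c.ϖ_ne))) s
    rw [← P.inf V hF hV, zpow_natCast, pow_add, ← mul_assoc] at h8
    rw [map_div₀, div_mul_eq_mul_div, div_le_iff₀ (hv V)]
    exact le_of_mul_le_mul_right h8 h9

end Cvd

end

end Pool.Agent.Lib.MP_651af7_nt.Cu
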