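import Pool.Agent.Lib.MP_651af7_nt.Cu.Har
import Pool.Agent.Lib.MP_651af7_nt.Cu.Hv

/-! The reduction lemma and the seesaw principle. -/

namespace Pool.Agent.Lib.MP_651af7_nt.Cu

open MvPolynomial Av

set_option linter.unusedSectionVars false

namespace GA

variable {k ι : Type} [Field k] [Fintype ι] {A : GA k ι}
  {K E F Ω : Type} [Field K] [Field E] [Field F] [Field Ω]
  [Algebra k K] [Algebra k E] [Algebra k F] [Algebra k Ω] [Algebra K E] [Algebra K F] [Algebra K Ω]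
  [Algebra E Ω] [Algebra F Ω] [IsScalarTower k K E] [IsScalarTower k K F] [IsScalarTower k K Ω]
  [IsScalarTower K E Ω] [IsScalarTower K F Ω] [IsScalarTower k E Ω] [IsScalarTower k F Ω]
  {D : A.Pt Ω →₀ ℤ} {W : ValuationSubring Ω} {f : Ω}

variable (E F) in
/-- Each point of `D` is the sum of a point over `E` and a point over `F`. -/
def Spl (D : A.Pt Ω →₀ ℤ) : Prop :=
  ∀ p ∈ D.support, ∃ (e : A.Pt E) (c : A.Pt F), p = up Ω e + up Ω c

theorem Spl.neg (h : Spl E F D) : Spl E F (-D) := fun p hp =>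
  h p (Finsupp.support_neg D ▸ hp)

theorem Spl.nsmul (h : Spl E F D) (n : ℕ) : Spl E F (n • D) := fun p hp =>
  h p (Finsupp.support_smul hp)

theorem Spl.rat (h : Spl E F D) : Rat (cmp E F Ω) D := fun p hp => by
  obtain ⟨e, c, rfl⟩ := h p hp
  exact nc_add_mem (fun c => IsScalarTower.algebraMap_apply k E Ω c ▸ left_mem_cmp _)
    (fun a => (le_sup_left : _ ≤ cmp E F Ω) (nc_up_mem e a))
    fun a => (le_sup_right : _ ≤ cmp E F Ω) (nc_up_mem c a)

theorem spl_cub₁ (x : A.Pt E) (y z : A.Pt F) : Spl E F (cub (up Ω x) (up Ω y) (up Ω z)) := by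
  intro p hp
  rcases mem_cub hp with h | h | h | h | h | h | h | h
  exacts [⟨x, y + z, by simp [h, add_assoc]⟩, ⟨x, 0, by simp [h]⟩, ⟨0, y, by simp [h]⟩,
    ⟨0, z, by simp [h]⟩, ⟨x, y, h⟩, ⟨x, z, h⟩, ⟨0, y + z, by simp [h]⟩, ⟨0, 0, by simp [h]⟩]

theorem spl_cub₂ (x : A.Pt F) (y z : A.Pt E) : Spl E F (cub (up Ω x) (up Ω y) (up Ω z)) := by
  intro p hp
  rcases mem_cub hp with h | h | h | h | h | h | h | h
  exacts [⟨y + z, x, by rw [h, map_add]; abel⟩, ⟨0, x, by simp [h]⟩, ⟨y, 0, by simp [h]⟩,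
    ⟨z, 0, by simp [h]⟩, ⟨y, x, h.trans (add_comm _ _)⟩, ⟨z, x, h.trans (add_comm _ _)⟩,
    ⟨y + z, 0, by simp [h]⟩, ⟨0, 0, by simp [h]⟩]

/-- `exists_hv`, `Gs.val`. -/
theorem Spl.scale (hD : Spl E F D) (hW : Gs K E F W) (hf : f ∈ cmp E F Ω) (h0 : f ≠ 0) :
    ∃ c : F, c ≠ 0 ∧ W.valuation (algebraMap F Ω c * f) = hv W D := by
  obtain ⟨g, hg, hg0, h⟩ := exists_hv W hD.rat
  obtain ⟨c, hc, e⟩ := hW.val (div_mem hg hf) (div_ne_zero hg0 h0)
  refine ⟨c, hc, ?_⟩
  rw [map_mul, ← e, ← map_mul, div_mul_cancel₀ _ h0, h W fun _ _ => id]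

/-- For each point take `exists_uni` for `e` at `μ ∩ E` and for `c` at `W ∩ F`. Let `R` be a chart
(`exists_chart`) with `T` and the coordinates of the `e`, let `S` be the `k`-subalgebra generated by
`R` and `W ∩ F`, `P` the centre of `μ`. With `γ` from `exists_loc` apply `hartogs` to `f * γ`. -/
theorem rdc (hE : (⊤ : IntermediateField K E).FG) (hW : Gs K E F W) (hD : Spl E F D)
    (hf : f ∈ cmp E F Ω) (T : Finset E) (h1 : ∀ V : ValuationSubring Ω, Cont F V →
      (∀ t ∈ T, algebraMap E Ω t ∈ V) → V.valuation f ≤ hv V D) (h2 : W.valuation f ≤ hv W D)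
    (μ : ValuationSubring Ω) (hF : ∀ c : F, algebraMap F Ω c ∈ W → algebraMap F Ω c ∈ μ)
    (hT : ∀ t ∈ T, algebraMap E Ω t ∈ μ) : μ.valuation f ≤ hv μ D := by
  classical
  have hK : ∀ c : K, algebraMap E Ω (algebraMap K E c) ∈ μ := fun c => by
    have h := hW.1 (algebraMap K E c)
    rw [← IsScalarTower.algebraMap_apply, IsScalarTower.algebraMap_apply K F Ω] at h ⊢
    exact hF _ h
  choose! e c hec using hD
  choose v v1 v2 v3 using fun p => exists_uni (e p) (μ.comap (algebraMap E Ω))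
  choose w w1 w2 w3 using fun p => exists_uni (c p) (W.comap (algebraMap F Ω))
  obtain ⟨R, r1, r2, r3, r4⟩ := exists_chart hE (μ.comap (algebraMap E Ω)) hK
    (T ∪ D.support.biUnion fun p => Finset.univ.image (v p)) fun t ht => by
      rcases Finset.mem_union.1 ht with h | h
      · exact hT t h
      · obtain ⟨p, -, h⟩ := Finset.mem_biUnion.1 h
        obtain ⟨a, -, rfl⟩ := Finset.mem_image.1 h
        exact v2 p a
  let S : Subalgebra k Ω := Algebra.adjoin k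
    (algebraMap E Ω '' R ∪ algebraMap F Ω '' {c | algebraMap F Ω c ∈ W})
  have hS : ∀ V : Subring Ω, (∀ x ∈ R, algebraMap E Ω x ∈ V) →
      (∀ c : F, algebraMap F Ω c ∈ W → algebraMap F Ω c ∈ V) → ∀ s ∈ S, s ∈ V := by
    intro V a1 a2 s hs
    induction hs using Algebra.adjoin_induction with
    | mem x hx =>
      rcases hx with ⟨y, hy, rfl⟩ | ⟨y, hy, rfl⟩
      exacts [a1 y hy, a2 y hy]
    | algebraMap r =>
      rw [IsScalarTower.algebraMap_apply k E Ω, IsScalarTower.algebraMap_apply k K E]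
      exact a1 _ (R.algebraMap_mem _)
    | add _ _ _ _ a b => exact add_mem a b
    | mul _ _ _ _ a b => exact mul_mem a b
  let φ : S →+* μ := (S.val : S →+* Ω).codRestrict μ fun s => hS μ.toSubring r4 hF s s.2
  let P : Ideal S := (IsLocalRing.maximalIdeal μ).comap φ
  have hP : P.IsPrime := Ideal.comap_isPrime φ _
  have h1P : ∀ s : S, (s : Ω) = 1 → s ∉ P := fun s hs h =>
    hP.ne_top ((Ideal.eq_top_iff_one _).2 ((Subtype.ext hs : s = 1) ▸ h))
  obtain ⟨γ, g0, g1, g2, g3⟩ := exists_loc (D := D) S P fun p hp => by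
    rw [hec p hp]
    refine Reg.add ⟨fun a => ⟨_, Algebra.subset_adjoin (.inl ⟨v p a, r3 _ ?_, rfl⟩)⟩, (v1 p).up,
      (v3 p).imp fun a h => h1P _ (by simp [h])⟩
      ⟨fun a => ⟨_, Algebra.subset_adjoin (.inr ⟨w p a, w2 p a, rfl⟩)⟩, (w1 p).up,
      (w3 p).imp fun a h => h1P _ (by simp [h])⟩
    exact Finset.mem_union_right _
      (Finset.mem_biUnion.2 ⟨p, hp, Finset.mem_image_of_mem _ (Finset.mem_univ a)⟩)
  have key : ∀ V : ValuationSubring Ω, (∀ s ∈ S, s ∈ V) → V.valuation f ≤ hv V D → f * γ ∈ V :=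
    fun V a b => by
      rw [← V.valuation_le_one_iff, map_mul, mul_comm]
      exact (mul_le_mul_right b _).trans (g2 V a)
  have h3 := hartogs R r1 hW (mul_mem hf (g1 _ (hS (cmp E F Ω).toSubring
    (fun x _ => left_mem_cmp x) fun c _ => right_mem_cmp c)))
    (fun V a b => key V (hS V.toSubring b fun c _ => a c)
      (h1 V a fun t ht => b t (r3 t (Finset.mem_union_left _ ht))))
    (key W (hS W.toSubring (fun x _ => hW.1 x) fun _ h => h) h2) μ hF r4
  rw [← μ.valuation_le_one_iff, map_mul, mul_comm, ← g3 μ (hS μ.toSubring r4 hF) fun s hs =>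
    le_antisymm (μ.valuation_le_one (φ s)) (not_lt.1 fun h =>
      hs ((μ.valuation_lt_one_iff (φ s)).2 h))] at h3
  exact le_of_mul_le_mul_left h3 (zero_lt_iff.2 ((map_ne_zero _).2 g0))

/-- `rdc` for `(f, D)` and for `(f⁻¹, -D)`. -/
theorem rdc_eq (hE : (⊤ : IntermediateField K E).FG) (hW : Gs K E F W) (hD : Spl E F D)
    (hf : f ∈ cmp E F Ω) (T : Finset E) (h1 : ∀ V : ValuationSubring Ω, Cont F V →
      (∀ t ∈ T, algebraMap E Ω t ∈ V) → V.valuation f = hv V D) (h2 : W.valuation f = hv W D)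
    (μ : ValuationSubring Ω) (hF : ∀ c : F, algebraMap F Ω c ∈ W → algebraMap F Ω c ∈ μ)
    (hT : ∀ t ∈ T, algebraMap E Ω t ∈ μ) : μ.valuation f = hv μ D := by
  refine le_antisymm (rdc hE hW hD hf T (fun V a b => (h1 V a b).le) h2.le μ hF hT) ?_
  have h0 : f ≠ 0 := fun h => hv_ne W D (by rw [← h2, h, map_zero])
  have h3 := rdc hE hW hD.neg (inv_mem hf) T
    (fun V a b => by rw [map_inv₀, hv_neg, h1 V a b]) (by rw [map_inv₀, hv_neg, h2]) μ hF hT
  rwa [map_inv₀, hv_neg, inv_le_inv₀ (zero_lt_iff.2 ((map_ne_zero _).2 h0))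
    (zero_lt_iff.2 (hv_ne μ D))] at h3

/-- Let `m` normalise `D` at `ρ` and let `g` come from `h'`; scale `f` by an element of `F` so that
`ρ.π (f * m) = g`. For `μ` let `ν = μ ∩ F`, `W` from `exists_gs`, `c` from `Spl.scale`. By `rdc_eq`
at `ρ.pull ν` and `Nrm.eq` the element `c` is a unit of `ν`; then `rdc_eq` at `μ`. -/
theorem seesaw [IsAlgClosed K] (hE : (⊤ : IntermediateField K E).FG) (hL : LD K E F Ω)
    (hD : Spl E F D) (hf : f ∈ cmp E F Ω) (h0 : f ≠ 0)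
    (h : ∀ V : ValuationSubring Ω, Cont F V → V.valuation f = hv V D) (ρ : Plc k Ω F) (hρ : ρ.Ov F)
    (h' : Pr K (D.mapDomain (red ρ))) : Pr K D := by
  obtain ⟨g, hg0, hg⟩ := h'
  obtain ⟨m, hm⟩ := exists_nrm ρ D
  have hc : Cont F ρ.V := fun c => (hρ c).1
  have h1 : ρ.V.valuation (f * m) = 1 := by rw [map_mul, h _ hc, mul_comm, hm.one]
  have h2 : f * m ∈ ρ.V := (ρ.V.valuation_le_one_iff _).1 h1.le
  have h3 := (ρ.val_eq_one h2).1 h1
  have ha : g / ρ.π (f * m) ≠ 0 := div_ne_zero hg0 h3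
  set a := g / ρ.π (f * m) with ea
  have hf' := mul_mem (right_mem_cmp (E := E) a) hf
  have h0' : algebraMap F Ω a * f ≠ 0 := mul_ne_zero ((map_ne_zero _).2 ha) h0
  refine ⟨_, h0', fun μ hμ => ?_⟩
  have hν : Cont K (μ.comap (algebraMap F Ω)) := fun c => by
    rw [ValuationSubring.mem_comap, ← IsScalarTower.algebraMap_apply]
    exact hμ c
  obtain ⟨W, hW, hWν⟩ := exists_gs hL _ hν
  obtain ⟨c, hc0, e⟩ := hD.scale hW hf' h0'
  have key := fun μ' hF => rdc_eq hE hW hD (mul_mem (right_mem_cmp c) hf') ∅ (fun V hV _ => by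
    rw [map_mul, map_mul, val_eq_one_of_cont hV hc0, val_eq_one_of_cont hV ha, one_mul, one_mul,
      h V hV]) e μ' hF (by simp)
  have e1 : algebraMap F Ω c * (algebraMap F Ω a * f) * m = algebraMap F Ω (c * a) * (f * m) := by
    rw [map_mul]
    ring
  have h4 := (hm.eq _ (e1 ▸ mul_mem (hc _) h2) _).1 (key (ρ.pull _) fun c h =>
    ⟨hc c, by rw [(hρ c).2]; exact (hWν c).1 h⟩)
  rw [e1, ρ.mul _ (hc _) _ h2, (hρ _).2, Algebra.algebraMap_self, RingHom.id_apply, mul_assoc, ea,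
    div_mul_cancel₀ _ h3, map_mul, hg _ hν, mul_eq_right₀ (hv_ne _ _), comap_val_eq_one] at h4
  have h5 := key μ fun c h => (hWν c).1 h
  rwa [map_mul, h4, one_mul] at h5

end GA

end Pool.Agent.Lib.MP_651af7_nt.Cu
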