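import Pool.Agent.Lib.MP_651af7_nt.Cu.Cv2
import Pool.Agent.Lib.MP_651af7_nt.Cu.Rdc

/-! Reduction of the section and rigidity of its zeros. -/

namespace Pool.Agent.Lib.MP_651af7_nt.Cu

open Pool.Agent.HZ GA

set_option linter.unusedSectionVars false

noncomputable section

variable {k ι : Type} [Field k] [Fintype ι] {A : GA k ι}
  {K E F Ω : Type} [Field K] [Field E] [Field F] [Field Ω]
  [Algebra k K] [Algebra k E] [Algebra k F] [Algebra k Ω] [Algebra K E] [Algebra K F] [Algebra K Ω]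
  [Algebra E Ω] [Algebra F Ω] [IsScalarTower k K E] [IsScalarTower k K F] [IsScalarTower k K Ω]
  [IsScalarTower K E Ω] [IsScalarTower K F Ω] [IsScalarTower k E Ω] [IsScalarTower k F Ω]
  [IsAlgClosed K] [IsAlgClosed F] [IsAlgClosed Ω]

namespace Cvd

variable {c : Cvd K E} {D : A.Pt Ω →₀ ℤ} {N r : ℕ} {φ : Fin r → c.O →ₐ[K] K} {s₀ : c.O} {f : Ω}

section red

variable {κ Ω' : Type} [Field κ] [Field Ω'] [Algebra k κ] [Algebra k Ω'] [Algebra K κ]
  [Algebra K Ω'] [Algebra E Ω'] [Algebra κ Ω'] [IsScalarTower k K κ] [IsScalarTower k K Ω']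
  [IsScalarTower K E Ω'] [IsScalarTower K κ Ω'] [IsScalarTower k E Ω'] [IsScalarTower k κ Ω']
  [IsAlgClosed κ] [IsAlgClosed Ω'] {σ : Plc k Ω Ω'} {τ : Plc k F κ} {m : Ω} {β : F}

variable (K E) in
/-- A Gauss extension that kills `D`, with the normalisations. -/
structure Kil (σ : Plc k Ω Ω') (τ : Plc k F κ) (D : A.Pt Ω →₀ ℤ) (f m : Ω) (β : F) : Prop where
  ld : LD K E κ Ω'
  gp : GP K E σ τ
  kill : D.mapDomain (red σ) = 0
  nrm : Nrm σ D m
  ne : β ≠ 0
  eq : σ.V.valuation (algebraMap F Ω β * f) = hv σ.V D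

theorem cv31_mem (h : Kil K E σ τ D f m β) : algebraMap F Ω β * f * m ∈ σ.V ∧
    σ.π (algebraMap F Ω β * f * m) ≠ 0 := by
  have e : σ.V.valuation (algebraMap F Ω β * f * m) = 1 := by
    rw [Valuation.map_mul, h.eq, mul_comm, h.nrm.one]
  have h1 := (σ.V.valuation_le_one_iff _).1 e.le
  exact ⟨h1, (σ.val_eq_one h1).1 e⟩

theorem cv31_le (hE : FF K E) (hD : Spl E F D) (hf : f ∈ cmp E F Ω) (h : Kil K E σ τ D f m β)
    (e : E) (T : Finset E) (h1 : ∀ V : ValuationSubring Ω, Cont F V →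
      (∀ t ∈ T, algebraMap E Ω t ∈ V) → V.valuation (f * algebraMap E Ω e) ≤ hv V D)
    {U : ValuationSubring Ω'} (hU : Cont κ U) (hT : ∀ t ∈ T, algebraMap E Ω' t ∈ U) :
    U.valuation (σ.π (algebraMap F Ω β * f * m)) * U.valuation (algebraMap E Ω' e) ≤ 1 := by
  have h2 := rdc (fg_of_ff hE) h.gp.gs hD (f := algebraMap F Ω β * (f * algebraMap E Ω e))
    (mul_mem (right_mem_cmp _) (mul_mem hf (left_mem_cmp _))) T (fun V hV hV' => by
      rw [Valuation.map_mul, val_eq_one_of_cont hV h.ne, one_mul]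
      exact h1 V hV hV')
    (by
      rw [← mul_assoc, Valuation.map_mul, h.eq]
      exact mul_le_of_le_one_right' ((σ.V.valuation_le_one_iff _).2 (h.gp.ov e).1))
    (σ.pull U) (fun b hb => ⟨hb, by
      rw [(h.gp.ext b ((h.gp.iff b).1 hb)).2]
      exact hU _⟩) fun b hb => ⟨(h.gp.ov b).1, (h.gp.ov b).2 ▸ hT b hb⟩
  have e1 : algebraMap F Ω β * (f * algebraMap E Ω e) * m =
      algebraMap F Ω β * f * m * algebraMap E Ω e := by ring
  have h3 := (h.nrm.le _ (e1 ▸ mul_mem (cv31_mem h).1 (h.gp.ov _).1) U).1 h2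
  rwa [e1, σ.mul _ (cv31_mem h).1 _ (h.gp.ov _).1, (h.gp.ov _).2, h.kill, hv_zero,
    Valuation.map_mul] at h3

/-- For `U` that contains `κ` the ring `σ.pull U` contains `σ.V ∩ F`. Apply `rdc` and `Nrm.le` to
`β * f` (with `exists_gens`), to `β * f * u / p`, and to `β * f * ϖ ^ N` (with `T = {ϖ}`,
`aff_or`). So the reduction is `jj z` (`mem_range`, `GP.cmp`), `z ∈ Le N` (`exists_atI`,
`AtI.mem_Le`) and `lf (φ i) z = 0` (`exists_at` for the base change of `φ i`). -/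
theorem red_sec (hE : FF K E) (hD : Spl E F D) (hR : c.Rigid N r φ s₀)
    (hf : c.Sec F N φ (fun V => hv V D) f) (h : Kil K E σ τ D f m β) :
    ∃ a : κ, a ≠ 0 ∧ algebraMap F Ω β * f * m ∈ σ.V ∧
      σ.π (algebraMap F Ω β * f * m) = algebraMap κ Ω' a * algebraMap E Ω' s₀ := by
  have hK : ∀ V : ValuationSubring Ω, Cont F V → Cont K V := fun V hV a => by
    rw [IsScalarTower.algebraMap_apply K F Ω]
    exact hV _
  obtain ⟨T, t1, t2⟩ := c.exists_gens (Ω := Ω)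
  obtain ⟨m1, m0⟩ := cv31_mem h
  obtain ⟨z, hz⟩ := c.mem_range h.ld (h.gp.cmp _ (mul_mem (mul_mem (right_mem_cmp β) hf.mem)
    (h.nrm.rat _ hD.rat)) m1) fun U a b => by
      have := cv31_le hE hD hf.mem h 1 T (fun V hV hV' => by
        rw [map_one, mul_one]
        exact hf.aff V hV (t2 V (hK V hV) hV')) a fun t ht => b t (t1 t ht)
      rwa [map_one, map_one, mul_one, U.valuation_le_one_iff] at this
  obtain ⟨a, ha⟩ := hR.eq κ z (by
    obtain ⟨U, u1, u2⟩ := c.exists_atI h.ld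
    have := cv31_le hE hD hf.mem h (c.ϖ ^ N) {c.ϖ} (fun V hV hV' => by
      rw [Valuation.map_mul, map_pow, map_pow]
      rcases c.aff_or (hK V hV) with e | e
      · exact (mul_le_of_le_one_right' (pow_le_one' ((V.valuation_le_one_iff _).2
          (hV' _ (Finset.mem_singleton_self _))) N)).trans (hf.aff V hV e)
      · exact hf.inf V hV e) u1 fun t ht => by
        rw [Finset.mem_singleton.1 ht, ← ValuationSubring.mem_comap, u2]
        exact c.ϖ_mem
    rw [← hz, map_pow, map_pow] at this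
    exact u2.mem_Le u1 this) fun i => by
      let q : Ob K c.O κ →ₐ[κ] κ := Algebra.TensorProduct.lift (AlgHom.id κ κ)
        ((Algebra.ofId K κ).comp (φ i)) fun _ _ => Commute.all _ _
      have hq : ∀ a, q (io K κ a) = algebraMap K κ (φ i a) := fun a => by
        change q (1 ⊗ₜ a) = _
        simp only [q, Algebra.TensorProduct.lift_tmul, map_one, one_mul]
        rfl
      have hl : ∀ z, lf κ (φ i).toLinearMap z = q z := fun z => by
        induction z using TensorProduct.induction_on with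
        | zero => simp
        | tmul b a =>
          simp only [q, Algebra.TensorProduct.lift_tmul]
          simp [lf, Algebra.smul_def, mul_comm]
        | add a b ha hb => rw [map_add, map_add, ha, hb]
      obtain ⟨U, u1, u2, u3⟩ := c.exists_at h.ld q
      obtain ⟨p, u, p0, p1, p2, p3⟩ := hf.pt i
      have p4 : (p : E) ≠ 0 := fun e => p0 (Subtype.ext e)
      have := cv31_le hE hD hf.mem h (u / p) T (fun V hV hV' => by
        rw [map_div₀, ← mul_div_assoc, map_div₀, Valuation.map_mul,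
          div_le_iff₀ (zero_lt_iff.2 (by simpa using p4))]
        exact p3 V hV (t2 V (hK V hV) hV')) u1 fun t ht => u2 t (t1 t ht)
      have h1 := (u3 (io K κ p)).2 (by rw [hq, p1, map_zero])
      have h2 := (u3 (io K κ u)).not.2 (by rw [hq]; simpa using p2)
      rw [jj_io] at h1 h2
      rw [map_div₀, map_div₀, le_antisymm ((U.valuation_le_one_iff _).2 (u2 u u.2)) (not_lt.1 h2),
        ← hz, mul_one_div, div_le_one₀ (zero_lt_iff.2 (by simpa using p4))] at this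
      rw [hl, ← u3]
      exact this.trans_lt h1
  rw [← hz, ha] at m0
  refine ⟨a, fun e => m0 (by rw [e, zero_smul, map_zero]), m1, ?_⟩
  rw [← hz, ha, map_smul, jj_io, Algebra.smul_def]

theorem cv32_den (c : Cvd K E) (U : ValuationSubring E) (h : ∀ a ∈ c.O, a ∈ U) {z : E}
    (hz : z ∈ U) : ∃ s ∈ c.O, U.valuation s = 1 ∧ s * z ∈ c.O := by
  have := c.fr
  have := c.C.ded0
  by_cases hU : U = ⊤
  · obtain ⟨a, b, hb, rfl⟩ := IsFractionRing.div_surjective (A := c.O) z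
    have b0 : (b : E) ≠ 0 := fun e => nonZeroDivisors.ne_zero hb (Subtype.ext e)
    refine ⟨b, b.2, val_eq_one_of_cont (F := E) (fun _ => hU ▸ trivial) b0, ?_⟩
    change (b : E) * (a / b) ∈ _
    rw [mul_div_cancel₀ _ b0]
    exact a.2
  · obtain ⟨q, q1, -, q3⟩ := val_eq_loc (A := c.O) (fun a => h a a.2) hU
    obtain ⟨s, s1, a, s2⟩ := q3 z hz
    refine ⟨s, s.2, le_antisymm (U.valuation_le_one ⟨s, h s s.2⟩)
      (not_lt.1 fun e => s1 ((q1 s).2 e)), ?_⟩
    change algebraMap c.O E s * z ∈ _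
    rw [s2]
    exact a.2

theorem cv32_uni (c : Cvd K E) (U : ValuationSubring E) (h : ∀ a ∈ c.O, a ∈ U) (p : A.Pt E) :
    ∃ v, Rep p v ∧ (∀ a, v a ∈ c.O) ∧ ∃ a, U.valuation (v a) = 1 := by
  classical
  obtain ⟨v, v1, v2, a, v3⟩ := exists_uni p U
  choose s s1 s2 s3 using fun b => cv32_den c U h (v2 b)
  have h1 : U.valuation (∏ b, s b) = 1 := by simp [map_prod, s2]
  refine ⟨fun b => (∏ b, s b) * v b, v1.smul fun e => by simp [e] at h1, fun b => ?_, a,
    by simp only [v3, mul_one, h1]⟩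
  change (∏ b, s b) * v b ∈ _
  rw [← Finset.prod_erase_mul _ _ (Finset.mem_univ b), mul_assoc]
  exact mul_mem (prod_mem fun b _ => s1 b) (s3 b)

/-- Let `S` be the `k`-subalgebra of the sums `∑ β i * a i` of `gs_rep`, i.e. of the `jj z` in
`σ.V`, let `χ = τ ∘ q` on `S` and `P = ker χ`. Points over `E` are `Reg S P` (coordinates that are
unimodular for the localisation of the Dedekind domain `O` at the prime `P ∩ O`, a valuation ring;
clear denominators), points over `F` too. With `γ` from `exists_loc` the element `s = β * f * γ` is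
`jj z` (`mem_range`), lies in `σ.V`, and `q z = 0` by `h1`. Let `U` come from `exists_at` for the
point `q'` over `κ` with `q' (io a) = τ.π (q (io a))`. At `μ = σ.pull U` one has `v s < 1` iff
`χ s = 0` for `s ∈ S`, so `v (β * f) < hv μ D`; `Nrm.lt` and `red_sec` give `v s₀ < 1` at `U`. -/
theorem zero_red (hE : FF K E) (hL : LD K E F Ω) (hD : Spl E F D) (hR : c.Rigid N r φ s₀)
    (hf : c.Sec F N φ (fun V => hv V D) f) (h : Kil K E σ τ D f m β) (hτ : τ.Ov K)
    {q : Ob K c.O F →ₐ[F] F} {V : ValuationSubring Ω} (hF : Cont F V) (hV : c.Aff V)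
    (hq : ∀ z, V.valuation (c.jj F Ω z) < 1 ↔ q z = 0) (h1 : V.valuation f < hv V D)
    (h2 : ∀ a : c.O, q (io K F a) ∈ τ.V) : τ.π (q (io K F s₀)) = 0 := by
  classical
  let Q : c.O →ₐ[K] κ :=
    { toFun a := τ.π (q (io K F a))
      map_one' := by rw [map_one, map_one, τ.one]
      map_mul' a b := by rw [map_mul, map_mul, τ.mul _ (h2 a) _ (h2 b)]
      map_zero' := by rw [map_zero, map_zero, τ.zero]
      map_add' a b := by rw [map_add, map_add, τ.add _ (h2 a) _ (h2 b)]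
      commutes' r := by
        rw [AlgHom.commutes, IsScalarTower.algebraMap_apply K F, AlgHom.commutes]
        exact (hτ r).2 }
  let q' : Ob K c.O κ →ₐ[κ] κ :=
    Algebra.TensorProduct.lift (AlgHom.id κ κ) Q fun _ _ => Commute.all _ _
  have hq' : ∀ a, q' (io K κ a) = τ.π (q (io K F a)) := fun a => by
    change q' (1 ⊗ₜ a) = _
    simp only [q', Algebra.TensorProduct.lift_tmul, map_one, one_mul]
    rfl
  obtain ⟨U, u1, u2, u3⟩ := c.exists_at h.ld q'
  have hO : ∀ a ∈ c.O, algebraMap E Ω a ∈ σ.pull U := fun a ha =>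
    ⟨(h.gp.ov a).1, (h.gp.ov a).2 ▸ u2 a ha⟩
  have hτ' : ∀ b ∈ τ.V, algebraMap F Ω b ∈ σ.pull U := fun b hb =>
    ⟨(h.gp.ext b hb).1, (h.gp.ext b hb).2 ▸ u1 _⟩
  have hD' := hD
  choose! e d hed using hD'
  choose v v1 v2 v3 using fun p => cv32_uni c ((σ.pull U).comap (algebraMap E Ω)) hO (e p)
  choose w w1 w2 w3 using fun p => exists_uni (d p) τ.V
  let S : Subalgebra k Ω := Algebra.adjoin k (algebraMap E Ω '' c.O ∪ algebraMap F Ω '' τ.V)
  have hS : ∀ V : Subring Ω, (∀ x ∈ c.O, algebraMap E Ω x ∈ V) →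
      (∀ b ∈ τ.V, algebraMap F Ω b ∈ V) → ∀ s ∈ S, s ∈ V := by
    intro V a1 a2 s hs
    induction hs using Algebra.adjoin_induction with
    | mem x hx =>
      rcases hx with ⟨y, hy, rfl⟩ | ⟨y, hy, rfl⟩
      exacts [a1 y hy, a2 y hy]
    | algebraMap r =>
      rw [IsScalarTower.algebraMap_apply k E Ω, IsScalarTower.algebraMap_apply k K E]
      exact a1 _ (c.O.algebraMap_mem _)
    | add _ _ _ _ a b => exact add_mem a b
    | mul _ _ _ _ a b => exact mul_mem a b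
  have hμ := hS (σ.pull U).toSubring hO hτ'
  let ψ : S →+* σ.pull U := (S.val : S →+* Ω).codRestrict _ fun s => hμ s s.2
  let P : Ideal S := (IsLocalRing.maximalIdeal (σ.pull U)).comap ψ
  have hP : P.IsPrime := Ideal.comap_isPrime ψ _
  have h1P : ∀ s : S, s ∈ P ↔ (σ.pull U).valuation (s : Ω) < 1 := fun s =>
    (σ.pull U).valuation_lt_one_iff (ψ s)
  obtain ⟨γ, g0, g1, g2, g3⟩ := exists_loc (D := D) S P fun p hp => by
    rw [hed p hp]
    exact Reg.add ⟨fun a => ⟨_, Algebra.subset_adjoin (.inl ⟨v p a, v2 p a, rfl⟩)⟩, (v1 p).up,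
      (v3 p).imp fun a h e => ((h1P _).1 e).ne ((comap_val_eq_one _ _ _).1 h)⟩
      ⟨fun a => ⟨_, Algebra.subset_adjoin (.inr ⟨w p a, w2 p a, rfl⟩)⟩, (w1 p).up,
      (w3 p).imp fun a h e => ((h1P _).1 e).ne (by simp [h])⟩
  have hγ : ∀ V : ValuationSubring Ω, 0 < V.valuation γ := fun V =>
    zero_lt_iff.2 ((map_ne_zero _).2 g0)
  have hg : ∀ V : ValuationSubring Ω, Cont F V → c.Aff V → V.valuation γ * hv V D ≤ 1 ∧
      V.valuation (γ * (algebraMap F Ω β * f)) = V.valuation γ * V.valuation f := fun V a b =>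
    ⟨g2 V (hS V.toSubring b fun x _ => a x), by
      rw [map_mul, map_mul, val_eq_one_of_cont a h.ne, one_mul]⟩
  obtain ⟨z, hz⟩ := c.mem_range hL (s := γ * (algebraMap F Ω β * f))
    (mul_mem (g1 _ (hS (cmp E F Ω).toSubring (fun x _ => left_mem_cmp x)
      fun x _ => right_mem_cmp x)) (mul_mem (right_mem_cmp β) hf.mem)) fun V a b => by
      rw [← V.valuation_le_one_iff, (hg V a b).2]
      exact (mul_le_mul_right (hf.aff V a b) _).trans (hg V a b).1
  have z1 : q z = 0 := (hq z).1 (by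
    rw [hz, (hg V hF hV).2]
    exact (mul_lt_mul_of_pos_left h1 (hγ V)).trans_le (hg V hF hV).1)
  have z2 : c.jj F Ω z ∈ σ.V := by
    rw [hz, ← σ.V.valuation_le_one_iff, map_mul, h.eq]
    exact g2 _ (hS σ.V.toSubring (fun x _ => (h.gp.ov x).1) fun b hb => (h.gp.ext b hb).1)
  obtain ⟨n, b, a, b1, rfl⟩ := c.gs_rep h.gp.gs z2
  replace b1 := fun i => (h.gp.iff _).1 (b1 i)
  have z3 : σ.π (c.jj F Ω (∑ i, b i • io K F (a i))) =
      c.jj κ Ω' (∑ i, τ.π (b i) • io K κ (a i)) := by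
    simp only [map_sum, map_smul, jj_io, Algebra.smul_def (A := Ω), Algebra.smul_def (A := Ω')]
    rw [σ.map_sum _ fun i _ => mul_mem (h.gp.ext _ (b1 i)).1 (h.gp.ov _).1]
    exact Finset.sum_congr rfl fun i _ => by
      rw [σ.mul _ (h.gp.ext _ (b1 i)).1 _ (h.gp.ov _).1, (h.gp.ext _ (b1 i)).2, (h.gp.ov _).2]
  have z4 : q' (∑ i, τ.π (b i) • io K κ (a i)) = 0 := by
    have e := congrArg τ.π z1
    simp only [map_sum, map_smul, smul_eq_mul, hq'] at e ⊢
    rw [τ.map_sum _ fun i _ => mul_mem (b1 i) (h2 _), τ.zero] at e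
    exact (Finset.sum_congr rfl fun i _ => (τ.mul _ (b1 i) _ (h2 _)).symm).trans e
  have z5 := (σ.pull_val_lt U z2 (one_mem _) (σ.one ▸ one_ne_zero)).2 (by
    rw [z3, σ.one, map_one]
    exact (u3 _).2 z4)
  rw [hz, map_one, map_mul, ← g3 _ hμ fun s hs => le_antisymm
    ((σ.pull U).valuation_le_one (ψ s)) (not_lt.1 fun e => hs ((h1P s).2 e))] at z5
  obtain ⟨t, t0, t1, t2⟩ := red_sec hE hD hR hf h
  have z6 := (h.nrm.lt _ t1 U).1 (lt_of_mul_lt_mul_left z5 (hγ _).le)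
  rw [t2, h.kill, hv_zero, map_mul, val_eq_one_of_cont u1 t0, one_mul, ← c.jj_io (F := κ)] at z6
  rw [← hq', ← u3]
  exact z6

/-- Let `U₀ = V ∩ E`. If `U₀ = ⊤` use `hz`. Otherwise take `c'` with `c'.I.V = U₀` (`exists_cvd`),
`n` with `v (f * ϖ' ^ n) = hv` at all rings over `U₀` that contain `F` (`unif`, `unif_hv`), and `t`
from `exists_excl` for `s₀`, `ϖ'` and, if `U₀ ≠ I.V`, the element of `exists_pole`. Then `rdc_eq`
with `T = {t}` at `σ.pull U`, `U` from `exists_atI` for `c'` over `κ`; `Nrm.eq` and `red_sec` show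
that `s₀ * ϖ' ^ n` is a unit of `U₀`. -/
theorem finish (hE : FF K E) (hL : LD K E F Ω) (hD : Spl E F D) (hR : c.Rigid N r φ s₀)
    (hf : c.Sec F N φ (fun V => hv V D) f) (h : Kil K E σ τ D f m β)
    (hz : ∀ V : ValuationSubring Ω, Cont F V → c.Aff V → V.valuation (algebraMap E Ω s₀) = 1 →
      V.valuation f = hv V D) (V : ValuationSubring Ω) (hF : Cont F V) :
    V.valuation (f / algebraMap E Ω s₀) = hv V D := by
  classical
  have hs : (s₀ : E) ≠ 0 := fun e => hR.ne (Subtype.ext e)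
  have hK : ∀ V : ValuationSubring Ω, Cont F V → Cont K V := fun V hV a => by
    rw [IsScalarTower.algebraMap_apply K F Ω]
    exact hV _
  have hK' : ∀ V : ValuationSubring Ω, Cont F V → Cont K (V.comap (algebraMap E Ω)) :=
    fun V hV a => by
      rw [ValuationSubring.mem_comap, ← IsScalarTower.algebraMap_apply]
      exact hK V hV a
  by_cases hU : V.comap (algebraMap E Ω) = ⊤
  · have hE' : Cont E V := fun a => by
      rw [← ValuationSubring.mem_comap, hU]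
      trivial
    have h1 := val_eq_one_of_cont hE' hs
    rw [map_div₀, h1, div_one]
    exact hz V hF (fun a _ => hE' a) h1
  obtain ⟨c', hc'⟩ := exists_cvd hE _ (hK' V hF) hU
  obtain ⟨n₁, hn₁⟩ := c'.unif hL hf.mem hf.ne
  obtain ⟨n₂, hn₂⟩ := unif_hv c' hL hD.rat
  obtain ⟨t₀, -, h0, ht₀⟩ := c.exists_pole
  obtain ⟨t, ht, hx⟩ := c'.exists_excl {(s₀ : E), c'.ϖ, t₀} (by simp [hs, c'.ϖ_ne, h0])
  have hg : c'.ϖ ^ (n₂ - n₁) ≠ 0 := zpow_ne_zero _ c'.ϖ_ne
  have h2 : ∀ V : ValuationSubring Ω, Cont F V → c'.AtI V →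
      V.valuation (f * algebraMap E Ω (c'.ϖ ^ (n₂ - n₁))) = hv V D := fun V hV hV' => by
    rw [Valuation.map_mul, hn₁ V hV hV', hn₂ V hV hV', map_zpow₀, map_zpow₀,
      ← zpow_add₀ (by simpa using c'.ϖ_ne), add_sub_cancel]
  obtain ⟨U, hU1, hU2⟩ := c'.exists_atI h.ld
  obtain ⟨a, ha, hm, he⟩ := red_sec hE hD hR hf h
  have h3 := rdc_eq (fg_of_ff hE) h.gp.gs hD
    (f := algebraMap F Ω β * (f * algebraMap E Ω (c'.ϖ ^ (n₂ - n₁))))
    (mul_mem (right_mem_cmp _) (mul_mem hf.mem (left_mem_cmp _))) {t} (fun W hW hW' => by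
      rw [Valuation.map_mul, val_eq_one_of_cont hW h.ne, one_mul]
      rcases hx _ (hK' W hW) (hW' t (Finset.mem_singleton_self t)) with e | e
      · exact h2 W hW e
      · have h4 : c.Aff W := (c.aff_or (hK W hW)).resolve_right fun e' => by
          have := e t₀ (by simp)
          rw [e'] at this
          exact ht₀ this
        rw [Valuation.map_mul, hz W hW h4 ((comap_val_eq_one _ _ _).1 (e _ (by simp))), map_zpow₀,
          map_zpow₀, (comap_val_eq_one _ _ _).1 (e c'.ϖ (by simp)), one_zpow, mul_one])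
    (by rw [← mul_assoc, Valuation.map_mul, h.eq, val_eq_one_of_cont h.gp.gs.1 hg, mul_one])
    (σ.pull U) (fun b hb => ⟨hb, by
      rw [(h.gp.ext b ((h.gp.iff b).1 hb)).2]
      exact hU1 _⟩) (fun b hb => ⟨(h.gp.ov b).1, by
      rw [(h.gp.ov b).2, Finset.mem_singleton.1 hb, ← ValuationSubring.mem_comap, hU2]
      exact ht⟩)
  have e1 : algebraMap F Ω β * (f * algebraMap E Ω (c'.ϖ ^ (n₂ - n₁))) * m =
      algebraMap F Ω β * f * m * algebraMap E Ω (c'.ϖ ^ (n₂ - n₁)) := by ring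
  have h5 := (h.nrm.eq _ (e1 ▸ mul_mem hm (h.gp.ov _).1) U).1 h3
  rw [e1, σ.mul _ hm _ (h.gp.ov _).1, he, (h.gp.ov _).2, h.kill, hv_zero, mul_assoc, ← map_mul,
    Valuation.map_mul, val_eq_one_of_cont hU1 ha, one_mul, ← comap_val_eq_one, hU2, hc',
    comap_val_eq_one] at h5
  rw [← mul_div_mul_right _ _ ((_root_.map_ne_zero (algebraMap E Ω)).2 hg), ← map_mul, map_div₀, h5,
    div_one]
  exact h2 V hF hc'.symm

end red

variable (c) in
/-- Enough places of `F` that kill `y` or `z`. -/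
def Rig (y z : A.Pt F) : Prop :=
  ∀ (Q : c.O →ₐ[K] F) (a : c.O), Q a ≠ 0 → ∃ (κ : Type) (_ : Field κ) (_ : IsAlgClosed κ)
    (_ : Algebra k κ) (_ : Algebra K κ) (_ : IsScalarTower k K κ) (τ : Plc k F κ), τ.Ov K ∧
      (∀ b, Q b ∈ τ.V) ∧ τ.π (Q a) ≠ 0 ∧ (red τ y = 0 ∨ red τ z = 0)

theorem cv34_kil (hL : LD K E F Ω) (hD : Spl E F D) {y z : A.Pt F} (hr : c.Rig y z)
    (hk : ∀ (Ω' : Type) [Field Ω'] [Algebra k Ω'] (σ : Plc k Ω Ω'),
      red σ (up Ω y) = 0 ∨ red σ (up Ω z) = 0 → D.mapDomain (red σ) = 0)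
    (hf : f ∈ cmp E F Ω) (h0 : f ≠ 0) (Q : c.O →ₐ[K] F) (a : c.O) (ha : Q a ≠ 0) :
    ∃ (κ Ω' : Type) (_ : Field κ) (_ : Field Ω') (_ : Algebra k κ) (_ : Algebra k Ω')
      (_ : Algebra K κ) (_ : Algebra K Ω') (_ : Algebra E Ω') (_ : Algebra κ Ω')
      (_ : IsScalarTower k K κ) (_ : IsScalarTower k K Ω') (_ : IsScalarTower K E Ω')
      (_ : IsScalarTower K κ Ω') (_ : IsScalarTower k E Ω') (_ : IsScalarTower k κ Ω')
      (_ : IsAlgClosed κ) (_ : IsAlgClosed Ω') (σ : Plc k Ω Ω') (τ : Plc k F κ) (m : Ω) (β : F),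
      Kil K E σ τ D f m β ∧ τ.Ov K ∧ (∀ b, Q b ∈ τ.V) ∧ τ.π (Q a) ≠ 0 := by
  obtain ⟨κ, _, _, _, _, _, τ, h1, h2, h3, h4⟩ := hr Q a ha
  obtain ⟨Ω', _, _, _, _, _, _, _, _, _, _, _, hl⟩ := exists_ld k K E κ
  obtain ⟨σ, hσ⟩ := exists_gp hL hl τ h1
  obtain ⟨m, hm⟩ := exists_nrm σ D
  obtain ⟨β, b0, b1⟩ := hD.scale hσ.gs hf h0
  have e : σ.Ext ((Plc.ofHom (IsScalarTower.toAlgHom k κ Ω')).comp τ) := fun x hx => hσ.ext x hx.1
  refine ⟨κ, Ω', _, _, _, _, _, _, _, _, ‹_›, ‹_›, ‹_›, ‹_›, ‹_›, ‹_›, ‹_›, ‹_›, σ, τ, m, β,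
    ⟨hl, hσ, hk Ω' σ (h4.imp (fun h => ?_) fun h => ?_), hm, b0, b1⟩, h1, h2, h3⟩ <;>
  rw [red_ext e, red_comp, h, map_zero]

/-- For a place `τ` of `Rig`: `exists_ld`, `exists_gp`, `exists_nrm`, `Spl.scale` give `Kil`. If
`hz` of `finish` fails at `V`, take `q` from `exists_centre` (for `f / g`, `g` from `exists_hv`),
`Q = q ∘ io`, `a = s₀`, and `zero_red`. A place for `finish` comes from a point of `O` over `K`
(`exists_point`) and `a = 1`. -/
theorem prin_of_deg (hE : FF K E) (hL : LD K E F Ω) (hD : Spl E F D) {y z : A.Pt F}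
    (hr : c.Rig y z) (hk : ∀ (Ω' : Type) [Field Ω'] [Algebra k Ω'] (σ : Plc k Ω Ω'),
      red σ (up Ω y) = 0 ∨ red σ (up Ω z) = 0 → D.mapDomain (red σ) = 0) {d : ℤ}
    (h : c.Deg F (fun V => hv V D) d) (hd : 0 ≤ d) : ∃ g ∈ cmp E F Ω, g ≠ 0 ∧
      ∀ V : ValuationSubring Ω, Cont F V → V.valuation g = hv V D := by
  obtain ⟨N, r, φ, s₀, hR⟩ := c.exists_rigid
  obtain ⟨f, hf⟩ := exists_sec hL h hd φ hR.le hR.nu
  have := c.C.finiteType
  obtain ⟨ψ, -⟩ := exists_point (K := K) (R := c.O) one_ne_zero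
  obtain ⟨κ, Ω', _, _, _, _, _, _, _, _, _, _, _, _, _, _, _, _, σ, τ, m, β, h1, -⟩ :=
    cv34_kil hL hD hr hk hf.mem hf.ne ((Algebra.ofId K F).comp ψ) 1 (by simp)
  refine ⟨_, div_mem hf.mem (left_mem_cmp _), div_ne_zero hf.ne (by simpa using hR.ne),
    finish hE hL hD hR hf h1 fun V hF hV hs => ?_⟩
  by_contra hn
  obtain ⟨g, g1, g0, g2⟩ := exists_hv V hD.rat
  replace g2 := g2 V fun _ _ h => h
  obtain ⟨q, hq⟩ := c.exists_centre hL hF hV (div_mem hf.mem g1) (div_ne_zero hf.ne g0) (by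
    rw [map_div₀, g2, Ne, div_eq_one_iff_eq (hv_ne V D)]
    exact hn)
  obtain ⟨κ, Ω', _, _, _, _, _, _, _, _, _, _, _, _, _, _, _, _, σ, τ, m, β, h1, h2, h3, h4⟩ :=
    cv34_kil hL hD hr hk hf.mem hf.ne ((q.restrictScalars K).comp (io K F)) s₀ fun e => by
      have := (hq (io K F s₀)).2 e
      rw [jj_io, hs] at this
      exact this.false
  exact h4 (zero_red hE hL hD hR hf h1 h2 hF hV hq ((hf.aff V hF hV).lt_of_ne hn) h3)

/-- `exists_deg_hv`; `prin_of_deg` for `D` or `-D`. -/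
theorem prin_cub (c : Cvd K E) (hE : FF K E) (hL : LD K E F Ω) (x : A.Pt E) {y z : A.Pt F}
    (hr : c.Rig y z) : ∃ g ∈ cmp E F Ω, g ≠ 0 ∧ ∀ V : ValuationSubring Ω, Cont F V →
      V.valuation g = hv V (cub (up Ω x) (up Ω y) (up Ω z)) := by
  have hD := spl_cub₁ (Ω := Ω) x y z
  have hk : ∀ (Ω' : Type) [Field Ω'] [Algebra k Ω'] (σ : Plc k Ω Ω'),
      red σ (up Ω y) = 0 ∨ red σ (up Ω z) = 0 →
        (cub (up Ω x) (up Ω y) (up Ω z)).mapDomain (red σ) = 0 := fun Ω' _ _ σ h => by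
    rw [cub_map]
    rcases h with h | h
    · rw [h, cub_zero₂]
    · rw [h, cub_zero₃]
  obtain ⟨d, h1, h2⟩ := exists_deg_hv (c := c) hL hD.rat
  rcases le_total 0 d with hd | hd
  · exact prin_of_deg hE hL hD hr hk h1 hd
  obtain ⟨g, g1, g0, g2⟩ := prin_of_deg hE hL hD.neg hr (fun Ω' _ _ σ h =>
    (map_neg (Finsupp.mapDomain.addMonoidHom (M := ℤ) (red (A := A) σ)) _).trans
      (neg_eq_zero.2 (hk Ω' σ h))) h2 (neg_nonneg.2 hd)
  exact ⟨g⁻¹, inv_mem g1, inv_ne_zero g0, fun V hV => by rw [map_inv₀, g2 V hV, hv_neg, inv_inv]⟩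

end Cvd

end

end Pool.Agent.Lib.MP_651af7_nt.Cu
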