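import Pool.Agent.Lib.MP_651af7_nt.Av.PtB

/-! Places, sup norms, projective group varieties and formal sums of points. -/

namespace Pool.Agent.Lib.MP_651af7_nt.Cu

open MvPolynomial Av

noncomputable section

/-- A place of `Ω` over `k` with values in `Ω'`. -/
structure Plc (k Ω Ω' : Type) [Field k] [Field Ω] [Field Ω'] [Algebra k Ω] [Algebra k Ω'] where
  V : ValuationSubring Ω
  π : Ω → Ω'
  one : π 1 = 1
  add : ∀ a ∈ V, ∀ b ∈ V, π (a + b) = π a + π b
  mul : ∀ a ∈ V, ∀ b ∈ V, π (a * b) = π a * π b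
  inv : ∀ a ∈ V, π a ≠ 0 → a⁻¹ ∈ V
  alg : ∀ c : k, algebraMap k Ω c ∈ V ∧ π (algebraMap k Ω c) = algebraMap k Ω' c

/-- The valuation ring contains the image of `R`. -/
def Cont (R : Type) {Ω : Type} [CommRing R] [Field Ω] [Algebra R Ω] (V : ValuationSubring Ω) :
    Prop := ∀ r : R, algebraMap R Ω r ∈ V

/-- The sup norm of a tuple. -/
def nv {Ω α : Type} [Field Ω] [Fintype α] (V : ValuationSubring Ω) (u : α → Ω) : V.ValueGroup :=
  Finset.univ.sup fun a => V.valuation (u a)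

/-- `E` and `F` are linearly disjoint over `K` in `Ω`. -/
def LD (K E F Ω : Type) [Field K] [Field E] [Field F] [Field Ω] [Algebra K E] [Algebra E Ω]
    [Algebra F Ω] : Prop :=
  ∀ (m : ℕ) (e : Fin m → E), LinearIndependent K e →
    LinearIndependent F fun i => algebraMap E Ω (e i)

/-- The compositum. -/
def cmp (E F Ω : Type) [Field E] [Field F] [Field Ω] [Algebra E Ω] [Algebra F Ω] : Subfield Ω :=
  (algebraMap E Ω).fieldRange ⊔ (algebraMap F Ω).fieldRange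

/-- `W` is a Gauss extension. -/
def Gs (K E F : Type) {Ω : Type} [Field K] [Field E] [Field F] [Field Ω] [Algebra K E]
    [Algebra E Ω] [Algebra F Ω] (W : ValuationSubring Ω) : Prop :=
  Cont E W ∧ ∀ (m : ℕ) (e : Fin m → E), LinearIndependent K e → ∀ c : Fin m → F,
    W.valuation (∑ i, algebraMap F Ω (c i) * algebraMap E Ω (e i)) =
      nv W fun i => algebraMap F Ω (c i)

namespace Plc

variable {k Ω Ω' Ω'' F : Type} [Field k] [Field Ω] [Field Ω'] [Field Ω''] [Field F] [Algebra k Ω]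
  [Algebra k Ω'] [Algebra k Ω''] [Algebra k F] (σ : Plc k Ω Ω')

theorem zero : σ.π 0 = 0 := by simpa using (σ.alg 0).2

theorem neg {a : Ω} (ha : a ∈ σ.V) : σ.π (-a) = -σ.π a := by
  have h := σ.add a ha (-a) (neg_mem ha)
  rw [add_neg_cancel, σ.zero] at h
  exact (neg_eq_of_add_eq_zero_right h.symm).symm

theorem map_inv {a : Ω} (ha : a ∈ σ.V) (h : σ.π a ≠ 0) : σ.π a⁻¹ = (σ.π a)⁻¹ := by
  have h0 : a ≠ 0 := fun e => h (e ▸ σ.zero)
  have h1 := σ.mul a ha _ (σ.inv a ha h)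
  rw [mul_inv_cancel₀ h0, σ.one] at h1
  exact eq_inv_of_mul_eq_one_right h1.symm

theorem ne_zero {a : Ω} (ha : a ∈ σ.V) (h0 : a ≠ 0) (h : a⁻¹ ∈ σ.V) : σ.π a ≠ 0 := by
  have h1 := σ.mul a ha _ h
  rw [mul_inv_cancel₀ h0, σ.one] at h1
  exact left_ne_zero_of_mul_eq_one h1.symm

/-- An embedding as a place. -/
def ofHom (f : Ω →ₐ[k] Ω') : Plc k Ω Ω' where
  V := ⊤
  π := f
  one := map_one f
  add a _ b _ := map_add f a b
  mul a _ b _ := map_mul f a b
  inv _ _ _ := trivial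
  alg c := ⟨trivial, f.commutes c⟩

/-- The composite valuation ring. -/
def pull (U : ValuationSubring Ω') : ValuationSubring Ω where
  carrier := {a | a ∈ σ.V ∧ σ.π a ∈ U}
  mul_mem' := fun {a b} ha hb => ⟨mul_mem ha.1 hb.1, σ.mul a ha.1 b hb.1 ▸ mul_mem ha.2 hb.2⟩
  one_mem' := ⟨one_mem _, σ.one ▸ one_mem _⟩
  add_mem' := fun {a b} ha hb => ⟨add_mem ha.1 hb.1, σ.add a ha.1 b hb.1 ▸ add_mem ha.2 hb.2⟩
  zero_mem' := ⟨zero_mem _, σ.zero ▸ zero_mem _⟩
  neg_mem' := fun {a} ha => ⟨neg_mem ha.1, σ.neg ha.1 ▸ neg_mem ha.2⟩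
  mem_or_inv_mem' a := by
    have key : ∀ b ∈ σ.V, (b ∈ σ.V ∧ σ.π b ∈ U) ∨ (b⁻¹ ∈ σ.V ∧ σ.π b⁻¹ ∈ U) := fun b hb => by
      by_cases h : σ.π b ∈ U
      · exact .inl ⟨hb, h⟩
      · have h0 : σ.π b ≠ 0 := fun e => h (e ▸ zero_mem _)
        exact .inr ⟨σ.inv b hb h0, σ.map_inv hb h0 ▸ (U.mem_or_inv_mem _).resolve_left h⟩
    rcases σ.V.mem_or_inv_mem a with h | h
    · exact key a h
    · have h1 := key _ h
      rw [inv_inv] at h1
      exact h1.symm

theorem mem_pull {U : ValuationSubring Ω'} {a : Ω} : a ∈ σ.pull U ↔ a ∈ σ.V ∧ σ.π a ∈ U := Iff.rfl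

/-- The composite place. -/
def comp (ρ : Plc k Ω' Ω'') (σ : Plc k Ω Ω') : Plc k Ω Ω'' where
  V := σ.pull ρ.V
  π a := ρ.π (σ.π a)
  one := by rw [σ.one, ρ.one]
  add a ha b hb := by rw [σ.add a ha.1 b hb.1, ρ.add _ ha.2 _ hb.2]
  mul a ha b hb := by rw [σ.mul a ha.1 b hb.1, ρ.mul _ ha.2 _ hb.2]
  inv a ha h := by
    have h0 : σ.π a ≠ 0 := fun e => h (by rw [e, ρ.zero])
    exact ⟨σ.inv a ha.1 h0, σ.map_inv ha.1 h0 ▸ ρ.inv _ ha.2 h⟩
  alg c := ⟨⟨(σ.alg c).1, (σ.alg c).2 ▸ (ρ.alg c).1⟩, by rw [(σ.alg c).2, (ρ.alg c).2]⟩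

/-- The valuation ring as a subalgebra. -/
def sub : Subalgebra k Ω where
  carrier := σ.V
  mul_mem' := mul_mem
  add_mem' := add_mem
  algebraMap_mem' c := (σ.alg c).1

/-- The place as a homomorphism. -/
def hom : σ.sub →ₐ[k] Ω' where
  toFun a := σ.π a
  map_one' := σ.one
  map_mul' a b := σ.mul a a.2 b b.2
  map_zero' := σ.zero
  map_add' a b := σ.add a a.2 b b.2
  commutes' c := (σ.alg c).2

/-- `σ` extends the place `τ` of the subfield `F`. -/
def Ext [Algebra F Ω] (τ : Plc k F Ω') : Prop :=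
  ∀ c ∈ τ.V, algebraMap F Ω c ∈ σ.V ∧ σ.π (algebraMap F Ω c) = τ.π c

/-- `σ` is the identity on `K`. -/
def Ov (K : Type) [Field K] [Algebra K Ω] [Algebra K Ω'] : Prop :=
  ∀ c : K, algebraMap K Ω c ∈ σ.V ∧ σ.π (algebraMap K Ω c) = algebraMap K Ω' c

theorem aeval_mem {α : Type} {x : α → Ω} (hx : ∀ a, x a ∈ σ.V) (P : MvPolynomial α k) :
    aeval x P ∈ σ.V ∧ σ.π (aeval x P) = aeval (fun a => σ.π (x a)) P := by
  induction P using MvPolynomial.induction_on with
  | C c => simpa using σ.alg c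
  | add P Q hP hQ =>
    rw [map_add, map_add]
    exact ⟨add_mem hP.1 hQ.1, by rw [σ.add _ hP.1 _ hQ.1, hP.2, hQ.2]⟩
  | mul_X P a hP =>
    rw [map_mul, map_mul, aeval_X, aeval_X]
    exact ⟨mul_mem hP.1 (hx a), by rw [σ.mul _ hP.1 _ (hx a), hP.2]⟩

end Plc

/-- The value of the form `Ψ a`. -/
def ps {k ι R : Type} [Field k] [CommRing R] [Algebra k R] (Ψ : ι → MvPolynomial (ι ⊕ ι) k)
    (v w : ι → R) (a : ι) : R := aeval (Sum.elim v w) (Ψ a)

/-- A projective variety with a group law on its points over all fields; subtraction is given by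
the systems of forms `Ψ j`. -/
structure GA (k : Type) [Field k] (ι : Type) where
  I : Ideal (MvPolynomial ι k)
  hom : ∀ P ∈ I, ∀ d, homogeneousComponent d P ∈ I
  prime : ∀ (M : Type) [Field M] [Algebra k M],
    (I.map (MvPolynomial.map (algebraMap k M))).IsPrime
  J : Type
  Ψ : J → ι → MvPolynomial (ι ⊕ ι) k
  dg : J → ℕ × ℕ
  bih : ∀ j a, (Ψ j a).IsWeightedHomogeneous (bw ι ι) (dg j)
  grp : ∀ (M : Type) [Field M] [Algebra k M], AddCommGroup (Prj I M)
  cov : ∀ (M : Type) [Field M] [Algebra k M] (p q : Prj I M), ∃ j a, ps (Ψ j) p.co q.co a ≠ 0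
  law : ∀ (M : Type) [Field M] [Algebra k M] (p q : Prj I M) (j : J), ∃ c : M, ∀ a,
    ps (Ψ j) p.co q.co a = c * (letI := grp M; p - q).co a

namespace GA

variable {k ι : Type} [Field k] (A : GA k ι) {Ω Ω' : Type} [Field Ω] [Algebra k Ω] [Field Ω']
  [Algebra k Ω']

/-- The points with values in a field. -/
def Pt (M : Type) [Field M] [Algebra k M] : Type := Prj A.I M

instance (M : Type) [Field M] [Algebra k M] : AddCommGroup (A.Pt M) := A.grp M

variable {A}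

/-- `v` is a vector of homogeneous coordinates of `p`. -/
def Rep (p : A.Pt Ω) (v : ι → Ω) : Prop := PR (I := A.I) p v

/-- An index with non-zero coordinate. -/
def idx (p : A.Pt Ω) : ι := (pr_co (I := A.I) p).unit.choose

/-- Normalised coordinates. -/
def nc (p : A.Pt Ω) (a : ι) : Ω := Prj.co (I := A.I) p a / Prj.co (I := A.I) p (idx p)

open Classical in
/-- The reduction of a point at a place. -/
def red₀ (σ : Plc k Ω Ω') (p : A.Pt Ω) : A.Pt Ω' :=
  if h : ∃ q : A.Pt Ω', ∀ v, Rep p v → (∀ a, v a ∈ σ.V) → (∃ a, σ.π (v a) ≠ 0) →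
    Rep q fun a => σ.π (v a) then h.choose else 0

variable [Fintype ι]

/-- The value at `V` of a formal sum of points. -/
def hv (V : ValuationSubring Ω) (D : A.Pt Ω →₀ ℤ) : V.ValueGroup :=
  D.prod fun p n => nv V (nc p) ^ n

/-- The formal sum of points is principal over `K`. -/
def Pr (K : Type) [Field K] [Algebra K Ω] (D : A.Pt Ω →₀ ℤ) : Prop :=
  ∃ f : Ω, f ≠ 0 ∧ ∀ V : ValuationSubring Ω, Cont K V → V.valuation f = hv V D

omit [Fintype ι] in
/-- The formal sum of the theorem of the cube. -/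
def cub {G : Type} [AddCommGroup G] (x y z : G) : G →₀ ℤ :=
  Finsupp.single (x + y + z) 1 + Finsupp.single x 1 + Finsupp.single y 1 + Finsupp.single z 1 -
    (Finsupp.single (x + y) 1 + Finsupp.single (x + z) 1 + Finsupp.single (y + z) 1 +
      Finsupp.single 0 1)

variable (A) in
omit [Fintype ι] in
/-- `η` is a generic point of the cone over `M`. -/
def Gen (M : Type) {N : Type} [Field M] [Algebra k M] [Field N] [Algebra M N] (η : ι → N) : Prop :=
  ∀ P : MvPolynomial ι M, aeval η P = 0 ↔ P ∈ A.I.map (MvPolynomial.map (algebraMap k M))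

omit [Fintype ι] in
/-- `p` has coordinates in `S` that do not all lie in `P`. -/
def Reg (S : Subalgebra k Ω) (P : Ideal S) (p : A.Pt Ω) : Prop :=
  ∃ ξ : ι → S, Rep p (fun a => ξ a) ∧ ∃ a, ξ a ∉ P

omit [Fintype ι] in
/-- All points of `D` have their normalised coordinates in `Λ`. -/
def Rat (Λ : Subfield Ω) (D : A.Pt Ω →₀ ℤ) : Prop := ∀ p ∈ D.support, ∀ a, nc p a ∈ Λ

end GA

end

end Pool.Agent.Lib.MP_651af7_nt.Cu
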