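import Pool.Agent.Lib.MP_651af7_nt.Cu.Plc

/-! Points, reduction of points, values of formal sums. -/

namespace Pool.Agent.Lib.MP_651af7_nt.Cu

open MvPolynomial Av

set_option linter.unusedSectionVars false

noncomputable section

namespace GA

variable {k ι : Type} [Field k] [Fintype ι] {A : GA k ι} {Ω Ω' Ω'' F : Type} [Field Ω]
  [Algebra k Ω] [Field Ω'] [Algebra k Ω'] [Field Ω''] [Algebra k Ω''] [Field F] [Algebra k F]
  {p q : A.Pt Ω} {v w : ι → Ω}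

theorem Rep.ne (h : Rep p v) : ∃ a, v a ≠ 0 := by
  obtain ⟨a, ha⟩ := PR.unit h
  exact ⟨a, ha.ne_zero⟩

theorem Rep.zero (h : Rep p v) : ∀ P ∈ A.I, aeval v P = 0 := by
  obtain ⟨u, hu⟩ := h
  rw [show v = fun a => (u : Ω) * Prj.co (I := A.I) p a from funext hu]
  exact zero_mul_of_hom A.hom (co_zero (I := A.I) p) _

theorem exists_rep (h0 : ∃ a, v a ≠ 0) (hz : ∀ P ∈ A.I, aeval v P = 0) :
    ∃ p : A.Pt Ω, Rep p v := by
  obtain ⟨a, ha⟩ := h0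
  exact exists_pr ⟨a, ha.isUnit⟩ hz

theorem Rep.smul (h : Rep p v) {c : Ω} (hc : c ≠ 0) : Rep p fun a => c * v a := by
  exact PR.smul h hc.isUnit

theorem Rep.inj (hp : Rep p v) (hq : Rep q v) : p = q := by
  exact PR.inj hp hq

theorem Rep.exists_smul (hv : Rep p v) (hw : Rep p w) : ∃ c, c ≠ 0 ∧ ∀ a, w a = c * v a := by
  obtain ⟨u, hu⟩ := hv
  obtain ⟨t, ht⟩ := hw
  refine ⟨t / u, div_ne_zero t.ne_zero u.ne_zero, fun a => ?_⟩
  rw [hu, ht, ← mul_assoc, div_mul_cancel₀ _ u.ne_zero]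

theorem Rep.of_prop (hv : Rep p v) {c : Ω} (h : ∀ a, w a = c * v a) (h0 : ∃ a, w a ≠ 0) :
    Rep p w := by
  obtain ⟨a, ha⟩ := h0
  rw [show w = fun a => c * v a from funext h]
  exact hv.smul (left_ne_zero_of_mul (h a ▸ ha))

theorem grp1_idx (p : A.Pt Ω) : Prj.co (I := A.I) p (idx p) ≠ 0 :=
  (pr_co (I := A.I) p).unit.choose_spec.ne_zero

theorem rep_nc (p : A.Pt Ω) : Rep p (nc p) := by
  exact Rep.of_prop (pr_co (I := A.I) p) (c := (Prj.co (I := A.I) p (idx p))⁻¹)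
    (fun a => by rw [nc, div_eq_inv_mul]) ⟨idx p, div_ne_zero (grp1_idx p) (grp1_idx p)⟩

theorem nc_idx (p : A.Pt Ω) : nc p (idx p) = 1 := by
  exact div_self (grp1_idx p)

theorem Rep.idx_ne (h : Rep p v) : v (idx p) ≠ 0 := by
  obtain ⟨u, hu⟩ := h
  rw [hu]
  exact mul_ne_zero u.ne_zero (grp1_idx p)

theorem Rep.nc_eq (h : Rep p v) (a : ι) : nc p a = v a / v (idx p) := by
  obtain ⟨u, hu⟩ := h
  rw [hu, hu, mul_div_mul_left _ _ u.ne_zero, nc]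

theorem Rep.nc_mem (h : Rep p v) {Λ : Subfield Ω} (hv : ∀ a, v a ∈ Λ) (a : ι) : nc p a ∈ Λ := by
  rw [h.nc_eq]
  exact div_mem (hv _) (hv _)

theorem grp1_ps (hv : Rep p v) (hw : Rep q w) (j : A.J) : ∃ c : Ω, c ≠ 0 ∧ ∀ a,
    ps (A.Ψ j) v w a = c * ps (A.Ψ j) (Prj.co (I := A.I) p) (Prj.co (I := A.I) q) a := by
  obtain ⟨u, hu⟩ := hv
  obtain ⟨t, ht⟩ := hw
  refine ⟨u ^ (A.dg j).1 * t ^ (A.dg j).2,
    mul_ne_zero (pow_ne_zero _ u.ne_zero) (pow_ne_zero _ t.ne_zero), fun a => ?_⟩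
  rw [show v = fun a => (u : Ω) * Prj.co (I := A.I) p a from funext hu,
    show w = fun a => (t : Ω) * Prj.co (I := A.I) q a from funext ht]
  exact aeval_mul_of_bih (A.bih j a) _ _ _ _

theorem Rep.cov (hv : Rep p v) (hw : Rep q w) : ∃ j a, ps (A.Ψ j) v w a ≠ 0 := by
  obtain ⟨j, a, h⟩ := A.cov Ω p q
  obtain ⟨c, hc, e⟩ := grp1_ps hv hw j
  exact ⟨j, a, by rw [e]; exact mul_ne_zero hc h⟩

theorem Rep.law (hv : Rep p v) (hw : Rep q w) (j : A.J) :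
    ∃ c, ∀ a, ps (A.Ψ j) v w a = c * nc (p - q) a := by
  obtain ⟨c, -, e⟩ := grp1_ps hv hw j
  obtain ⟨d, hd⟩ := A.law Ω p q j
  refine ⟨c * d * Prj.co (I := A.I) (p - q) (idx (p - q)), fun a => ?_⟩
  rw [e, hd, nc, mul_assoc (c * d), mul_div_cancel₀ _ (grp1_idx _), mul_assoc]
  rfl

theorem Rep.sub (hv : Rep p v) (hw : Rep q w) {j : A.J} (h : ∃ a, ps (A.Ψ j) v w a ≠ 0) :
    Rep (p - q) (ps (A.Ψ j) v w) := by
  obtain ⟨c, hc⟩ := hv.law hw j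
  exact (rep_nc _).of_prop hc h

theorem exists_uni (p : A.Pt Ω) (V : ValuationSubring Ω) :
    ∃ v, Rep p v ∧ (∀ a, v a ∈ V) ∧ ∃ a, v a = 1 := by
  have : Nonempty ι := ⟨idx p⟩
  obtain ⟨b, hb⟩ := exists_nv V (nc p)
  have h0 : nc p b ≠ 0 := fun e => nv_ne_zero (V := V) (rep_nc p).ne (by rw [hb, e, map_zero])
  refine ⟨_, (rep_nc p).smul (inv_ne_zero h0), fun a => ?_, b, inv_mul_cancel₀ h0⟩
  rw [← V.valuation_le_one_iff, map_mul, map_inv₀,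
    inv_mul_le_iff₀ (zero_lt_iff.2 ((map_ne_zero _).2 h0)), mul_one, ← hb]
  exact le_nv a

theorem rep_red₀ (σ : Plc k Ω Ω') (h : Rep p v) (h1 : ∀ a, v a ∈ σ.V) (h2 : ∃ a, σ.π (v a) ≠ 0) :
    Rep (red₀ σ p) fun a => σ.π (v a) := by
  have key : ∃ q : A.Pt Ω', ∀ v, Rep p v → (∀ a, v a ∈ σ.V) → (∃ a, σ.π (v a) ≠ 0) →
      Rep q fun a => σ.π (v a) := by
    obtain ⟨u, hu, u1, b, hb⟩ := exists_uni p σ.V
    obtain ⟨q, hq⟩ := exists_rep (A := A) (v := fun a => σ.π (u a))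
      ⟨b, by rw [hb, σ.one]; exact one_ne_zero⟩
      fun P hP => by rw [← (σ.aeval_mem u1 P).2, hu.zero P hP, σ.zero]
    refine ⟨q, fun t ht t1 t2 => ?_⟩
    obtain ⟨c, -, hc⟩ := hu.exists_smul ht
    have : c ∈ σ.V := by simpa [hc, hb] using t1 b
    exact hq.of_prop (c := σ.π c) (fun a => by rw [hc, σ.mul _ this _ (u1 a)]) t2
  rw [red₀, dif_pos key]
  exact key.choose_spec v h h1 h2

/-- `exists_uni`, `Rep.cov` for the reduced vectors, `Plc.aeval_mem`. -/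
theorem red₀_sub (σ : Plc k Ω Ω') (p q : A.Pt Ω) : red₀ σ (p - q) = red₀ σ p - red₀ σ q := by
  obtain ⟨v, hv, v1, a, ha⟩ := exists_uni p σ.V
  obtain ⟨w, hw, w1, b, hb⟩ := exists_uni q σ.V
  have hp := rep_red₀ σ hv v1 ⟨a, by rw [ha, σ.one]; exact one_ne_zero⟩
  have hq := rep_red₀ σ hw w1 ⟨b, by rw [hb, σ.one]; exact one_ne_zero⟩
  obtain ⟨j, c, hc⟩ := hp.cov hq
  have e : ∀ d, ps (A.Ψ j) v w d ∈ σ.V ∧ σ.π (ps (A.Ψ j) v w d) =
      ps (A.Ψ j) (fun a => σ.π (v a)) (fun a => σ.π (w a)) d := fun d => by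
    have := σ.aeval_mem (x := Sum.elim v w) (by rintro (a | a); exacts [v1 a, w1 a]) (A.Ψ j d)
    refine ⟨this.1, this.2.trans ?_⟩
    congr 2
    funext a
    cases a <;> rfl
  have h1 := rep_red₀ σ (hv.sub hw ⟨c, fun z => hc (by rw [← (e c).2, z, σ.zero])⟩)
    (fun d => (e d).1) ⟨c, by rw [(e c).2]; exact hc⟩
  simp only [fun d => (e d).2] at h1
  exact h1.inj (hp.sub hq ⟨c, hc⟩)

/-- The reduction of points at a place. -/
def red (σ : Plc k Ω Ω') : A.Pt Ω →+ A.Pt Ω' := AddMonoidHom.ofMapSub (red₀ σ) (red₀_sub σ)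

theorem Rep.red (σ : Plc k Ω Ω') (h : Rep p v) (h1 : ∀ a, v a ∈ σ.V) (h2 : ∃ a, σ.π (v a) ≠ 0) :
    Rep (red σ p) fun a => σ.π (v a) := rep_red₀ σ h h1 h2

variable (Ω) in
/-- The inclusion of the points over a subfield. -/
def up [Algebra F Ω] [IsScalarTower k F Ω] : A.Pt F →+ A.Pt Ω :=
  red (Plc.ofHom (IsScalarTower.toAlgHom k F Ω))

theorem Rep.up [Algebra F Ω] [IsScalarTower k F Ω] {y : A.Pt F} {u : ι → F} (h : Rep y u) :
    Rep (up Ω y) fun a => algebraMap F Ω (u a) :=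
  h.red (Plc.ofHom (IsScalarTower.toAlgHom k F Ω)) (fun _ => trivial)
    (h.ne.imp fun _ ha => (map_ne_zero (algebraMap F Ω)).2 ha)

theorem red_comp (ρ : Plc k Ω' Ω'') (σ : Plc k Ω Ω') (p : A.Pt Ω) :
    red (Plc.comp ρ σ) p = red ρ (red σ p) := by
  obtain ⟨v, hv, h1, a, ha⟩ := exists_uni p (Plc.comp ρ σ).V
  have e : σ.π (v a) = 1 := by rw [ha, σ.one]
  have e' : ρ.π (σ.π (v a)) ≠ 0 := by rw [e, ρ.one]; exact one_ne_zero
  exact (hv.red (Plc.comp ρ σ) h1 ⟨a, e'⟩).inj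
    ((hv.red σ (fun b => (h1 b).1) ⟨a, e ▸ one_ne_zero⟩).red ρ (fun b => (h1 b).2) ⟨a, e'⟩)

theorem red_ext [Algebra F Ω] [IsScalarTower k F Ω] {σ : Plc k Ω Ω'} {τ : Plc k F Ω'}
    (h : σ.Ext τ) (y : A.Pt F) : red σ (up Ω y) = red τ y := by
  obtain ⟨v, hv, h1, a, ha⟩ := exists_uni y τ.V
  have e : τ.π (v a) ≠ 0 := by rw [ha, τ.one]; exact one_ne_zero
  have h2 := (hv.up (Ω := Ω)).red σ (fun b => (h _ (h1 b)).1) ⟨a, (h _ (h1 a)).2 ▸ e⟩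
  simp only [fun b => (h _ (h1 b)).2] at h2
  exact h2.inj (hv.red τ h1 ⟨a, e⟩)

theorem red_ov [Algebra F Ω] [IsScalarTower k F Ω] [Algebra F Ω'] [IsScalarTower k F Ω']
    {σ : Plc k Ω Ω'} (h : σ.Ov F) (y : A.Pt F) : red σ (up Ω y) = up Ω' y := by
  have h1 := (rep_nc y).up (Ω := Ω')
  have h2 := ((rep_nc y).up (Ω := Ω)).red σ (fun b => (h _).1)
    (h1.ne.imp fun b hb => (h (nc y b)).2 ▸ hb)
  simp only [fun b => (h (nc y b)).2] at h2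
  exact h2.inj h1

theorem up_up [Algebra F Ω] [IsScalarTower k F Ω] [Algebra F Ω'] [IsScalarTower k F Ω']
    [Algebra Ω Ω'] [IsScalarTower k Ω Ω'] [IsScalarTower F Ω Ω'] (y : A.Pt F) :
    up Ω' (up Ω y) = up Ω' y := by
  have h1 := ((rep_nc y).up (Ω := Ω)).up (Ω := Ω')
  simp only [← IsScalarTower.algebraMap_apply] at h1
  exact h1.inj (rep_nc y).up

theorem up_self (p : A.Pt Ω) : up Ω p = p :=
  ((rep_nc p).up (Ω := Ω)).inj (rep_nc p)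

theorem exists_up [Algebra F Ω] [IsScalarTower k F Ω] (p : A.Pt Ω)
    (h : ∀ a, nc p a ∈ (algebraMap F Ω).fieldRange) : ∃ y : A.Pt F, up Ω y = p := by
  choose u hu using h
  have hu' : (fun a => algebraMap F Ω (u a)) = nc p := funext hu
  obtain ⟨y, hy⟩ := exists_rep (A := A) (v := u)
    ((rep_nc p).ne.imp fun a ha e => ha (by rw [← hu, e, map_zero])) fun P hP => by
      have h1 := (rep_nc p).zero P hP
      rwa [← hu', aeval_alg, map_eq_zero] at h1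
  exact ⟨y, (hu' ▸ hy.up (Ω := Ω) : Rep (up Ω y) (nc p)).inj (rep_nc p)⟩

theorem nc_up_mem [Algebra F Ω] [IsScalarTower k F Ω] (y : A.Pt F) (a : ι) :
    nc (up Ω y) a ∈ (algebraMap F Ω).fieldRange :=
  ((rep_nc y).up (Ω := Ω)).nc_mem (fun _ => RingHom.mem_fieldRange_self _ _) a

theorem grp2_map_ps {R R' : Type} [CommRing R] [Algebra k R] [CommRing R'] [Algebra k R']
    (f : R →ₐ[k] R') (Ψ : ι → MvPolynomial (ι ⊕ ι) k) (v w : ι → R) (a : ι) :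
    f (ps Ψ v w a) = ps Ψ (fun c => f (v c)) (fun c => f (w c)) a := by
  rw [ps, ps, ← aeval_hom]
  congr 2
  ext (c | c) <;> rfl

/-- Map `S` to the residue field of `P` and use `Rep.cov` there. -/
theorem Reg.sub {S : Subalgebra k Ω} {P : Ideal S} [P.IsPrime] (hp : Reg S P p) (hq : Reg S P q) :
    Reg S P (p - q) := by
  obtain ⟨ξ, hξ, a, ha⟩ := hp
  obtain ⟨ζ, hζ, b, hb⟩ := hq
  let f : S →ₐ[k] FractionRing (S ⧸ P) :=
    (IsScalarTower.toAlgHom k (S ⧸ P) (FractionRing (S ⧸ P))).comp (Ideal.Quotient.mkₐ k P)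
  have hf : ∀ x, f x = 0 ↔ x ∈ P := fun x =>
    (IsFractionRing.to_map_eq_zero_iff (R := S ⧸ P) (K := FractionRing (S ⧸ P))).trans
      Ideal.Quotient.eq_zero_iff_mem
  have hz : ∀ {r : A.Pt Ω} {η : ι → S}, Rep r (fun a => η a) → ∀ Q ∈ A.I,
      aeval (fun a => f (η a)) Q = 0 := fun {r η} h Q hQ => by
    have h1 : S.val (aeval η Q) = 0 := by rw [← aeval_hom]; exact h.zero Q hQ
    rw [aeval_hom, show aeval η Q = 0 from Subtype.ext h1, map_zero]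
  obtain ⟨p', hp'⟩ := exists_rep (A := A) ⟨a, fun e => ha ((hf _).1 e)⟩ (hz hξ)
  obtain ⟨q', hq'⟩ := exists_rep (A := A) ⟨b, fun e => hb ((hf _).1 e)⟩ (hz hζ)
  obtain ⟨j, c, hc⟩ := hp'.cov hq'
  rw [← grp2_map_ps, Ne, hf] at hc
  have e : (fun a => ((ps (A.Ψ j) ξ ζ a : S) : Ω)) =
      ps (A.Ψ j) (fun a => (ξ a : Ω)) fun a => (ζ a : Ω) :=
    funext fun a => grp2_map_ps S.val _ ξ ζ a
  refine ⟨ps (A.Ψ j) ξ ζ, e ▸ hξ.sub hζ ⟨c, fun h0 => hc ?_⟩, c, hc⟩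
  rw [← e] at h0
  rw [show ps (A.Ψ j) ξ ζ c = 0 from Subtype.ext h0]
  exact P.zero_mem

theorem Reg.base (S : Subalgebra k Ω) (P : Ideal S) [P.IsPrime] (a : A.Pt k) :
    Reg S P (up Ω a) :=
  ⟨fun b => algebraMap k S (nc a b), (rep_nc a).up (Ω := Ω), idx a, by
    simp only [nc_idx, map_one]
    exact (Ideal.ne_top_iff_one P).1 Ideal.IsPrime.ne_top'⟩

theorem Reg.zero (S : Subalgebra k Ω) (P : Ideal S) [P.IsPrime] : Reg S P (0 : A.Pt Ω) := by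
  simpa using Reg.base (A := A) S P 0

theorem Reg.neg {S : Subalgebra k Ω} {P : Ideal S} [P.IsPrime] (hp : Reg S P p) :
    Reg S P (-p) := by
  simpa using (Reg.zero S P).sub hp

theorem Reg.add {S : Subalgebra k Ω} {P : Ideal S} [P.IsPrime] (hp : Reg S P p) (hq : Reg S P q) :
    Reg S P (p + q) := by
  simpa using hp.sub hq.neg

theorem grp2_aeval_mem {Λ : Subfield Ω} (hk : ∀ c : k, algebraMap k Ω c ∈ Λ) {α : Type}
    {x : α → Ω} (hx : ∀ a, x a ∈ Λ) (P : MvPolynomial α k) : aeval x P ∈ Λ := by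
  induction P using MvPolynomial.induction_on with
  | C c => simpa using hk c
  | add P Q hP hQ => rw [map_add]; exact add_mem hP hQ
  | mul_X P a hP => rw [map_mul, aeval_X]; exact mul_mem hP (hx a)

theorem nc_sub_mem {Λ : Subfield Ω} (hk : ∀ c : k, algebraMap k Ω c ∈ Λ) (hp : ∀ a, nc p a ∈ Λ)
    (hq : ∀ a, nc q a ∈ Λ) (a : ι) : nc (p - q) a ∈ Λ := by
  obtain ⟨j, h⟩ := (rep_nc p).cov (rep_nc q)
  exact ((rep_nc p).sub (rep_nc q) h).nc_mem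
    (fun b => grp2_aeval_mem hk (by rintro (c | c); exacts [hp c, hq c]) _) a

theorem nc_zero_mem {Λ : Subfield Ω} (hk : ∀ c : k, algebraMap k Ω c ∈ Λ) (a : ι) :
    nc (0 : A.Pt Ω) a ∈ Λ := by
  obtain ⟨c, hc⟩ := nc_up_mem (Ω := Ω) (0 : A.Pt k) a
  rw [map_zero] at hc
  exact hc ▸ hk c

theorem nc_neg_mem {Λ : Subfield Ω} (hk : ∀ c : k, algebraMap k Ω c ∈ Λ) (hp : ∀ a, nc p a ∈ Λ)
    (a : ι) : nc (-p) a ∈ Λ := by
  simpa using nc_sub_mem hk (nc_zero_mem hk) hp a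

theorem nc_add_mem {Λ : Subfield Ω} (hk : ∀ c : k, algebraMap k Ω c ∈ Λ) (hp : ∀ a, nc p a ∈ Λ)
    (hq : ∀ a, nc q a ∈ Λ) (a : ι) : nc (p + q) a ∈ Λ := by
  simpa using nc_sub_mem hk hp (nc_neg_mem hk hq) a

end GA

end

end Pool.Agent.Lib.MP_651af7_nt.Cu
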