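import Pool.Agent.Lib.MP_651af7_nt.Cu.Ten

/-! Functions without poles on the generic fibre and along the special fibre. -/

namespace Pool.Agent.Lib.MP_651af7_nt.Cu

open MvPolynomial Av

set_option linter.unusedSectionVars false

variable {K E F Ω : Type} [Field K] [Field E] [Field F] [Field Ω] [Algebra K E] [Algebra K F]
  [Algebra K Ω] [Algebra E Ω] [Algebra F Ω] [IsScalarTower K E Ω] [IsScalarTower K F Ω]

/-- Adjoin `T` and, for each generator `x` of the field, `x` or `x⁻¹`. -/
theorem exists_chart (hE : (⊤ : IntermediateField K E).FG) (U : ValuationSubring E) (hU : Cont K U)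
    (T : Finset E) (hT : ∀ t ∈ T, t ∈ U) : ∃ R : Subalgebra K E, R.FG ∧ IsFractionRing R E ∧
      (∀ t ∈ T, t ∈ R) ∧ ∀ r ∈ R, r ∈ U := by
  classical
  obtain ⟨S, hS⟩ := hE
  let S' : Finset E := T ∪ S.image fun x => if x ∈ U then x else x⁻¹
  have h1 : IntermediateField.adjoin K (S' : Set E) = ⊤ := by
    refine eq_top_iff.2 (hS ▸ IntermediateField.adjoin_le_iff.2 fun x hx => ?_)
    have h2 : (if x ∈ U then x else x⁻¹) ∈ IntermediateField.adjoin K (S' : Set E) :=
      IntermediateField.subset_adjoin _ _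
        (Finset.mem_union_right _ (Finset.mem_image_of_mem _ hx))
    split_ifs at h2
    · exact h2
    · exact inv_mem_iff.1 h2
  refine ⟨Algebra.adjoin K (S' : Set E), ⟨S', rfl⟩, IsFractionRing.of_field _ _ fun z => ?_,
    fun t ht => Algebra.subset_adjoin (Finset.mem_union_left _ ht), fun r hr => ?_⟩
  · obtain ⟨a, ha, c, hc, e⟩ := IntermediateField.mem_adjoin_iff_div.1
      (h1 ▸ IntermediateField.mem_top : z ∈ IntermediateField.adjoin K (S' : Set E))
    exact ⟨⟨a, ha⟩, ⟨c, hc⟩, e⟩
  · induction hr using Algebra.adjoin_induction with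
    | mem x hx =>
      rcases Finset.mem_union.1 hx with h | h
      · exact hT x h
      · obtain ⟨y, -, rfl⟩ := Finset.mem_image.1 h
        split_ifs with hy
        · exact hy
        · exact (U.mem_or_inv_mem y).resolve_left hy
    | algebraMap c => exact hU c
    | add a b _ _ ha hb => exact add_mem ha hb
    | mul a b _ _ ha hb => exact mul_mem ha hb

theorem har1_fin (L : Type) [Field L] [Algebra K L] [Algebra L E] [IsScalarTower K L E]
    (R : Subalgebra K E) (hR : R.FG) [IsFractionRing R E] (h : ∀ x ∈ R, IsIntegral L x) :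
    FiniteDimensional L E := by
  obtain ⟨S, hS⟩ := hR
  have h1 := IntermediateField.finiteDimensional_adjoin (K := L) (S := (S : Set E))
    fun x hx => h x (hS.le (Algebra.subset_adjoin hx))
  have h2 : R ≤ (IntermediateField.adjoin L (S : Set E)).toSubalgebra.restrictScalars K :=
    hS.ge.trans (Algebra.adjoin_le (IntermediateField.subset_adjoin _ _))
  refine Module.Finite.of_surjective (IntermediateField.adjoin L (S : Set E)).val.toLinearMap
    fun z => ?_
  obtain ⟨a, c, -, rfl⟩ := IsFractionRing.div_surjective R z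
  exact ⟨⟨_, (IntermediateField.adjoin L (S : Set E)).div_mem (h2 a.2) (h2 c.2)⟩, rfl⟩

open scoped IntermediateField.algebraAdjoinAdjoin in
theorem har1_int (T : Set E) {x : E} (h : IsIntegral (Algebra.adjoin K T) x) :
    IsIntegral (IntermediateField.adjoin K T) x :=
  h.tower_top

/-- Noether normalisation (`exists_finite_inj_algHom_of_fg`): `t` is algebraically independent, `R`
is integral over `K[t]`, `b` is a basis of `E` over `K(t)`. -/
theorem exists_tb (R : Subalgebra K E) (hR : R.FG) [IsFractionRing R E] :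
    ∃ (r n : ℕ) (t : Fin r → E) (b : Fin n → E), (∀ i, t i ∈ R) ∧ AlgebraicIndependent K t ∧
      (∀ x ∈ R, IsIntegral (Algebra.adjoin K (Set.range t)) x) ∧
      (∀ P : Fin n → MvPolynomial (Fin r) K, ∑ j, aeval t (P j) * b j = 0 → P = 0) ∧
      ∀ x : E, ∃ (P : Fin n → MvPolynomial (Fin r) K) (Q : MvPolynomial (Fin r) K), Q ≠ 0 ∧
        aeval t Q * x = ∑ j, aeval t (P j) * b j := by
  classical
  have : Algebra.FiniteType K R := (Subalgebra.fg_iff_finiteType _).1 hR
  obtain ⟨r, g, hg, hint⟩ := exists_integral_inj_algHom_of_fg K R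
  obtain ⟨t, ht⟩ : ∃ t : Fin r → E, t = fun i => (g (X i) : E) := ⟨_, rfl⟩
  have e : aeval t = R.val.comp g := algHom_ext fun i => by rw [aeval_X, ht]; rfl
  have hi : Function.Injective (aeval t : MvPolynomial (Fin r) K →ₐ[K] E) := by
    rw [e]
    exact Subtype.val_injective.comp hg
  have hm : ∀ P : MvPolynomial (Fin r) K, aeval t P ∈ Algebra.adjoin K (Set.range t) := fun P =>
    Algebra.adjoin_range_eq_range_aeval K t ▸ AlgHom.mem_range_self _ P
  have hI : ∀ x ∈ R, IsIntegral (Algebra.adjoin K (Set.range t)) x := fun x hx => by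
    obtain ⟨p, hp, h⟩ := hint ⟨x, hx⟩
    refine ⟨p.map ((aeval t).codRestrict _ hm).toRingHom, hp.map _, ?_⟩
    have h2 := Polynomial.hom_eval₂ p g.toRingHom R.val.toRingHom ⟨x, hx⟩
    rw [Polynomial.eval₂_map]
    have h3 : (algebraMap (Algebra.adjoin K (Set.range t)) E).comp
        ((aeval t).codRestrict _ hm).toRingHom = R.val.toRingHom.comp g.toRingHom :=
      RingHom.ext fun P => DFunLike.congr_fun e P
    rw [h3]
    exact h2.symm.trans ((congrArg _ h).trans (map_zero _))
  have := har1_fin (IntermediateField.adjoin K (Set.range t)) R hR fun x hx => har1_int _ (hI x hx)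
  let b := Module.finBasis (IntermediateField.adjoin K (Set.range t)) E
  refine ⟨r, _, t, b, fun i => ht ▸ (g (X i)).2, hi, hI, fun P hP => funext fun j => ?_,
    fun x => ?_⟩
  · have h := Fintype.linearIndependent_iff.1 b.linearIndependent
      (fun j => ⟨_, IntermediateField.algebra_adjoin_le_adjoin K _ (hm (P j))⟩) hP j
    exact hi ((congrArg Subtype.val h).trans (map_zero _).symm)
  · have h : ∀ j, ∃ p q : MvPolynomial (Fin r) K, q ≠ 0 ∧
        aeval t q * (b.repr x j : E) = aeval t p := fun j => by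
      obtain ⟨p, q, h⟩ := (IntermediateField.mem_adjoin_range_iff K t _).1 (b.repr x j).2
      by_cases hq : q = 0
      · exact ⟨0, 1, one_ne_zero, by rw [h, hq, map_zero, div_zero, mul_zero]⟩
      · exact ⟨p, q, hq, by rw [h, mul_div_cancel₀ _ ((map_ne_zero_iff _ hi).2 hq)]⟩
    choose p q hq h using h
    refine ⟨fun j => (∏ i ∈ Finset.univ.erase j, q i) * p j, ∏ i, q i,
      Finset.prod_ne_zero_iff.2 fun i _ => hq i, ?_⟩
    conv_lhs => rw [← b.sum_repr x, Finset.mul_sum]
    refine Finset.sum_congr rfl fun j _ => ?_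
    rw [← Finset.prod_erase_mul _ _ (Finset.mem_univ j), map_mul, map_mul, ← h j, mul_assoc,
      mul_assoc, mul_assoc]
    rfl

variable {W : ValuationSubring Ω} {r n : ℕ} {t : Fin r → E} {b : Fin n → E}

theorem har2_gs (hW : Gs K E F W) {α : Type} [Fintype α] {e : α → E} (he : LinearIndependent K e)
    (c : α → F) (a : α) : W.valuation (algebraMap F Ω (c a)) ≤
      W.valuation (∑ i, algebraMap F Ω (c i) * algebraMap E Ω (e i)) := by
  have h := hW.2 _ (e ∘ (Fintype.equivFin α).symm) (he.comp _ (Equiv.injective _))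
    (c ∘ (Fintype.equivFin α).symm)
  rw [← (Fintype.equivFin α).symm.sum_comp]
  refine le_trans ?_ h.ge
  have h2 := le_nv (V := W) (u := fun i => algebraMap F Ω ((c ∘ (Fintype.equivFin α).symm) i))
    (Fintype.equivFin α a)
  rwa [Function.comp_apply, Equiv.symm_apply_apply] at h2

theorem har2_aeval {R A : Type} [CommRing R] [CommRing A] [Algebra R A] (f : Fin r → A)
    (p : MvPolynomial (Fin r) R) {S : Finset (Fin r →₀ ℕ)} (h : p.support ⊆ S) :
    aeval f p = ∑ β : S, algebraMap R A (coeff β.1 p) * ∏ i, f i ^ β.1 i := by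
  rw [aeval_def, eval₂_eq', Finset.sum_coe_sort S
    fun β => algebraMap R A (coeff β p) * ∏ i, f i ^ β i]
  exact Finset.sum_subset h fun β _ hβ => by rw [notMem_support_iff.1 hβ, map_zero, zero_mul]

theorem har2_ind
    (hb : ∀ P : Fin n → MvPolynomial (Fin r) K, ∑ j, aeval t (P j) * b j = 0 → P = 0)
    (S : Finset (Fin r →₀ ℕ)) :
    LinearIndependent K fun a : Fin n × S => (∏ i, t i ^ a.2.1 i) * b a.1 := by
  classical
  refine Fintype.linearIndependent_iff.2 fun g hg a => ?_
  have h := hb (fun j => ∑ β : S, monomial β.1 (g (j, β))) (by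
    rw [← hg, Fintype.sum_prod_type]
    refine Finset.sum_congr rfl fun j _ => ?_
    rw [map_sum, Finset.sum_mul]
    refine Finset.sum_congr rfl fun β _ => ?_
    rw [aeval_monomial, Finsupp.prod_pow, Algebra.smul_def, mul_assoc])
  have h2 := congrArg (coeff a.2.1) (congrFun h a.1)
  rw [coeff_sum, Finset.sum_eq_single a.2, coeff_monomial, if_pos rfl] at h2
  · exact h2
  · intro β _ hβ
    rw [coeff_monomial, if_neg fun e => hβ (Subtype.ext e)]
  · exact fun h => (h (Finset.mem_univ _)).elim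

/-- The elements `t ^ α * b j` are independent over `K`; apply `Gs` to those that occur. -/
theorem Gs.coeff_le (hW : Gs K E F W)
    (hb : ∀ P : Fin n → MvPolynomial (Fin r) K, ∑ j, aeval t (P j) * b j = 0 → P = 0)
    (P : Fin n → MvPolynomial (Fin r) F) (j : Fin n) (α : Fin r →₀ ℕ) :
    W.valuation (algebraMap F Ω (coeff α (P j))) ≤ W.valuation
      (∑ j, aeval (fun i => algebraMap E Ω (t i)) (P j) * algebraMap E Ω (b j)) := by
  classical
  let S : Finset (Fin r →₀ ℕ) := insert α (Finset.univ.biUnion fun l => (P l).support)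
  refine (har2_gs hW (har2_ind hb S) (fun a => coeff a.2.1 (P a.1))
    (j, ⟨α, Finset.mem_insert_self _ _⟩)).trans_eq (congrArg _ ?_)
  rw [Fintype.sum_prod_type]
  refine Finset.sum_congr rfl fun l _ => ?_
  rw [har2_aeval _ (P l) (S := S) fun β hβ => Finset.mem_insert_of_mem
    (Finset.mem_biUnion.2 ⟨l, Finset.mem_univ _, hβ⟩), Finset.sum_mul]
  refine Finset.sum_congr rfl fun β _ => ?_
  simp only [map_mul, map_prod, map_pow, mul_assoc]

/-- The elements with such a representation form a subfield: they form a domain that is spanned by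
the `b j` over the field `F(t)`. -/
theorem exists_rep_cmp
    (hb : ∀ x : E, ∃ (P : Fin n → MvPolynomial (Fin r) K) (Q : MvPolynomial (Fin r) K), Q ≠ 0 ∧
      aeval t Q * x = ∑ j, aeval t (P j) * b j)
    (ht : AlgebraicIndependent F fun i => algebraMap E Ω (t i)) {s : Ω} (hs : s ∈ cmp E F Ω) :
    ∃ φ : Fin n → Ω, (∀ j, φ j ∈ IntermediateField.adjoin F (Set.range fun i =>
      algebraMap E Ω (t i))) ∧ s = ∑ j, φ j * algebraMap E Ω (b j) := by
  obtain ⟨t', ht'⟩ : ∃ t', t' = fun i => algebraMap E Ω (t i) := ⟨_, rfl⟩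
  rw [← ht'] at ht ⊢
  let L := IntermediateField.adjoin F (Set.range t')
  let M : Submodule L Ω := Submodule.span L (Set.range fun j => algebraMap E Ω (b j))
  have e : ∀ Q : MvPolynomial (Fin r) K,
      algebraMap E Ω (aeval t Q) = aeval t' (MvPolynomial.map (algebraMap K F) Q) := fun Q => by
    rw [aeval_map_algebraMap, ht']
    exact (aeval_algebraMap_apply Ω t Q).symm
  have hL : ∀ Q : MvPolynomial (Fin r) F, aeval t' Q ∈ L := fun Q =>
    (IntermediateField.mem_adjoin_range_iff F t' _).2 ⟨Q, 1, by rw [map_one, div_one]⟩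
  have h1 : ∀ x : E, algebraMap E Ω x ∈ M := fun x => by
    obtain ⟨P, Q, hQ, h⟩ := hb x
    have h0 : aeval t' (MvPolynomial.map (algebraMap K F) Q) ≠ 0 :=
      (map_ne_zero_iff _ ht).2
        ((map_ne_zero_iff _ (map_injective _ (algebraMap K F).injective)).2 hQ)
    have h2 := congrArg (algebraMap E Ω) h
    rw [map_mul, e, map_sum] at h2
    rw [(eq_inv_mul_iff_mul_eq₀ h0).2 h2]
    refine M.smul_mem ⟨_, inv_mem (hL _)⟩ (sum_mem fun j _ => ?_)
    rw [map_mul, e]
    exact M.smul_mem ⟨_, hL _⟩ (Submodule.subset_span ⟨j, rfl⟩)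
  have h2 : M * M ≤ M := by
    rw [Submodule.span_mul_span, Submodule.span_le]
    rintro _ ⟨_, ⟨i, rfl⟩, _, ⟨j, rfl⟩, rfl⟩
    exact (map_mul (algebraMap E Ω) (b i) (b j) ▸ h1 (b i * b j) :
      algebraMap E Ω (b i) * algebraMap E Ω (b j) ∈ M)
  let A : Subalgebra L Ω := M.toSubalgebra (map_one (algebraMap E Ω) ▸ h1 1)
    fun x y hx hy => h2 (Submodule.mul_mem_mul hx hy)
  have h3 : ∀ x ∈ A, x⁻¹ ∈ A := fun x hx =>
    (IsIntegral.of_mem_of_fg A (Submodule.fg_span (Set.finite_range _)) x hx).inv_mem hx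
  have h4 : cmp E F Ω ≤ (A.toIntermediateField h3).toSubfield := by
    refine sup_le ?_ ?_
    · rintro _ ⟨x, rfl⟩
      exact h1 x
    · rintro _ ⟨x, rfl⟩
      exact A.algebraMap_mem ⟨_, L.algebraMap_mem x⟩
  obtain ⟨c, hc⟩ := (Submodule.mem_span_range_iff_exists_fun L).1 (h4 hs : s ∈ M)
  exact ⟨fun j => c j, fun j => (c j).2, hc.symm⟩

theorem har3_le {V : ValuationSubring Ω} {x : Fin r → Ω} (hx : ∀ i, x i ∈ V)
    (P : MvPolynomial (Fin r) F) {g : V.ValueGroup}
    (h : ∀ α, V.valuation (algebraMap F Ω (coeff α P)) ≤ g) : V.valuation (aeval x P) ≤ g := by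
  rw [aeval_def, eval₂_eq]
  refine Valuation.map_sum_le _ fun α _ => ?_
  rw [map_mul]
  refine (mul_le_of_le_one_right' ?_).trans (h α)
  exact (V.valuation_le_one_iff _).2 (prod_mem fun i _ => pow_mem (hx i) _)

theorem har3_coeff (hW : Gs K E F W) (ht : AlgebraicIndependent K t) (P : MvPolynomial (Fin r) F)
    (α : Fin r →₀ ℕ) : W.valuation (algebraMap F Ω (coeff α P)) ≤
      W.valuation (aeval (fun i => algebraMap E Ω (t i)) P) := by
  have := hW.coeff_le (b := fun _ : Fin 1 => (1 : E)) (t := t) (fun Q hQ => funext fun j => by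
    obtain rfl : j = 0 := Subsingleton.elim _ _
    exact algebraicIndependent_iff.1 ht _ (by simpa using hQ)) (fun _ => P) 0 α
  simpa using this

theorem har3_mem (hW : Gs K E F W)
    (hb : ∀ P : Fin n → MvPolynomial (Fin r) K, ∑ j, aeval t (P j) * b j = 0 → P = 0)
    {φ : Fin n → Ω} (hφ : ∀ j, φ j ∈ IntermediateField.adjoin F (Set.range fun i =>
      algebraMap E Ω (t i))) (h : ∑ j, φ j * algebraMap E Ω (b j) ∈ W) (j : Fin n) : φ j ∈ W := by
  classical
  have h1 : ∀ j, ∃ P Q : MvPolynomial (Fin r) F, aeval (fun i => algebraMap E Ω (t i)) Q ≠ 0 ∧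
      aeval (fun i => algebraMap E Ω (t i)) Q * φ j = aeval (fun i => algebraMap E Ω (t i)) P := by
    intro j
    obtain ⟨P, Q, e⟩ := (IntermediateField.mem_adjoin_range_iff F _ _).1 (hφ j)
    by_cases h0 : aeval (fun i => algebraMap E Ω (t i)) Q = 0
    · exact ⟨0, 1, by simp, by simp [e, h0]⟩
    · exact ⟨P, Q, h0, by rw [e, mul_div_cancel₀ _ h0]⟩
  choose P Q h0 hQ using h1
  have h2 : ∀ l, aeval (fun i => algebraMap E Ω (t i)) ((∏ m ∈ Finset.univ.erase l, Q m) * P l) =
      aeval (fun i => algebraMap E Ω (t i)) (∏ m, Q m) * φ l := fun l => by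
    rw [← Finset.prod_erase_mul _ _ (Finset.mem_univ l), map_mul, map_mul, mul_assoc, hQ]
  have h3 : W.valuation (aeval (fun i => algebraMap E Ω (t i)) (∏ m, Q m)) ≠ 0 := by
    rw [Ne, Valuation.zero_iff, map_prod]
    exact Finset.prod_ne_zero_iff.2 fun m _ => h0 m
  have h4 := har3_le (fun i => hW.1 (t i)) _ (hW.coeff_le hb
    (fun l => (∏ m ∈ Finset.univ.erase l, Q m) * P l) j)
  simp only [h2, mul_assoc, ← Finset.mul_sum, Valuation.map_mul] at h4
  rw [← W.valuation_le_one_iff] at h ⊢
  exact (le_of_mul_le_mul_left h4 (zero_lt_iff.2 h3)).trans h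

/-- Let `L = F(t)` and `W₀ = W ∩ L`. An element of the compositum in `W` has its coordinates in `W₀`
(`Gs.coeff_le`; a polynomial in `t` has the value of its largest coefficient), so `s` preserves the
`W₀`-span of the `b j` and is integral over `W₀`. It is integral over `F[t]` by `h1`
(`isIntegral_of_val`; a valuation ring with `F` and `t` contains `R`). Both rings are integrally
closed with fraction field `L`, so the coefficients of the minimal polynomial over `L` lie in
`F[t] ∩ W` (`minpoly.isIntegrallyClosed_eq_field_fractions'`), hence in `μ`. -/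
theorem hartogs (R : Subalgebra K E) (hR : R.FG) [IsFractionRing R E] (hW : Gs K E F W) {s : Ω}
    (hs : s ∈ cmp E F Ω) (h1 : ∀ V : ValuationSubring Ω, Cont F V →
      (∀ x ∈ R, algebraMap E Ω x ∈ V) → s ∈ V) (h2 : s ∈ W) (μ : ValuationSubring Ω)
    (hF : ∀ c : F, algebraMap F Ω c ∈ W → algebraMap F Ω c ∈ μ)
    (hμ : ∀ x ∈ R, algebraMap E Ω x ∈ μ) : s ∈ μ := by
  obtain ⟨r, n, t, b, htR, ht, hint, hb, hb'⟩ := exists_tb R hR
  have ht' : AlgebraicIndependent F fun i => algebraMap E Ω (t i) := by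
    refine algebraicIndependent_iff.2 fun P hP => MvPolynomial.ext _ _ fun α => ?_
    simpa [hP] using har3_coeff hW ht P α
  let L := IntermediateField.adjoin F (Set.range fun i => algebraMap E Ω (t i))
  have hL : ∀ x : L, (x : Ω) ∈ cmp E F Ω := fun x => by
    have : L ≤ (cmp E F Ω).toIntermediateField fun c => right_mem_cmp c :=
      IntermediateField.adjoin_le_iff.2 (by rintro _ ⟨i, rfl⟩; exact left_mem_cmp _)
    exact this x.2
  let W₀ := W.comap (algebraMap L Ω)
  let N : Submodule W₀ Ω := Submodule.span W₀ (Set.range fun j => algebraMap E Ω (b j))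
  have hN : ∀ x, x ∈ N ↔ x ∈ cmp E F Ω ∧ x ∈ W := fun x => by
    rw [Submodule.mem_span_range_iff_exists_fun]
    constructor
    · rintro ⟨c, rfl⟩
      exact ⟨sum_mem fun j _ => mul_mem (hL (c j)) (left_mem_cmp _),
        sum_mem fun j _ => mul_mem (c j).2 (hW.1 _)⟩
    · rintro ⟨hx, hx'⟩
      obtain ⟨φ, hφ, rfl⟩ := exists_rep_cmp hb' ht' hx
      exact ⟨fun j => ⟨⟨φ j, hφ j⟩, har3_mem hW hb hφ hx' j⟩, rfl⟩
  have i1 : IsIntegral W₀ s := by
    refine isIntegral_of_smul_mem_submodule N (fun e => ?_)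
      (Submodule.fg_span (Set.finite_range _)) s fun x hx => ?_
    · have := (hN 1).2 ⟨one_mem _, one_mem _⟩
      rw [e] at this
      exact one_ne_zero ((Submodule.mem_bot _).1 this)
    · rw [hN] at hx ⊢
      exact ⟨mul_mem hs hx.1, mul_mem h2 hx.2⟩
  let t' : Fin r → L := fun i => ⟨_, IntermediateField.subset_adjoin F _ ⟨i, rfl⟩⟩
  let : Algebra (MvPolynomial (Fin r) F) L := (aeval t').toRingHom.toAlgebra
  let : Algebra (MvPolynomial (Fin r) F) Ω :=
    (aeval fun i => algebraMap E Ω (t i)).toRingHom.toAlgebra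
  have e1 : ∀ P : MvPolynomial (Fin r) F, (algebraMap (MvPolynomial (Fin r) F) L P : Ω) =
      aeval (fun i => algebraMap E Ω (t i)) P := fun P => (comp_aeval_apply t' L.val P)
  have : IsScalarTower (MvPolynomial (Fin r) F) L Ω :=
    .of_algebraMap_eq fun P => (e1 P).symm
  have : FaithfulSMul (MvPolynomial (Fin r) F) L :=
    (faithfulSMul_iff_algebraMap_injective _ _).2 fun P Q h => ht' (by rw [← e1, ← e1, h])
  have : IsFractionRing (MvPolynomial (Fin r) F) L := IsFractionRing.of_field _ _ fun z => by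
    obtain ⟨P, Q, e⟩ := (IntermediateField.mem_adjoin_range_iff F _ _).1 z.2
    exact ⟨P, Q, Subtype.ext (by rw [e, ← e1, ← e1]; rfl)⟩
  have i2 : IsIntegral (MvPolynomial (Fin r) F) s := by
    refine isIntegral_of_val' fun V hV => ?_
    have hFV : Cont F V := fun c => by simpa [RingHom.algebraMap_toAlgebra] using hV (C c)
    refine h1 V hFV fun x hx => ?_
    refine mem_of_isIntegral (V := V.comap (algebraMap E Ω)) (fun y => ?_) (hint x hx)
    refine Algebra.adjoin_induction (p := fun y _ => algebraMap E Ω y ∈ V) ?_ (fun c => ?_)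
      (fun _ _ _ _ h h' => ?_) (fun _ _ _ _ h h' => ?_) y.2
    · rintro _ ⟨i, rfl⟩
      simpa [RingHom.algebraMap_toAlgebra] using hV (X i)
    · rw [← IsScalarTower.algebraMap_apply, IsScalarTower.algebraMap_apply K F Ω]
      exact hFV _
    · rw [map_add]
      exact add_mem h h'
    · rw [map_mul]
      exact mul_mem h h'
  let μ₀ := μ.comap (algebraMap L Ω)
  have h3 : minpoly L s ∈ Polynomial.lifts (algebraMap μ₀ L) := by
    refine (Polynomial.lifts_iff_coeff_lifts _).2 fun i => ⟨⟨_, ?_⟩, rfl⟩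
    have h4 : ((minpoly L s).coeff i : Ω) ∈ W := by
      rw [minpoly.isIntegrallyClosed_eq_field_fractions' L i1, Polynomial.coeff_map]
      exact ((minpoly W₀ s).coeff i).2
    change ((minpoly L s).coeff i : Ω) ∈ μ
    rw [minpoly.isIntegrallyClosed_eq_field_fractions' L i2, Polynomial.coeff_map, e1] at h4 ⊢
    rw [← ValuationSubring.valuation_le_one_iff] at h4 ⊢
    refine har3_le (fun i => hμ _ (htR i)) _ fun α => (μ.valuation_le_one_iff _).2 (hF _ ?_)
    exact (W.valuation_le_one_iff _).1 ((har3_coeff hW ht _ α).trans h4)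
  obtain ⟨q, hq, -, hm⟩ := Polynomial.lifts_and_natDegree_eq_and_monic h3
    (minpoly.monic i1.tower_top)
  refine mem_of_isIntegral (R := μ₀) (V := μ) (fun c => c.2) ⟨q, hm, ?_⟩
  rw [← Polynomial.aeval_def, ← Polynomial.aeval_map_algebraMap L, hq, minpoly.aeval]

end Pool.Agent.Lib.MP_651af7_nt.Cu
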