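import Pool.Agent.Lib.MP_651af7_nt.Cu.Grp
import Pool.Agent.Lib.MP_651af7_nt.Ds.Iface

/-! The group law over all fields, from the group law over an algebraically closed field. -/

namespace Pool.Agent.Lib.MP_651af7_nt.Cu

open MvPolynomial Av Ds

set_option linter.unusedSectionVars false

noncomputable section

/-- Take `-a = s o a` and `a + b = s a (s o b)`; prove commutativity first, then
`(a + b) + c = (a + c) + b`. -/
theorem exists_grp_of_sub {X : Type} (s : X → X → X) (o : X) (h1 : ∀ a, s a a = o)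
    (h2 : ∀ a b c, s (s a b) c = s (s a c) b) (h3 : ∀ a b, s a (s a b) = b) :
    ∃ g : AddCommGroup X, ∀ a b, (letI := g; a - b) = s a b := by
  let _ : Add X := ⟨fun a b => s a (s o b)⟩
  let _ : Neg X := ⟨s o⟩
  let _ : Zero X := ⟨o⟩
  have hc (a b : X) : a + b = b + a := by
    have := h2 o (s o a) (s o b)
    rwa [h3, h3] at this
  have hr (a b c : X) : a + b + c = a + c + b := h2 _ _ _
  refine ⟨{ AddGroup.ofLeftAxioms (fun a b c => by rw [hc a b, hr, hc]) (fun a => h3 o a)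
    (fun a => h1 (s o a)) with add_comm := hc }, fun a b => congrArg (s a) (h3 o b)⟩

variable {k ι : Type} [Field k] [IsAlgClosed k] [Fintype ι] {J : Ideal (MvPolynomial ι k)}
  {G : Type} [AddCommGroup G] {co : G → ι → k}

/-- A system of forms for the subtraction. -/
structure Sys (co : G → ι → k) where
  d : ℕ × ℕ
  Ψ : ι → MvPolynomial (ι ⊕ ι) k
  bih : ∀ a, (Ψ a).IsWeightedHomogeneous (bw ι ι) d
  law : ∀ p q, ∃ c : k, ∀ a, ps Ψ (co p) (co q) a = c * co (p - q) a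

theorem Sys.on (S : Sys co) {x y : G} {v w : ι → k} (hv : On co x v) (hw : On co y w) :
    On co (x - y) (ps S.Ψ v w) := by
  obtain ⟨s, hs⟩ := hv
  obtain ⟨t, ht⟩ := hw
  obtain rfl : v = fun a => s * co x a := funext hs
  obtain rfl : w = fun a => t * co y a := funext ht
  obtain ⟨c, hc⟩ := S.law x y
  refine ⟨s ^ S.d.1 * t ^ S.d.2 * c, fun a => ?_⟩
  rw [mul_assoc, ← hc]
  exact aeval_mul_of_bih (S.bih a) s t _ _

omit [IsAlgClosed k] [Fintype ι] in
theorem mk1_on (h : Pts J co) {v : ι → k} (hv : ∀ P ∈ J, aeval v P = 0) : ∃ x, On co x v := by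
  by_cases e : v = 0
  · exact ⟨0, 0, fun a => by simp [e]⟩
  · obtain ⟨x, ⟨c, e⟩, -⟩ := h.bij v e hv
    exact ⟨x, c, fun a => by simp [e]⟩

/-- As `Pre.trans` in `Av/PtB`, by `vanish`. -/
theorem mk_trans (h : Pts J co)
    (T : ∀ (R : Type) [CommRing R] [Algebra k R], (ι → R) → (ι → R) → (ι → R) → R)
    (hT : ∀ (R R' : Type) [CommRing R] [Algebra k R] [CommRing R'] [Algebra k R'] (f : R →ₐ[k] R')
      (u v w : ι → R), f (T R u v w) =
        T R' (fun a => f (u a)) (fun a => f (v a)) fun a => f (w a))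
    (h0 : ∀ (x y z : G) (u v w : ι → k), On co x u → On co y v → On co z w → T k u v w = 0)
    {R : Type} [CommRing R] [Algebra k R] {u v w : ι → R} (hu : ∀ Q ∈ J, aeval u Q = 0)
    (hv : ∀ Q ∈ J, aeval v Q = 0) (hw : ∀ Q ∈ J, aeval w Q = 0) : T R u v w = 0 := by
  have h1 := vanish k (prime_up h.prime) (J := Fin 3) (T (MvPolynomial (Fin 3 × ι) k)
      (fun a => X (0, a)) (fun a => X (1, a)) fun a => X (2, a))
    (fun x hx => by
      choose g hg using fun j => mk1_on h (hx j)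
      rw [hT]
      simpa using h0 _ _ _ _ _ _ (hg 0) (hg 1) (hg 2)) ![u, v, w]
      (Fin.forall_fin_succ.2 ⟨hu, Fin.forall_fin_two.2 ⟨hv, hw⟩⟩)
  rw [hT] at h1
  simpa using h1

variable {M : Type} [Field M] [Algebra k M]

theorem mk_zero (h : Pts J co) (S : Sys co) {v w : ι → M} (hv : ∀ Q ∈ J, aeval v Q = 0)
    (hw : ∀ Q ∈ J, aeval w Q = 0) : ∀ Q ∈ J, aeval (ps S.Ψ v w) Q = 0 := fun Q hQ =>
  mk_trans h (fun _ _ _ v0 v1 _ => aeval (ps S.Ψ v0 v1) Q)
    (fun _ _ _ _ _ _ f _ _ _ => by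
      rw [← aeval_hom]
      congr 2
      funext a
      rw [ps, ps, ← aeval_hom]
      congr 2
      ext (c | c) <;> rfl)
    (fun x y _ _ _ _ h0 h1 _ => by
      obtain ⟨c, hc⟩ := S.on h0 h1
      rw [funext hc]
      exact zero_mul_of_hom h.hom (h.zero (x - y)) c Q hQ) hv hw hw

/-- The product of two variables, one of each block, vanishes on the common zeros over `k` of `J` in
both blocks and of all systems, so lies in the radical (`vanishingIdeal_zeroLocus_eq_radical`). -/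
theorem mk_cov (h : Pts J co) (h' : SubMor co) {v w : ι → M} (hv : ∀ Q ∈ J, aeval v Q = 0)
    (hw : ∀ Q ∈ J, aeval w Q = 0) (v0 : ∃ a, v a ≠ 0) (w0 : ∃ a, w a ≠ 0) :
    ∃ (S : Sys co) (a : ι), ps S.Ψ v w a ≠ 0 := by
  by_contra hn
  obtain ⟨a, ha⟩ := v0
  obtain ⟨b, hb⟩ := w0
  have key : (X (.inl a) * X (.inr b) : MvPolynomial (ι ⊕ ι) k) ∈ Ideal.radical
      (RingHom.ker (aeval (Sum.elim v w) : MvPolynomial (ι ⊕ ι) k →ₐ[k] M)) := by
    rw [← vanishingIdeal_zeroLocus_eq_radical (K := k)]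
    intro z hz
    have hl (f : ι → ι ⊕ ι) (hf : ∀ Q ∈ J, aeval (Sum.elim v w ∘ f) Q = 0) :
        ∃ x, On co x (z ∘ f) := mk1_on h fun Q hQ => by
      rw [← aeval_rename]
      exact hz _ (by rw [RingHom.mem_ker, aeval_rename]; exact hf Q hQ)
    obtain ⟨x, s, hs⟩ := hl .inl hv
    obtain ⟨y, t, ht⟩ := hl .inr hw
    obtain ⟨d, Ψ, h1, ⟨c, h2⟩, h3⟩ := h' x y
    have h4 := hz (Ψ c) (by_contra fun h4 => hn ⟨⟨d, Ψ, h1, h3⟩, c, h4⟩)
    obtain rfl : z = Sum.elim (fun a => s * co x a) fun a => t * co y a := by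
      ext (c | c)
      exacts [hs c, ht c]
    rw [aeval_mul_of_bih (d := d.1) (e := d.2) (h1 c)] at h4
    rcases mul_eq_zero.1 ((mul_eq_zero.1 h4).resolve_right h2) with h5 | h5 <;>
      simp [eq_zero_of_pow_eq_zero h5]
  obtain ⟨m, hm⟩ := key
  simp [RingHom.mem_ker, ha, hb] at hm

theorem mk2_map (Ψ : ι → MvPolynomial (ι ⊕ ι) k) {R R' : Type} [CommRing R] [Algebra k R]
    [CommRing R'] [Algebra k R'] (f : R →ₐ[k] R') (v w : ι → R) (a : ι) :
    f (ps Ψ v w a) = ps Ψ (fun c => f (v c)) (fun c => f (w c)) a := by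
  rw [ps, ps, ← aeval_hom]
  congr 2
  ext (c | c) <;> rfl

theorem mk2_zero (h : Pts J co) {p : Prj J M} {v : ι → M} (hv : PR p v) :
    ∀ P ∈ J, aeval v P = 0 := by
  obtain ⟨u, hu⟩ := hv
  obtain rfl : v = fun a => u * p.co a := funext hu
  exact zero_mul_of_hom h.hom (co_zero p) _

theorem mk2_cov (h : Pts J co) (h' : SubMor co) {p q : Prj J M} {v w : ι → M} (hv : PR p v)
    (hw : PR q w) : ∃ (S : Sys co) (a : ι), ps S.Ψ v w a ≠ 0 :=
  mk_cov h h' (mk2_zero h hv) (mk2_zero h hw) (hv.unit.imp fun _ e => e.ne_zero)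
    (hw.unit.imp fun _ e => e.ne_zero)

theorem mk2_pt (h : Pts J co) (M : Type) [Field M] [Algebra k M] (x : G) :
    ∃ p : Prj J M, PR p fun a => algebraMap k M (co x a) := by
  refine exists_pr ?_ fun P hP => ?_
  · obtain ⟨a, ha⟩ := Function.ne_iff.1 (h.ne x)
    exact ⟨a, (Ne.isUnit ha).map _⟩
  · have h1 : aeval (co x) P = 0 := h.zero x P hP
    rw [aeval_alg, h1, map_zero]

/-- `mk_cov`, `mk_zero`; two systems have vanishing minors by `mk_trans`. -/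
theorem mk_sub (h : Pts J co) (h' : SubMor co) (p q : Prj J M) : ∃ r : Prj J M,
    ∀ (S : Sys co) (v w : ι → M), PR p v → PR q w → (∃ c, ∀ a, ps S.Ψ v w a = c * r.co a) ∧
      ((∃ a, ps S.Ψ v w a ≠ 0) → PR r (ps S.Ψ v w)) := by
  obtain ⟨S₀, a₀, h₀⟩ := mk2_cov h h' (pr_co p) (pr_co q)
  obtain ⟨r, hr⟩ := exists_pr ⟨a₀, h₀.isUnit⟩ (mk_zero h S₀ (co_zero p) (co_zero q))
  refine ⟨r, fun S v w hv hw => ?_⟩
  have key : (∃ a, ps S.Ψ v w a ≠ 0) → PR r (ps S.Ψ v w) := by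
    rintro ⟨a, ha⟩
    obtain ⟨s, hs⟩ := hv
    obtain ⟨t, ht⟩ := hw
    obtain rfl : v = fun a => s * p.co a := funext hs
    obtain rfl : w = fun a => t * q.co a := funext ht
    refine hr.of_minors ⟨a, ha.isUnit⟩ fun b c => ?_
    have e : ∀ b, ps S.Ψ (fun a => s * p.co a) (fun a => t * q.co a) b =
        (s : M) ^ S.d.1 * (t : M) ^ S.d.2 * ps S.Ψ p.co q.co b := fun b =>
      aeval_mul_of_bih (S.bih b) _ _ _ _
    have h1 := mk_trans h
      (fun _ _ _ v0 v1 _ => ps S₀.Ψ v0 v1 b * ps S.Ψ v0 v1 c - ps S₀.Ψ v0 v1 c * ps S.Ψ v0 v1 b)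
      (fun _ _ _ _ _ _ f _ _ _ => by simp only [map_sub, map_mul, mk2_map])
      (fun _ _ _ _ _ _ h0 h1 _ => (S₀.on h0 h1).minors (S.on h0 h1) rfl b c)
      (co_zero p) (co_zero q) (co_zero q)
    rw [e, e]
    linear_combination (s : M) ^ S.d.1 * (t : M) ^ S.d.2 * h1
  refine ⟨?_, key⟩
  by_cases h1 : ∃ a, ps S.Ψ v w a ≠ 0
  · obtain ⟨u, hu⟩ := key h1
    exact ⟨u, hu⟩
  · refine ⟨0, fun a => ?_⟩
    rw [zero_mul]
    by_contra h2
    exact h1 ⟨a, h2⟩

/-- `exists_grp_of_sub` for the operation of `mk_sub`; each identity is the vanishing of the minors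
of two vectors (`PR.eq_of_minors`, `mk_trans`, `Sys.on`, `On.minors`). -/
theorem mk_grp (h : Pts J co) (h' : SubMor co) (M : Type) [Field M] [Algebra k M] :
    ∃ g : AddCommGroup (Prj J M), ∀ (p q : Prj J M) (S : Sys co), ∃ c, ∀ a,
      ps S.Ψ p.co q.co a = c * (letI := g; p - q).co a := by
  choose s hs using fun p q : Prj J M => mk_sub h h' p q
  have pr : ∀ {p q : Prj J M} {v w : ι → M}, PR p v → PR q w →
      ∃ S : Sys co, PR (s p q) (ps S.Ψ v w) := fun hv hw => by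
    obtain ⟨S, hS⟩ := mk2_cov h h' hv hw
    exact ⟨S, (hs _ _ S _ _ hv hw).2 hS⟩
  obtain ⟨o, ho⟩ := mk2_pt h M 0
  have h1 : ∀ p, s p p = o := fun p => by
    obtain ⟨S, e⟩ := pr (pr_co p) (pr_co p)
    exact e.eq_of_minors ho fun a b => mk_trans h
      (fun R _ _ v0 _ _ => ps S.Ψ v0 v0 a * algebraMap k R (co 0 b) -
        ps S.Ψ v0 v0 b * algebraMap k R (co 0 a))
      (fun _ _ _ _ _ _ f _ _ _ => by simp only [map_sub, map_mul, mk2_map, AlgHom.commutes])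
      (fun _ _ _ _ _ _ h0 _ _ => (S.on h0 h0).minors (y := 0)
        (w := fun a => algebraMap k k (co 0 a)) ⟨1, fun _ => by simp⟩ (sub_self _) a b)
      (co_zero p) (co_zero p) (co_zero p)
  have h2 : ∀ p q r, s (s p q) r = s (s p r) q := fun p q r => by
    obtain ⟨S₁, e₁⟩ := pr (pr_co p) (pr_co q)
    obtain ⟨S₂, e₂⟩ := pr e₁ (pr_co r)
    obtain ⟨S₃, e₃⟩ := pr (pr_co p) (pr_co r)
    obtain ⟨S₄, e₄⟩ := pr e₃ (pr_co q)
    exact e₂.eq_of_minors e₄ fun a b => mk_trans h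
      (fun _ _ _ v0 v1 v2 => ps S₂.Ψ (ps S₁.Ψ v0 v1) v2 a * ps S₄.Ψ (ps S₃.Ψ v0 v2) v1 b -
        ps S₂.Ψ (ps S₁.Ψ v0 v1) v2 b * ps S₄.Ψ (ps S₃.Ψ v0 v2) v1 a)
      (fun _ _ _ _ _ _ f _ _ _ => by simp only [map_sub, map_mul, mk2_map])
      (fun _ _ _ _ _ _ h0 h1 h2 => (S₂.on (S₁.on h0 h1) h2).minors (S₄.on (S₃.on h0 h2) h1)
        (sub_right_comm _ _ _) a b)
      (co_zero p) (co_zero q) (co_zero r)
  have h3 : ∀ p q, s p (s p q) = q := fun p q => by
    obtain ⟨S₁, e₁⟩ := pr (pr_co p) (pr_co q)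
    obtain ⟨S₂, e₂⟩ := pr (pr_co p) e₁
    exact e₂.eq_of_minors (pr_co q) fun a b => mk_trans h
      (fun _ _ _ v0 v1 _ => ps S₂.Ψ v0 (ps S₁.Ψ v0 v1) a * v1 b -
        ps S₂.Ψ v0 (ps S₁.Ψ v0 v1) b * v1 a)
      (fun _ _ _ _ _ _ f _ _ _ => by simp only [map_sub, map_mul, mk2_map])
      (fun _ _ _ _ _ _ h0 h1 _ => (S₂.on h0 (S₁.on h0 h1)).minors h1 (sub_sub_cancel _ _) a b)
      (co_zero p) (co_zero q) (co_zero q)
  obtain ⟨g, hg⟩ := exists_grp_of_sub s o h1 h2 h3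
  refine ⟨g, fun p q S => ?_⟩
  rw [hg]
  exact (hs p q S _ _ (pr_co p) (pr_co q)).1

theorem exists_ga (h : Pts J co) (h' : SubMor co) :
    ∃ A : GA k ι, A.I = J ∧ ∃ e : G ≃+ A.Pt k, ∀ p, GA.Rep (e p) (co p) := by
  let A : GA k ι :=
    { I := J
      hom := h.hom
      prime := fun _ _ _ => prime_up h.prime
      J := Sys co
      Ψ := Sys.Ψ
      dg := Sys.d
      bih := Sys.bih
      grp := fun M _ _ => (mk_grp h h' M).choose
      cov := fun _ _ _ p q => mk2_cov h h' (pr_co p) (pr_co q)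
      law := fun M _ _ => (mk_grp h h' M).choose_spec }
  have ex : ∀ x : G, ∃ p : A.Pt k, PR (I := J) p (co x) := fun x => mk2_pt h k x
  choose f hf using ex
  have on : ∀ x, On co x (Prj.co (I := J) (f x)) := fun x => by
    obtain ⟨u, hu⟩ := hf x
    exact ⟨↑u⁻¹, fun a => by rw [hu, Units.inv_mul_cancel_left]⟩
  have hsub : ∀ x y, f (x - y) = f x - f y := fun x y => by
    obtain ⟨S, a, ha⟩ := A.cov k (f x) (f y)
    obtain ⟨c, hc⟩ := A.law k (f x) (f y) S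
    have c0 : c ≠ 0 := fun e => ha (by rw [hc, e, zero_mul])
    have h1 : PR (I := J) (f x - f y : A.Pt k)
        (ps S.Ψ (Prj.co (I := J) (f x)) (Prj.co (I := J) (f y))) := ⟨Units.mk0 c c0, hc⟩
    exact (hf (x - y)).eq_of_minors h1 fun a b =>
      On.minors (co := co) (x := x - y) ⟨1, fun _ => by simp⟩ (Sys.on S (on x) (on y)) rfl a b
  have hinj : Function.Injective f := fun x y e => by
    obtain ⟨u, hu⟩ := hf x
    obtain ⟨c, hc⟩ := on y
    refine (h.bij (co x) (h.ne x) (h.zero x)).unique ⟨1, (one_smul _ _).symm⟩ ⟨u * c, ?_⟩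
    funext a
    rw [hu, e, hc, Pi.smul_apply, smul_eq_mul, mul_assoc]
  have hsurj : Function.Surjective f := fun r => by
    obtain ⟨a, ha⟩ := (pr_co (I := J) r).unit
    obtain ⟨x, ⟨c, hc⟩, -⟩ := h.bij (Prj.co (I := J) r) (Function.ne_iff.2 ⟨a, ha.ne_zero⟩)
      (co_zero (I := J) r)
    have c0 : c ≠ 0 := fun e => ha.ne_zero (by rw [hc, e, zero_smul, Pi.zero_apply])
    have h1 := (hf x).smul c0.isUnit
    refine ⟨x, PR.inj (I := J) h1 ?_⟩
    have h2 : (fun a => c * co x a) = Prj.co (I := J) r := hc.symm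
    rw [h2]
    exact pr_co (I := J) r
  exact ⟨A, rfl, AddEquiv.ofBijective (AddMonoidHom.ofMapSub f hsub) ⟨hinj, hsurj⟩, hf⟩

end

end Pool.Agent.Lib.MP_651af7_nt.Cu
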