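import Pool.Agent.Lib.MP_651af7_nt.Cu.Defs

/-! Places, extension of places, sup norms. -/

namespace Pool.Agent.Lib.MP_651af7_nt.Cu

open MvPolynomial Av

set_option linter.unusedSectionVars false

section nv

variable {Ω α β : Type} [Field Ω] [Fintype α] [Fintype β] {V : ValuationSubring Ω} {u : α → Ω}

theorem le_nv (a : α) : V.valuation (u a) ≤ nv V u := by
  exact Finset.le_sup (f := fun a => V.valuation (u a)) (Finset.mem_univ a)

theorem nv_le_iff {g : V.ValueGroup} : nv V u ≤ g ↔ ∀ a, V.valuation (u a) ≤ g := by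
  simp [nv, Finset.sup_le_iff]

theorem exists_nv [Nonempty α] (V : ValuationSubring Ω) (u : α → Ω) :
    ∃ a, nv V u = V.valuation (u a) := by
  obtain ⟨a, -, ha⟩ := Finset.exists_mem_eq_sup Finset.univ Finset.univ_nonempty
    fun a => V.valuation (u a)
  exact ⟨a, ha⟩

theorem nv_ne_zero (h : ∃ a, u a ≠ 0) : nv V u ≠ 0 := by
  obtain ⟨a, ha⟩ := h
  intro e
  have h1 : V.valuation (u a) ≤ nv V u := le_nv a
  rw [e, le_zero_iff, map_eq_zero] at h1
  exact ha h1

theorem nv_smul (c : Ω) : nv V (fun a => c * u a) = V.valuation c * nv V u := by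
  rcases isEmpty_or_nonempty α with hα | hα
  · simp [nv, bot_eq_zero]
  · refine le_antisymm (nv_le_iff.2 fun a => ?_) ?_
    · rw [map_mul]
      exact mul_le_mul_right (le_nv a) _
    · obtain ⟨a, ha⟩ := exists_nv V u
      rw [ha, ← map_mul]
      exact le_nv (u := fun a => c * u a) a

theorem nv_eq_one (h : ∀ a, u a ∈ V) (h' : ∃ a, V.valuation (u a) = 1) : nv V u = 1 := by
  obtain ⟨a, ha⟩ := h'
  exact le_antisymm (nv_le_iff.2 fun b => (V.valuation_le_one_iff _).2 (h b)) (ha ▸ le_nv a)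

theorem nv_mul (w : β → Ω) : nv V (fun c : α × β => u c.1 * w c.2) = nv V u * nv V w := by
  refine le_antisymm (nv_le_iff.2 fun c => ?_) ?_
  · rw [map_mul]
    exact mul_le_mul' (le_nv c.1) (le_nv c.2)
  rcases isEmpty_or_nonempty α with hα | hα
  · simp [nv, bot_eq_zero]
  rcases isEmpty_or_nonempty β with hβ | hβ
  · simp [nv, bot_eq_zero]
  obtain ⟨a, ha⟩ := exists_nv V u
  obtain ⟨b, hb⟩ := exists_nv V w
  rw [ha, hb, ← map_mul]
  exact le_nv (u := fun c : α × β => u c.1 * w c.2) (a, b)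

theorem nv_prod (n : ℕ) : nv V (fun γ : Fin n → α => ∏ i, u (γ i)) = nv V u ^ n := by
  refine le_antisymm (nv_le_iff.2 fun γ => ?_) ?_
  · rw [map_prod]
    refine (Finset.prod_le_prod' fun i _ => le_nv (γ i)).trans ?_
    simp
  rcases isEmpty_or_nonempty α with hα | hα
  · rcases n with _ | n
    · have h := le_nv (V := V) (u := fun γ : Fin 0 → α => ∏ i, u (γ i)) Fin.elim0
      simpa using h
    · simp [nv, bot_eq_zero]
  obtain ⟨a, ha⟩ := exists_nv V u
  have h := le_nv (V := V) (u := fun γ : Fin n → α => ∏ i, u (γ i)) fun _ => a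
  rw [ha]
  simpa using h

/-- A maximal entry stays maximal for a larger valuation ring. -/
theorem nv_of_le {W : ValuationSubring Ω} (h : V ≤ W) {a : α} (ha : nv V u = V.valuation (u a)) :
    nv W u = W.valuation (u a) := by
  refine le_antisymm (nv_le_iff.2 fun b => ?_) (le_nv a)
  exact V.monotone_mapOfLE W h (ha ▸ le_nv b : V.valuation (u b) ≤ V.valuation (u a))

end nv

namespace Plc

variable {k Ω Ω' F : Type} [Field k] [Field Ω] [Field Ω'] [Field F] [Algebra k Ω]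
  [Algebra k Ω'] [Algebra k F] (σ : Plc k Ω Ω') {a b : Ω}

theorem plc2_lt (V : ValuationSubring Ω) (a : Ω) : V.valuation a < 1 ↔ a = 0 ∨ a⁻¹ ∉ V := by
  rw [← V.mem_nonunits_iff, V.mem_nonunits_iff_or]

theorem plc2_le (V : ValuationSubring Ω) {a b : Ω} (hb : b ≠ 0) :
    V.valuation a ≤ V.valuation b ↔ a / b ∈ V := by
  rw [← V.valuation_le_one_iff, map_div₀,
    div_le_one₀ (zero_lt_iff.2 ((Valuation.ne_zero_iff _).2 hb))]

theorem ker (ha : a ∈ σ.V) : σ.π a = 0 ↔ σ.V.valuation a < 1 := by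
  rw [plc2_lt]
  constructor
  · intro h
    by_contra hh
    push Not at hh
    exact σ.ne_zero ha hh.1 hh.2 h
  · rintro (h | h)
    · rw [h, σ.zero]
    · by_contra h0
      exact h (σ.inv a ha h0)

theorem val_eq_one (ha : a ∈ σ.V) : σ.V.valuation a = 1 ↔ σ.π a ≠ 0 := by
  rw [Ne, σ.ker ha, not_lt]
  exact ⟨fun h => h.ge, fun h => le_antisymm ((σ.V.valuation_le_one_iff a).2 ha) h⟩

theorem map_sub (ha : a ∈ σ.V) (hb : b ∈ σ.V) : σ.π (a - b) = σ.π a - σ.π b := by
  rw [sub_eq_add_neg, σ.add a ha _ (neg_mem hb), σ.neg hb, sub_eq_add_neg]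

theorem map_div (ha : a ∈ σ.V) (hb : b ∈ σ.V) (h : σ.π b ≠ 0) :
    a / b ∈ σ.V ∧ σ.π (a / b) = σ.π a / σ.π b := by
  have h1 := σ.inv b hb h
  rw [div_eq_mul_inv, div_eq_mul_inv]
  exact ⟨mul_mem ha h1, by rw [σ.mul a ha _ h1, σ.map_inv hb h]⟩

theorem map_pow (ha : a ∈ σ.V) (n : ℕ) : σ.π (a ^ n) = σ.π a ^ n := by
  induction n with
  | zero => rw [pow_zero, pow_zero, σ.one]
  | succ n ih => rw [pow_succ, pow_succ, σ.mul _ (pow_mem ha n) _ ha, ih]

theorem map_zpow (ha : a ∈ σ.V) (h : σ.π a ≠ 0) (n : ℤ) :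
    a ^ n ∈ σ.V ∧ σ.π (a ^ n) = σ.π a ^ n := by
  cases n with
  | ofNat n =>
    rw [Int.ofNat_eq_natCast, zpow_natCast, zpow_natCast]
    exact ⟨pow_mem ha n, σ.map_pow ha n⟩
  | negSucc n =>
    have h1 : σ.π (a ^ (n + 1)) ≠ 0 := by
      rw [σ.map_pow ha]
      exact pow_ne_zero _ h
    rw [zpow_negSucc, zpow_negSucc]
    exact ⟨σ.inv _ (pow_mem ha _) h1, by rw [σ.map_inv (pow_mem ha _) h1, σ.map_pow ha]⟩

theorem map_sum {α : Type} (s : Finset α) {f : α → Ω} (h : ∀ i ∈ s, f i ∈ σ.V) :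
    σ.π (∑ i ∈ s, f i) = ∑ i ∈ s, σ.π (f i) := by
  classical
  induction s using Finset.induction_on with
  | empty => rw [Finset.sum_empty, Finset.sum_empty, σ.zero]
  | insert i s hi ih =>
    have h' : ∀ j ∈ s, f j ∈ σ.V := fun j hj => h j (Finset.mem_insert_of_mem hj)
    rw [Finset.sum_insert hi, Finset.sum_insert hi,
      σ.add _ (h i (Finset.mem_insert_self i s)) _ (sum_mem h'), ih h']

theorem map_prod {α : Type} (s : Finset α) {f : α → Ω} (h : ∀ i ∈ s, f i ∈ σ.V) :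
    σ.π (∏ i ∈ s, f i) = ∏ i ∈ s, σ.π (f i) := by
  classical
  induction s using Finset.induction_on with
  | empty => rw [Finset.prod_empty, Finset.prod_empty, σ.one]
  | insert i s hi ih =>
    have h' : ∀ j ∈ s, f j ∈ σ.V := fun j hj => h j (Finset.mem_insert_of_mem hj)
    rw [Finset.prod_insert hi, Finset.prod_insert hi,
      σ.mul _ (h i (Finset.mem_insert_self i s)) _ (prod_mem h'), ih h']

theorem pull_le (U : ValuationSubring Ω') : σ.pull U ≤ σ.V := fun _ h => h.1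

/-- `v a ≤ v b` means `a / b` lies in the ring (`ValuationSubring.valuation_le_iff`). -/
theorem pull_val_le (U : ValuationSubring Ω') (ha : a ∈ σ.V) (hb : b ∈ σ.V) (h : σ.π b ≠ 0) :
    (σ.pull U).valuation a ≤ (σ.pull U).valuation b ↔
      U.valuation (σ.π a) ≤ U.valuation (σ.π b) := by
  have hb0 : b ≠ 0 := fun e => h (by rw [e, σ.zero])
  obtain ⟨h1, h2⟩ := σ.map_div ha hb h
  rw [plc2_le _ hb0, plc2_le _ h, σ.mem_pull, h2]
  exact and_iff_right h1

theorem pull_val_lt (U : ValuationSubring Ω') (ha : a ∈ σ.V) (hb : b ∈ σ.V) (h : σ.π b ≠ 0) :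
    (σ.pull U).valuation a < (σ.pull U).valuation b ↔
      U.valuation (σ.π a) < U.valuation (σ.π b) := by
  by_cases h0 : σ.π a = 0
  · have hb0 : b ≠ 0 := fun e => h (by rw [e, σ.zero])
    rw [h0, map_zero]
    refine iff_of_true ?_ (zero_lt_iff.2 ((Valuation.ne_zero_iff _).2 h))
    by_cases ha0 : a = 0
    · rw [ha0, map_zero]
      exact zero_lt_iff.2 ((Valuation.ne_zero_iff _).2 hb0)
    · rw [← not_le, plc2_le _ ha0]
      intro hh
      have h1 := σ.mul _ hh.1 _ ha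
      rw [div_mul_cancel₀ _ ha0, h0, mul_zero] at h1
      exact h h1
  · rw [← not_le, ← not_le, σ.pull_val_le U hb ha h0]

theorem pull_val_eq (U : ValuationSubring Ω') (ha : a ∈ σ.V) (hb : b ∈ σ.V) (h : σ.π b ≠ 0) :
    (σ.pull U).valuation a = (σ.pull U).valuation b ↔
      U.valuation (σ.π a) = U.valuation (σ.π b) := by
  rw [eq_iff_le_not_lt, eq_iff_le_not_lt, σ.pull_val_le U ha hb h, σ.pull_val_lt U ha hb h]

theorem Ext.mem_iff [Algebra F Ω] {σ : Plc k Ω Ω'} {τ : Plc k F Ω'} (h : σ.Ext τ) (c : F) :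
    algebraMap F Ω c ∈ σ.V ↔ c ∈ τ.V := by
  refine ⟨fun hc => ?_, fun hc => (h c hc).1⟩
  by_contra hn
  have h1 : c⁻¹ ∈ τ.V := (τ.V.mem_or_inv_mem c).resolve_left hn
  have h0 : c ≠ 0 := fun e => hn (e ▸ zero_mem _)
  have h2 : τ.π c⁻¹ = 0 := by
    by_contra hh
    exact hn (inv_inv c ▸ τ.inv _ h1 hh)
  obtain ⟨h3, h4⟩ := h _ h1
  refine σ.ne_zero h3 ((_root_.map_ne_zero _).2 (inv_ne_zero h0)) ?_ (h4.trans h2)
  rwa [map_inv₀, inv_inv]

theorem Ov.cont_pull {K : Type} [Field K] [Algebra K Ω] [Algebra K Ω'] {σ : Plc k Ω Ω'}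
    (h : σ.Ov K) {U : ValuationSubring Ω'} (hU : Cont K U) : Cont K (σ.pull U) := by
  exact fun c => ⟨(h c).1, (h c).2 ▸ hU c⟩

theorem Ov.aeval_mem {K α : Type} [Field K] [Algebra K Ω] [Algebra K Ω'] {σ : Plc k Ω Ω'}
    (h : σ.Ov K) {x : α → Ω} (hx : ∀ a, x a ∈ σ.V) (P : MvPolynomial α K) :
    aeval x P ∈ σ.V ∧ σ.π (aeval x P) = aeval (fun a => σ.π (x a)) P := by
  induction P using MvPolynomial.induction_on with
  | C c => simpa using h c
  | add P Q hP hQ =>
    rw [map_add, map_add]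
    exact ⟨add_mem hP.1 hQ.1, by rw [σ.add _ hP.1 _ hQ.1, hP.2, hQ.2]⟩
  | mul_X P a hP =>
    rw [map_mul, map_mul, aeval_X, aeval_X]
    exact ⟨mul_mem hP.1 (hx a), by rw [σ.mul _ hP.1 _ (hx a), hP.2]⟩

end Plc

section val

variable {Ω F : Type} [Field Ω] [Field F]

/-- Comparison of values in a subfield. -/
theorem comap_val_le (f : F →+* Ω) (V : ValuationSubring Ω) (a b : F) :
    (V.comap f).valuation a ≤ (V.comap f).valuation b ↔ V.valuation (f a) ≤ V.valuation (f b) := by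
  rw [ValuationSubring.valuation_le_iff, ValuationSubring.valuation_le_iff]
  constructor
  · rintro ⟨c, rfl⟩
    exact ⟨⟨f c, c.2⟩, (map_mul f _ _).symm⟩
  · rintro ⟨c, hc⟩
    by_cases hb : b = 0
    · subst hb
      rw [map_zero, mul_zero, eq_comm, map_eq_zero] at hc
      exact ⟨0, by simp [hc]⟩
    · have hb' : f b ≠ 0 := (map_ne_zero f).2 hb
      have h1 : f (a / b) = c := by rw [map_div₀, ← hc, mul_div_cancel_right₀ _ hb']
      exact ⟨⟨a / b, ValuationSubring.mem_comap.2 (h1 ▸ c.2)⟩, div_mul_cancel₀ a hb⟩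

theorem comap_val_lt_one (f : F →+* Ω) (V : ValuationSubring Ω) (a : F) :
    (V.comap f).valuation a < 1 ↔ V.valuation (f a) < 1 := by
  have h := comap_val_le f V 1 a
  rw [map_one, map_one, map_one] at h
  rw [← not_le, ← not_le, h]

theorem comap_val_eq_one (f : F →+* Ω) (V : ValuationSubring Ω) (a : F) :
    (V.comap f).valuation a = 1 ↔ V.valuation (f a) = 1 := by
  have h := comap_val_le f V 1 a
  have h' := comap_val_le f V a 1
  rw [map_one, map_one, map_one] at h h'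
  rw [le_antisymm_iff, le_antisymm_iff, h, h']

theorem val_eq_one_of_cont [Algebra F Ω] {V : ValuationSubring Ω} (h : Cont F V) {c : F}
    (hc : c ≠ 0) : V.valuation (algebraMap F Ω c) = 1 := by
  have h1 := (V.valuation_le_one_iff _).2 (h c)
  have h2 := (V.valuation_le_one_iff _).2 (h c⁻¹)
  have h0 : V.valuation (algebraMap F Ω c) ≠ 0 := by simpa using hc
  rw [map_inv₀, map_inv₀, inv_le_one₀ (zero_lt_iff.2 h0)] at h2
  exact le_antisymm h1 h2

/-- `iInf_valuationSubring_superset`. -/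
theorem isIntegral_of_val (S : Subring Ω) {s : Ω}
    (h : ∀ V : ValuationSubring Ω, (∀ a ∈ S, a ∈ V) → s ∈ V) : IsIntegral S s := by
  have h1 : s ∈ (integralClosure (Subring.closure (S : Set Ω)) Ω).toSubring := by
    rw [← iInf_valuationSubring_superset, Subring.mem_iInf]
    exact fun V => h V.1 fun a ha => V.2 ha
  rw [Subring.closure_eq] at h1
  exact h1

theorem isIntegral_of_val' {R : Type} [CommRing R] [Algebra R Ω] {s : Ω}
    (h : ∀ V : ValuationSubring Ω, Cont R V → s ∈ V) : IsIntegral R s := by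
  have h1 := isIntegral_of_val (algebraMap R Ω).range (s := s) fun V hV =>
    h V fun r => hV _ ⟨r, rfl⟩
  obtain ⟨p, hp, hs⟩ := h1
  obtain ⟨q, hq, -, hm⟩ := Polynomial.lifts_and_degree_eq_and_monic
    (f := (algebraMap R Ω).rangeRestrict)
    (Polynomial.mem_lifts _ |>.2 (Polynomial.map_surjective _
      (algebraMap R Ω).rangeRestrict_surjective p)) hp
  refine ⟨q, hm, ?_⟩
  rw [← hq, Polynomial.eval₂_map] at hs
  exact hs

theorem mem_of_isIntegral {R : Type} [CommRing R] [Algebra R Ω] {V : ValuationSubring Ω}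
    (h : Cont R V) {s : Ω} (hs : IsIntegral R s) : s ∈ V := by
  have h1 : IsIntegral V s := by
    obtain ⟨p, hp, hs⟩ := hs
    refine ⟨p.map ((algebraMap R Ω).codRestrict V h), hp.map _, ?_⟩
    rw [Polynomial.eval₂_map]
    exact hs
  obtain ⟨y, rfl⟩ := IsIntegrallyClosed.algebraMap_eq_of_integral h1
  exact y.2

/-- `LocalSubring.exists_le_valuationSubring` for the image of `U`. -/
theorem exists_comap (f : F →+* Ω) (U : ValuationSubring F) :
    ∃ V : ValuationSubring Ω, V.comap f = U := by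
  obtain ⟨V, hle, hloc⟩ := (U.toLocalSubring.map f).exists_le_valuationSubring
  refine ⟨V, ValuationSubring.ext _ _ fun c => ⟨fun hc => ?_, fun hc => hle ⟨c, hc, rfl⟩⟩⟩
  by_contra hn
  have h0 : c ≠ 0 := fun e => hn (e ▸ U.zero_mem)
  have hi : c⁻¹ ∈ U := (U.mem_or_inv_mem c).resolve_left hn
  have hf : f c ≠ 0 := (map_ne_zero f).2 h0
  have hu : IsUnit (Subring.inclusion hle ⟨f c⁻¹, c⁻¹, hi, rfl⟩) :=
    IsUnit.of_mul_eq_one ⟨f c, hc⟩ (Subtype.ext (by simp [hf]))
  obtain ⟨⟨_, d, hd, rfl⟩, e⟩ := (hloc.1 _ hu).exists_right_inv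
  have e1 : f c⁻¹ * f d = 1 := congrArg Subtype.val e
  rw [← map_mul, ← map_one f, f.injective.eq_iff, inv_mul_eq_one₀ h0] at e1
  exact hn (e1 ▸ hd)

end val

end Pool.Agent.Lib.MP_651af7_nt.Cu
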