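import Pool.Agent.Lib.MP_651af7_nt.Cu.Chv

/-! Linearly disjoint fields and Gauss extensions. -/

namespace Pool.Agent.Lib.MP_651af7_nt.Cu

open MvPolynomial Av
open scoped TensorProduct

set_option linter.unusedSectionVars false

variable {k K E F Ω κ Ω' : Type} [Field k] [Field K] [Field E] [Field F] [Field Ω] [Field κ]
  [Field Ω'] [Algebra k K] [Algebra k E] [Algebra k F] [Algebra k Ω] [Algebra k κ] [Algebra k Ω']
  [Algebra K E] [Algebra K F] [Algebra K Ω] [Algebra K κ] [Algebra K Ω'] [Algebra E Ω]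
  [Algebra F Ω] [IsScalarTower k K E] [IsScalarTower k K F] [IsScalarTower k K Ω]
  [IsScalarTower k K κ] [IsScalarTower k K Ω'] [IsScalarTower K E Ω] [IsScalarTower K F Ω]
  [IsScalarTower k E Ω] [IsScalarTower k F Ω]

theorem left_mem_cmp (e : E) : algebraMap E Ω e ∈ cmp E F Ω :=
  (le_sup_left : _ ≤ cmp E F Ω) ⟨e, rfl⟩

theorem right_mem_cmp (c : F) : algebraMap F Ω c ∈ cmp E F Ω :=
  (le_sup_right : _ ≤ cmp E F Ω) ⟨c, rfl⟩

/-- Write `z` as a sum of `c i ⊗ e i` with `e` independent. -/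
theorem exists_indep {R S : Type} [CommRing R] [CommRing S] [Algebra K R] [Algebra K S]
    (z : S ⊗[K] R) : ∃ (m : ℕ) (c : Fin m → S) (e : Fin m → R), LinearIndependent K e ∧
      z = ∑ i, c i ⊗ₜ[K] e i := by
  let B := Module.Basis.ofVectorSpace K R
  let l := (Algebra.TensorProduct.basis S B).repr z
  let q := l.support.equivFin.symm
  refine ⟨_, fun i => l (q i), fun i => B (q i),
    B.linearIndependent.comp _ (Subtype.val_injective.comp q.injective), ?_⟩
  rw [q.sum_comp fun j => l j ⊗ₜ[K] B j, Finset.sum_coe_sort l.support fun j => l j ⊗ₜ[K] B j]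
  conv_lhs => rw [← (Algebra.TensorProduct.basis S B).linearCombination_repr z]
  refine Finset.sum_congr rfl fun j _ => ?_
  simp [l, Algebra.TensorProduct.basis_apply, TensorProduct.smul_tmul']

theorem LD.inj (h : LD K E F Ω) {R S : Type} [CommRing R] [CommRing S] [Algebra K R] [Algebra K S]
    (f : R →ₐ[K] E) (g : S →ₐ[K] F) (hf : Function.Injective f) (hg : Function.Injective g) :
    Function.Injective (Algebra.TensorProduct.productMap
      ((IsScalarTower.toAlgHom K F Ω).comp g) ((IsScalarTower.toAlgHom K E Ω).comp f)) := by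
  refine (injective_iff_map_eq_zero _).2 fun z hz => ?_
  obtain ⟨m, c, e, he, rfl⟩ := exists_indep z
  have h1 := Fintype.linearIndependent_iff.1
    (h m _ (he.map' f.toLinearMap (LinearMap.ker_eq_bot.2 hf))) (fun i => g (c i))
    (by simpa [Algebra.smul_def] using hz)
  refine Finset.sum_eq_zero fun i _ => ?_
  rw [(map_eq_zero_iff g hg).1 (h1 i), TensorProduct.zero_tmul]

/-- The quotients of such sums form a subfield. -/
theorem exists_of_mem_cmp {s : Ω} (hs : s ∈ cmp E F Ω) : ∃ a b : F ⊗[K] E,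
    Algebra.TensorProduct.productMap (IsScalarTower.toAlgHom K F Ω) (IsScalarTower.toAlgHom K E Ω)
      b ≠ 0 ∧ s * Algebra.TensorProduct.productMap (IsScalarTower.toAlgHom K F Ω)
        (IsScalarTower.toAlgHom K E Ω) b = Algebra.TensorProduct.productMap
          (IsScalarTower.toAlgHom K F Ω) (IsScalarTower.toAlgHom K E Ω) a := by
  set μ := Algebra.TensorProduct.productMap (IsScalarTower.toAlgHom K F Ω)
    (IsScalarTower.toAlgHom K E Ω) with hμ
  have h : cmp E F Ω ≤ Subfield.closure (μ.toRingHom.range : Set Ω) := by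
    refine sup_le ?_ ?_
    · rintro _ ⟨e, rfl⟩
      exact Subfield.subset_closure ⟨1 ⊗ₜ e, by simp [hμ]⟩
    · rintro _ ⟨c, rfl⟩
      exact Subfield.subset_closure ⟨c ⊗ₜ 1, by simp [hμ]⟩
  obtain ⟨y, hy, z, hz, rfl⟩ := Subfield.mem_closure_iff.1 (h hs)
  rw [Subring.closure_eq] at hy hz
  obtain ⟨a, rfl⟩ := hy
  obtain ⟨b, rfl⟩ := hz
  by_cases h0 : μ b = 0
  · exact ⟨0, 1, by simp, by simp [h0]⟩
  · exact ⟨a, b, h0, div_mul_cancel₀ _ h0⟩

/-- `chevalley` for the tensor product over `K` of the two valuation rings (as subalgebras over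
`K`), `LD.inj`. -/
theorem LD.exists_ext [IsAlgClosed Ω'] (h : LD K E F Ω) (τ : Plc k F Ω') (ρ : Plc k E Ω')
    (hτ : τ.Ov K) (hρ : ρ.Ov K) : ∃ σ : Plc k Ω Ω', σ.Ext τ ∧ σ.Ext ρ := by
  let τ' : Plc K F Ω' := { τ with alg := hτ }
  let ρ' : Plc K E Ω' := { ρ with alg := hρ }
  have hi := h.inj ρ'.sub.val τ'.sub.val Subtype.val_injective Subtype.val_injective
  obtain ⟨σ, hσ⟩ := chevalley _ (Algebra.TensorProduct.productMap τ'.hom ρ'.hom) fun r hr => by
    rw [(map_eq_zero_iff _ hi).1 hr, map_zero]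
  refine ⟨{ σ with alg := fun c => ?_ }, fun c hc => ?_, fun c hc => ?_⟩
  · rw [IsScalarTower.algebraMap_apply k K Ω, IsScalarTower.algebraMap_apply k K Ω']
    exact σ.alg _
  · have h1 := hσ (⟨c, hc⟩ ⊗ₜ 1)
    rwa [Algebra.TensorProduct.productMap_left_apply,
      Algebra.TensorProduct.productMap_left_apply] at h1
  · have h1 := hσ (1 ⊗ₜ ⟨c, hc⟩)
    rwa [Algebra.TensorProduct.productMap_right_apply,
      Algebra.TensorProduct.productMap_right_apply] at h1

/-- For a finitely generated subalgebra `R = K[X] / J` of `E` the ring `κ ⊗ R` is a domain by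
`prime_up`; two elements of `κ ⊗ E` come from such a ring (`exists_indep`, flatness). -/
theorem isDomain_tensor (K E κ : Type) [Field K] [IsAlgClosed K] [Field E] [Field κ] [Algebra K E]
    [Algebra K κ] : IsDomain (κ ⊗[K] E) := by
  have : NoZeroDivisors (κ ⊗[K] E) := ⟨fun {z w} hzw => by
    by_contra hn
    obtain ⟨m, c, e, he, rfl⟩ := exists_indep z
    obtain ⟨n, d, f, hf, rfl⟩ := exists_indep w
    rw [not_or] at hn
    obtain ⟨i, hi⟩ : ∃ i, c i ≠ 0 := by
      by_contra h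
      exact hn.1 (by simp [not_exists.1 h _ |> not_not.1])
    obtain ⟨j, hj⟩ : ∃ j, d j ≠ 0 := by
      by_contra h
      exact hn.2 (by simp [not_exists.1 h _ |> not_not.1])
    let R := Algebra.adjoin K (Set.range c ∪ Set.range d)
    have : Algebra.FiniteType K R :=
      .adjoin_of_finite ((Set.finite_range c).union (Set.finite_range d))
    let c' : Fin m → R := fun i => ⟨c i, Algebra.subset_adjoin (.inl ⟨i, rfl⟩)⟩
    let d' : Fin n → R := fun i => ⟨d i, Algebra.subset_adjoin (.inr ⟨i, rfl⟩)⟩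
    obtain ⟨φ, hφ⟩ := exists_point (K := K) (b := c' i * d' j)
      (fun h => mul_ne_zero hi hj (congrArg Subtype.val h))
    rw [map_mul] at hφ
    have h0 : (∑ i, c' i ⊗ₜ[K] e i) * (∑ i, d' i ⊗ₜ[K] f i) = 0 := by
      apply Module.Flat.rTensor_preserves_injective_linearMap (M := E) R.val.toLinearMap
        Subtype.val_injective
      change Algebra.TensorProduct.map R.val (AlgHom.id K E) _ = _
      rw [map_zero, map_mul, map_sum, map_sum]
      exact hzw
    have h1 := congrArg (Algebra.TensorProduct.productMap ((Algebra.ofId K E).comp φ)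
      (AlgHom.id K E)) h0
    simp only [map_zero, map_mul, map_sum, Algebra.TensorProduct.productMap_apply_tmul,
      AlgHom.comp_apply, Algebra.ofId_apply, AlgHom.id_apply, ← Algebra.smul_def,
      mul_eq_zero] at h1
    rcases h1 with h1 | h1
    · exact left_ne_zero_of_mul hφ (Fintype.linearIndependent_iff.1 he _ h1 i)
    · exact right_ne_zero_of_mul hφ (Fintype.linearIndependent_iff.1 hf _ h1 j)⟩
  exact NoZeroDivisors.to_isDomain _

variable (k K E κ) in
/-- The algebraic closure of the fraction field of `κ ⊗ E`. -/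
theorem exists_ld [IsAlgClosed K] : ∃ (Ω' : Type) (_ : Field Ω') (_ : IsAlgClosed Ω')
    (_ : Algebra k Ω') (_ : Algebra K Ω') (_ : Algebra E Ω') (_ : Algebra κ Ω')
    (_ : IsScalarTower k K Ω') (_ : IsScalarTower K E Ω') (_ : IsScalarTower K κ Ω')
    (_ : IsScalarTower k E Ω') (_ : IsScalarTower k κ Ω'), LD K E κ Ω' := by
  have := isDomain_tensor K E κ
  obtain ⟨Ω', _, _, j, hj⟩ : ∃ (Ω' : Type) (_ : Field Ω') (_ : IsAlgClosed Ω')
      (j : κ ⊗[K] E →+* Ω'), Function.Injective j :=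
    ⟨AlgebraicClosure (FractionRing (κ ⊗[K] E)), inferInstance, inferInstance,
      (algebraMap (FractionRing (κ ⊗[K] E)) _).comp (algebraMap _ _),
      (algebraMap (FractionRing (κ ⊗[K] E)) _).injective.comp
        (IsFractionRing.injective _ (FractionRing (κ ⊗[K] E)))⟩
  let : Algebra κ Ω' := (j.comp (algebraMap κ _)).toAlgebra
  let : Algebra E Ω' :=
    (j.comp (Algebra.TensorProduct.includeRight (R := K) (A := κ)).toRingHom).toAlgebra
  let : Algebra K Ω' := (j.comp (algebraMap K _)).toAlgebra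
  let : Algebra k Ω' := ((algebraMap K Ω').comp (algebraMap k K)).toAlgebra
  have h1 : IsScalarTower K E Ω' := .of_algebraMap_eq fun c =>
    congrArg j ((Algebra.TensorProduct.includeRight (R := K) (A := κ)).commutes c).symm
  have h2 : IsScalarTower K κ Ω' := .of_algebraMap_eq fun c =>
    congrArg j (IsScalarTower.algebraMap_apply K κ _ c)
  refine ⟨Ω', inferInstance, inferInstance, inferInstance, inferInstance, inferInstance,
    inferInstance, .of_algebraMap_eq fun _ => rfl, h1, h2, .of_algebraMap_eq fun c => ?_,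
    .of_algebraMap_eq fun c => ?_, fun m e he => Fintype.linearIndependent_iff.2 fun g hg => ?_⟩
  · rw [IsScalarTower.algebraMap_apply k K E, ← IsScalarTower.algebraMap_apply K E Ω']
    rfl
  · rw [IsScalarTower.algebraMap_apply k K κ, ← IsScalarTower.algebraMap_apply K κ Ω']
    rfl
  · refine Fintype.linearIndependent_iff.1
      (Module.Flat.linearIndependent_one_tmul (S := κ) he) g (hj ?_)
    rw [map_zero, map_sum, ← hg]
    exact Finset.sum_congr rfl fun i _ => by rw [Algebra.smul_def, Algebra.smul_def, map_mul]; rfl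

theorem ten3_frac {s : Ω} (hs : s ∈ cmp E F Ω) (h0 : s ≠ 0) {Q : Ω → Prop}
    (h : ∀ (m : ℕ) (e : Fin m → E), LinearIndependent K e → ∀ c : Fin m → F, c ≠ 0 →
      Q (∑ i, algebraMap F Ω (c i) * algebraMap E Ω (e i))) :
    ∃ a b, Q a ∧ Q b ∧ s = a / b := by
  obtain ⟨a, b, hb, e⟩ := exists_of_mem_cmp (K := K) hs
  have key : ∀ z : F ⊗[K] E, ∀ w, Algebra.TensorProduct.productMap (IsScalarTower.toAlgHom K F Ω)
      (IsScalarTower.toAlgHom K E Ω) z = w → w ≠ 0 → Q w := fun z w h1 h2 => by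
    obtain ⟨m, c, e, he, rfl⟩ := exists_indep z
    obtain rfl : ∑ i, algebraMap F Ω (c i) * algebraMap E Ω (e i) = w := by simpa using h1
    exact h m e he c fun k => h2 (by simp [k])
  exact ⟨_, _, key a _ rfl (e ▸ mul_ne_zero h0 hb), key b _ rfl hb, eq_div_of_mul_eq hb e⟩

theorem ten3_max (W : ValuationSubring Ω) {m : ℕ} {c : Fin m → F} (hc : c ≠ 0) : ∃ j, c j ≠ 0 ∧
    nv W (fun i => algebraMap F Ω (c i)) = W.valuation (algebraMap F Ω (c j)) := by
  obtain ⟨i, hi⟩ := Function.ne_iff.1 hc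
  have : Nonempty (Fin m) := ⟨i⟩
  obtain ⟨j, hj⟩ := exists_nv W fun i => algebraMap F Ω (c i)
  refine ⟨j, fun e => nv_ne_zero ⟨i, ?_⟩ (hj.trans (by rw [e, map_zero, map_zero])), hj⟩
  simpa using hi

section gauss

variable [Algebra E Ω'] [Algebra κ Ω'] [IsScalarTower K E Ω'] [IsScalarTower K κ Ω']
  [IsScalarTower k E Ω'] [IsScalarTower k κ Ω']

/-- `σ` is the Gauss extension of `τ`. -/
structure GP (K E : Type) [Field K] [Field E] [Algebra K E] [Algebra E Ω] [Algebra E Ω']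
    (σ : Plc k Ω Ω') (τ : Plc k F κ) : Prop where
  ov : σ.Ov E
  ext : ∀ c ∈ τ.V, algebraMap F Ω c ∈ σ.V ∧ σ.π (algebraMap F Ω c) = algebraMap κ Ω' (τ.π c)
  iff : ∀ c, algebraMap F Ω c ∈ σ.V ↔ c ∈ τ.V
  gs : Gs K E F σ.V
  cmp : ∀ s ∈ cmp E F Ω, s ∈ σ.V → σ.π s ∈ cmp E κ Ω'

/-- `LD.exists_ext` for `(ofHom _).comp τ` and `ofHom _`. For `gs` divide by a maximal `c i`; the
reduction of the sum is not zero by `h'`. For `cmp` normalise numerator and denominator. -/
theorem exists_gp [IsAlgClosed Ω'] (h : LD K E F Ω) (h' : LD K E κ Ω') (τ : Plc k F κ)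
    (hτ : τ.Ov K) : ∃ σ : Plc k Ω Ω', GP K E σ τ := by
  obtain ⟨σ, h1, h2⟩ := h.exists_ext ((Plc.ofHom (IsScalarTower.toAlgHom k κ Ω')).comp τ)
    (Plc.ofHom (IsScalarTower.toAlgHom k E Ω'))
    (fun c => ⟨⟨(hτ c).1, trivial⟩, (congrArg (algebraMap κ Ω') (hτ c).2).trans
      (IsScalarTower.algebraMap_apply K κ Ω' c).symm⟩)
    fun c => ⟨trivial, (IsScalarTower.algebraMap_apply K E Ω' c).symm⟩
  have ov : σ.Ov E := fun e => h2 e trivial
  have ext : ∀ c ∈ τ.V, algebraMap F Ω c ∈ σ.V ∧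
      σ.π (algebraMap F Ω c) = algebraMap κ Ω' (τ.π c) := fun c hc => h1 c ⟨hc, trivial⟩
  have iff : ∀ c, algebraMap F Ω c ∈ σ.V ↔ c ∈ τ.V := fun c =>
    (h1.mem_iff c).trans (and_iff_left trivial)
  have key : ∀ (m : ℕ) (e : Fin m → E), LinearIndependent K e → ∀ c : Fin m → F, c ≠ 0 →
      ∃ d : F, ∃ t ∈ σ.V, d ≠ 0 ∧ σ.π t ≠ 0 ∧ σ.π t ∈ cmp E κ Ω' ∧
        ∑ i, algebraMap F Ω (c i) * algebraMap E Ω (e i) = algebraMap F Ω d * t ∧
        nv σ.V (fun i => algebraMap F Ω (c i)) = σ.V.valuation (algebraMap F Ω d) := by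
    intro m e he c hc
    obtain ⟨j, j0, hj⟩ := ten3_max σ.V hc
    have a1 : ∀ i, c i / c j ∈ τ.V := fun i => (iff _).1 (by
      rw [← σ.V.valuation_le_one_iff, map_div₀, map_div₀, ← hj]
      exact div_le_one_of_le₀ (le_nv (u := fun i => algebraMap F Ω (c i)) i) zero_le)
    have a2 : ∀ i ∈ Finset.univ, algebraMap F Ω (c i / c j) * algebraMap E Ω (e i) ∈ σ.V :=
      fun i _ => mul_mem (ext _ (a1 i)).1 (ov _).1
    have a3 : σ.π (∑ i, algebraMap F Ω (c i / c j) * algebraMap E Ω (e i)) =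
        ∑ i, algebraMap κ Ω' (τ.π (c i / c j)) * algebraMap E Ω' (e i) := by
      rw [σ.map_sum _ a2]
      exact Finset.sum_congr rfl fun i _ => by
        rw [σ.mul _ (ext _ (a1 i)).1 _ (ov _).1, (ext _ (a1 i)).2, (ov _).2]
    refine ⟨c j, _, sum_mem a2, j0, fun k => ?_, ?_, ?_, hj⟩
    · have a4 := Fintype.linearIndependent_iff.1 (h' m e he) (fun i => τ.π (c i / c j))
        (by simpa only [Algebra.smul_def, a3] using k) j
      rw [div_self j0, τ.one] at a4
      exact one_ne_zero a4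
    · rw [a3]
      exact sum_mem fun i _ => mul_mem (right_mem_cmp _) (left_mem_cmp _)
    · rw [Finset.mul_sum]
      exact Finset.sum_congr rfl fun i _ => by rw [← mul_assoc, ← map_mul, mul_div_cancel₀ _ j0]
  refine ⟨σ, ov, ext, iff, ⟨fun e => (ov e).1, fun m e he c => ?_⟩, fun s hs hV => ?_⟩
  · by_cases hc : c = 0
    · simpa [hc] using (le_zero_iff.1 (nv_le_iff.2 fun _ => by simp)).symm
    obtain ⟨d, t, ht, -, t0, -, e1, e2⟩ := key m e he c hc
    rw [e1, e2, map_mul, (σ.val_eq_one ht).2 t0, mul_one]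
  by_cases h0 : s = 0
  · rw [h0, σ.zero]
    exact zero_mem _
  obtain ⟨_, _, ⟨d, t, ht, d0, t0, tc, rfl⟩, ⟨d', t', ht', d0', t0', tc', rfl⟩, rfl⟩ :=
    ten3_frac (K := K) hs h0 (Q := fun w => ∃ d : F, ∃ t ∈ σ.V, d ≠ 0 ∧ σ.π t ≠ 0 ∧
      σ.π t ∈ cmp E κ Ω' ∧ w = algebraMap F Ω d * t) fun m e he c hc =>
        let ⟨d, t, a, b, c, e, f, _⟩ := key m e he c hc
        ⟨d, t, a, b, c, e, f⟩
  rw [mul_div_mul_comm, ← map_div₀] at hV ⊢
  have b1 := σ.map_div ht ht' t0'
  have b2 : d / d' ∈ τ.V := (iff _).1 (by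
    rwa [← σ.V.valuation_le_one_iff, map_mul, (σ.val_eq_one b1.1).2
      (b1.2 ▸ div_ne_zero t0 t0'), mul_one, σ.V.valuation_le_one_iff] at hV)
  rw [σ.mul _ (ext _ b2).1 _ b1.1, (ext _ b2).2, b1.2]
  exact mul_mem (right_mem_cmp _) (div_mem tc tc')

end gauss

theorem Gs.val {W : ValuationSubring Ω} (h : Gs K E F W) {s : Ω} (hs : s ∈ cmp E F Ω) (h0 : s ≠ 0) :
    ∃ c : F, c ≠ 0 ∧ W.valuation s = W.valuation (algebraMap F Ω c) := by
  obtain ⟨a, b, ⟨c, c0, hc⟩, ⟨d, d0, hd⟩, rfl⟩ := ten3_frac (K := K) hs h0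
    (Q := fun w => ∃ c : F, c ≠ 0 ∧ W.valuation w = W.valuation (algebraMap F Ω c))
    fun m e he c hc => let ⟨j, a, b⟩ := ten3_max W hc; ⟨c j, a, (h.2 m e he c).trans b⟩
  exact ⟨c / d, div_ne_zero c0 d0, by rw [map_div₀, hc, hd, map_div₀, map_div₀]⟩

/-- `exists_plc` (with `k = K`), `exists_ld`, `exists_gp`. -/
theorem exists_gs [IsAlgClosed K] (h : LD K E F Ω) (ν : ValuationSubring F) (hν : Cont K ν) :
    ∃ W : ValuationSubring Ω, Gs K E F W ∧ ∀ c, algebraMap F Ω c ∈ W ↔ c ∈ ν := by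
  obtain ⟨κ, _, _, _, _, _, τ, rfl, hτ⟩ := exists_plc (k := (⊤ : Subfield K)) (K := K) ν hν
  obtain ⟨Ω', _, _, _, _, _, _, _, _, _, _, _, h'⟩ := exists_ld (⊤ : Subfield K) K E κ
  obtain ⟨σ, hσ⟩ := exists_gp h h' τ hτ
  exact ⟨σ.V, hσ.gs, hσ.iff⟩

end Pool.Agent.Lib.MP_651af7_nt.Cu
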