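import Pool.Agent.Lib.MP_651af7_nt.Cu.Hv
import Pool.Agent.Lib.MP_651af7_nt.Cu.Gen

/-! Local rings of the product at its points; invariance under translations. -/

namespace Pool.Agent.Lib.MP_651af7_nt.Cu

open MvPolynomial Av

set_option linter.unusedSectionVars false

noncomputable section

variable {k ι : Type} [Field k] [Fintype ι] {A : GA k ι} {Ω Ω' : Type} [Field Ω] [Algebra k Ω]
  [Field Ω'] [Algebra k Ω']

namespace Plc

variable (σ : Plc k Ω Ω') {S S' : Subalgebra k Ω}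

/-- The localisation of `S` at the centre of the place. -/
def loc (S : Subalgebra k Ω) : Subalgebra k Ω where
  carrier := {s | ∃ g ∈ S, ∃ h ∈ S, h ∈ σ.V ∧ σ.π h ≠ 0 ∧ s * h = g}
  mul_mem' := by
    rintro a b ⟨g, hg, h, hh, h1, h2, h3⟩ ⟨g', hg', h', hh', h1', h2', h3'⟩
    refine ⟨g * g', mul_mem hg hg', h * h', mul_mem hh hh', mul_mem h1 h1', ?_, ?_⟩
    · rw [σ.mul _ h1 _ h1']
      exact mul_ne_zero h2 h2'
    · rw [← h3, ← h3']
      ring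
  add_mem' := by
    rintro a b ⟨g, hg, h, hh, h1, h2, h3⟩ ⟨g', hg', h', hh', h1', h2', h3'⟩
    refine ⟨g * h' + g' * h, add_mem (mul_mem hg hh') (mul_mem hg' hh), h * h', mul_mem hh hh',
      mul_mem h1 h1', ?_, ?_⟩
    · rw [σ.mul _ h1 _ h1']
      exact mul_ne_zero h2 h2'
    · rw [← h3, ← h3']
      ring
  algebraMap_mem' c := ⟨_, S.algebraMap_mem c, 1, one_mem _, one_mem _, σ.one ▸ one_ne_zero,
    mul_one _⟩

theorem le_loc (S : Subalgebra k Ω) : S ≤ σ.loc S := fun s hs =>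
  ⟨s, hs, 1, one_mem _, one_mem _, σ.one ▸ one_ne_zero, mul_one _⟩

theorem vloc1_ne {h : Ω} (h0 : σ.π h ≠ 0) : h ≠ 0 := fun e => h0 (e ▸ σ.zero)

theorem loc_le (hS : S ≤ σ.sub) : σ.loc S ≤ σ.sub := by
  rintro s ⟨g, hg, h, -, h1, h2, h3⟩
  rw [eq_div_of_mul_eq (σ.vloc1_ne h2) h3]
  exact (σ.map_div (hS hg) h1 h2).1

theorem inv_mem_loc (hS : S ≤ σ.sub) {s : Ω} (hs : s ∈ σ.loc S) (h : σ.π s ≠ 0) :
    s⁻¹ ∈ σ.loc S := by
  have h0 := σ.loc_le hS hs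
  obtain ⟨g, hg, t, ht, h1, h2, h3⟩ := hs
  refine ⟨t, ht, g, hg, hS hg, ?_, ?_⟩
  · rw [← h3, σ.mul _ h0 _ h1]
    exact mul_ne_zero h h2
  · rw [← h3, inv_mul_cancel_left₀ (σ.vloc1_ne h)]

theorem loc_le_loc (hS : S ≤ σ.sub) (h : S' ≤ σ.loc S) : σ.loc S' ≤ σ.loc S := by
  rintro s ⟨g, hg, t, ht, -, h2, h3⟩
  rw [eq_div_of_mul_eq (σ.vloc1_ne h2) h3, div_eq_mul_inv]
  exact mul_mem (h hg) (σ.inv_mem_loc hS (h ht) h2)

/-- `t` is a common denominator of the coefficients (`Polynomial.scaleRoots`, or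
`IsIntegral.exists_multiple_integral_of_isLocalization`). -/
theorem loc_integral (hS : S ≤ σ.sub) {s : Ω} (hs : IsIntegral (σ.loc S) s) :
    ∃ t ∈ S, σ.π t ≠ 0 ∧ IsIntegral S (t * s) := by
  let M : Submonoid S :=
    { carrier := {t | σ.π t ≠ 0}
      mul_mem' := fun {a b} ha hb => by
        change σ.π (a * b) ≠ 0
        rw [σ.mul _ (hS a.2) _ (hS b.2)]
        exact mul_ne_zero ha hb
      one_mem' := σ.one.trans_ne one_ne_zero }
  let _ : Algebra S (σ.loc S) := (Subalgebra.inclusion (σ.le_loc S)).toAlgebra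
  have : IsScalarTower S (σ.loc S) Ω := IsScalarTower.of_algebraMap_eq fun _ => rfl
  have : IsLocalization M (σ.loc S) := (isLocalization_iff _ _).2 ⟨fun y => ?_, fun z => ?_,
    fun {x y} h => ⟨1, congrArg _ (Subalgebra.inclusion_injective _ h)⟩⟩
  · obtain ⟨m, hm⟩ := hs.exists_multiple_integral_of_isLocalization M s
    exact ⟨m, m.1.2, m.2, hm⟩
  · exact IsUnit.of_mul_eq_one ⟨_, σ.inv_mem_loc hS (σ.le_loc S y.1.2) y.2⟩
      (Subtype.ext (mul_inv_cancel₀ (σ.vloc1_ne y.2)))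
  · obtain ⟨g, hg, t, ht, -, h2, h3⟩ := z.2
    exact ⟨(⟨g, hg⟩, ⟨⟨t, ht⟩, h2⟩), Subtype.ext h3⟩

end Plc

namespace GA

variable {σ : Plc k Ω Ω'} {S : Subalgebra k Ω} {p q : A.Pt Ω}

/-- The pair specialises to every pair. -/
def Spz (p q : A.Pt Ω) : Prop :=
  ∀ (Ω' : Type) [Field Ω'] [IsAlgClosed Ω'] [Algebra k Ω'] (a b : A.Pt Ω'),
    ∃ σ : Plc k Ω Ω', red σ p = a ∧ red σ q = b

variable (A) in
/-- `exists_gen₂`, the algebraic closure, `exists_ext`. -/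
theorem exists_spz : ∃ (Ω : Type) (_ : Field Ω) (_ : IsAlgClosed Ω) (_ : Algebra k Ω)
    (p q : A.Pt Ω), Spz p q := by
  obtain ⟨E, _, _, y, z, -, h⟩ := exists_gen₂ A
  refine ⟨AlgebraicClosure E, inferInstance, inferInstance, inferInstance, up _ y, up _ z,
    fun Ω' _ _ _ a b => ?_⟩
  obtain ⟨τ, h1, h2⟩ := h Ω' a b
  obtain ⟨σ, hσ⟩ := exists_ext (Ω := AlgebraicClosure E) τ
  exact ⟨σ, (red_ext hσ y).trans h1, (red_ext hσ z).trans h2⟩

theorem red_base (σ : Plc k Ω Ω') (a : A.Pt k) : red σ (up Ω a) = up Ω' a :=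
  red_ov σ.alg a

theorem Spz.sub (h : Spz p q) (a b : A.Pt k) : Spz (p - up Ω a) (q - up Ω b) := by
  intro Ω' _ _ _ x y
  obtain ⟨σ, h1, h2⟩ := h Ω' (x + up Ω' a) (y + up Ω' b)
  exact ⟨σ, by rw [map_sub, h1, red_base, add_sub_cancel_right],
    by rw [map_sub, h2, red_base, add_sub_cancel_right]⟩

variable (σ S) in
/-- `p` has coordinates in `S` that do not all vanish at the place. -/
def RP (p : A.Pt Ω) : Prop := ∃ ξ, Rep p ξ ∧ (∀ a, ξ a ∈ S) ∧ ∃ a, σ.π (ξ a) ≠ 0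

theorem RP.mono {S' : Subalgebra k Ω} (h : RP σ S p) (hS : S ≤ S') : RP σ S' p :=
  let ⟨ξ, h1, h2, h3⟩ := h
  ⟨ξ, h1, fun a => hS (h2 a), h3⟩

theorem vloc2_reg (hS : S ≤ σ.sub) :
    RP σ S p ↔ Reg S (RingHom.ker (σ.hom.comp (Subalgebra.inclusion hS))) p :=
  ⟨fun ⟨ξ, h1, h2, a, h3⟩ => ⟨fun a => ⟨ξ a, h2 a⟩, h1, a, h3⟩,
    fun ⟨ξ, h1, a, h3⟩ => ⟨_, h1, fun a => (ξ a).2, a, h3⟩⟩

/-- `Reg.sub` for the kernel of `σ.hom` on `S`. -/
theorem RP.sub (hS : S ≤ σ.sub) (hp : RP σ S p) (hq : RP σ S q) : RP σ S (p - q) := by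
  have := RingHom.ker_isPrime (σ.hom.comp (Subalgebra.inclusion hS))
  exact (vloc2_reg hS).2 (((vloc2_reg hS).1 hp).sub ((vloc2_reg hS).1 hq))

theorem RP.base (a : A.Pt k) : RP σ S (up Ω a) :=
  ⟨_, (rep_nc a).up, fun _ => S.algebraMap_mem _, idx a, by
    rw [nc_idx, map_one, σ.one]
    exact one_ne_zero⟩

theorem RP.neg (hS : S ≤ σ.sub) (hp : RP σ S p) : RP σ S (-p) := by
  have h := (RP.base (0 : A.Pt k)).sub hS hp
  rwa [map_zero, zero_sub] at h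

theorem RP.un_mem (hS : S ≤ σ.sub) (hp : RP σ S p) (a : ι) : un σ p a ∈ σ.loc S := by
  obtain ⟨ξ, h1, h2, h3⟩ := hp
  have h4 := (h1.red σ (fun a => hS (h2 a)) h3).idx_ne
  have h5 : ξ (idx (red σ p)) ≠ 0 := fun e => h4 (by rw [e, σ.zero])
  refine ⟨_, h2 a, _, h2 _, hS (h2 _), h4, ?_⟩
  rw [un, h1.nc_eq, h1.nc_eq, div_div_div_cancel_right₀ h1.idx_ne, div_mul_cancel₀ _ h5]

variable (σ p q) in
/-- The local ring of the product at the reduction of `(p, q)`. -/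
def LR : Subalgebra k Ω := σ.loc (Algebra.adjoin k (Set.range (un σ p) ∪ Set.range (un σ q)))

theorem vloc2_le : Algebra.adjoin k (Set.range (un σ p) ∪ Set.range (un σ q)) ≤ σ.sub :=
  Algebra.adjoin_le (Set.union_subset (Set.range_subset_iff.2 (un_spec σ p).2.2.1)
    (Set.range_subset_iff.2 (un_spec σ q).2.2.1))

theorem lr_le : LR σ p q ≤ σ.sub := σ.loc_le vloc2_le

theorem loc_lr : σ.loc (LR σ p q) = LR σ p q :=
  le_antisymm (σ.loc_le_loc vloc2_le le_rfl) (σ.le_loc _)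

theorem rp_lr : RP σ (LR σ p q) p ∧ RP σ (LR σ p q) q := by
  have h (r : A.Pt Ω) : ∃ a, σ.π (un σ r a) ≠ 0 :=
    ⟨idx (red σ r), by rw [(un_spec σ r).2.2.2, nc_idx]; exact one_ne_zero⟩
  exact ⟨⟨_, (un_spec σ p).2.1, fun a => σ.le_loc _ (Algebra.subset_adjoin (.inl ⟨a, rfl⟩)), h p⟩,
    ⟨_, (un_spec σ q).2.1, fun a => σ.le_loc _ (Algebra.subset_adjoin (.inr ⟨a, rfl⟩)), h q⟩⟩

theorem lr_le_loc (hS : S ≤ σ.sub) (hp : RP σ S p) (hq : RP σ S q) : LR σ p q ≤ σ.loc S :=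
  σ.loc_le_loc hS (Algebra.adjoin_le (Set.union_subset (Set.range_subset_iff.2 (hp.un_mem hS))
    (Set.range_subset_iff.2 (hq.un_mem hS))))

theorem lr_sub (a b : A.Pt k) : LR σ (p - up Ω a) (q - up Ω b) = LR σ p q := by
  have h (p q : A.Pt Ω) (a b : A.Pt k) : LR σ (p - up Ω a) (q - up Ω b) ≤ LR σ p q :=
    (lr_le_loc lr_le (rp_lr.1.sub lr_le (.base a)) (rp_lr.2.sub lr_le (.base b))).trans loc_lr.le
  refine le_antisymm (h p q a b) ?_
  simpa using h (p - up Ω a) (q - up Ω b) (-a) (-b)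

variable (p q) in
/-- The function field of the product. -/
def Lam : Subfield Ω :=
  (IntermediateField.adjoin k (Set.range (nc p) ∪ Set.range (nc q))).toSubfield

theorem base_mem_lam (c : k) : algebraMap k Ω c ∈ Lam p q :=
  (IntermediateField.adjoin k _).algebraMap_mem c

theorem nc_mem_lam (a : ι) : nc p a ∈ Lam p q ∧ nc q a ∈ Lam p q :=
  ⟨IntermediateField.subset_adjoin k _ (.inl ⟨a, rfl⟩),
    IntermediateField.subset_adjoin k _ (.inr ⟨a, rfl⟩)⟩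

theorem vloc1_le {p' q' : A.Pt Ω} (hp : ∀ a, nc p' a ∈ Lam p q) (hq : ∀ a, nc q' a ∈ Lam p q) :
    Lam p' q' ≤ Lam p q := by
  refine IntermediateField.adjoin_le_iff (F := k).2 ?_
  rintro _ (⟨a, rfl⟩ | ⟨a, rfl⟩)
  exacts [hp a, hq a]

theorem vloc1_up (x : A.Pt k) (a : ι) : nc (up Ω x) a ∈ Lam p q := by
  obtain ⟨c, hc⟩ := nc_up_mem (Ω := Ω) x a
  exact hc ▸ base_mem_lam c

theorem lam_sub (a b : A.Pt k) : Lam (p - up Ω a) (q - up Ω b) = Lam p q := by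
  refine le_antisymm (vloc1_le (nc_sub_mem base_mem_lam (fun c => (nc_mem_lam c).1) (vloc1_up a))
    (nc_sub_mem base_mem_lam (fun c => (nc_mem_lam c).2) (vloc1_up b))) (vloc1_le ?_ ?_)
  · simpa only [sub_add_cancel] using nc_add_mem base_mem_lam
      (fun c => (nc_mem_lam (p := p - up Ω a) (q := q - up Ω b) c).1) (vloc1_up a)
  · simpa only [sub_add_cancel] using nc_add_mem base_mem_lam
      (fun c => (nc_mem_lam (p := p - up Ω a) (q := q - up Ω b) c).2) (vloc1_up b)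

end GA

end

end Pool.Agent.Lib.MP_651af7_nt.Cu
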