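import Pool.Agent.Lib.MP_651af7_nt.Cu.VPhi
import Pool.Agent.Lib.MP_651af7_nt.Cu.Mk

/-! The model with forms of bidegree `(2, 2)`. -/

namespace Pool.Agent.Lib.MP_651af7_nt.Cu

open MvPolynomial Av Ds

set_option linter.unusedSectionVars false

noncomputable section

variable {k ι : Type} [Field k] [Fintype ι]

/-- Rename the variables along `Fintype.equivFin κ`. -/
theorem hasModel_of {κ G : Type} [Fintype κ] [AddCommGroup G] {co : G → ι → k}
    {J : Ideal (MvPolynomial κ k)} {co' : G → κ → k} {Φ : κ → κ → MvPolynomial (κ ⊕ κ) k}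
    (h1 : Pts J co') (h2 : Sq co' Φ) (h3 : Mor co co') (h4 : Mor co' co) : HasModel co := by
  let e := Fintype.equivFin κ
  have he : ∀ p, (co' p ∘ e.symm) ∘ e = co' p := fun p => funext fun a => by simp
  refine ⟨_, J.comap (rename e.symm : MvPolynomial _ k →ₐ[k] MvPolynomial κ k),
    fun p => co' p ∘ e.symm, fun a b => rename (Sum.map e e) (Φ (e.symm a) (e.symm b)),
    ⟨h1.prime.comap _, fun P hP d => ?_, fun p h => h1.ne p (by rw [← he p, h]; rfl),
    fun p P hP => ?_, fun v v0 hv => ?_⟩, ⟨fun a b m hm => ?_, fun p q => ?_⟩, fun p₀ => ?_,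
    fun p₀ => ?_⟩
  · rw [Ideal.mem_comap, rename_homogeneousComponent]
    exact h1.hom _ hP d
  · exact (eval_rename _ _ _).symm.trans (h1.zero p _ hP)
  · refine (existsUnique_congr fun p => exists_congr fun c => ?_).1 (h1.bij (v ∘ e)
      (fun h => v0 (funext fun a => by simpa using congrFun h (e.symm a))) fun P hP => ?_)
    · exact ⟨fun h => funext fun a => by simpa using congrFun h (e.symm a),
        fun h => funext fun a => by simp [h]⟩
    · rw [← eval_rename]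
      exact hv _ (by simpa [Ideal.mem_comap] using hP)
  · obtain ⟨n, rfl, hn⟩ := coeff_rename_ne_zero _ _ _ hm
    rw [← h2.1 _ _ hn, Finsupp.weight, Finsupp.weight, LinearMap.toAddMonoidHom_coe,
      LinearMap.toAddMonoidHom_coe, Finsupp.linearCombination_mapDomain]
    congr 2
    funext x
    cases x <;> rfl
  · obtain ⟨c, c0, hc⟩ := h2.2 p q
    exact ⟨c, c0, fun a b => by rw [eval_rename, Sum.elim_comp_map, he, he]; exact hc _ _⟩
  · obtain ⟨d, α, ha, ⟨a, a0⟩, h⟩ := h3 p₀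
    exact ⟨d, α ∘ e.symm, fun a => ha _, ⟨e a, by simpa using a0⟩,
      fun p => (h p).imp fun c hc a => hc _⟩
  · obtain ⟨d, α, ha, ⟨a, a0⟩, h⟩ := h4 p₀
    exact ⟨d, fun a => rename e (α a), fun a => (ha a).rename_isHomogeneous,
      ⟨a, by rwa [eval_rename, he]⟩, fun p => (h p).imp fun c hc a => by rw [eval_rename, he, hc]⟩

/-- The homogeneous ideal of the point `u`. -/
def hid (k : Type) [Field k] {Ω κ : Type} [Field Ω] [Algebra k Ω] (u : κ → Ω) :
    Ideal (MvPolynomial κ k) :=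
  RingHom.ker (aeval fun γ => Polynomial.C (u γ) * Polynomial.X :
    MvPolynomial κ k →ₐ[k] Polynomial Ω)

/-- The coefficient of `X ^ d` is the value of the component of degree `d`. -/
theorem mem_hid {Ω κ : Type} [Field Ω] [Algebra k Ω] {u : κ → Ω} {P : MvPolynomial κ k} :
    P ∈ hid k u ↔ ∀ d, aeval u (homogeneousComponent d P) = 0 := by
  have key : ∀ d, aeval (fun γ => Polynomial.C (u γ) * Polynomial.X) (homogeneousComponent d P) =
      Polynomial.monomial d (aeval u (homogeneousComponent d P)) := fun d => by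
    simp only [mul_comm (Polynomial.C _)]
    rw [aeval_mul_of_hom (homogeneousComponent_isHomogeneous d P), mul_comm,
      ← Polynomial.C_mul_X_pow_eq_monomial]
    congr 1
    exact (comp_aeval_apply u (IsScalarTower.toAlgHom k Ω (Polynomial Ω)) _).symm
  rw [hid, RingHom.mem_ker]
  conv_lhs => rw [← sum_homogeneousComponent P, map_sum]
  simp only [key]
  refine ⟨fun h d => ?_, fun h => by simp [h]⟩
  by_cases hd : d ∈ Finset.range (P.totalDegree + 1)
  · simpa [Polynomial.coeff_monomial, hd] using congrArg (Polynomial.coeff · d) h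
  · rw [homogeneousComponent_eq_zero _ _ (by simpa using hd), map_zero]

/-- `chevalley` in the field `RatFunc Ω`; restrict the place to `Ω` (`Plc.comp` with `Plc.ofHom`).
If `u γ₀` is maximal then `t = X * u γ₀` lies in the valuation ring. -/
theorem exists_plc_hid [IsAlgClosed k] {Ω κ : Type} [Field Ω] [Algebra k Ω] [Fintype κ] {u : κ → Ω}
    {v : κ → k} (hv : ∀ P ∈ hid k u, eval v P = 0) : ∃ σ : Plc k Ω k, ∀ μ : Ω, μ ≠ 0 →
      (∀ γ, u γ / μ ∈ σ.V) → (∃ γ, σ.π (u γ / μ) ≠ 0) → ∃ c, ∀ γ, v γ = c * σ.π (u γ / μ) := by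
  let j := IsScalarTower.toAlgHom k (Polynomial Ω) (FractionRing (Polynomial Ω))
  let f := j.comp (IsScalarTower.toAlgHom k Ω (Polynomial Ω))
  obtain ⟨τ, hτ⟩ := chevalley (j.comp (aeval fun γ => Polynomial.C (u γ) * Polynomial.X))
    (aeval v) fun P hP => hv P (IsFractionRing.injective _ (FractionRing (Polynomial Ω))
      (hP.trans (map_zero _).symm))
  refine ⟨τ.comp (Plc.ofHom f), fun μ μ0 h1 ⟨γ₀, h2⟩ => ?_⟩
  have e : ∀ γ, j.comp (aeval fun γ => Polynomial.C (u γ) * Polynomial.X) (X γ) =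
      j Polynomial.X * f μ * f (u γ / μ) := fun γ => by
    rw [mul_assoc, ← map_mul, mul_div_cancel₀ _ μ0, AlgHom.comp_apply, aeval_X, map_mul, mul_comm]
    rfl
  have h3 := (τ.map_div (hτ (X γ₀)).1 (h1 γ₀).2 h2).1
  rw [e] at h3
  replace h3 : j Polynomial.X * f μ ∈ τ.V := by
    rwa [← mul_div_cancel_right₀ (j Polynomial.X * f μ) (b := f (u γ₀ / μ))
      fun h => h2 (show τ.π (f _) = 0 by rw [h, τ.zero])]
  exact ⟨_, fun γ => by
    rw [← aeval_X (R := k) v γ, ← (hτ _).2, e]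
    exact τ.mul _ h3 _ (h1 γ).2⟩

namespace GA

variable {A : GA k ι} {N : ℕ}

theorem vmodel2_slot (hN : 0 < N) (a : A.Pt k) : ∃ γ : ι → Fin N → ι × ι,
    (∀ b : A.Pt k, ∃ r, ∀ x, mon N b (γ x) = r * nc b x) ∧ ∀ x, mon N a (γ x) = nc a x := by
  obtain ⟨n, rfl⟩ := Nat.exists_eq_succ_of_ne_zero hN.ne'
  refine ⟨fun x => Fin.cons (x, idx (-a)) fun _ => (idx a, idx (-a)),
    fun b => ⟨nc (-b) (idx (-a)) * sy b (idx a, idx (-a)) ^ n, fun x => ?_⟩, fun x => ?_⟩
  · simp only [mon, Fin.prod_univ_succ, Fin.cons_zero, Fin.cons_succ, Fin.prod_const]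
    rw [sy]
    ring
  · simp only [mon, Fin.prod_univ_succ, Fin.cons_zero, Fin.cons_succ, sy, nc_idx, mul_one,
      Finset.prod_const_one]

theorem vmodel2_one {Ω : Type} [Field Ω] [Algebra k Ω] (a : A.Pt Ω) :
    mon N a (fun _ => (idx a, idx (-a))) = 1 := by
  simp only [mon, sy_idx, Finset.prod_const_one]

theorem vmodel2_hom {P : MvPolynomial (ι ⊕ ι) k} {d : ℕ × ℕ}
    (hP : P.IsWeightedHomogeneous (bw ι ι) d) (v : ι → k) :
    (aeval (Sum.elim (fun a => C (v a)) X) P : MvPolynomial ι k).IsHomogeneous d.2 := by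
  rw [P.as_sum, map_sum]
  refine IsHomogeneous.sum _ _ _ fun m hm => ?_
  rw [aeval_monomial, ← hP (mem_support_iff.mp hm), Finsupp.weight_apply, Finsupp.sum,
    Prod.snd_sum, algebraMap_eq]
  refine IsHomogeneous.C_mul (IsHomogeneous.prod _ _ _ ?_) _
  rintro (a | a) -
  · simpa [bw] using (isHomogeneous_C ι (v a)).pow (m (.inl a))
  · simpa [bw] using (isHomogeneous_X k a).pow (m (.inr a))

/-- Change one slot of the constant index `(idx a, idx (-a))`. -/
theorem mon_inj (hN : 0 < N) {a b : A.Pt k} {c : k} (h : ∀ γ, mon N a γ = c * mon N b γ) :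
    a = b := by
  obtain ⟨γ, h1, h2⟩ := vmodel2_slot hN a
  obtain ⟨r, hr⟩ := h1 b
  exact (rep_nc a).inj ((rep_nc b).of_prop (c := c * r)
    (fun x => by rw [← h2, h, hr, mul_assoc]) ⟨idx a, nc_idx a ▸ one_ne_zero⟩)

variable (A) in
/-- The ideal is `hid k (mon N p)` for a pair from `exists_spz`; `mon_red`, `exists_plc_hid`. -/
theorem exists_pts [IsAlgClosed k] (hN : 0 < N) :
    ∃ J : Ideal (MvPolynomial (Fin N → ι × ι) k), Pts J (mon N : A.Pt k → _) := by
  obtain ⟨Ω, _, _, _, p, q, h⟩ := exists_spz A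
  refine ⟨hid k (mon N p), RingHom.ker_isPrime _, fun P hP d => mem_hid.2 fun e => ?_,
    fun a e => one_ne_zero ((vmodel2_one a).symm.trans (congrFun e _)), fun a P hP => ?_,
    fun v h0 hv => ?_⟩
  · rw [homogeneousComponent_of_mem (homogeneousComponent_mem d P)]
    split_ifs
    exacts [mem_hid.1 hP d, map_zero _]
  · obtain ⟨σ, rfl, -⟩ := h k a 0
    obtain ⟨μ, -, -, hμ⟩ := mon_red σ N p
    rw [← sum_homogeneousComponent P, map_sum]
    refine Finset.sum_eq_zero fun d _ => ?_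
    have h1 := (σ.aeval_mem (fun γ => (hμ γ).1) (homogeneousComponent d P)).2
    simp only [fun γ => (hμ γ).2] at h1
    simp only [div_eq_inv_mul] at h1
    rw [aeval_mul_of_hom (homogeneousComponent_isHomogeneous d P), mem_hid.1 hP d, mul_zero,
      σ.zero] at h1
    exact h1.symm
  · obtain ⟨σ, hσ⟩ := exists_plc_hid hv
    obtain ⟨μ, h1, -, hμ⟩ := mon_red σ N p
    obtain ⟨c, hc⟩ := hσ μ h1 (fun γ => (hμ γ).1)
      ⟨_, by rw [(hμ _).2, vmodel2_one]; exact one_ne_zero⟩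
    refine existsUnique_of_exists_of_unique
      ⟨red σ p, c, funext fun γ => by rw [hc, (hμ γ).2]; rfl⟩ ?_
    rintro a b ⟨s, rfl⟩ ⟨t, ht⟩
    have hs : s ≠ 0 := fun e => h0 (by rw [e, zero_smul])
    exact mon_inj hN (c := s⁻¹ * t) fun γ => by
      rw [mul_assoc, eq_inv_mul_iff_mul_eq₀ hs]
      exact congrFun ht γ

/-- Take `j` with `ps (Ψ j) (nc 0) (co p₀) ≠ 0` and the products of the
`X a * aeval (Sum.elim (C ∘ nc 0) X) (Ψ j b)`; `Rep.law`. -/
theorem mor_mon {G : Type} (e : G → A.Pt k) {co : G → ι → k} (h : ∀ p, Rep (e p) (co p)) :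
    Mor co fun p => mon N (e p) := by
  intro p₀
  obtain ⟨j, b₀, hb⟩ := (rep_nc (0 : A.Pt k)).cov (h p₀)
  obtain ⟨a₀, ha⟩ := (h p₀).ne
  let Q : ι → MvPolynomial ι k := fun b =>
    aeval (Sum.elim (fun a => C (nc (0 : A.Pt k) a)) X) (A.Ψ j b)
  have hQ : ∀ p b, eval (co p) (Q b) = ps (A.Ψ j) (nc (0 : A.Pt k)) (co p) b := fun p b => by
    rw [ps, ← coe_aeval_eq_eval, RingHom.coe_coe, ← AlgHom.comp_apply, comp_aeval]
    congr 2
    ext (a | a) <;> simp
  refine ⟨∑ _ : Fin N, (1 + (A.dg j).2), fun γ => ∏ i, X (γ i).1 * Q (γ i).2,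
    fun γ => IsHomogeneous.prod _ _ _ fun i _ =>
      (isHomogeneous_X k _).mul (vmodel2_hom (A.bih j _) _), ⟨fun _ => (a₀, b₀), ?_⟩, fun p => ?_⟩
  · rw [map_prod]
    exact Finset.prod_ne_zero_iff.2 fun i _ => by
      rw [map_mul, eval_X, hQ]
      exact mul_ne_zero ha hb
  · obtain ⟨c, hc⟩ := (rep_nc (0 : A.Pt k)).law (h p) j
    obtain ⟨c', -, hc'⟩ := (rep_nc (e p)).exists_smul (h p)
    refine ⟨∏ _ : Fin N, c' * c, fun γ => ?_⟩
    simp only [map_prod, mon, ← Finset.prod_mul_distrib]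
    refine Finset.prod_congr rfl fun i _ => ?_
    rw [map_mul, eval_X, hQ, hc, hc', zero_sub, sy]
    ring

theorem mor_co (hN : 0 < N) {G : Type} (e : G → A.Pt k) {co : G → ι → k}
    (h : ∀ p, Rep (e p) (co p)) : Mor (fun p => mon N (e p)) co := by
  intro p₀
  obtain ⟨γ, h1, h2⟩ := vmodel2_slot hN (e p₀)
  refine ⟨1, fun x => X (γ x), fun x => isHomogeneous_X k _,
    ⟨idx (e p₀), by simp only [eval_X, h2, nc_idx]; exact one_ne_zero⟩, fun p => ?_⟩
  obtain ⟨r, hr⟩ := h1 (e p)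
  obtain ⟨c, -, hc⟩ := (h p).exists_smul (rep_nc (e p))
  exact ⟨r * c, fun x => by simp only [eval_X, hr, hc, mul_assoc]⟩

end GA

/-- Every abelian variety has a model with forms of bidegree `(2, 2)`. -/
theorem model [IsAlgClosed k] [CharZero k] {J : Ideal (MvPolynomial ι k)} {G : Type}
    [AddCommGroup G] {co : G → ι → k} (h : Pts J co) (h' : SubMor co) : HasModel co := by
  obtain ⟨A, rfl, e, he⟩ := exists_ga h h'
  obtain ⟨N, Φ, hN, h1, h2⟩ := A.exists_sq
  obtain ⟨J', hJ⟩ := A.exists_pts hN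
  refine hasModel_of (J := J') (Φ := Φ) ⟨hJ.prime, hJ.hom, fun p => hJ.ne _, fun p => hJ.zero _,
    fun v v0 hv => ?_⟩ ⟨h1, fun p q => ?_⟩ (GA.mor_mon e he) (GA.mor_co hN e he)
  · exact (e.toEquiv.existsUnique_congr fun _ => Iff.rfl).2 (hJ.bij v v0 hv)
  · simpa only [map_add, map_sub] using h2 (e p) (e q)

end

end Pool.Agent.Lib.MP_651af7_nt.Cu
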