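import Pool.Agent.Lib.MP_651af7_nt.Cu.VLoc

/-! The local rings of the product are integrally closed. -/

namespace Pool.Agent.Lib.MP_651af7_nt.Cu

open MvPolynomial Av

set_option linter.unusedSectionVars false

noncomputable section

theorem vnorm1_den (R B : Type) [CommRing R] [IsDomain R] [CharZero R] [IsIntegrallyClosed R]
    [IsNoetherianRing R] [CommRing B] [IsDomain B] [Algebra R B] [Module.Finite R B]
    [FaithfulSMul R B] :
    ∃ h : B, h ≠ 0 ∧ ∀ x : FractionRing B, IsIntegral B x →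
      ∃ b : B, algebraMap B (FractionRing B) b = algebraMap B (FractionRing B) h * x := by
  let : Algebra (FractionRing R) (FractionRing B) := FractionRing.liftAlgebra R _
  have := FractionRing.isScalarTower_liftAlgebra R (FractionRing B)
  have : FiniteDimensional (FractionRing R) (FractionRing B) := inferInstance
  have : CharZero (FractionRing R) := IsFractionRing.charZero_of_isFractionRing R
  have hf : Module.Finite R (integralClosure R (FractionRing B)) :=
    IsIntegralClosure.finite R (FractionRing R) (FractionRing B) _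
  obtain ⟨n, f, hf⟩ := Module.Finite.exists_fin (R := R) (M := integralClosure R (FractionRing B))
  obtain ⟨h, hh⟩ := IsLocalization.exist_integer_multiples_of_finite (nonZeroDivisors B)
    (fun i => (f i : FractionRing B))
  refine ⟨h, nonZeroDivisors.coe_ne_zero h, fun x hx => ?_⟩
  have hx' : IsIntegral R x := isIntegral_trans x hx
  have key : ∀ y : integralClosure R (FractionRing B), y ∈ Submodule.span R (Set.range f) →
      ∃ b : B, algebraMap B (FractionRing B) b = algebraMap B (FractionRing B) h * y := by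
    intro y hy
    induction hy using Submodule.span_induction with
    | mem y hy =>
      obtain ⟨i, rfl⟩ := hy
      obtain ⟨b, hb⟩ := hh i
      exact ⟨b, by rw [hb, Algebra.smul_def]⟩
    | zero => exact ⟨0, by simp⟩
    | add y z _ _ hy hz =>
      obtain ⟨b, hb⟩ := hy
      obtain ⟨c, hc⟩ := hz
      exact ⟨b + c, by rw [map_add, hb, hc, Subalgebra.coe_add, mul_add]⟩
    | smul r y _ hy =>
      obtain ⟨b, hb⟩ := hy
      refine ⟨algebraMap R B r * b, ?_⟩
      rw [map_mul, hb, Subalgebra.coe_smul, Algebra.smul_def, ← IsScalarTower.algebraMap_apply]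
      ring
  exact key ⟨x, hx'⟩ (by rw [hf]; trivial)

theorem vnorm1_fg (k B : Type) [Field k] [CharZero k] [CommRing B] [IsDomain B] [Algebra k B]
    [Algebra.FiniteType k B] :
    ∃ h : B, h ≠ 0 ∧ ∀ x : FractionRing B, IsIntegral B x →
      ∃ b : B, algebraMap B (FractionRing B) b = algebraMap B (FractionRing B) h * x := by
  obtain ⟨n, g, hg, hfin⟩ := exists_finite_inj_algHom_of_fg k B
  let := g.toRingHom.toAlgebra
  have : Module.Finite (MvPolynomial (Fin n) k) B := hfin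
  have : FaithfulSMul (MvPolynomial (Fin n) k) B := (faithfulSMul_iff_algebraMap_injective _ _).2 hg
  exact vnorm1_den (MvPolynomial (Fin n) k) B

/-- Let `B` be the quotient, `L` its fraction field, `k[t] → B` finite and injective
(`exists_finite_inj_algHom_of_fg`). The integral closure of `k[t]` in `L` is finite
(`IsIntegralClosure.finite`); `h` is a common denominator of generators. Extend `θ` to `L`
(`IsFractionRing.liftAlgHom`) and pull the integrality back. -/
theorem exists_cond {k α : Type} [Field k] [CharZero k] [Finite α] (P : Ideal (MvPolynomial α k))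
    [P.IsPrime] : ∃ h ∉ P, ∀ (Ω : Type) [Field Ω] [Algebra k Ω] (θ : MvPolynomial α k →ₐ[k] Ω),
      RingHom.ker θ = P → ∀ s : Ω, (∃ u w, θ w ≠ 0 ∧ s * θ w = θ u) → IsIntegral θ.range s →
        θ h * s ∈ θ.range := by
  obtain ⟨h, h0, hh⟩ := vnorm1_fg k (MvPolynomial α k ⧸ P)
  obtain ⟨h, rfl⟩ := Ideal.Quotient.mk_surjective h
  refine ⟨h, fun hP => h0 (Ideal.Quotient.eq_zero_iff_mem.2 hP), ?_⟩
  rintro Ω _ _ θ hk s ⟨u, w, hw, hs⟩ hi
  let τ : (MvPolynomial α k ⧸ P) →+* Ω :=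
    Ideal.Quotient.lift P (θ : MvPolynomial α k →+* Ω) fun a ha => by
      rw [← hk] at ha; exact ha
  have hτ : ∀ a, τ (Ideal.Quotient.mk P a) = θ a := fun a => rfl
  have hinj : Function.Injective τ := by
    rw [injective_iff_map_eq_zero]
    intro a ha
    obtain ⟨a, rfl⟩ := Ideal.Quotient.mk_surjective a
    rw [Ideal.Quotient.eq_zero_iff_mem, ← hk]
    exact ha
  let φ : FractionRing (MvPolynomial α k ⧸ P) →+* Ω := IsFractionRing.lift hinj
  have hφ : ∀ b, φ (algebraMap _ _ b) = τ b := fun b => IsFractionRing.lift_algebraMap hinj b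
  have hx : φ (algebraMap _ _ (Ideal.Quotient.mk P u) / algebraMap _ _ (Ideal.Quotient.mk P w))
      = s := by
    rw [map_div₀, hφ, hφ, hτ, hτ, ← hs, mul_div_cancel_right₀ _ hw]
  let ρ : (MvPolynomial α k ⧸ P) →+* θ.range := τ.codRestrict θ.range fun a => by
    obtain ⟨a, rfl⟩ := Ideal.Quotient.mk_surjective a
    exact ⟨a, rfl⟩
  have hρ : Function.Surjective ρ := by
    rintro ⟨_, a, rfl⟩
    exact ⟨Ideal.Quotient.mk P a, rfl⟩
  obtain ⟨p, hp, hps⟩ := hi
  obtain ⟨q, hq, -, hqm⟩ := Polynomial.lifts_and_degree_eq_and_monic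
    ((Polynomial.mem_lifts p).2 (Polynomial.map_surjective ρ hρ p)) hp
  obtain ⟨b, hb⟩ := hh (algebraMap _ _ (Ideal.Quotient.mk P u) /
      algebraMap _ _ (Ideal.Quotient.mk P w)) ⟨q, hqm, by
    apply φ.injective
    rw [map_zero, Polynomial.hom_eval₂, hx, ← hps, ← hq, Polynomial.eval₂_map]
    congr 1
    exact RingHom.ext hφ⟩
  obtain ⟨b, rfl⟩ := Ideal.Quotient.mk_surjective b
  refine ⟨b, ?_⟩
  have := congrArg φ hb
  rw [map_mul, hφ, hφ, hx, hτ, hτ] at this
  exact this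

namespace GA

variable {k ι : Type} [Field k] [Fintype ι] {A : GA k ι} {Ω Ω' : Type} [Field Ω] [Algebra k Ω]
  [Field Ω'] [Algebra k Ω'] {p q : A.Pt Ω} {i : ι}

/-- Evaluation in an affine chart of the product. -/
def th (i : ι) (p q : A.Pt Ω) : MvPolynomial (ι ⊕ ι) k →ₐ[k] Ω :=
  aeval (Sum.elim (fun a => nc p a / nc p i) fun a => nc q a / nc q i)

theorem vnorm2_div (σ : Plc k Ω Ω') (hp : nc (red σ p) i ≠ 0) : nc p i ≠ 0 ∧
    σ.π (un σ p i) ≠ 0 ∧ ∀ a, nc p a / nc p i = un σ p a / un σ p i ∧ nc p a / nc p i ∈ σ.V ∧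
      σ.π (nc p a / nc p i) = nc (red σ p) a / nc (red σ p) i := by
  obtain ⟨h0, -, h1, h2⟩ := un_spec σ p
  have hi : σ.π (un σ p i) ≠ 0 := h2 i ▸ hp
  refine ⟨fun e => hi (by rw [un, e, zero_div, σ.zero]), hi, fun a => ?_⟩
  have e : nc p a / nc p i = un σ p a / un σ p i := (div_div_div_cancel_right₀ h0 _ _).symm
  rw [e, (σ.map_div (h1 a) (h1 i) hi).2, h2, h2]
  exact ⟨rfl, (σ.map_div (h1 a) (h1 i) hi).1, rfl⟩

theorem vnorm2_rep (hp : nc p i ≠ 0) : Rep p fun a => nc p a / nc p i :=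
  (rep_nc p).of_prop (fun _ => div_eq_inv_mul _ _) ⟨i, div_ne_zero hp hp⟩

/-- `un_spec`: `nc p a / nc p i = un σ p a / un σ p i`. -/
theorem th_red (σ : Plc k Ω Ω') (hp : nc (red σ p) i ≠ 0) (hq : nc (red σ q) i ≠ 0) :
    nc p i ≠ 0 ∧ nc q i ≠ 0 ∧ ∀ P, th i p q P ∈ σ.V ∧
      σ.π (th i p q P) = th i (red σ p) (red σ q) P := by
  obtain ⟨h1, -, h2⟩ := vnorm2_div σ hp
  obtain ⟨h3, -, h4⟩ := vnorm2_div σ hq
  refine ⟨h1, h3, fun P => ?_⟩
  have h5 := σ.aeval_mem (x := Sum.elim (fun a => nc p a / nc p i) fun a => nc q a / nc q i)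
    (by rintro (a | a); exacts [(h2 a).2.1, (h4 a).2.1]) P
  refine ⟨h5.1, h5.2.trans (congrArg (fun x => aeval x P) (funext ?_))⟩
  rintro (a | a)
  exacts [(h2 a).2.2, (h4 a).2.2]

theorem lr_eq_loc (σ : Plc k Ω Ω') (hp : nc (red σ p) i ≠ 0) (hq : nc (red σ q) i ≠ 0) :
    LR σ p q = σ.loc (th i p q).range := by
  obtain ⟨h1, h2, h3⟩ := th_red σ hp hq
  refine le_antisymm (lr_le_loc ?_ ⟨_, vnorm2_rep h1, fun a => ⟨X (.inl a), aeval_X _ _⟩, i, ?_⟩
    ⟨_, vnorm2_rep h2, fun a => ⟨X (.inr a), aeval_X _ _⟩, i, ?_⟩) ?_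
  · rintro _ ⟨P, rfl⟩
    exact (h3 P).1
  · rw [div_self h1, σ.one]
    exact one_ne_zero
  · rw [div_self h2, σ.one]
    exact one_ne_zero
  · have hS := (σ.le_loc _).trans (lr_le (σ := σ) (p := p) (q := q))
    refine σ.loc_le_loc hS ?_
    rw [th, ← Algebra.adjoin_range_eq_range_aeval]
    refine Algebra.adjoin_le ?_
    rintro _ ⟨a | a, rfl⟩
    · have h4 := fun a => σ.le_loc _ (Algebra.subset_adjoin (R := k)
        (s := Set.range (un σ p) ∪ Set.range (un σ q)) (.inl ⟨a, rfl⟩))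
      rw [Sum.elim_inl, ((vnorm2_div σ hp).2.2 a).1, div_eq_mul_inv]
      exact mul_mem (h4 a) (σ.inv_mem_loc hS (h4 i) (vnorm2_div σ hp).2.1)
    · have h4 := fun a => σ.le_loc _ (Algebra.subset_adjoin (R := k)
        (s := Set.range (un σ p) ∪ Set.range (un σ q)) (.inr ⟨a, rfl⟩))
      rw [Sum.elim_inr, ((vnorm2_div σ hq).2.2 a).1, div_eq_mul_inv]
      exact mul_mem (h4 a) (σ.inv_mem_loc hS (h4 i) (vnorm2_div σ hq).2.1)

theorem lam_frac (hp : nc p i ≠ 0) (hq : nc q i ≠ 0) {s : Ω} (hs : s ∈ Lam p q) :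
    ∃ u w, th i p q w ≠ 0 ∧ s * th i p q w = th i p q u := by
  have key : ∀ {r : A.Pt Ω} (T : IntermediateField k Ω), nc r i ≠ 0 →
      (∀ a, nc r a / nc r i ∈ T) → ∀ a, nc r a ∈ T := fun {r} T hr h a => by
    have h1 := div_mem (h a) (h (idx r))
    rwa [div_div_div_cancel_right₀ hr, nc_idx, div_one] at h1
  have h1 : IntermediateField.adjoin k (Set.range (nc p) ∪ Set.range (nc q)) ≤
      IntermediateField.adjoin k (Set.range
        (Sum.elim (fun a => nc p a / nc p i) fun a => nc q a / nc q i)) := by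
    rw [IntermediateField.adjoin_le_iff]
    rintro _ (⟨a, rfl⟩ | ⟨a, rfl⟩)
    · exact key _ hp (fun a => IntermediateField.subset_adjoin _ _ (by exact ⟨.inl a, rfl⟩)) a
    · exact key _ hq (fun a => IntermediateField.subset_adjoin _ _ (by exact ⟨.inr a, rfl⟩)) a
  obtain ⟨u, w, e⟩ := (IntermediateField.mem_adjoin_range_iff _ _ _).1 (h1 hs)
  change s = th i p q u / th i p q w at e
  by_cases h0 : th i p q w = 0
  · exact ⟨0, 1, by rw [map_one]; exact one_ne_zero, by rw [e, h0, div_zero, zero_mul, map_zero]⟩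
  · exact ⟨u, w, h0, by rw [e, div_mul_cancel₀ _ h0]⟩

/-- Specialise to the origin, `th_red`. -/
theorem Spz.ne [IsAlgClosed k] (h : Spz p q) :
    nc p (idx (0 : A.Pt k)) ≠ 0 ∧ nc q (idx (0 : A.Pt k)) ≠ 0 := by
  obtain ⟨σ, h1, h2⟩ := h k 0 0
  have h3 : nc (0 : A.Pt k) (idx (0 : A.Pt k)) ≠ 0 := nc_idx (0 : A.Pt k) ▸ one_ne_zero
  have h4 := th_red σ (p := p) (q := q) (by rwa [h1]) (by rwa [h2])
  exact ⟨h4.1, h4.2.1⟩

theorem Spz.ker [IsAlgClosed k] [IsAlgClosed Ω] {p' q' : A.Pt Ω} (h : Spz p q) (h' : Spz p' q') :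
    RingHom.ker (th (idx (0 : A.Pt k)) p q) = RingHom.ker (th (idx (0 : A.Pt k)) p' q') := by
  have key : ∀ {p q p' q' : A.Pt Ω}, Spz p q → Spz p' q' →
      RingHom.ker (th (idx (0 : A.Pt k)) p q) ≤ RingHom.ker (th (idx (0 : A.Pt k)) p' q') := by
    intro p q p' q' h h' P hP
    obtain ⟨σ, rfl, rfl⟩ := h Ω p' q'
    rw [RingHom.mem_ker] at hP ⊢
    rw [← ((th_red σ h'.ne.1 h'.ne.2).2.2 P).2, hP, σ.zero]
  exact le_antisymm (key h h') (key h' h)

/-- `exists_point` for the range of `th`, `chevalley`. -/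
theorem exists_good_pt [IsAlgClosed k] (hp : nc p i ≠ 0) (hq : nc q i ≠ 0)
    {P : MvPolynomial (ι ⊕ ι) k} (hP : th i p q P ≠ 0) :
    ∃ c d : A.Pt k, nc c i ≠ 0 ∧ nc d i ≠ 0 ∧ th i c d P ≠ 0 := by
  have : Algebra.FiniteType k (th i p q).range :=
    .of_surjective (th i p q).rangeRestrict (th i p q).rangeRestrict_surjective
  obtain ⟨φ, hφ⟩ := exists_point (K := k) (b := (th i p q).rangeRestrict P)
    fun e => hP (congrArg Subtype.val e)
  obtain ⟨σ, hσ⟩ := chevalley (th i p q) (φ.comp (th i p q).rangeRestrict) fun r hr => by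
    rw [AlgHom.comp_apply, show (th i p q).rangeRestrict r = 0 from Subtype.ext hr, map_zero]
  have key : ∀ {r : A.Pt Ω}, nc r i ≠ 0 → (∀ a, nc r a / nc r i ∈ σ.V) → nc (red σ r) i ≠ 0 :=
    fun {r} hr h => by
      have h1 : σ.π (nc r i / nc r i) ≠ 0 := by
        rw [div_self hr, σ.one]
        exact one_ne_zero
      have h2 := (vnorm2_rep hr).red σ h ⟨i, h1⟩
      rw [h2.nc_eq]
      exact div_ne_zero h1 h2.idx_ne
  have h1 := key hp fun a => by simpa [th] using (hσ (X (.inl a))).1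
  have h2 := key hq fun a => by simpa [th] using (hσ (X (.inr a))).1
  refine ⟨_, _, h1, h2, ?_⟩
  rw [← ((th_red σ h1 h2).2.2 P).2, (hσ P).2]
  exact hφ

/-- Take `h` from `exists_cond` for the kernel of `th`, `(c, d)` from `exists_good_pt`; translate by
`red σ p - c` and `red σ q - d` (`lr_sub`, `lam_sub`, `Spz.sub`, `Spz.ker`, `red_base`, `up_self`),
`lr_eq_loc`, `Plc.loc_integral`. -/
theorem normal [IsAlgClosed k] [CharZero k] [IsAlgClosed Ω] (h : Spz p q) (σ : Plc k Ω k) {s : Ω}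
    (hs : s ∈ Lam p q) (hi : IsIntegral (LR σ p q) s) : s ∈ LR σ p q := by
  have : (RingHom.ker (th (idx (0 : A.Pt k)) p q)).IsPrime := RingHom.ker_isPrime _
  obtain ⟨g, hg, H⟩ := exists_cond (RingHom.ker (th (idx (0 : A.Pt k)) p q))
  obtain ⟨c, d, hc, hd, hcd⟩ := exists_good_pt h.ne.1 h.ne.2 hg
  have h' := h.sub (red σ p - c) (red σ q - d)
  rw [← lam_sub (red σ p - c) (red σ q - d)] at hs
  rw [← lr_sub (red σ p - c) (red σ q - d)] at hi ⊢
  have e1 : red σ (p - up Ω (red σ p - c)) = c := by rw [map_sub, red_base, up_self, sub_sub_cancel]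
  have e2 : red σ (q - up Ω (red σ q - d)) = d := by rw [map_sub, red_base, up_self, sub_sub_cancel]
  have hk := h'.ker h
  generalize p - up Ω (red σ p - c) = p' at *
  generalize q - up Ω (red σ q - d) = q' at *
  subst e1 e2
  obtain ⟨h1, h2, h3⟩ := th_red σ hc hd
  rw [lr_eq_loc σ hc hd] at hi ⊢
  obtain ⟨_, ⟨t, rfl⟩, ht, hi⟩ := σ.loc_integral (by rintro _ ⟨P, rfl⟩; exact (h3 P).1) hi
  obtain ⟨u, w, hw, e⟩ := lam_frac h1 h2 hs
  refine ⟨_, H Ω _ hk _ ⟨t * u, w, hw, by rw [map_mul, ← e, mul_assoc]; rfl⟩ hi, _, ⟨g * t, rfl⟩,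
    (h3 _).1, ?_, ?_⟩
  · change σ.π (th _ p' q' (g * t)) ≠ 0
    rw [map_mul, σ.mul _ (h3 g).1 _ (h3 t).1, (h3 g).2]
    exact mul_ne_zero hcd ht
  · change s * th _ p' q' (g * t) = th _ p' q' g * (th _ p' q' t * s)
    rw [map_mul, mul_comm, mul_assoc]

end GA

end

end Pool.Agent.Lib.MP_651af7_nt.Cu
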