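import Pool.Agent.Lib.MP_651af7_nt.Av.Defs

/-! Sections of high degree are forms. -/

namespace Pool.Agent.Lib.MP_651af7_nt.Cu

open MvPolynomial Av

variable {k Ω α β : Type} [Field k] [Field Ω] [Algebra k Ω] [Fintype α] [Fintype β]

theorem vser1_pow {σ : Type} (w : σ → Ω) (M : ℕ) : Submodule.span k (Set.range w) ^ M ≤
    Submodule.span k (Set.range fun γ : Fin M → σ => ∏ i, w (γ i)) := by
  rw [Submodule.span_pow]
  refine Submodule.span_mono fun g hg => ?_
  obtain ⟨f, rfl⟩ := Set.mem_pow.1 hg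
  choose γ hγ using fun i => (f i).2
  exact ⟨γ, by simp only [hγ, List.prod_ofFn]⟩

theorem vser1_prod {σ : Type} {T : Submodule k Ω} {f : σ → Ω} (h : ∀ i, f i ∈ T) (S : Finset σ) :
    ∏ i ∈ S, f i ∈ T ^ S.card := by
  induction S using Finset.cons_induction with
  | empty => exact Submodule.one_le.1 (pow_zero T).ge
  | cons a S ha ih =>
    rw [Finset.prod_cons, Finset.card_cons, pow_succ, mul_comm (f a)]
    exact Submodule.mul_mem_mul ih (h a)

theorem vser1_alg {σ : Type} {T : Submodule k Ω} {w : σ → Ω} (h : ∀ i, w i ∈ T) {ζ : Ω}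
    (h0 : ζ ≠ 0) (h1 : ζ ∈ T) {x : Ω} (hx : x ∈ Algebra.adjoin k (Set.range fun c => w c / ζ)) :
    ∃ d, ζ ^ d * x ∈ T ^ d := by
  induction hx using Algebra.adjoin_induction with
  | mem x hx =>
    obtain ⟨c, rfl⟩ := hx
    exact ⟨1, by rw [pow_one, pow_one, mul_div_cancel₀ _ h0]; exact h c⟩
  | algebraMap r => exact ⟨0, by rw [pow_zero, pow_zero, one_mul]; exact Submodule.algebraMap_mem r⟩
  | add x y _ _ hx hy =>
    obtain ⟨d, hd⟩ := hx
    obtain ⟨e, he⟩ := hy
    refine ⟨d + e, ?_⟩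
    rw [pow_add, pow_add, mul_add, mul_right_comm, mul_assoc _ _ y]
    exact add_mem (Submodule.mul_mem_mul hd (Submodule.pow_mem_pow T h1 e))
      (Submodule.mul_mem_mul (Submodule.pow_mem_pow T h1 d) he)
  | mul x y _ _ hx hy =>
    obtain ⟨d, hd⟩ := hx
    obtain ⟨e, he⟩ := hy
    refine ⟨d + e, ?_⟩
    rw [pow_add, pow_add, mul_mul_mul_comm]
    exact Submodule.mul_mem_mul hd he

/-- For `x` in the algebra, `w c ^ d * x` is a form of degree `d` for large `d`. A monomial of
degree at least `card α * d` is divisible by some `w c ^ d`. -/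
theorem ser (w : α → Ω) {s : Ω} {N : ℕ}
    (h : ∀ c, w c ≠ 0 → s / w c ^ N ∈ Algebra.adjoin k (Set.range fun c' => w c' / w c)) :
    ∃ M₀, ∀ M, M₀ ≤ M → ∀ g ∈ Submodule.span k (Set.range w) ^ M,
      s * g ∈ Submodule.span k (Set.range w) ^ (M + N) := by
  classical
  have hw : ∀ c, w c ∈ Submodule.span k (Set.range w) := fun c => Submodule.subset_span ⟨c, rfl⟩
  have h1 : ∀ c, ∃ d, s * w c ^ d ∈ Submodule.span k (Set.range w) ^ (d + N) := fun c => by
    by_cases h0 : w c = 0
    · exact ⟨1, by rw [h0, pow_one, mul_zero]; exact zero_mem _⟩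
    · obtain ⟨d, hd⟩ := vser1_alg hw h0 (hw c) (h c h0)
      have := Submodule.mul_mem_mul hd (Submodule.pow_mem_pow _ (hw c) N)
      rw [mul_assoc, div_mul_cancel₀ _ (pow_ne_zero N h0), ← pow_add, mul_comm] at this
      exact ⟨d, this⟩
  choose d hd using h1
  refine ⟨Fintype.card α * Finset.univ.sup d + 1, fun M hM g hg => ?_⟩
  refine (Submodule.span_le (p := Submodule.comap (LinearMap.mulLeft k s) _)).2 ?_
    (vser1_pow w M hg)
  rintro _ ⟨γ, rfl⟩
  obtain ⟨c, hc⟩ := Fintype.exists_lt_card_fiber_of_mul_lt_card γ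
    (n := Finset.univ.sup d) (by rw [Fintype.card_fin]; omega)
  obtain ⟨S, hS, e⟩ := Finset.exists_subset_card_eq
    ((Finset.le_sup (f := d) (Finset.mem_univ c)).trans hc.le)
  have h2 := Submodule.mul_mem_mul (hd c) (vser1_prod (fun i => hw (γ i)) Sᶜ)
  have h3 : ∏ i ∈ S, w (γ i) = w c ^ d c := by
    rw [← e, ← Finset.prod_const]
    exact Finset.prod_congr rfl fun i hi => by rw [(Finset.mem_filter.1 (hS hi)).2]
  have h4 := S.card_add_card_compl
  rw [Fintype.card_fin, e] at h4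
  rwa [mul_assoc, ← h3, Finset.prod_mul_prod_compl, ← pow_add, add_right_comm, h4] at h2

theorem vser2_prod {ι : Type} {A V : Submodule k Ω} (hA : A ≤ V) {v : Ω} (hv : v ∈ V)
    {x y : ι → Ω} (hx : ∀ i, x i ∈ V) (hy : ∀ i, y i ∈ A) (t : Finset ι) :
    v * (∏ i ∈ t, (x i - y i) - ∏ i ∈ t, x i) ∈ A * V ^ t.card := by
  classical
  induction t using Finset.induction_on with
  | empty => simp
  | insert a t ha ih =>
    have h1 : ∏ i ∈ t, (x i - y i) ∈ V ^ t.card := by
      clear ih ha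
      induction t using Finset.induction_on with
      | empty => simp
      | insert b t hb ih =>
        rw [Finset.prod_insert hb, Finset.card_insert_of_notMem hb, pow_succ']
        exact Submodule.mul_mem_mul (V.sub_mem (hx b) (hA (hy b))) ih
    have h2 := Submodule.mul_mem_mul ih (hx a)
    have h3 := Submodule.mul_mem_mul (hy a) (Submodule.mul_mem_mul h1 hv)
    rw [mul_assoc A] at h2
    rw [Finset.prod_insert ha, Finset.prod_insert ha, Finset.card_insert_of_notMem ha, pow_succ]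
    refine (congrArg (· ∈ _) ?_).mp (Submodule.sub_mem _ h2 h3)
    ring

theorem vser2_det {A V : Submodule k Ω} (hA : A ≤ V) {n : ℕ} {g : Fin n → Ω} (hg : g ≠ 0) {v : Ω}
    (hv : v ∈ V) (h : ∀ i, v * g i ∈ A * Submodule.span k (Set.range g)) :
    v ^ (n + 1) ∈ A * V ^ n := by
  have h0 : ∀ x ∈ A * Submodule.span k (Set.range g), ∃ a : Fin n → Ω, (∀ j, a j ∈ A) ∧
      ∑ j, a j * g j = x := fun x hx => by
    refine Submodule.mul_induction_on hx (fun m hm y hy => ?_) ?_
    · obtain ⟨c, rfl⟩ := (Submodule.mem_span_range_iff_exists_fun k).1 hy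
      exact ⟨fun j => c j • m, fun j => A.smul_mem _ hm, by simp [Finset.mul_sum]⟩
    · rintro _ _ ⟨a, ha, rfl⟩ ⟨b, hb, rfl⟩
      exact ⟨a + b, fun j => A.add_mem (ha j) (hb j), by simp [add_mul, Finset.sum_add_distrib]⟩
  choose a ha hs using fun i => h0 _ (h i)
  have h1 : (Matrix.diagonal (fun _ => v) - Matrix.of a).det = 0 := by
    refine Matrix.exists_mulVec_eq_zero_iff.1 ⟨g, hg, funext fun i => ?_⟩
    rw [Matrix.sub_mulVec, Pi.sub_apply, Matrix.mulVec_diagonal, ← hs i]
    exact sub_self _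
  have h2 : v * ((Matrix.diagonal (fun _ => v) - Matrix.of a).det -
      (Matrix.diagonal fun _ : Fin n => v).det) ∈ A * V ^ n := by
    rw [Matrix.det_apply', Matrix.det_apply', ← Finset.sum_sub_distrib, Finset.mul_sum]
    refine Submodule.sum_mem _ fun σ _ => ?_
    have h3 := vser2_prod hA hv (x := fun i => Matrix.diagonal (fun _ => v) (σ i) i)
      (y := fun i => a (σ i) i) (fun i => by
        rw [Matrix.diagonal_apply]
        split_ifs
        exacts [hv, V.zero_mem]) (fun i => ha _ _) Finset.univ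
    rw [Finset.card_univ, Fintype.card_fin] at h3
    rw [← mul_sub, mul_left_comm, ← zsmul_eq_mul]
    exact zsmul_mem h3 _
  rw [h1, Matrix.det_diagonal, Finset.prod_const, Finset.card_univ, Fintype.card_fin, zero_sub,
    mul_neg, neg_mem_iff, ← pow_succ'] at h2
  exact h2

theorem vser2_step {A V P Q : Submodule k Ω} (hP : P ≤ V) (hQ : Q ≤ V) {a : ℕ}
    (h : P ^ (a + 1) ≤ A * V ^ a) (i j : ℕ) : P ^ (a + 1 + i) * Q ^ j ≤ A * V ^ (a + i + j) := by
  rw [pow_add P, pow_add V, pow_add V, ← mul_assoc, ← mul_assoc]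
  exact mul_le_mul' (mul_le_mul' h (pow_le_pow_left' hP i)) (pow_le_pow_left' hQ j)

theorem vser2_sup {A V P Q : Submodule k Ω} (hP : P ≤ V) (hQ : Q ≤ V) {a b : ℕ}
    (h1 : P ^ (a + 1) ≤ A * V ^ a) (h2 : Q ^ (b + 1) ≤ A * V ^ b) :
    (P ⊔ Q) ^ (a + b + 1) ≤ A * V ^ (a + b) := by
  have hc : ∀ n : ℕ, (n : Submodule k Ω) ≤ 1 := fun n => by
    induction n with
    | zero => rw [Nat.cast_zero]; exact bot_le
    | succ n ih => rw [Nat.cast_succ]; exact sup_le ih le_rfl
  rw [← Submodule.add_eq_sup, add_pow]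
  refine Finset.sum_induction _ (· ≤ A * V ^ (a + b)) (fun x y hx hy => sup_le hx hy) bot_le
    fun i hi => (mul_le_of_le_one_right' (hc _)).trans ?_
  have hi' := Finset.mem_range.1 hi
  by_cases h : a + 1 ≤ i
  · have h3 := vser2_step hP hQ h1 (i - (a + 1)) (a + b + 1 - i)
    rwa [show a + 1 + (i - (a + 1)) = i by omega,
      show a + (i - (a + 1)) + (a + b + 1 - i) = a + b by omega] at h3
  · have h3 := vser2_step hQ hP h2 (a - i) i
    rwa [show b + 1 + (a - i) = a + b + 1 - i by omega, show b + (a - i) + i = a + b by omega,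
      mul_comm (Q ^ _)] at h3

/-- Let `T`, `W` be the spans of `w`, `s` and `ζ = w c ≠ 0`. Then `W ^ j * T ^ d ≤ T ^ (d + j * N)`
for `d ≥ d₀`. In `Ω[X]` let `B` be the finitely generated algebra generated by `T ^ N * X`. The
`B`-modules `M r` generated by the `W ^ j * X ^ j`, `j ≤ r`, lie in the finite module generated by
`ζ ^ (-d₀) * T ^ d₀`, so the chain is stationary from `r₀` on. The coefficient of `X ^ r` gives
`W ^ r ≤ ∑ (j ≤ r₀) T ^ ((r - j) * N) * W ^ j ≤ T ^ (r * N)` for `r ≥ r₀ + d₀`. -/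
theorem prd (w : α → Ω) (hw : ∃ c, w c ≠ 0) (s : β → Ω) {N : ℕ} (hN : 0 < N)
    (h : ∀ l, ∃ M₀, ∀ M, M₀ ≤ M → ∀ g ∈ Submodule.span k (Set.range w) ^ M,
      s l * g ∈ Submodule.span k (Set.range w) ^ (M + N)) :
    ∃ m, 0 < m ∧ Submodule.span k (Set.range s) ^ m ≤ Submodule.span k (Set.range w) ^ (m * N) := by
  classical
  choose M hM using h
  obtain ⟨c, hc⟩ := hw
  have hcT : w c ∈ Submodule.span k (Set.range w) := Submodule.subset_span ⟨c, rfl⟩
  have hfg : (Submodule.span k (Set.range w)).FG := Submodule.fg_span (Set.finite_range w)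
  generalize Submodule.span k (Set.range w) = T at *
  obtain ⟨V, hV⟩ : ∃ V, V = T ^ N ⊔ Submodule.span k (Set.range s) := ⟨_, rfl⟩
  have hA : T ^ N ≤ V := hV ▸ le_sup_left
  have hW : Submodule.span k (Set.range s) ≤ V := hV ▸ le_sup_right
  have h1 : ∀ d, Finset.univ.sup M ≤ d → V * T ^ d ≤ T ^ (d + N) := fun d hd => by
    rw [hV, Submodule.sup_mul, ← pow_add, add_comm N]
    refine sup_le le_rfl (Submodule.mul_le.2 fun x hx g hg => ?_)
    obtain ⟨e, rfl⟩ := (Submodule.mem_span_range_iff_exists_fun k).1 hx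
    rw [Finset.sum_mul]
    refine Submodule.sum_mem _ fun l _ => ?_
    rw [smul_mul_assoc]
    exact Submodule.smul_mem _ _ (hM l d ((Finset.le_sup (Finset.mem_univ l)).trans hd) g hg)
  have h2 : ∀ d, Finset.univ.sup M ≤ d → ∀ j, T ^ d * V ^ j ≤ T ^ (d + j * N) := fun d hd j => by
    induction j with
    | zero => simp
    | succ j ih =>
      rw [pow_succ, ← mul_assoc, mul_comm _ V, add_mul, one_mul, ← add_assoc]
      exact (mul_le_mul' le_rfl ih).trans (h1 _ (by omega))
  obtain ⟨n, g, hg⟩ := Submodule.fg_iff_exists_fin_generating_family.1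
    (hfg.pow (Finset.univ.sup M))
  have hg0 : g ≠ 0 := fun e => pow_ne_zero (Finset.univ.sup M) hc (by
    have h3 := Submodule.pow_mem_pow T hcT (Finset.univ.sup M)
    rw [← hg, e] at h3
    refine (Submodule.span_eq_bot.2 ?_).le h3
    rintro _ ⟨i, rfl⟩
    rfl)
  have h3 : ∀ v ∈ V, v ^ (n + 1) ∈ T ^ N * V ^ n := fun v hv => vser2_det hA hg0 hv fun i => by
    rw [hg, ← pow_add, add_comm N]
    exact h1 _ le_rfl (Submodule.mul_mem_mul hv (hg ▸ Submodule.subset_span ⟨i, rfl⟩))
  have h4 : ∀ t : Finset β, ∃ a, Submodule.span k (s '' t) ^ (a + 1) ≤ T ^ N * V ^ a := fun t => by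
    induction t using Finset.induction_on with
    | empty => exact ⟨0, by simp⟩
    | insert l t _ ih =>
      obtain ⟨a, ha⟩ := ih
      have hl : s l ∈ V := hW (Submodule.subset_span ⟨l, rfl⟩)
      refine ⟨n + a, ?_⟩
      rw [Finset.coe_insert, Set.image_insert_eq, Submodule.span_insert]
      refine vser2_sup ((Submodule.span_singleton_le_iff_mem _ _).2 hl)
        ((Submodule.span_mono (Set.image_subset_range _ _)).trans hW) ?_ ha
      rw [Submodule.span_pow, Set.singleton_pow]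
      exact (Submodule.span_singleton_le_iff_mem _ _).2 (h3 _ hl)
  obtain ⟨a, ha⟩ := h4 Finset.univ
  rw [Finset.coe_univ, Set.image_univ] at ha
  have h5 := vser2_sup hA hW (a := 0) (by simp) ha
  rw [← hV, zero_add] at h5
  have h6 : ∀ r, V ^ (a + r) ≤ T ^ (r * N) * V ^ a := fun r => by
    induction r with
    | zero => simp
    | succ r ih =>
      rw [show a + (r + 1) = a + 1 + r by omega, pow_add V, add_mul, one_mul, add_comm (r * N),
        pow_add T, mul_assoc]
      refine (mul_le_mul' h5 le_rfl).trans ?_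
      rw [mul_assoc, ← pow_add]
      exact mul_le_mul' le_rfl ih
  refine ⟨a + (Finset.univ.sup M + 1), by omega, (pow_le_pow_left' hW _).trans ((h6 _).trans ?_)⟩
  rw [add_mul a, add_comm (a * N)]
  exact h2 _ ((Nat.le_succ _).trans (Nat.le_mul_of_pos_right _ hN)) a

/-- The values of the forms of bidegree `(2, 2)` form a subspace that contains the products of
`2 * N = N + N` of the `t c * u d`. -/
theorem bih_of_mem (t u : α → Ω) (N : ℕ) {g : Ω}
    (hg : g ∈ Submodule.span k (Set.range fun c : α × α => t c.1 * u c.2) ^ (2 * N)) :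
    ∃ Φ : MvPolynomial ((Fin N → α) ⊕ (Fin N → α)) k,
      Φ.IsWeightedHomogeneous (bw _ _) (2, 2) ∧
      aeval (Sum.elim (fun γ => ∏ i, t (γ i)) fun γ => ∏ i, u (γ i)) Φ = g := by
  let φ : MvPolynomial ((Fin N → α) ⊕ (Fin N → α)) k →ₐ[k] Ω :=
    aeval (Sum.elim (fun γ => ∏ i, t (γ i)) fun γ => ∏ i, u (γ i))
  have h1 : Submodule.span k (Set.range fun c : α × α => t c.1 * u c.2) ^ N ≤
      (weightedHomogeneousSubmodule k (bw _ _) (1, 1)).map φ.toLinearMap := by
    refine (vser1_pow _ N).trans (Submodule.span_le.2 ?_)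
    rintro _ ⟨γ, rfl⟩
    refine ⟨X (Sum.inl fun i => (γ i).1) * X (Sum.inr fun i => (γ i).2),
      (isWeightedHomogeneous_X k _ _).mul (isWeightedHomogeneous_X k _ _), ?_⟩
    simp [φ, Finset.prod_mul_distrib]
  rw [two_mul, pow_add] at hg
  have h2 := mul_le_mul' h1 h1 hg
  rw [← Submodule.map_mul] at h2
  exact Submodule.map_mono (weightedHomogeneousSubmodule_mul _ _ _) h2

end Pool.Agent.Lib.MP_651af7_nt.Cu
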