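import Pool.Agent.Lib.MP_651af7_nt.Cu.VNorm
import Pool.Agent.Lib.MP_651af7_nt.Cu.VSer
import Pool.Agent.Lib.MP_651af7_nt.Cu.Cube

/-! The forms of bidegree `(2, 2)`. -/

namespace Pool.Agent.Lib.MP_651af7_nt.Cu

open MvPolynomial Av

set_option linter.unusedSectionVars false

noncomputable section

namespace GA

variable {k ι : Type} [Field k] [Fintype ι] {A : GA k ι} {Ω Ω' : Type} [Field Ω] [Algebra k Ω]
  [Field Ω'] [Algebra k Ω'] {p q : A.Pt Ω}

/-- The symmetric coordinates. -/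
def sy (p : A.Pt Ω) (c : ι × ι) : Ω := nc p c.1 * nc (-p) c.2

/-- The monomials in the symmetric coordinates. -/
def mon (N : ℕ) (p : A.Pt Ω) (γ : Fin N → ι × ι) : Ω := ∏ i, sy p (γ i)

/-- The coordinates of the product. -/
def ww (p q : A.Pt Ω) (c : (ι × ι) × ι × ι) : Ω := sy p c.1 * sy q c.2

theorem sy_idx (p : A.Pt Ω) : sy p (idx p, idx (-p)) = 1 := by
  rw [sy, nc_idx, nc_idx, one_mul]

theorem sy_mem {Λ : Subfield Ω} (hk : ∀ c : k, algebraMap k Ω c ∈ Λ) (hp : ∀ a, nc p a ∈ Λ)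
    (c : ι × ι) : sy p c ∈ Λ := by
  exact mul_mem (hp _) (nc_neg_mem hk hp _)

/-- `μ = (nc p (idx (red σ p)) * nc (-p) (idx (red σ (-p)))) ^ N`, `un_spec`. -/
theorem mon_red (σ : Plc k Ω Ω') (N : ℕ) (p : A.Pt Ω) : ∃ μ : Ω, μ ≠ 0 ∧
    nv σ.V (mon N p) = σ.V.valuation μ ∧
    ∀ γ, mon N p γ / μ ∈ σ.V ∧ σ.π (mon N p γ / μ) = mon N (red σ p) γ := by
  obtain ⟨h1, -, h2, h3⟩ := un_spec σ p
  obtain ⟨h4, -, h5, h6⟩ := un_spec σ (-p)
  have e : ∀ γ, mon N p γ / (nc p (idx (red σ p)) * nc (-p) (idx (red σ (-p)))) ^ N =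
      ∏ i, un σ p (γ i).1 * un σ (-p) (γ i).2 := fun γ => by
    simp only [mon, sy, un, div_mul_div_comm, Finset.prod_div_distrib, Finset.prod_const,
      Finset.card_univ, Fintype.card_fin]
  have h0 := pow_ne_zero N (mul_ne_zero h1 h4)
  have key : ∀ γ, mon N p γ / (nc p (idx (red σ p)) * nc (-p) (idx (red σ (-p)))) ^ N ∈ σ.V ∧
      σ.π (mon N p γ / (nc p (idx (red σ p)) * nc (-p) (idx (red σ (-p)))) ^ N) =
        mon N (red σ p) γ := fun γ => by
    rw [e, σ.map_prod _ fun i _ => mul_mem (h2 _) (h5 _)]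
    refine ⟨prod_mem fun i _ => mul_mem (h2 _) (h5 _), Finset.prod_congr rfl fun i _ => ?_⟩
    rw [σ.mul _ (h2 _) _ (h5 _), h3, h6, map_neg, sy]
  refine ⟨_, h0, ?_, key⟩
  have h7 := nv_eq_one (V := σ.V) (fun γ => (key γ).1) ⟨fun _ => (idx (red σ p), idx (-red σ p)),
    (σ.val_eq_one (key _).1).2 (by rw [(key _).2]; simp [mon, sy_idx])⟩
  have h8 := nv_smul (V := σ.V)
    (u := fun γ => mon N p γ / (nc p (idx (red σ p)) * nc (-p) (idx (red σ (-p)))) ^ N)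
    ((nc p (idx (red σ p)) * nc (-p) (idx (red σ (-p)))) ^ N)
  rw [h7, mul_one] at h8
  rw [← h8]
  exact congrArg _ (funext fun γ => (mul_div_cancel₀ _ h0).symm)

variable [IsAlgClosed k] [CharZero k] [IsAlgClosed Ω]

/-- `cube` for `(p, q, -q)` and `(-p, -q, q)`, `Pr.descend`; the norm of `nc 0` is one
(`nc_zero_mem`, `val_eq_one_of_cont`). -/
theorem exists_f (p q : A.Pt Ω) : ∃ n : ℕ, 0 < n ∧ ∃ f ∈ Lam p q, f ≠ 0 ∧
    ∀ V : ValuationSubring Ω, Cont k V → V.valuation f * nv V (ww p q) ^ (2 * n) =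
      (nv V (sy (p + q)) * nv V (sy (p - q))) ^ n := by
  have hk := base_mem_lam (p := p) (q := q)
  have hp := fun a => (nc_mem_lam (p := p) (q := q) a).1
  have hq := fun a => (nc_mem_lam (p := p) (q := q) a).2
  obtain ⟨n, hn, f, hf, h0, h⟩ := Pr.descend hk
    ((rat_cub hk hp hq (nc_neg_mem hk hq)).add
      (rat_cub hk (nc_neg_mem hk hp) (nc_neg_mem hk hq) hq)).neg
    ((cube p q (-q)).add (cube (-p) (-q) q)).neg
  refine ⟨n, hn, f, hf, h0, fun V hV => ?_⟩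
  have h1 : nv V (nc (0 : A.Pt Ω)) = 1 := nv_eq_one (fun a => by
    obtain ⟨c, hc⟩ := nc_zero_mem (A := A) (Λ := (algebraMap k Ω).fieldRange)
      (fun c => ⟨c, rfl⟩) a
    exact hc ▸ hV c) ⟨_, by rw [nc_idx, map_one]⟩
  have h2 : ∀ x : A.Pt Ω, nv V (sy x) = nv V (nc x) * nv V (nc (-x)) := fun x => nv_mul _
  have h3 : nv V (ww p q) = nv V (sy p) * nv V (sy q) := nv_mul _
  rw [h V hV, hv_nsmul, pow_mul, ← mul_pow, h3, h2, h2, h2, h2]
  congr 1
  simp only [cub, hv_neg, hv_add, hv_sub, hv_single, zpow_one, add_neg_cancel_right,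
    neg_add_cancel_right, add_neg_cancel, neg_add_cancel, h1]
  rw [show -p + -q = -(p + q) by abel, show -p + q = -(p - q) by abel, ← sub_eq_add_neg p q]
  have := nv_nc_ne V p
  have := nv_nc_ne V q
  have := nv_nc_ne V (-p)
  have := nv_nc_ne V (-q)
  field_simp

theorem vphi2_le {σ : Plc k Ω Ω'} {c : (ι × ι) × ι × ι} (hc : ww p q c ≠ 0)
    (hσ : ∀ c', ww p q c' / ww p q c ∈ σ.V) (c' : (ι × ι) × ι × ι) :
    ww p q c' / ww p q c ∈ LR σ p q := by
  have m : ∀ {x : A.Pt Ω}, RP σ (LR σ p q) x → ∀ a, un σ x a ∈ LR σ p q := fun hx a =>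
    (loc_lr (σ := σ) (p := p) (q := q)).le (hx.un_mem lr_le a)
  set μ := ww p q ((idx (red σ p), idx (red σ (-p))), idx (red σ q), idx (red σ (-q))) with hμ
  have m' : ∀ d, ww p q d / μ ∈ LR σ p q := fun d => by
    have h1 := mul_mem (mul_mem (m rp_lr.1 d.1.1) (m (rp_lr.1.neg lr_le) d.1.2))
      (mul_mem (m rp_lr.2 d.2.1) (m (rp_lr.2.neg lr_le) d.2.2))
    simp only [un, div_mul_div_comm] at h1
    exact h1
  have h0 : μ ≠ 0 := mul_ne_zero (mul_ne_zero (un_spec σ p).1 (un_spec σ (-p)).1)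
    (mul_ne_zero (un_spec σ q).1 (un_spec σ (-q)).1)
  have h1 := σ.inv_mem_loc lr_le (σ.le_loc _ (m' c))
    (σ.ne_zero (lr_le (m' c)) (div_ne_zero hc h0) (by rw [inv_div]; exact hσ _))
  have h2 := mul_mem (m' c') (loc_lr.le h1)
  rwa [inv_div, div_mul_div_cancel₀ h0] at h2

theorem vphi2_rp {σ : Plc k Ω Ω'} {S : Subalgebra k Ω} {x : A.Pt Ω} {u w : Ω} {a₀ : ι}
    (hw : w ≠ 0) (e : w = nc x a₀ * u) (h : ∀ a, nc x a * u / w ∈ S) : RP σ S x := by
  refine ⟨fun a => u / w * nc x a,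
    (rep_nc x).smul (div_ne_zero (right_ne_zero_of_mul (e ▸ hw)) hw), fun a => ?_, a₀, ?_⟩
  · beta_reduce
    rw [div_mul_eq_mul_div, mul_comm]
    exact h a
  · beta_reduce
    rw [div_mul_eq_mul_div, mul_comm, ← e, div_self hw, σ.one]
    exact one_ne_zero

/-- Let `B` be the algebra and `s' = s / ww c ^ N`, integral over `B` (`isIntegral_of_val`). If the
ideal of the `b ∈ B` with `b * s' ∈ B` is proper, take a point on it (`exists_point'`) and a place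
`σ` over it (`chevalley`). The points `p`, `-p`, `q`, `-q` have coordinates in `B` with one entry
one, so `LR σ p q ≤ σ.loc B` (`lr_le_loc`); and `B ≤ LR σ p q` since `p`, `-p`, `q`, `-q` are `RP`
for the local ring (`rp_lr`, `RP.neg`, `RP.un_mem`, `loc_lr`). Then `normal`. -/
theorem chart_mem (h : Spz p q) {s : Ω} (hs : s ∈ Lam p q) {N : ℕ}
    (h1 : ∀ V : ValuationSubring Ω, Cont k V → V.valuation s ≤ nv V (ww p q) ^ N)
    (c : (ι × ι) × ι × ι) (hc : ww p q c ≠ 0) :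
    s / ww p q c ^ N ∈ Algebra.adjoin k (Set.range fun c' => ww p q c' / ww p q c) := by
  set B := Algebra.adjoin k (Set.range fun c' => ww p q c' / ww p q c) with hB
  have hg : ∀ c', ww p q c' / ww p q c ∈ B := fun c' => Algebra.subset_adjoin ⟨c', rfl⟩
  have : Algebra.FiniteType k B := .adjoin_of_finite (Set.finite_range _)
  let I : Ideal B :=
    { carrier := {b | (b : Ω) * (s / ww p q c ^ N) ∈ B}
      add_mem' := fun {a b} ha hb => by simpa [add_mul] using add_mem ha hb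
      zero_mem' := by simp
      smul_mem' := fun a b hb => by simpa [mul_assoc] using mul_mem a.2 hb }
  by_contra hn
  obtain ⟨φ, hφ⟩ := exists_point' (K := k) (I := I) fun e =>
    hn (by simpa [I] using (Ideal.eq_top_iff_one I).1 e)
  obtain ⟨σ, hσ⟩ := chevalley B.val φ fun r hr => by rw [show r = 0 from Subtype.ext hr, map_zero]
  have hS : B ≤ σ.sub := fun r hr => (hσ ⟨r, hr⟩).1
  have hp : RP σ B p := vphi2_rp hc (mul_assoc _ _ _) fun a => by
    rw [← mul_assoc]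
    exact hg ((a, c.1.2), c.2)
  have hq : RP σ B q := vphi2_rp (u := sy p c.1 * nc (-q) c.2.2) (a₀ := c.2.1) hc
    (mul_left_comm _ _ _) fun a => by
      rw [mul_left_comm]
      exact hg (c.1, a, c.2.2)
  have hL : s / ww p q c ^ N ∈ Lam p q := div_mem hs (pow_mem (mul_mem
    (sy_mem base_mem_lam (fun a => (nc_mem_lam a).1) _)
    (sy_mem base_mem_lam (fun a => (nc_mem_lam a).2) _)) N)
  have hi : IsIntegral (LR σ p q) (s / ww p q c ^ N) := isIntegral_of_val' fun V hV => by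
    have h0 : 0 < V.valuation (ww p q c) := zero_lt_iff.2 ((map_ne_zero _).2 hc)
    rw [← V.valuation_le_one_iff, map_div₀, map_pow, div_le_one₀ (pow_pos h0 N)]
    refine (h1 V fun a => hV ⟨_, (LR σ p q).algebraMap_mem a⟩).trans
      (pow_le_pow_left' (nv_le_iff.2 fun c' => ?_) N)
    rw [← div_le_one₀ h0, ← map_div₀, V.valuation_le_one_iff]
    exact hV ⟨_, vphi2_le hc (fun d => hS (hg d)) c'⟩
  obtain ⟨g, hg', t, ht, -, h2, h3⟩ := lr_le_loc hS hp hq (normal h σ hL hi)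
  refine h2 ((hσ ⟨t, ht⟩).2.trans (hφ _ ?_))
  change t * _ ∈ B
  rwa [mul_comm, h3]

theorem vphi3_prod {M : Submodule k Ω} {m : ℕ} {x : Fin m → Ω} (h : ∀ j, x j ∈ M) :
    ∏ j, x j ∈ M ^ m := by
  induction m with
  | zero => exact Submodule.one_le.1 (pow_zero M).ge
  | succ m ih =>
    rw [Fin.prod_univ_succ, pow_succ']
    exact Submodule.mul_mem_mul (h 0) (ih fun j => h j.succ)

theorem vphi3_split (m n : ℕ) (r : A.Pt Ω) (γ : Fin (m * n) → ι × ι) :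
    mon (m * n) r γ = ∏ j, mon n r fun i => γ (finProdFinEquiv (j, i)) := by
  rw [mon, ← finProdFinEquiv.prod_comp, Fintype.prod_prod_type]
  rfl

theorem vphi3_nv (V : ValuationSubring Ω) (n : ℕ) (r : A.Pt Ω) :
    nv V (mon n r) = nv V (sy r) ^ n := nv_prod n

/-- `exists_f`; the elements `mon n (p + q) γ * mon n (p - q) δ / f`; `chart_mem`, `ser`, `prd`,
`bih_of_mem` with `N = m * n` (`finProdFinEquiv`, `Submodule.prod_mem_prod` or `pow` API). -/
theorem exists_phi (h : Spz p q) : ∃ (N : ℕ) (f : Ω)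
    (Φ : (Fin N → ι × ι) → (Fin N → ι × ι) →
      MvPolynomial ((Fin N → ι × ι) ⊕ (Fin N → ι × ι)) k), 0 < N ∧ f ≠ 0 ∧
    (∀ γ δ, (Φ γ δ).IsWeightedHomogeneous (bw _ _) (2, 2)) ∧
    (∀ γ δ, mon N (p + q) γ * mon N (p - q) δ =
      f * aeval (Sum.elim (mon N p) (mon N q)) (Φ γ δ)) ∧
    ∀ V : ValuationSubring Ω, Cont k V → V.valuation f * (nv V (mon N p) * nv V (mon N q)) ^ 2 =
      nv V (mon N (p + q)) * nv V (mon N (p - q)) := by
  obtain ⟨n, hn, f, hf, f0, hV⟩ := exists_f p q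
  have hm : ∀ r : A.Pt Ω, (∀ a, nc r a ∈ Lam p q) → ∀ γ, mon n r γ ∈ Lam p q := fun r hr γ =>
    prod_mem fun i _ => sy_mem base_mem_lam hr _
  have hp := fun a => (nc_mem_lam (p := p) (q := q) a).1
  have hq := fun a => (nc_mem_lam (p := p) (q := q) a).2
  obtain ⟨m, m0, hle⟩ := prd (k := k) (ww p q) ⟨((idx p, idx (-p)), idx q, idx (-q)), by
      rw [ww, sy_idx, sy_idx, one_mul]
      exact one_ne_zero⟩
    (fun l : (Fin n → ι × ι) × (Fin n → ι × ι) => mon n (p + q) l.1 * mon n (p - q) l.2 / f)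
    (Nat.mul_pos two_pos hn) fun l => ser _ (chart_mem h (div_mem (mul_mem
      (hm _ (nc_add_mem base_mem_lam hp hq) _) (hm _ (nc_sub_mem base_mem_lam hp hq) _)) hf)
        fun V hk => by
          rw [map_div₀, map_mul, div_le_iff₀ (zero_lt_iff.2 (by simpa using f0)),
            mul_comm _ (V.valuation f), hV V hk, mul_pow, ← vphi3_nv, ← vphi3_nv]
          exact mul_le_mul' (le_nv _) (le_nv _))
  rw [mul_left_comm] at hle
  choose Φ h1 h2 using fun γ δ : Fin (m * n) → ι × ι => bih_of_mem (sy p) (sy q) (m * n)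
    (hle (vphi3_prod fun j => Submodule.subset_span ⟨(fun i => γ (finProdFinEquiv (j, i)),
      fun i => δ (finProdFinEquiv (j, i))), rfl⟩))
  refine ⟨m * n, f ^ m, Φ, Nat.mul_pos m0 hn, pow_ne_zero _ f0, h1, fun γ δ => ?_, fun V hk => ?_⟩
  · refine Eq.trans ?_ (congrArg (f ^ m * ·) (h2 γ δ)).symm
    rw [vphi3_split, vphi3_split, Finset.prod_div_distrib, Finset.prod_mul_distrib,
      Fin.prod_const, mul_div_cancel₀ _ (pow_ne_zero _ f0)]
  · have h3 := congrArg (· ^ m) (hV V hk)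
    rw [show nv V (ww p q) = nv V (sy p) * nv V (sy q) from nv_mul _] at h3
    simp only [vphi3_nv, map_pow, mul_pow, ← pow_mul] at h3 ⊢
    rw [mul_comm m n, mul_comm _ 2, ← mul_assoc 2, h3]

variable (A) in
/-- `exists_spz`, `exists_phi`; reduce at a place with `(p, q) ↦ (a, b)` (`mon_red`,
`aeval_mul_of_bih`, `Plc.aeval_mem`). -/
theorem exists_sq : ∃ (N : ℕ) (Φ : (Fin N → ι × ι) → (Fin N → ι × ι) →
      MvPolynomial ((Fin N → ι × ι) ⊕ (Fin N → ι × ι)) k), 0 < N ∧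
    (∀ γ δ, (Φ γ δ).IsWeightedHomogeneous (bw _ _) (2, 2)) ∧ ∀ a b : A.Pt k, ∃ c : k, c ≠ 0 ∧
      ∀ γ δ, eval (Sum.elim (mon N a) (mon N b)) (Φ γ δ) =
        c * (mon N (a + b) γ * mon N (a - b) δ) := by
  obtain ⟨Ω, _, _, _, p, q, h⟩ := exists_spz A
  obtain ⟨N, f, Φ, hN, hf, h1, h2, h3⟩ := exists_phi h
  refine ⟨N, Φ, hN, h1, fun a b => ?_⟩
  obtain ⟨σ, rfl, rfl⟩ := h k a b
  obtain ⟨μ₁, a1, b1, c1⟩ := mon_red σ N p
  obtain ⟨μ₂, a2, b2, c2⟩ := mon_red σ N q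
  obtain ⟨μ₃, a3, b3, c3⟩ := mon_red σ N (p + q)
  obtain ⟨μ₄, a4, b4, c4⟩ := mon_red σ N (p - q)
  have h4 := h3 σ.V fun c => (σ.alg c).1
  have h5 : σ.V.valuation (f * (μ₁ * μ₂) ^ 2 / (μ₃ * μ₄)) = 1 := by
    rw [map_div₀, map_mul, map_pow, map_mul, map_mul, ← b1, ← b2, h4, b3, b4, div_self]
    simp [a3, a4]
  have h6 := (σ.V.valuation_le_one_iff _).1 h5.le
  have h7 := (σ.val_eq_one h6).1 h5
  refine ⟨_, inv_ne_zero h7, fun γ δ => ?_⟩
  obtain ⟨h8, h9⟩ := σ.aeval_mem (x := Sum.elim (fun γ => mon N p γ / μ₁) fun γ => mon N q γ / μ₂)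
    (by rintro (γ | γ); exacts [(c1 γ).1, (c2 γ).1]) (Φ γ δ)
  have e1 : (fun a => σ.π (Sum.elim (fun γ => mon N p γ / μ₁) (fun γ => mon N q γ / μ₂) a)) =
      Sum.elim (mon N (red σ p)) (mon N (red σ q)) := by
    funext a
    rcases a with γ | γ
    exacts [(c1 γ).2, (c2 γ).2]
  have e2 : mon N (p + q) γ / μ₃ * (mon N (p - q) δ / μ₄) = f * (μ₁ * μ₂) ^ 2 / (μ₃ * μ₄) *
      aeval (Sum.elim (fun γ => mon N p γ / μ₁) fun γ => mon N q γ / μ₂) (Φ γ δ) := by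
    simp only [div_eq_inv_mul _ μ₁, div_eq_inv_mul _ μ₂]
    rw [aeval_mul_of_bih (h1 γ δ), div_mul_div_comm, h2]
    field_simp
  have e3 := congrArg σ.π e2
  rw [σ.mul _ (c3 γ).1 _ (c4 δ).1, σ.mul _ h6 _ h8, (c3 γ).2, (c4 δ).2, h9, e1, map_add,
    map_sub] at e3
  rw [e3, inv_mul_cancel_left₀ h7]
  rfl

end GA

end

end Pool.Agent.Lib.MP_651af7_nt.Cu
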